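import Pool.Agent.Lib.PJ.Lin

set_option autoImplicit false

/-!
# The choice of the direction of the slice (step 6a)

PROOF. `A`, `A'` are invertible real endomorphisms of `ℂ³`. Let `N = A'⁻¹ A` and `la x = (N x) 0`, a real linear map `ℂ³ → ℂ`, onto (because `N` is onto). Write `la x = ∑ k, a k * x k + b k * conj (x k)` (`a k = (la e_k - I la (I e_k)) / 2`, `b k = (la e_k + I la (I e_k)) / 2`). `N (cp 0 ζ₀) = w ∈ P0`, so `la (cp 0 ζ₀) = 0`;
`A' (I • w) = I • A' w = I • A (cp 0 ζ₀) = A (I • cp 0 ζ₀)`, so `N (I • cp 0 ζ₀) = I • w ∈ P0`, `la (I • cp 0 ζ₀) = 0`. Hence `a 1 + a 2 ζ₀ = 0` and `b 1 + b 2 conj ζ₀ = 0` (sum and difference of `la z` and `la (I z)`).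
For `t : ℂ` put `u = ![1, 0, t]`, `L (η, v) = A (η • u) - A' v` on `ℂ × P0`. `L (η, v) = 0` means `N (η • u) = v ∈ P0`, i.e. `la (η • u) = 0` and `v = N (η • u)`; so `L` is injective iff `la (η • u) = (a 0 + a 2 t) η + (b 0 + b 2 conj t) conj η = 0` implies `η = 0`, which is true if
`‖a 0 + a 2 t‖ ≠ ‖b 0 + b 2 conj t‖`. CLAIM: this holds for one of `t = 0, 1, -1, I, -I`. Otherwise `t = 0`: `‖a 0‖ = ‖b 0‖`; sum over `t = 1, -1`: `‖a 2‖ = ‖b 2‖`; differences: `Re (conj (a 0) a 2) = Re (conj (b 0) b 2)` (`t = ±1`), `Re (I conj (a 0) a 2) = Re (-I conj (b 0) b 2)` (`t = ±I`), i.e. `conj (a 0) a 2 = b 0 conj (b 2)`.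
So there is `κ` with `‖κ‖ = 1`, `b 0 = κ conj (a 0)`, `b 2 = κ conj (a 2)` (if `a 0 ≠ 0` take `κ = b 0 / conj (a 0)`: `b 0 conj (b 2) = conj (a 0) a 2` gives `κ conj (b 2) = a 2`, `b 2 = κ conj (a 2)`; if `a 0 = 0` then `b 0 = 0`, `κ = b 2 / conj (a 2)` or `1`), and `b 1 = -b 2 conj ζ₀ = κ conj (-a 2 ζ₀) = κ conj (a 1)`.
Then `la x = y + κ conj y` with `y = ∑ a k x k`, and with `κ = μ²`, `conj μ * la x = conj μ y + μ conj y` is real: `la` is not onto, a contradiction.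
For the good `t` (norm `≤ 1`): `L` is linear and injective on the finite-dimensional space `ℂ × P0`; the minimum `k > 0` of `‖L‖` on the unit sphere (`max ‖η‖ ‖v‖ = 1`) works by homogeneity (or `LinearMap.exists_antilipschitzWith`; it may be convenient to use `x ∈ W 2` instead of `(η, v)`: `η = x 0`, `v = ![0, x 1, x 2]`).
-/

open MeasureTheory Set Metric Filter
open scoped ContDiff Topology ENNReal

namespace Pool.Agent.Lib.PJ

open Pool.Agent.P28b04d Pool.Agent.Lib.P28e Pool.Agent.Lib.P28c Pool.Agent.Lib.P28g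
open Pool.Agent.Lib.P28f (ult)

open scoped ComplexConjugate

/-- A real linear map of `ℂ` to itself. -/
theorem exists_ab (l : ℂ →ₗ[ℝ] ℂ) : ∃ a b : ℂ, ∀ c : ℂ, l c = a * c + b * conj c := by
  refine ⟨(l 1 - Complex.I * l Complex.I) / 2, (l 1 + Complex.I * l Complex.I) / 2, fun c => ?_⟩
  have h1 : c = c.re • (1 : ℂ) + c.im • Complex.I := by
    rw [Complex.real_smul, Complex.real_smul, mul_one]
    exact (Complex.re_add_im c).symm
  have h2 : l c = (c.re : ℂ) * l 1 + (c.im : ℂ) * l Complex.I := by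
    conv_lhs => rw [h1]
    rw [map_add, map_smul, map_smul, Complex.real_smul, Complex.real_smul]
  have h3 : conj c = (c.re : ℂ) - c.im * Complex.I := by
    apply Complex.ext <;> simp
  have h4 : c = (c.re : ℂ) + c.im * Complex.I := (Complex.re_add_im c).symm
  rw [h2, h3]
  conv_rhs => rw [show (l 1 - Complex.I * l Complex.I) / 2 * c =
    (l 1 - Complex.I * l Complex.I) / 2 * ((c.re : ℂ) + c.im * Complex.I) by rw [← h4]]
  have h5 : Complex.I * Complex.I = -1 := Complex.I_mul_I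
  linear_combination ((c.im : ℂ) * l Complex.I) * h5

/-- The algebraic core: five values of `t`. -/
theorem five {a₀ a₂ b₀ b₂ : ℂ} (h : ∀ t : ℂ, (t = 0 ∨ t = 1 ∨ t = -1 ∨ t = Complex.I ∨ t = -Complex.I) →
    Complex.normSq (a₀ + a₂ * t) = Complex.normSq (b₀ + b₂ * conj t)) :
    ∃ κ : ℂ, κ * conj κ = 1 ∧ b₀ = κ * conj a₀ ∧ b₂ = κ * conj a₂ := by
  have h0 := h 0 (by simp)
  have h1 := h 1 (by simp)
  have h2 := h (-1) (by simp)
  have h3 := h Complex.I (by simp)
  have h4 := h (-Complex.I) (by simp)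
  simp only [Complex.normSq_apply, Complex.add_re, Complex.mul_re, Complex.add_im, Complex.mul_im,
    Complex.zero_re, Complex.zero_im, Complex.one_re, Complex.one_im, Complex.neg_re, Complex.neg_im,
    Complex.I_re, Complex.I_im, Complex.conj_re, Complex.conj_im] at h0 h1 h2 h3 h4
  ring_nf at h0 h1 h2 h3 h4
  have e0 : Complex.normSq a₀ = Complex.normSq b₀ := by
    simp only [Complex.normSq_apply]
    nlinarith
  have e2 : Complex.normSq a₂ = Complex.normSq b₂ := by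
    simp only [Complex.normSq_apply]
    nlinarith
  have e : conj a₀ * a₂ = b₀ * conj b₂ := by
    apply Complex.ext
    · simp only [Complex.mul_re, Complex.conj_re, Complex.conj_im]
      nlinarith
    · simp only [Complex.mul_im, Complex.conj_re, Complex.conj_im]
      nlinarith
  by_cases ha : a₀ = 0
  · have hb : b₀ = 0 := by
      rw [ha, map_zero] at e0
      exact Complex.normSq_eq_zero.1 e0.symm
    by_cases ha2 : a₂ = 0
    · have hb2 : b₂ = 0 := by
        rw [ha2, map_zero] at e2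
        exact Complex.normSq_eq_zero.1 e2.symm
      exact ⟨1, by simp, by simp [ha, hb], by simp [ha2, hb2]⟩
    · have hca : conj a₂ ≠ 0 := by simpa using ha2
      refine ⟨b₂ / conj a₂, ?_, by simp [ha, hb], by field_simp⟩
      rw [map_div₀, Complex.conj_conj, div_mul_div_comm, Complex.mul_conj, mul_comm (conj a₂) a₂,
        Complex.mul_conj, ← e2, div_self]
      exact_mod_cast (Complex.normSq_pos.2 ha2).ne'
  · have hca : conj a₀ ≠ 0 := by simpa using ha
    have hb0 : b₀ ≠ 0 := by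
      intro hb
      rw [hb, map_zero] at e0
      exact ha (Complex.normSq_eq_zero.1 e0)
    have hκ : b₀ / conj a₀ * conj (b₀ / conj a₀) = 1 := by
      rw [map_div₀, Complex.conj_conj, div_mul_div_comm, Complex.mul_conj, mul_comm (conj a₀) a₀,
        Complex.mul_conj, ← e0, div_self]
      exact_mod_cast (Complex.normSq_pos.2 ha).ne'
    refine ⟨b₀ / conj a₀, hκ, by field_simp, ?_⟩
    have f1 : a₂ = b₀ / conj a₀ * conj b₂ := by
      field_simp
      linear_combination e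
    have f2 : conj a₂ = conj (b₀ / conj a₀) * b₂ := by
      conv_lhs => rw [f1]
      rw [map_mul, Complex.conj_conj]
    rw [f2, ← mul_assoc, hκ, one_mul]

theorem exists_t {A A' : EndW 2} (hA : IsUnit A) (hA' : IsUnit A') {ζ₀ : ℂ} {w : W 2} (hw : w ∈ P0)
    (h1 : A (cp 0 ζ₀) = A' w) (h2 : A (Complex.I • cp 0 ζ₀) = Complex.I • A (cp 0 ζ₀))
    (h3 : A' (Complex.I • w) = Complex.I • A' w) :
    ∃ (t : ℂ) (k : ℝ), ‖t‖ ≤ 1 ∧ 0 < k ∧ ∀ x : W 2,
      k * ‖x‖ ≤ ‖A (x 0 • ![1, 0, t]) - A' ![0, x 1, x 2]‖ := by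
  obtain ⟨a, ha⟩ := hA
  obtain ⟨a', ha'⟩ := hA'
  have inv1 : ∀ x, ((a'⁻¹ : (EndW 2)ˣ) : EndW 2) (A' x) = x := fun x => by
    rw [← ha']
    show (((a'⁻¹ : (EndW 2)ˣ) : EndW 2) * (a' : EndW 2)) x = x
    rw [Units.inv_mul]
    rfl
  have inv2 : ∀ x, A' (((a'⁻¹ : (EndW 2)ˣ) : EndW 2) x) = x := fun x => by
    rw [← ha']
    show ((a' : EndW 2) * ((a'⁻¹ : (EndW 2)ˣ) : EndW 2)) x = x
    rw [Units.mul_inv]
    rfl
  have inv3 : ∀ x, A (((a⁻¹ : (EndW 2)ˣ) : EndW 2) x) = x := fun x => by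
    rw [← ha]
    show ((a : EndW 2) * ((a⁻¹ : (EndW 2)ˣ) : EndW 2)) x = x
    rw [Units.mul_inv]
    rfl
  -- `N = A'⁻¹ A`
  let N : EndW 2 := ((a'⁻¹ : (EndW 2)ˣ) : EndW 2) * A
  have hN : ∀ x, N x = ((a'⁻¹ : (EndW 2)ˣ) : EndW 2) (A x) := fun _ => rfl
  have hN1 : N (cp 0 ζ₀) = w := by rw [hN, h1, inv1]
  have hN2 : N (Complex.I • cp 0 ζ₀) = Complex.I • w := by
    rw [hN, h2, h1, ← h3, inv1]
  -- the coordinate functions
  have hl : ∀ e : W 2, ∃ a b : ℂ, ∀ c : ℂ, N (c • e) 0 = a * c + b * conj c := by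
    intro e
    obtain ⟨a, b, hab⟩ := exists_ab
      { toFun := fun c => N (c • e) 0
        map_add' := fun x y => by rw [add_smul, map_add, Pi.add_apply]
        map_smul' := fun r x => by
          rw [RingHom.id_apply, smul_assoc, map_smul, Pi.smul_apply] }
    exact ⟨a, b, hab⟩
  obtain ⟨a₀, b₀, hab₀⟩ := hl ![1, 0, 0]
  obtain ⟨a₁, b₁, hab₁⟩ := hl ![0, 1, 0]
  obtain ⟨a₂, b₂, hab₂⟩ := hl ![0, 0, 1]
  have hdec : ∀ x : W 2, x = x 0 • (![1, 0, 0] : W 2) + x 1 • (![0, 1, 0] : W 2) + x 2 • (![0, 0, 1] : W 2) := by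
    intro x
    ext k
    fin_cases k <;> simp
  have hla : ∀ x : W 2, N x 0 = (a₀ * x 0 + b₀ * conj (x 0)) + (a₁ * x 1 + b₁ * conj (x 1)) +
      (a₂ * x 2 + b₂ * conj (x 2)) := by
    intro x
    conv_lhs => rw [hdec x]
    rw [map_add, map_add, Pi.add_apply, Pi.add_apply, hab₀, hab₁, hab₂]
  -- the two relations
  have hw0 : w 0 = 0 := hw
  have r1 := hla (cp 0 ζ₀)
  rw [hN1, hw0] at r1
  have r2 := hla (Complex.I • cp 0 ζ₀)
  rw [hN2, Pi.smul_apply, hw0, smul_zero] at r2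
  simp only [cp, Matrix.cons_val_zero, Matrix.cons_val_one, Matrix.cons_val, map_zero, mul_zero,
    add_zero, zero_add, map_one, mul_one, Pi.smul_apply, smul_eq_mul, map_mul, Complex.conj_I] at r1 r2
  have s1 : a₁ = -(a₂ * ζ₀) := by
    have hI : Complex.I * Complex.I = -1 := Complex.I_mul_I
    have : 2 * (a₁ + a₂ * ζ₀) = 0 := by
      linear_combination -r1 + Complex.I * r2 + ((a₁ + a₂ * ζ₀) - (b₁ + b₂ * conj ζ₀)) * hI
    have h2 : a₁ + a₂ * ζ₀ = 0 := by
      simpa using this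
    linear_combination h2
  have s2 : b₁ = -(b₂ * conj ζ₀) := by
    have : b₁ + b₂ * conj ζ₀ = 0 := by
      rw [s1] at r1
      linear_combination -r1
    linear_combination this
  -- the choice of `t`
  have hex : ∃ t : ℂ, ‖t‖ ≤ 1 ∧ Complex.normSq (a₀ + a₂ * t) ≠ Complex.normSq (b₀ + b₂ * conj t) := by
    by_contra hcon
    push Not at hcon
    obtain ⟨κ, hκ, k0, k2⟩ := five (a₀ := a₀) (a₂ := a₂) (b₀ := b₀) (b₂ := b₂) (fun t ht => by
      apply hcon
      rcases ht with rfl | rfl | rfl | rfl | rfl <;> simp)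
    have k1 : b₁ = κ * conj a₁ := by
      rw [s2, s1, k2, map_neg, map_mul]
      ring
    have hsym : ∀ x : W 2, N x 0 = κ * conj (N x 0) := by
      intro x
      rw [hla x, k0, k1, k2]
      simp only [map_add, map_mul, Complex.conj_conj]
      linear_combination (-(a₀ * x 0) - a₁ * x 1 - a₂ * x 2) * hκ
    have hsurj : ∀ c : ℂ, ∃ x : W 2, N x 0 = c := by
      intro c
      refine ⟨((a⁻¹ : (EndW 2)ˣ) : EndW 2) (A' ![c, 0, 0]), ?_⟩
      rw [hN, inv3, inv1]
      rfl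
    obtain ⟨x, hx⟩ := hsurj 1
    obtain ⟨y, hy⟩ := hsurj Complex.I
    have c1 := hsym x
    have c2 := hsym y
    rw [hx, map_one, mul_one] at c1
    rw [hy, ← c1, one_mul, Complex.conj_I] at c2
    have := congrArg Complex.im c2
    simp only [Complex.I_im, Complex.neg_im] at this
    norm_num at this
  obtain ⟨t, ht, hne⟩ := hex
  -- the linear map
  let p₁ : W 2 →L[ℝ] W 2 := LinearMap.toContinuousLinearMap
    { toFun := fun x => x 0 • (![1, 0, t] : W 2)
      map_add' := fun x y => by simp only [Pi.add_apply, add_smul]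
      map_smul' := fun c x => by simp only [Pi.smul_apply, RingHom.id_apply, smul_assoc] }
  let p₂ : W 2 →L[ℝ] W 2 := LinearMap.toContinuousLinearMap
    { toFun := fun x => (![0, x 1, x 2] : W 2)
      map_add' := fun x y => by
        ext k
        fin_cases k <;> simp
      map_smul' := fun c x => by
        ext k
        fin_cases k <;> simp }
  let L₀ : W 2 →L[ℝ] W 2 := A.comp p₁ - A'.comp p₂
  have hL₀ : ∀ x, L₀ x = A (x 0 • ![1, 0, t]) - A' ![0, x 1, x 2] := fun _ => rfl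
  have hinj : ∀ x, L₀ x = 0 → x = 0 := by
    intro x hx
    rw [hL₀, sub_eq_zero] at hx
    have e1 : N (x 0 • ![1, 0, t]) = ![0, x 1, x 2] := by rw [hN, hx, inv1]
    have e2 := hla (x 0 • ![1, 0, t])
    rw [e1] at e2
    simp only [Matrix.cons_val_zero, Matrix.cons_val_one, Matrix.cons_val, Pi.smul_apply, smul_eq_mul,
      mul_one, mul_zero, map_zero, add_zero, map_mul] at e2
    have e3 : (a₀ + a₂ * t) * x 0 = -((b₀ + b₂ * conj t) * conj (x 0)) := by
      linear_combination -e2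
    have e4 := congrArg Complex.normSq e3
    rw [Complex.normSq_neg, map_mul, map_mul, Complex.normSq_conj] at e4
    have e5 : Complex.normSq (x 0) = 0 := by
      by_contra h0
      exact hne (mul_right_cancel₀ h0 e4)
    have e6 : x 0 = 0 := Complex.normSq_eq_zero.1 e5
    rw [e6, zero_smul, map_zero] at hx
    have e7 : (![0, x 1, x 2] : W 2) = 0 := by
      rw [← inv1 ![0, x 1, x 2], ← hx, map_zero]
    ext k
    fin_cases k
    · exact e6
    · exact congrFun e7 1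
    · exact congrFun e7 2
  obtain ⟨D, hD⟩ := exists_equiv L₀ hinj
  refine ⟨t, (‖(D.symm : W 2 →L[ℝ] W 2)‖ + 1)⁻¹, ht, by positivity, fun x => ?_⟩
  rw [← hL₀, ← hD]
  have h4 : ‖x‖ ≤ (‖(D.symm : W 2 →L[ℝ] W 2)‖ + 1) * ‖D x‖ := by
    calc ‖x‖ = ‖D.symm (D x)‖ := by rw [D.symm_apply_apply]
      _ ≤ ‖(D.symm : W 2 →L[ℝ] W 2)‖ * ‖D x‖ := (D.symm : W 2 →L[ℝ] W 2).le_opNorm (D x)
      _ ≤ _ := by gcongr; linarith
  rw [inv_mul_le_iff₀ (by positivity)]
  exact h4

end Pool.Agent.Lib.PJ
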