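import Pool.Agent.Lib.PJ.Defs

set_option autoImplicit false

/-!
# Linear changes of coordinates, the two charts of `P0`, limits along the ultrafilter
-/

open MeasureTheory Set Metric Filter
open scoped ContDiff Topology ENNReal

namespace Pool.Agent.Lib.PJ

open Pool.Agent.P28b04d Pool.Agent.Lib.P28e Pool.Agent.Lib.P28c Pool.Agent.Lib.P28g
open Pool.Agent.Lib.P28f (ult)

theorem cp_ne (x ζ : ℂ) : cp x ζ ≠ 0 := by
  intro h
  have := congrFun h 1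
  simp [cp] at this

theorem cp_mem (ζ : ℂ) : cp 0 ζ ∈ P0 := rfl

theorem cp_eq (η ζ t : ℂ) : cp η (ζ + t * η) = cp 0 ζ + η • (![1, 0, t] : W 2) := by
  ext k
  fin_cases k <;> simp [cp, mul_comm]

theorem norm_cp_zero {ζ : ℂ} (h : ‖ζ‖ ≤ 1) : ‖cp 0 ζ‖ = 1 := by
  apply le_antisymm
  · rw [pi_norm_le_iff_of_nonneg zero_le_one]
    intro k
    fin_cases k <;> simp [cp, h]
  · have := norm_le_pi_norm (cp 0 ζ) 1
    simpa [cp] using this

theorem continuous_cp : Continuous fun q : ℂ × ℂ => cp q.1 q.2 := by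
  unfold cp
  fun_prop

theorem sw_sw (z : W 2) : sw (sw z) = z := by
  ext k
  fin_cases k <;> rfl

theorem swE_apply (z : W 2) : swE z = sw z := rfl

theorem shE_apply (b₁ b₂ : ℂ) (z : W 2) : shE b₁ b₂ z = sh b₁ b₂ z := rfl

theorem norm_sw (z : W 2) : ‖sw z‖ = ‖z‖ := by
  have h : ∀ z : W 2, ‖sw z‖ ≤ ‖z‖ := fun z => by
    rw [pi_norm_le_iff_of_nonneg (norm_nonneg _)]
    intro k
    fin_cases k
    · exact norm_le_pi_norm z 0
    · exact norm_le_pi_norm z 2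
    · exact norm_le_pi_norm z 1
  apply le_antisymm (h z)
  have := h (sw z)
  rwa [sw_sw] at this

theorem sw_ne {z : W 2} (h : z ≠ 0) : sw z ≠ 0 := by
  rw [← norm_pos_iff, norm_sw]
  exact norm_pos_iff.2 h

theorem sw_mem {z : W 2} (h : z ∈ P0) : sw z ∈ P0 := h

theorem sw_smul (c : ℂ) (z : W 2) : sw (c • z) = c • sw z := by
  ext k
  fin_cases k <;> rfl

theorem sh_cp (b₁ b₂ x ζ : ℂ) : sh b₁ b₂ (cp x ζ) = cp (x + b₁ + b₂ * ζ) ζ := by
  ext k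
  fin_cases k <;> simp [sh, cp]

theorem sh_sw_cp (b₁ b₂ x ζ : ℂ) : sh b₁ b₂ (sw (cp x ζ)) = sw (cp (x + b₂ + b₁ * ζ) ζ) := by
  ext k
  fin_cases k
  · simp [sh, cp, sw]
    ring
  · simp [sh, cp, sw]
  · simp [sh, cp, sw]

/-- The composition with a complex linear automorphism on the right. -/
theorem conn_right {Φ : W 2 → W 2} (h : HLoc Φ) (T : W 2 ≃L[ℝ] W 2)
    (hT : ∀ (c : ℂ) (x : W 2), T (c • x) = c • T x) {z : W 2} (hz : z ≠ 0) (v : W 2) :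
    conn (fun x => Φ (T x)) z v =
      ((T.symm : W 2 →L[ℝ] W 2) : EndW 2) * conn Φ (T z) (T v) * ((T : W 2 →L[ℝ] W 2) : EndW 2) := by
  have hTz : T z ≠ 0 := by
    intro h0
    apply hz
    rw [← T.map_zero] at h0
    exact T.injective h0
  have hd : (fderiv ℝ (fun x => Φ (T x))) =ᶠ[𝓝 z]
      fun x => (fderiv ℝ Φ (T x) : EndW 2) * ((T : W 2 →L[ℝ] W 2) : EndW 2) := by
    filter_upwards [isOpen_compl_singleton.mem_nhds hz] with x hx
    exact fderiv_right h T hx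
  have h2 : HasFDerivAt (fun x => (fderiv ℝ Φ (T x) : EndW 2) * ((T : W 2 →L[ℝ] W 2) : EndW 2))
      (((ContinuousLinearMap.compL ℝ (W 2) (W 2) (W 2)).flip (T : W 2 →L[ℝ] W 2)).comp
        ((fderiv ℝ (fderiv ℝ Φ) (T z)).comp (T : W 2 →L[ℝ] W 2))) z := by
    have h3 : HasFDerivAt (fun x => (fderiv ℝ Φ (T x) : EndW 2))
        ((fderiv ℝ (fderiv ℝ Φ) (T z)).comp (T : W 2 →L[ℝ] W 2)) z :=
      (Hom46.hasFDerivAt_fderiv h hTz).comp z T.hasFDerivAt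
    exact ((ContinuousLinearMap.compL ℝ (W 2) (W 2) (W 2)).flip
      (T : W 2 →L[ℝ] W 2)).hasFDerivAt.comp z h3
  have h4 : fderiv ℝ (fderiv ℝ fun x => Φ (T x)) z v =
      fderiv ℝ (fderiv ℝ Φ) (T z) (T v) * ((T : W 2 →L[ℝ] W 2) : EndW 2) := by
    rw [hd.fderiv_eq, h2.fderiv]
    rfl
  have hTT : ((T.symm : W 2 →L[ℝ] W 2) : EndW 2) * ((T : W 2 →L[ℝ] W 2) : EndW 2) = 1 := by
    ext1 x
    show T.symm (T x) = x
    exact T.symm_apply_apply x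
  have hTT' : ((T : W 2 →L[ℝ] W 2) : EndW 2) * ((T.symm : W 2 →L[ℝ] W 2) : EndW 2) = 1 := by
    ext1 x
    show T (T.symm x) = x
    exact T.apply_symm_apply x
  have hinv : Ring.inverse ((fderiv ℝ Φ (T z) : EndW 2) * ((T : W 2 →L[ℝ] W 2) : EndW 2)) =
      ((T.symm : W 2 →L[ℝ] W 2) : EndW 2) * Ring.inverse (fderiv ℝ Φ (T z) : EndW 2) := by
    obtain ⟨u, hu⟩ := isUnit_fderiv h hTz
    let w : (EndW 2)ˣ := ⟨((T : W 2 →L[ℝ] W 2) : EndW 2), ((T.symm : W 2 →L[ℝ] W 2) : EndW 2), hTT', hTT⟩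
    have e : (fderiv ℝ Φ (T z) : EndW 2) * ((T : W 2 →L[ℝ] W 2) : EndW 2) = ((u * w : (EndW 2)ˣ) : EndW 2) := by
      rw [Units.val_mul, hu]
    rw [e, Ring.inverse_unit, mul_inv_rev, Units.val_mul, ← hu, Ring.inverse_unit]
    rfl
  rw [conn_apply, conn_apply, h4, fderiv_right h T hz, hinv]
  simp only [mul_assoc]

theorem conn_left {Φ : W 2 → W 2} (h : HLoc Φ) (T : W 2 ≃L[ℝ] W 2)
    (hT : ∀ (c : ℂ) (x : W 2), T (c • x) = c • T x) {z : W 2} (hz : z ≠ 0) :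
    conn (fun x => T (Φ x)) z = conn Φ z := by
  have hd : (fderiv ℝ (fun x => T (Φ x))) =ᶠ[𝓝 z]
      fun x => ((T : W 2 →L[ℝ] W 2) : EndW 2) * (fderiv ℝ Φ x : EndW 2) := by
    filter_upwards [isOpen_compl_singleton.mem_nhds hz] with x hx
    exact fderiv_left h T hx
  have h2 : HasFDerivAt (fun x => ((T : W 2 →L[ℝ] W 2) : EndW 2) * (fderiv ℝ Φ x : EndW 2))
      ((ContinuousLinearMap.compL ℝ (W 2) (W 2) (W 2) (T : W 2 →L[ℝ] W 2)).comp
        (fderiv ℝ (fderiv ℝ Φ) z)) z :=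
    (ContinuousLinearMap.compL ℝ (W 2) (W 2) (W 2) (T : W 2 →L[ℝ] W 2)).hasFDerivAt.comp z
      (Hom46.hasFDerivAt_fderiv h hz)
  have hTT : ((T.symm : W 2 →L[ℝ] W 2) : EndW 2) * ((T : W 2 →L[ℝ] W 2) : EndW 2) = 1 := by
    ext1 x
    show T.symm (T x) = x
    exact T.symm_apply_apply x
  have hTT' : ((T : W 2 →L[ℝ] W 2) : EndW 2) * ((T.symm : W 2 →L[ℝ] W 2) : EndW 2) = 1 := by
    ext1 x
    show T (T.symm x) = x
    exact T.apply_symm_apply x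
  have hinv : Ring.inverse (((T : W 2 →L[ℝ] W 2) : EndW 2) * (fderiv ℝ Φ z : EndW 2)) =
      Ring.inverse (fderiv ℝ Φ z : EndW 2) * ((T.symm : W 2 →L[ℝ] W 2) : EndW 2) := by
    obtain ⟨u, hu⟩ := isUnit_fderiv h hz
    let w : (EndW 2)ˣ := ⟨((T : W 2 →L[ℝ] W 2) : EndW 2), ((T.symm : W 2 →L[ℝ] W 2) : EndW 2), hTT', hTT⟩
    have e : ((T : W 2 →L[ℝ] W 2) : EndW 2) * (fderiv ℝ Φ z : EndW 2) = ((w * u : (EndW 2)ˣ) : EndW 2) := by
      rw [Units.val_mul, hu]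
    rw [e, Ring.inverse_unit, mul_inv_rev, Units.val_mul, ← hu, Ring.inverse_unit]
    rfl
  ext1 v
  rw [conn_apply, conn_apply, fderiv_left h T hz, hinv, hd.fderiv_eq, h2.fderiv]
  show _ * (((T : W 2 →L[ℝ] W 2) : EndW 2) * fderiv ℝ (fderiv ℝ Φ) z v) = _
  calc Ring.inverse (fderiv ℝ Φ z : EndW 2) * ((T.symm : W 2 →L[ℝ] W 2) : EndW 2) *
        (((T : W 2 →L[ℝ] W 2) : EndW 2) * fderiv ℝ (fderiv ℝ Φ) z v)
      = Ring.inverse (fderiv ℝ Φ z : EndW 2) * ((((T.symm : W 2 →L[ℝ] W 2) : EndW 2) *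
        ((T : W 2 →L[ℝ] W 2) : EndW 2)) * fderiv ℝ (fderiv ℝ Φ) z v) := by
        simp only [mul_assoc]
    _ = _ := by rw [hTT, one_mul]

theorem norm_conn_right_le {Φ : W 2 → W 2} (h : HLoc Φ) (T : W 2 ≃L[ℝ] W 2)
    (hT : ∀ (c : ℂ) (x : W 2), T (c • x) = c • T x) {a b : ℝ} (ha : 0 ≤ a) (hb : 0 ≤ b)
    (hTa : ∀ x, ‖T x‖ ≤ a * ‖x‖) (hTb : ∀ x, ‖T.symm x‖ ≤ b * ‖x‖) {z : W 2} (hz : z ≠ 0) :
    ‖conn (fun x => Φ (T x)) z‖ ≤ a ^ 2 * b * ‖conn Φ (T z)‖ := by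
  refine ContinuousLinearMap.opNorm_le_bound _ (by positivity) fun v => ?_
  refine ContinuousLinearMap.opNorm_le_bound _ (by positivity) fun w => ?_
  rw [conn_right h T hT hz v]
  show ‖T.symm (conn Φ (T z) (T v) (T w))‖ ≤ _
  calc ‖T.symm (conn Φ (T z) (T v) (T w))‖ ≤ b * ‖conn Φ (T z) (T v) (T w)‖ := hTb _
    _ ≤ b * (‖conn Φ (T z)‖ * (a * ‖v‖) * (a * ‖w‖)) := by
        gcongr
        refine (ContinuousLinearMap.le_opNorm₂ _ _ _).trans ?_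
        gcongr
        · exact hTa v
        · exact hTa w
    _ = a ^ 2 * b * ‖conn Φ (T z)‖ * ‖v‖ * ‖w‖ := by ring

/-- The real form of `swE`. -/
theorem exists_sw : ∃ S : W 2 ≃L[ℝ] W 2, (∀ x, S x = sw x) ∧ (∀ x, S.symm x = sw x) ∧
    ∀ (c : ℂ) (x : W 2), S (c • x) = c • S x := by
  refine ⟨swE.toContinuousLinearEquiv.restrictScalars ℝ, fun _ => rfl, fun _ => rfl, fun c x => ?_⟩
  exact sw_smul c x

/-- The real form of `shE`. -/
theorem exists_sh (b₁ b₂ : ℂ) : ∃ S : W 2 ≃L[ℝ] W 2, (∀ x, S x = sh b₁ b₂ x) ∧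
    (∀ x, S.symm x = sh (-b₁) (-b₂) x) ∧ ∀ (c : ℂ) (x : W 2), S (c • x) = c • S x := by
  refine ⟨(shE b₁ b₂).toContinuousLinearEquiv.restrictScalars ℝ, fun _ => rfl, fun _ => rfl,
    fun c x => ?_⟩
  exact (shE b₁ b₂).map_smul c x

theorem norm_sh_le {b₁ b₂ : ℂ} (h1 : ‖b₁‖ ≤ 1) (h2 : ‖b₂‖ ≤ 1) (z : W 2) :
    ‖sh b₁ b₂ z‖ ≤ 3 * ‖z‖ := by
  rw [pi_norm_le_iff_of_nonneg (by positivity)]
  have h0 := norm_le_pi_norm z 0
  have h1' := norm_le_pi_norm z 1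
  have h2' := norm_le_pi_norm z 2
  have hn := norm_nonneg z
  intro k
  fin_cases k
  · show ‖z 0 + b₁ * z 1 + b₂ * z 2‖ ≤ _
    have e1 : ‖b₁ * z 1‖ ≤ ‖z‖ := by
      rw [norm_mul]
      calc ‖b₁‖ * ‖z 1‖ ≤ 1 * ‖z‖ := by gcongr
        _ = ‖z‖ := one_mul _
    have e2 : ‖b₂ * z 2‖ ≤ ‖z‖ := by
      rw [norm_mul]
      calc ‖b₂‖ * ‖z 2‖ ≤ 1 * ‖z‖ := by gcongr
        _ = ‖z‖ := one_mul _
    have e3 := norm_add_le (z 0 + b₁ * z 1) (b₂ * z 2)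
    have e4 := norm_add_le (z 0) (b₁ * z 1)
    linarith
  · show ‖z 1‖ ≤ _
    linarith
  · show ‖z 2‖ ≤ _
    linarith

theorem hloc_sw {Φ : W 2 → W 2} (h : HLoc Φ) : HLoc fun z => Φ (sw z) := by
  obtain ⟨S, hS, _, hc⟩ := exists_sw
  have := hloc_right h S hc
  simpa only [hS] using this

theorem hloc_sh {Φ : W 2 → W 2} (h : HLoc Φ) (b₁ b₂ : ℂ) : HLoc fun z => Φ (sh b₁ b₂ z) := by
  obtain ⟨S, hS, _, hc⟩ := exists_sh b₁ b₂
  have := hloc_right h S hc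
  simpa only [hS] using this

theorem fderiv_sw {Φ : W 2 → W 2} (h : HLoc Φ) {z : W 2} (hz : z ≠ 0) (v : W 2) :
    fderiv ℝ (fun x => Φ (sw x)) z v = fderiv ℝ Φ (sw z) (sw v) := by
  obtain ⟨S, hS, _, hc⟩ := exists_sw
  have := fderiv_right h S hz
  simp only [hS] at this
  rw [this]
  show fderiv ℝ Φ (sw z) (S v) = _
  rw [hS]

theorem norm_conn_sw {Φ : W 2 → W 2} (h : HLoc Φ) {z : W 2} (hz : z ≠ 0) :
    ‖conn (fun x => Φ (sw x)) z‖ = ‖conn Φ (sw z)‖ := by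
  obtain ⟨S, hS, hS', hc⟩ := exists_sw
  have key : ∀ {Φ : W 2 → W 2} (_ : HLoc Φ) {z : W 2} (_ : z ≠ 0),
      ‖conn (fun x => Φ (sw x)) z‖ ≤ ‖conn Φ (sw z)‖ := by
    intro Φ h z hz
    have := norm_conn_right_le h S hc (a := 1) (b := 1) zero_le_one zero_le_one
      (fun x => by rw [hS, norm_sw, one_mul]) (fun x => by rw [hS', norm_sw, one_mul]) hz
    simpa only [hS, one_pow, one_mul] using this
  apply le_antisymm (key h hz)
  have := key (hloc_sw h) (sw_ne hz)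
  simpa only [sw_sw] using this

theorem norm_conn_sh_le {Φ : W 2 → W 2} (h : HLoc Φ) {b₁ b₂ : ℂ} (h1 : ‖b₁‖ ≤ 1) (h2 : ‖b₂‖ ≤ 1)
    {z : W 2} (hz : z ≠ 0) :
    ‖conn (fun x => Φ (sh b₁ b₂ x)) z‖ ≤ 27 * ‖conn Φ (sh b₁ b₂ z)‖ := by
  obtain ⟨S, hS, hS', hc⟩ := exists_sh b₁ b₂
  have := norm_conn_right_le h S hc (a := 3) (b := 3) (by norm_num) (by norm_num)
    (fun x => by rw [hS]; exact norm_sh_le h1 h2 x)
    (fun x => by rw [hS']; exact norm_sh_le (by rwa [norm_neg]) (by rwa [norm_neg]) x) hz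
  simp only [hS] at this
  norm_num at this
  exact this

theorem exists_T (T : W 2 ≃ₗ[ℂ] W 2) : ∃ S : W 2 ≃L[ℝ] W 2, (∀ x, S x = T x) ∧
    (∀ x, S.symm x = T.symm x) ∧ ∀ (c : ℂ) (x : W 2), S (c • x) = c • S x := by
  refine ⟨T.toContinuousLinearEquiv.restrictScalars ℝ, fun _ => rfl, fun _ => rfl, fun c x => ?_⟩
  exact T.map_smul c x

theorem hloc_T_left {Φ : W 2 → W 2} (h : HLoc Φ) (T : W 2 ≃ₗ[ℂ] W 2) : HLoc fun z => T (Φ z) := by
  obtain ⟨S, hS, _, hc⟩ := exists_T T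
  have := hloc_left h S hc
  simpa only [hS] using this

theorem hloc_T_right {Φ : W 2 → W 2} (h : HLoc Φ) (T : W 2 ≃ₗ[ℂ] W 2) : HLoc fun z => Φ (T z) := by
  obtain ⟨S, hS, _, hc⟩ := exists_T T
  have := hloc_right h S hc
  simpa only [hS] using this

theorem conn_T_eq {Φ : W 2 → W 2} (h : HLoc Φ) (T : W 2 ≃ₗ[ℂ] W 2) {z : W 2} (hz : z ≠ 0) :
    conn (fun x => T (Φ x)) z = conn Φ z := by
  obtain ⟨S, hS, _, hc⟩ := exists_T T
  have := conn_left h S hc hz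
  simpa only [hS] using this

theorem hloc_id : HLoc (id : W 2 → W 2) := by
  have h := hloc_of_conn (conn_linear (LinearEquiv.refl ℂ (W 2)))
  exact h

/-- `Φ` is joined to `T ∘ Φ`. -/
theorem conn_T_left {Φ : W 2 → W 2} (h : HLoc Φ) (T : W 2 ≃ₗ[ℂ] W 2) :
    Conn Φ fun z => T (Φ z) := by
  have := conn_comp_right (conn_linear T) h
  exact this

/-- `Φ` is joined to `Φ ∘ T`. -/
theorem conn_T_right {Φ : W 2 → W 2} (h : HLoc Φ) (T : W 2 ≃ₗ[ℂ] W 2) :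
    Conn Φ fun z => Φ (T z) := by
  have := conn_comp_left (conn_linear T) h
  exact this

theorem lineC_left {p L : ℝ} {Φ : W 2 → W 2} (h : LineC p L Φ) (T : W 2 ≃ₗ[ℂ] W 2) :
    LineC p L fun z => T (Φ z) where
  hloc := hloc_T_left h.hloc T
  l := by
    have := h.l
    simpa only [conn_T_eq h.hloc T (cp_ne _ _)] using this
  w := by
    have := h.w
    simpa only [conn_T_eq h.hloc T (cp_ne _ _)] using this

theorem lineE_left {p L : ℝ} {Φ : W 2 → W 2} (h : LineE p L Φ) (T : W 2 ≃ₗ[ℂ] W 2) :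
    LineE p L fun z => T (Φ z) :=
  ⟨lineC_left h.1 T, lineC_left h.2 T⟩

theorem lineE_sw {p L : ℝ} {Φ : W 2 → W 2} (h : LineE p L Φ) : LineE p L fun z => Φ (sw z) := by
  refine ⟨h.2, ?_⟩
  have := h.1
  simpa only [sw_sw] using this

theorem norm_mul_sw_le (A : EndW 2) {B : EndW 2} (h : ∀ v, B v = A (sw v)) : ‖B‖ ≤ ‖A‖ := by
  refine ContinuousLinearMap.opNorm_le_bound _ (norm_nonneg _) fun v => ?_
  rw [h]
  refine (A.le_opNorm _).trans ?_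
  rw [norm_sw]

theorem nice_sw {p L K : ℝ} {Ψ : W 2 → W 2} (h : Nice p L K Ψ) : Nice p L K fun z => Ψ (sw z) where
  line := lineE_sw h.line
  inj := fun x y hxy => by
    have := h.inj hxy
    rw [← sw_sw x, this, sw_sw]
  up := fun z hz hz0 => (norm_mul_sw_le _ fun v => fderiv_sw h.line.1.hloc hz0 v).trans
    (h.up (sw z) (sw_mem hz) (sw_ne hz0))
  low := fun z hz hz0 => by
    obtain ⟨S, hS, hS', hc⟩ := exists_sw
    have h1 := fderiv_right h.line.1.hloc S hz0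
    simp only [hS] at h1
    rw [h1]
    have hTT : ((S.symm : W 2 →L[ℝ] W 2) : EndW 2) * ((S : W 2 →L[ℝ] W 2) : EndW 2) = 1 := by
      ext1 x
      show S.symm (S x) = x
      exact S.symm_apply_apply x
    have hTT' : ((S : W 2 →L[ℝ] W 2) : EndW 2) * ((S.symm : W 2 →L[ℝ] W 2) : EndW 2) = 1 := by
      ext1 x
      show S (S.symm x) = x
      exact S.apply_symm_apply x
    obtain ⟨u, hu⟩ := isUnit_fderiv h.line.1.hloc (sw_ne hz0)
    let w : (EndW 2)ˣ := ⟨((S : W 2 →L[ℝ] W 2) : EndW 2), ((S.symm : W 2 →L[ℝ] W 2) : EndW 2), hTT', hTT⟩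
    have e : (fderiv ℝ Ψ (sw z) : EndW 2) * ((S : W 2 →L[ℝ] W 2) : EndW 2) =
        ((u * w : (EndW 2)ˣ) : EndW 2) := by
      rw [Units.val_mul, hu]
    rw [e, Ring.inverse_unit, mul_inv_rev, Units.val_mul]
    have h2 := h.low (sw z) (sw_mem hz) (sw_ne hz0)
    rw [← hu, Ring.inverse_unit] at h2
    refine (norm_mul_le _ _).trans ?_
    have h3 : ‖((w⁻¹ : (EndW 2)ˣ) : EndW 2)‖ ≤ 1 := by
      refine ContinuousLinearMap.opNorm_le_bound _ zero_le_one fun v => ?_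
      show ‖S.symm v‖ ≤ _
      rw [hS', norm_sw, one_mul]
    calc ‖((w⁻¹ : (EndW 2)ˣ) : EndW 2)‖ * ‖((u⁻¹ : (EndW 2)ˣ) : EndW 2)‖ ≤ 1 * K := by
          gcongr
      _ = K := one_mul _
  mod := fun z hz w hw hz1 hw1 => by
    have hz0 : z ≠ 0 := by rw [← norm_pos_iff, hz1]; exact one_pos
    have hw0 : w ≠ 0 := by rw [← norm_pos_iff, hw1]; exact one_pos
    have h1 := h.mod (sw z) (sw_mem hz) (sw w) (sw_mem hw) (by rw [norm_sw, hz1])
      (by rw [norm_sw, hw1])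
    have h2 : sw z - sw w = sw (z - w) := by
      ext k
      fin_cases k <;> rfl
    rw [h2, norm_sw] at h1
    refine (norm_mul_sw_le (fderiv ℝ Ψ (sw z) - fderiv ℝ Ψ (sw w)) fun v => ?_).trans h1
    show fderiv ℝ (fun z => Ψ (sw z)) z v - fderiv ℝ (fun z => Ψ (sw z)) w v = _
    rw [fderiv_sw h.line.1.hloc hz0, fderiv_sw h.line.1.hloc hw0]
    rfl

/-- The two charts cover `P0`. -/
theorem rep_P0 {z : W 2} (hz : z ∈ P0) (h0 : z ≠ 0) : ∃ c ζ : ℂ, c ≠ 0 ∧ ‖c‖ = ‖z‖ ∧ ‖ζ‖ ≤ 1 ∧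
    (z = c • cp 0 ζ ∨ z = c • sw (cp 0 ζ)) := by
  have hz0 : z 0 = 0 := hz
  have hzn : 0 < ‖z‖ := norm_pos_iff.2 h0
  have hn : ‖z‖ = max ‖z 1‖ ‖z 2‖ := by
    apply le_antisymm
    · rw [pi_norm_le_iff_of_nonneg (le_max_of_le_left (norm_nonneg _))]
      intro k
      fin_cases k
      · show ‖z 0‖ ≤ _
        rw [hz0, norm_zero]
        exact le_max_of_le_left (norm_nonneg _)
      · exact le_max_left _ _
      · exact le_max_right _ _
    · exact max_le (norm_le_pi_norm z 1) (norm_le_pi_norm z 2)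
  rcases le_total ‖z 2‖ ‖z 1‖ with h | h
  · rw [max_eq_left h] at hn
    have hc : z 1 ≠ 0 := by rw [← norm_pos_iff, ← hn]; exact hzn
    refine ⟨z 1, z 2 / z 1, hc, hn.symm, ?_, Or.inl ?_⟩
    · rw [norm_div, div_le_one (norm_pos_iff.2 hc)]
      exact h
    · ext k
      fin_cases k
      · simp [cp, hz0]
      · simp [cp]
      · simp [cp, mul_div_cancel₀ _ hc]
  · rw [max_eq_right h] at hn
    have hc : z 2 ≠ 0 := by rw [← norm_pos_iff, ← hn]; exact hzn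
    refine ⟨z 2, z 1 / z 2, hc, hn.symm, ?_, Or.inr ?_⟩
    · rw [norm_div, div_le_one (norm_pos_iff.2 hc)]
      exact h
    · ext k
      fin_cases k
      · simp [cp, sw, hz0]
      · simp [cp, sw, mul_div_cancel₀ _ hc]
      · simp [cp, sw]

/-- A bounded sequence in a finite-dimensional space converges along the ultrafilter. -/
theorem ult_lim {A : Type} [NormedAddCommGroup A] [NormedSpace ℝ A] [FiniteDimensional ℝ A]
    (u : ℕ → A) {L : ℝ} (hu : ∀ᶠ j in (ult : Filter ℕ), ‖u j‖ ≤ L) :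
    ∃ x : A, ‖x‖ ≤ L ∧ Tendsto u (ult : Filter ℕ) (𝓝 x) := by
  have : ProperSpace A := FiniteDimensional.proper_real A
  have hK : IsCompact (closedBall (0 : A) L) := isCompact_closedBall 0 L
  have h1 : ((ult.map u : Ultrafilter A) : Filter A) ≤ Filter.principal (closedBall (0 : A) L) := by
    rw [Filter.le_principal_iff]
    show u ⁻¹' closedBall (0 : A) L ∈ ult
    filter_upwards [hu] with j hj
    rw [mem_preimage, mem_closedBall, dist_zero_right]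
    exact hj
  obtain ⟨x, hx1, hx⟩ := hK.ultrafilter_le_nhds _ h1
  refine ⟨x, ?_, hx⟩
  rwa [mem_closedBall, dist_zero_right] at hx1

theorem fderiv_I {Φ : W 2 → W 2} (h : HLoc Φ) {z : W 2} (hz : z ≠ 0) :
    fderiv ℝ Φ z (Complex.I • z) = Complex.I • Φ z := by
  have h1 : HasDerivAt (fun t : ℝ => (1 + t * Complex.I : ℂ) • z) (Complex.I • z) 0 := by
    have h2 : HasDerivAt (fun t : ℝ => (1 + t * Complex.I : ℂ)) Complex.I 0 := by
      have h3 : HasDerivAt (fun t : ℝ => (t : ℂ)) 1 0 := Complex.ofRealCLM.hasDerivAt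
      simpa using (h3.mul_const Complex.I).const_add 1
    exact h2.smul_const z
  have h2 : HasFDerivAt Φ (fderiv ℝ Φ z) ((1 + ((0 : ℝ) : ℂ) * Complex.I : ℂ) • z) := by
    simpa using Hom46.hasFDerivAt h hz
  have h3 := h2.comp_hasDerivAt (0 : ℝ) h1
  have h4 : HasDerivAt (fun t : ℝ => (1 + t * Complex.I : ℂ) • Φ z) (Complex.I • Φ z) 0 := by
    have h2 : HasDerivAt (fun t : ℝ => (1 + t * Complex.I : ℂ)) Complex.I 0 := by
      have h3 : HasDerivAt (fun t : ℝ => (t : ℂ)) 1 0 := Complex.ofRealCLM.hasDerivAt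
      simpa using (h3.mul_const Complex.I).const_add 1
    exact h2.smul_const (Φ z)
  have h5 : (Φ ∘ fun t : ℝ => (1 + t * Complex.I : ℂ) • z) = fun t : ℝ => (1 + t * Complex.I : ℂ) • Φ z :=
    funext fun t => h.hom _ z
  rw [h5] at h3
  exact h3.unique h4

end Pool.Agent.Lib.PJ
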