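import Pool.Agent.Lib.PJ.TubeF
import Pool.Agent.Lib.PJ.Lin

set_option autoImplicit false

/-!
# Diffeomorphisms supported in a ball, from lifts (step 9)

PROOF. `ball_of_lift`: `B P = ext (fun q => Bt q.2) (0, P)` (`ext`, `ext_pt`, `contDiff_ext` in P28b04d/Ext.lean; `HLoc.ne`), its inverse from `HLoc.exists_inverse`, exactly as at the end of the proof of `fam_isotopic` (P28g/IsoFin.lean). If `P = pt z`, `(P 0 0).re = normSq (z 0) / nsq z < δ` then `z ∈ tube δ`, `Bt z = z`, `B P = P` (`exists_pt`).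
`rel_of`: `Ψ₁` is injective (`conn_inj`) with inverse `g` (`hloc_inv`); `Φ'` is injective; `Bt = g ∘ Φ'` is an injective `HLoc` map with `Bt z = z` on `tube δ` (`g (Φ' z) = g (Ψ₁ z) = z`) and `Ψ₁ (Bt z) = Φ' z`. `Conn Φ₁ Ψ₁` gives `Conn (Φ₁ ∘ Bt) (Ψ₁ ∘ Bt = Φ')` (`conn_comp_right`), so with `c2`, `c`, `conn_symm`, `Conn.trans`:
`Conn Φ₂ (Φ₁ ∘ Bt)`, a family `Λ` with `Λ (0, ·) = Φ₂` injective; `B` from `ball_of_lift`; `fam_isotopic` with `F = F₂`, `G = F₁ ∘ B`: `F₁ (B (pt z)) = F₁ (pt (Bt z)) = pt (Φ₁ (Bt z))` (`Bt z ≠ 0`).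
`Isotopic.trans`: `K (t, P) = K₂ (t, L (K₁ (t, P)))`, where `L` is the inverse of `K₂ (0, ·)`; at `t = 0`: `K₂ (0, L (F P)) = F P`; at `t = 1`: `K₂ (1, L (G P)) = H P` because `L (G P) = L (K₂ (0, P)) = P`. Inverse of `K (t, ·)`: `L₁(t) ∘ K₂ (0, ·) ∘ L₂(t)`.
-/

open MeasureTheory Set Metric Filter
open scoped ContDiff Topology ENNReal

namespace Pool.Agent.Lib.PJ

open Pool.Agent.P28b04d Pool.Agent.Lib.P28e Pool.Agent.Lib.P28c Pool.Agent.Lib.P28g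
open Pool.Agent.Lib.P28f (ult)

/-- The map of `CP²` induced by a lift. -/
noncomputable def ind (Bt : W 2 → W 2) (P : Mat 2) : Mat 2 := ext (fun q : ℝ × W 2 => Bt q.2) (0, P)

theorem ind_pt {Bt : W 2 → W 2} (h : HLoc Bt) {z : W 2} (hz : z ≠ 0) : ind Bt (pt z) = pt (Bt z) :=
  ext_pt (Λ := fun q : ℝ × W 2 => Bt q.2) (fun _ => h.hom) 0 hz

theorem contDiff_ind {Bt : W 2 → W 2} (h : HLoc Bt) : ContDiff ℝ ∞ (ind Bt) := by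
  have hsm : ContDiffOn ℝ ∞ (fun q : ℝ × W 2 => Bt q.2) (univ ×ˢ {0}ᶜ) := by
    rintro ⟨s, z⟩ ⟨-, hz⟩
    exact ((h.contDiffAt hz).comp (s, z) contDiffAt_snd).contDiffWithinAt
  have hL : ContDiff ℝ ∞ (ext (fun q : ℝ × W 2 => Bt q.2)) := contDiff_ext hsm fun _ z hz => h.ne hz
  exact hL.comp (contDiff_prodMk_right 0)

theorem ind_mem {Bt : W 2 → W 2} (h : HLoc Bt) {P : Mat 2} (hP : P ∈ CP 2) : ind Bt P ∈ CP 2 := by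
  obtain ⟨z, hz, rfl⟩ := exists_pt hP
  rw [ind_pt h hz]
  exact pt_mem (h.ne hz)

theorem re_pt (z : W 2) : (pt z 0 0).re = Complex.normSq (z 0) / nsq z := by
  show (z 0 * star (z 0) / (nsq z : ℂ)).re = _
  have : z 0 * star (z 0) = (Complex.normSq (z 0) : ℂ) := Complex.mul_conj (z 0)
  rw [this, ← Complex.ofReal_div, Complex.ofReal_re]

theorem ball_of_lift {Bt : W 2 → W 2} (h : HLoc Bt) (hi : Function.Injective Bt) {δ : ℝ} (hδ : 0 < δ)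
    (hE : ∀ z ∈ tube δ, Bt z = z) :
    ∃ B : Mat 2 → Mat 2, BallDiff B ∧ ∀ z : W 2, z ≠ 0 → B (pt z) = pt (Bt z) := by
  obtain ⟨g, hg, -, hg1, hg2⟩ := hloc_inv h hi
  refine ⟨ind Bt, ⟨contDiff_ind h, fun P hP => ind_mem h hP, ⟨ind g, contDiff_ind hg,
    fun P hP => ind_mem hg hP, ?_, ?_⟩, δ, hδ, ?_⟩, fun z hz => ind_pt h hz⟩
  · intro P hP
    obtain ⟨z, hz, rfl⟩ := exists_pt hP
    rw [ind_pt h hz, ind_pt hg (h.ne hz), hg1]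
  · intro P hP
    obtain ⟨z, hz, rfl⟩ := exists_pt hP
    rw [ind_pt hg hz, ind_pt h (hg.ne hz), hg2]
  · intro P hP hPr
    obtain ⟨z, hz, rfl⟩ := exists_pt hP
    rw [re_pt, div_lt_iff₀ (nsq_pos hz)] at hPr
    rw [ind_pt h hz, hE z ⟨hz, hPr⟩]

theorem rel_of {Φ₁ Φ₂ Ψ₁ Ψ₂ Φ' : W 2 → W 2} (h1 : HLoc Φ₁) (h2 : HLoc Φ₂)
    (i1 : Function.Injective Φ₁) (i2 : Function.Injective Φ₂) (c1 : Conn Φ₁ Ψ₁) (c2 : Conn Φ₂ Ψ₂)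
    (c : Conn Ψ₂ Φ') {δ : ℝ} (hδ : 0 < δ) (hE : ∀ z ∈ tube δ, Φ' z = Ψ₁ z) {F₁ F₂ : Mat 2 → Mat 2}
    (e1 : ∀ z : W 2, z ≠ 0 → F₁ (pt z) = pt (Φ₁ z))
    (e2 : ∀ z : W 2, z ≠ 0 → F₂ (pt z) = pt (Φ₂ z)) :
    ∃ B, BallDiff B ∧ Isotopic 2 F₂ fun P => F₁ (B P) := by
  have iΨ₁ : Function.Injective Ψ₁ := conn_inj c1 i1
  have hΨ₁ : HLoc Ψ₁ := hloc_of_conn c1
  have iΦ' : Function.Injective Φ' := conn_inj c (conn_inj c2 i2)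
  have hΦ' : HLoc Φ' := hloc_of_conn c
  obtain ⟨g, hg, gi, hg1, hg2⟩ := hloc_inv hΨ₁ iΨ₁
  have hBt : HLoc (g ∘ Φ') := hg.comp hΦ'
  obtain ⟨B, hB, hBp⟩ := ball_of_lift hBt (gi.comp iΦ') hδ (fun z hz => by
    show g (Φ' z) = z
    rw [hE z hz, hg1])
  have d1 := conn_comp_right c1 hBt
  have e3 : (fun z => Ψ₁ ((g ∘ Φ') z)) = Φ' := funext fun z => hg2 (Φ' z)
  rw [e3] at d1
  have d2 : Conn Φ₂ fun z => Φ₁ ((g ∘ Φ') z) := (c2.trans c).trans (conn_symm d1)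
  obtain ⟨Λ, f, s, e⟩ := d2
  refine ⟨B, hB, ?_⟩
  have hs : (fun z => Λ (0, z)) = Φ₂ := funext fun z => s 0 le_rfl z
  apply fam_isotopic f
  · rw [hs]
    exact i2
  · intro z hz
    rw [e2 z hz, s 0 le_rfl z]
  · intro z hz
    show F₁ (B (pt z)) = _
    rw [hBp z hz, e1 _ (hBt.ne hz), e 1 le_rfl z]

theorem Isotopic.trans {F G H : Mat 2 → Mat 2} (h1 : Isotopic 2 F G) (h2 : Isotopic 2 G H) :
    Isotopic 2 F H := by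
  obtain ⟨K₁, s1, m1, a1, b1, l1⟩ := h1
  obtain ⟨K₂, s2, m2, a2, b2, l2⟩ := h2
  obtain ⟨L, sL, hL⟩ := l2 0
  refine ⟨fun q => K₂ (q.1, L (K₁ q)), ?_, ?_, ?_, ?_, ?_⟩
  · exact s2.comp (contDiff_fst.prodMk (sL.comp s1))
  · intro t P hP
    exact m2 t _ (hL _ (m1 t P hP)).1
  · intro P hP
    show K₂ (0, L (K₁ (0, P))) = F P
    rw [(hL _ (m1 0 P hP)).2.2, a1 P hP]
  · intro P hP
    show K₂ (1, L (K₁ (1, P))) = H P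
    rw [b1 P hP]
    have h3 : G P = K₂ (0, P) := (a2 P hP).symm
    rw [h3, (hL P hP).2.1, b2 P hP]
  · intro t
    obtain ⟨L₁, sL₁, hL₁⟩ := l1 t
    obtain ⟨L₂, sL₂, hL₂⟩ := l2 t
    refine ⟨fun P => L₁ (K₂ (0, L₂ P)), ?_, fun P hP => ?_⟩
    · exact sL₁.comp (s2.comp (contDiff_const.prodMk sL₂))
    · have q1 : L₂ P ∈ CP 2 := (hL₂ P hP).1
      have q2 : K₂ (0, L₂ P) ∈ CP 2 := m2 0 _ q1
      have q3 := hL₁ _ q2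
      refine ⟨q3.1, ?_, ?_⟩
      · show L₁ (K₂ (0, L₂ (K₂ (t, L (K₁ (t, P)))))) = P
        have r1 : K₁ (t, P) ∈ CP 2 := m1 t P hP
        have r2 : L (K₁ (t, P)) ∈ CP 2 := (hL _ r1).1
        rw [(hL₂ _ r2).2.1, (hL _ r1).2.2, (hL₁ P hP).2.1]
      · show K₂ (t, L (K₁ (t, L₁ (K₂ (0, L₂ P))))) = P
        rw [q3.2.2, (hL _ q1).2.1, (hL₂ P hP).2.2]

end Pool.Agent.Lib.PJ
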