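import Pool.Agent.Lib.PJ.Lin

set_option autoImplicit false

/-!
# A normalised sequence is Cauchy along the ultrafilter, uniformly on `P0` (step 5)

PROOF. By `fderiv_pos_smul` it is enough to treat `z ∈ S = {z ∈ P0 | ‖z‖ = 1}`, compact. Choose `ρ > 0` with `K ρ^α ≤ η / 3` and a finite set `t ⊆ S` with `S ⊆ ⋃_(x ∈ t) ball x ρ` (`IsCompact.finite_cover_balls`). For each `x ∈ t` the bounded sequence `D_j(x)` has a limit `A x` along `ult` (`ult_lim`), so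
`∀ᶠ j, ∀ x ∈ t, ‖D_j x - A x‖ ≤ η / 6` (`eventually_all_finset`), `∀ᶠ i, ∀ᶠ j, ∀ x ∈ t, ‖D_i x - D_j x‖ ≤ η / 3` and, for these `i, j` (both `Nice`), `‖D_i z - D_j z‖ ≤ K ρ^α + η / 3 + K ρ^α ≤ η`.
-/

open MeasureTheory Set Metric Filter
open scoped ContDiff Topology ENNReal

namespace Pool.Agent.Lib.PJ

open Pool.Agent.P28b04d Pool.Agent.Lib.P28e Pool.Agent.Lib.P28c Pool.Agent.Lib.P28g
open Pool.Agent.Lib.P28f (ult)

theorem isCompact_sphereP : IsCompact {z : W 2 | z ∈ P0 ∧ ‖z‖ = 1} := by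
  have h1 : IsClosed (P0 : Set (W 2)) := isClosed_eq (continuous_apply 0) continuous_const
  have h2 : {z : W 2 | z ∈ P0 ∧ ‖z‖ = 1} = sphere (0 : W 2) 1 ∩ P0 := by
    ext z
    rw [mem_inter_iff, mem_sphere_zero_iff_norm]
    exact and_comm
  rw [h2]
  exact (isCompact_sphere (0 : W 2) 1).inter_right h1

theorem cauchy {p L K : ℝ} (hp : 2 < p) (hK : 1 ≤ K) {Ψ : ℕ → W 2 → W 2}
    (h : ∀ᶠ j in (ult : Filter ℕ), Nice p L K (Ψ j)) {η : ℝ} (hη : 0 < η) :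
    ∀ᶠ i in (ult : Filter ℕ), ∀ᶠ j in (ult : Filter ℕ), ∀ z ∈ P0, z ≠ 0 →
      ‖(fderiv ℝ (Ψ i) z : EndW 2) - fderiv ℝ (Ψ j) z‖ ≤ η := by
  classical
  have hα : 0 < 1 - 2 / p := by
    have : 2 / p < 1 := by rw [div_lt_one (by linarith)]; exact hp
    linarith
  have hK0 : 0 ≤ K := by linarith
  obtain ⟨r, hr0, hr⟩ : ∃ r : ℝ, 0 < r ∧ K * r ^ (1 - 2 / p) ≤ η / 3 := by
    have hc : Tendsto (fun r : ℝ => K * r ^ (1 - 2 / p)) (𝓝[>] 0) (𝓝 (K * 0 ^ (1 - 2 / p))) := by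
      refine Tendsto.mono_left ?_ nhdsWithin_le_nhds
      have h1 : ContinuousAt (fun r : ℝ => K * r ^ (1 - 2 / p)) 0 :=
        continuousAt_const.mul (continuousAt_id.rpow_const (Or.inr hα.le))
      exact h1
    rw [Real.zero_rpow hα.ne', mul_zero] at hc
    obtain ⟨r, h3, h4⟩ := ((hc.eventually (gt_mem_nhds (show 0 < η / 3 by positivity))).and
      self_mem_nhdsWithin).exists
    exact ⟨r, h4, h3.le⟩
  obtain ⟨t, ht, hcov⟩ := isCompact_sphereP.elim_finite_subcover_image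
    (b := {z : W 2 | z ∈ P0 ∧ ‖z‖ = 1}) (c := fun z => ball z r) (fun _ _ => isOpen_ball)
    (fun z hz => mem_iUnion₂.2 ⟨z, hz, mem_ball_self hr0⟩)
  obtain ⟨htf, hcov⟩ := hcov
  have hlim : ∀ x : W 2, x ∈ t → ∃ A : EndW 2,
      ∀ᶠ j in (ult : Filter ℕ), ‖(fderiv ℝ (Ψ j) x : EndW 2) - A‖ ≤ η / 6 := by
    intro x hx
    have hx' := ht hx
    have hx0 : x ≠ 0 := by rw [← norm_pos_iff, hx'.2]; exact one_pos
    obtain ⟨A, _, hA⟩ := ult_lim (fun j => (fderiv ℝ (Ψ j) x : EndW 2))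
      (h.mono fun j hj => hj.up x hx'.1 hx0)
    refine ⟨A, ?_⟩
    have h1 := hA.eventually (closedBall_mem_nhds A (show 0 < η / 6 by positivity))
    filter_upwards [h1] with j hj
    rwa [dist_eq_norm] at hj
  choose! A hA using hlim
  have hall : ∀ᶠ j in (ult : Filter ℕ), ∀ x ∈ t, ‖(fderiv ℝ (Ψ j) x : EndW 2) - A x‖ ≤ η / 6 :=
    (eventually_all_finite htf).2 hA
  filter_upwards [h, hall] with i hi hi2
  filter_upwards [h, hall] with j hj hj2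
  intro z hz hz0
  have hzn : 0 < ‖z‖ := norm_pos_iff.2 hz0
  obtain ⟨z', hz'⟩ : ∃ z' : W 2, z' = ‖z‖⁻¹ • z := ⟨_, rfl⟩
  have hz'1 : ‖z'‖ = 1 := by
    rw [hz', norm_smul, norm_inv, norm_norm, inv_mul_cancel₀ hzn.ne']
  have hz'P : z' ∈ P0 := by
    rw [hz']
    show (‖z‖⁻¹ • z) 0 = 0
    rw [Pi.smul_apply, show z 0 = 0 from hz, smul_zero]
  have hDi : fderiv ℝ (Ψ i) z = fderiv ℝ (Ψ i) z' := by
    rw [hz']
    exact (fderiv_pos_smul hi.line.1.hloc (inv_pos.2 hzn) hz0).symm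
  have hDj : fderiv ℝ (Ψ j) z = fderiv ℝ (Ψ j) z' := by
    rw [hz']
    exact (fderiv_pos_smul hj.line.1.hloc (inv_pos.2 hzn) hz0).symm
  rw [hDi, hDj]
  obtain ⟨x, hxt, hx⟩ := mem_iUnion₂.1 (hcov ⟨hz'P, hz'1⟩)
  have hxS := ht hxt
  have hzx : ‖z' - x‖ ≤ r := by
    rw [mem_ball, dist_eq_norm] at hx
    exact hx.le
  have m : K * ‖z' - x‖ ^ (1 - 2 / p) ≤ η / 3 := by
    refine le_trans ?_ hr
    gcongr
  have a1 := (hi.mod z' hz'P x hxS.1 hz'1 hxS.2).trans m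
  have a2 := (hj.mod z' hz'P x hxS.1 hz'1 hxS.2).trans m
  have a3 := hi2 x hxt
  have a4 := hj2 x hxt
  have e : (fderiv ℝ (Ψ i) z' : EndW 2) - fderiv ℝ (Ψ j) z' =
      ((fderiv ℝ (Ψ i) z' : EndW 2) - fderiv ℝ (Ψ i) x) +
        ((fderiv ℝ (Ψ i) x : EndW 2) - A x) - ((fderiv ℝ (Ψ j) x : EndW 2) - A x) -
        ((fderiv ℝ (Ψ j) z' : EndW 2) - fderiv ℝ (Ψ j) x) := by abel
  rw [e]
  have b1 := norm_sub_le (((fderiv ℝ (Ψ i) z' : EndW 2) - fderiv ℝ (Ψ i) x) +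
        ((fderiv ℝ (Ψ i) x : EndW 2) - A x) - ((fderiv ℝ (Ψ j) x : EndW 2) - A x))
        ((fderiv ℝ (Ψ j) z' : EndW 2) - fderiv ℝ (Ψ j) x)
  have b2 := norm_sub_le (((fderiv ℝ (Ψ i) z' : EndW 2) - fderiv ℝ (Ψ i) x) +
        ((fderiv ℝ (Ψ i) x : EndW 2) - A x)) ((fderiv ℝ (Ψ j) x : EndW 2) - A x)
  have b3 := norm_add_le ((fderiv ℝ (Ψ i) z' : EndW 2) - fderiv ℝ (Ψ i) x)
        ((fderiv ℝ (Ψ i) x : EndW 2) - A x)
  linarith

end Pool.Agent.Lib.PJ
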