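import Pool.Agent.Lib.PJ.VolW

set_option autoImplicit false

/-!
# The energy in the affine chart (step 1)

PROOF. Put `f = ‖conn Φ ·‖ₑ ^ p`. For `c ≠ 0`: `f (c • z) = ‖c‖ₑ ^ (-p) * f z` (`conn_smul`). `volume` on `Fin 3 → ℂ` is the product of three copies of `volume` on `ℂ`
(`volume_preserving_piFinSuccAbove` / `MeasurableEquiv.piFinSuccAbove`, twice, or `volume_preserving_pi`...; order of the coordinates: integrate over `z 0`, `z 2` for fixed `z 1 = c`).
`ball 0 1 ⊇ {z | 0 < ‖z 1‖ < 1/5, ‖z 0‖ < 5 ‖z 1‖, ‖z 2‖ < 5 ‖z 1‖}`. For fixed `z 1 = c ≠ 0` substitute `z 0 = c x`, `z 2 = c ζ` (complex scaling multiplies `volume` on `ℂ` by `‖c‖²`, e.g. `Measure.addHaar_image_linearMap`,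
or `Measure.map_addHaar_smul` and a rotation, or `Complex` multiplication as a linear equivalence with determinant `‖c‖²`):
`∫_{‖z 0‖, ‖z 2‖ < 5‖c‖} f (z 0, c, z 2) = ‖c‖⁴ ∫_{‖x‖, ‖ζ‖ < 5} f (c x, c, c ζ) = ‖c‖^(4-p) ∫ f (x, 1, ζ)`. So `∫_{ball} f ≥ (∫_{0 < ‖c‖ < 1/5} ‖c‖ₑ^(4-p)) * ∫ f (cp)`, and the first factor is a constant
`k > 0` (positive integrand on a set of positive measure); if `k = ⊤` replace it by `1` (`C = (min k 1)⁻¹`).
-/

open MeasureTheory Set Metric Filter
open scoped ContDiff Topology ENNReal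

namespace Pool.Agent.Lib.PJ

open Pool.Agent.P28b04d Pool.Agent.Lib.P28e Pool.Agent.Lib.P28c Pool.Agent.Lib.P28g
open Pool.Agent.Lib.P28f (ult)

theorem chartE {p : ℝ} (hp : 0 < p) : ∃ C : ℝ≥0∞, C ≠ ⊤ ∧ ∀ Φ : W 2 → W 2, HLoc Φ →
    ∫⁻ q in ball (0 : ℂ) 5 ×ˢ ball (0 : ℂ) 5, ‖conn Φ (cp q.1 q.2)‖ₑ ^ p ≤ C * enP p Φ := by
  obtain ⟨S, hS⟩ : ∃ S : Set ℂ, S = ball (0 : ℂ) (1 / 5) \ {0} := ⟨_, rfl⟩
  have hSm : MeasurableSet S := by
    rw [hS]
    exact measurableSet_ball.diff (measurableSet_singleton 0)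
  obtain ⟨w, hw⟩ : ∃ w : ℂ → ℝ≥0∞, w = fun c => ENNReal.ofReal (‖c‖ ^ 4) * (‖c‖ₑ⁻¹) ^ p := ⟨_, rfl⟩
  have hwm : Measurable w := by
    rw [hw]
    refine Measurable.mul ?_ ?_
    · exact (measurable_norm.pow_const 4).ennreal_ofReal
    · exact (measurable_enorm.inv).pow_const p
  obtain ⟨k, hk⟩ : ∃ k : ℝ≥0∞, k = ∫⁻ c in S, w c := ⟨_, rfl⟩
  have hk0 : k ≠ 0 := by
    rw [hk]
    intro h0
    rw [lintegral_eq_zero_iff hwm] at h0
    have hpos : ∀ c ∈ S, w c ≠ 0 := by
      intro c hc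
      rw [hS, Set.mem_sdiff, mem_singleton_iff] at hc
      have hc0 : 0 < ‖c‖ := norm_pos_iff.2 hc.2
      rw [hw]
      refine mul_ne_zero ?_ ?_
      · rw [Ne, ENNReal.ofReal_eq_zero, not_le]
        positivity
      · rw [Ne, ENNReal.rpow_eq_zero_iff]
        push Not
        refine ⟨fun h => ?_, fun _ => hp.le⟩
        rw [ENNReal.inv_eq_zero] at h
        exact absurd h enorm_ne_top
    have h1 : volume S = 0 := by
      have h2 : ∀ᵐ c ∂(volume.restrict S), c ∈ S := ae_restrict_mem hSm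
      have h3 : ∀ᵐ c ∂(volume.restrict S), False := by
        filter_upwards [h0, h2] with c h4 h5
        exact hpos c h5 h4
      rw [ae_iff] at h3
      simpa using h3
    have h2 : volume S = volume (ball (0 : ℂ) (1 / 5)) := by
      rw [hS]
      exact measure_sdiff_null (measure_singleton 0)
    have h3 : 0 < volume (ball (0 : ℂ) (1 / 5)) := measure_ball_pos _ _ (by norm_num)
    rw [h2] at h1
    exact h3.ne' h1
  refine ⟨(min k 1)⁻¹, ?_, fun Φ h => ?_⟩
  · rw [Ne, ENNReal.inv_eq_top]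
    intro h
    rcases min_choice k 1 with h' | h' <;> rw [h'] at h
    · exact hk0 h
    · exact one_ne_zero h
  obtain ⟨f, hf⟩ : ∃ f : W 2 → ℝ≥0∞, f = fun z => ‖conn Φ z‖ₑ ^ p := ⟨_, rfl⟩
  have hfm : Measurable f := by
    rw [hf]
    exact (measurable_conn h).pow_const p
  have hfs : ∀ c : ℂ, c ≠ 0 → ∀ x ζ : ℂ, f (![c * x, c, c * ζ] : W 2) = (‖c‖ₑ⁻¹) ^ p * f (cp x ζ) := by
    intro c hc x ζ
    have e : (![c * x, c, c * ζ] : W 2) = c • cp x ζ := by
      ext k
      fin_cases k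
      · simp [cp]
      · simp [cp]
      · simp [cp]
    have e2 : ‖conn Φ (c • cp x ζ)‖ₑ = ‖c‖ₑ⁻¹ * ‖conn Φ (cp x ζ)‖ₑ := by
      have hc0 : 0 < ‖c‖ := norm_pos_iff.2 hc
      rw [← ofReal_norm (conn Φ (c • cp x ζ)), conn_smul h hc (cp_ne x ζ),
        ENNReal.ofReal_mul (by positivity), ofReal_norm (conn Φ (cp x ζ)),
        ENNReal.ofReal_inv_of_pos hc0, ofReal_norm c]
    rw [e, hf]
    show ‖conn Φ (c • cp x ζ)‖ₑ ^ p = _
    rw [e2, ENNReal.mul_rpow_of_nonneg _ _ hp.le]
  obtain ⟨I, hI⟩ : ∃ I : ℝ≥0∞, I = ∫⁻ q in ball (0 : ℂ) 5 ×ˢ ball (0 : ℂ) 5, f (cp q.1 q.2) := ⟨_, rfl⟩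
  have hmain : k * I ≤ enP p Φ := by
    have e1 : enP p Φ = ∫⁻ z : W 2, (ball (0 : W 2) 1).indicator f z := by
      rw [lintegral_indicator measurableSet_ball, hf]
      rfl
    have hFm : Measurable ((ball (0 : W 2) 1).indicator f) := hfm.indicator measurableSet_ball
    rw [e1, lint_W1 hFm, hk, ← lintegral_mul_const _ hwm]
    calc ∫⁻ c in S, w c * I
        ≤ ∫⁻ c in S, ∫⁻ q : ℂ × ℂ, (ball (0 : W 2) 1).indicator f (![q.1, c, q.2] : W 2) := by
          refine setLIntegral_mono' hSm fun c hc => ?_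
          rw [hS, Set.mem_sdiff, mem_singleton_iff, mem_ball, dist_zero_right] at hc
          have hc0 : 0 < ‖c‖ := norm_pos_iff.2 hc.2
          have hG : Measurable fun q : ℂ × ℂ => (ball (0 : W 2) 1).indicator f (![q.1, c, q.2] : W 2) := by
            have : Continuous fun q : ℂ × ℂ => (![q.1, c, q.2] : W 2) := by
              refine continuous_pi fun k => ?_
              fin_cases k
              · exact continuous_fst
              · exact continuous_const
              · exact continuous_snd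
            exact hFm.comp this.measurable
          rw [lint_scale hc.2 hG]
          rw [hw]
          show ENNReal.ofReal (‖c‖ ^ 4) * ‖c‖ₑ⁻¹ ^ p * I ≤ _
          rw [mul_assoc]
          gcongr
          rw [hI, ← lintegral_const_mul' _ _ (by
            rw [Ne, ENNReal.rpow_eq_top_iff]
            push Not
            constructor
            · intro h1
              rw [ENNReal.inv_eq_zero] at h1
              exact absurd h1 enorm_ne_top
            · intro h1
              rw [ENNReal.inv_eq_top, enorm_eq_zero] at h1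
              exact absurd h1 hc.2), ← lintegral_indicator (measurableSet_ball.prod measurableSet_ball)]
          refine lintegral_mono fun q => ?_
          by_cases hq : q ∈ ball (0 : ℂ) 5 ×ˢ ball (0 : ℂ) 5
          · rw [indicator_of_mem hq]
            rw [mem_prod, mem_ball, mem_ball, dist_zero_right, dist_zero_right] at hq
            have hmem : (![c * q.1, c, c * q.2] : W 2) ∈ ball (0 : W 2) 1 := by
              rw [mem_ball, dist_zero_right, pi_norm_lt_iff one_pos]
              intro k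
              fin_cases k
              · show ‖c * q.1‖ < 1
                rw [norm_mul]
                nlinarith [norm_nonneg q.1]
              · show ‖c‖ < 1
                linarith
              · show ‖c * q.2‖ < 1
                rw [norm_mul]
                nlinarith [norm_nonneg q.2]
            show (‖c‖ₑ⁻¹) ^ p * f (cp q.1 q.2) ≤
              (ball (0 : W 2) 1).indicator f (![c * q.1, c, c * q.2] : W 2)
            rw [indicator_of_mem hmem, hfs c hc.2]
          · rw [indicator_of_notMem hq]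
            exact zero_le
      _ ≤ ∫⁻ c : ℂ, ∫⁻ q : ℂ × ℂ, (ball (0 : W 2) 1).indicator f (![q.1, c, q.2] : W 2) :=
          setLIntegral_le_lintegral _ _
  have e : ∫⁻ q in ball (0 : ℂ) 5 ×ˢ ball (0 : ℂ) 5, ‖conn Φ (cp q.1 q.2)‖ₑ ^ p = I := by
    rw [hI, hf]
  rw [e]
  have hm0 : min k 1 ≠ 0 := by
    intro h
    rcases min_choice k 1 with h' | h' <;> rw [h'] at h
    · exact hk0 h
    · exact one_ne_zero h
  have hmt : min k 1 ≠ ⊤ := ne_top_of_le_ne_top ENNReal.one_ne_top (min_le_right _ _)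
  calc I = (min k 1)⁻¹ * (min k 1 * I) := by
        rw [← mul_assoc, ENNReal.inv_mul_cancel hm0 hmt, one_mul]
    _ ≤ (min k 1)⁻¹ * enP p Φ := by
        gcongr
        refine le_trans ?_ hmain
        gcongr
        exact min_le_left _ _

end Pool.Agent.Lib.PJ
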