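import Pool.Agent.Lib.PJ.Lin

set_option autoImplicit false

/-!
# Phase changes of the derivative

PROOF. `D(c z) = mulC c * D(z) * mulC c⁻¹` (`fderiv_mulC`), `‖mulC c‖ = ‖c‖ = 1`. With `u = D(z)`, `u' = D(z')`, `N = u⁻¹ u'`, `θ = c⁻¹ c'`
(`‖θ‖ = 1`): `D(c z)⁻¹ D(c' z') - 1 = c (u⁻¹ θ u' θ⁻¹ - 1) c⁻¹`, `mulC θ = θ.re • 1 + θ.im • mulC I`, so `u⁻¹ (mulC θ) u = mulC θ + θ.im • (Jr u - mulC I)` and
`u⁻¹ θ u' θ⁻¹ - 1 = θ (N - 1) θ⁻¹ + θ.im • (Jr u - mulC I) N θ⁻¹`; `|θ.im| ≤ ‖θ - 1‖ = ‖c' - c‖`. `Jr (c u c⁻¹) - i = c (Jr u - i) c⁻¹`.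
`Hom46.inverse_conj` (P28e/Homog) gives `Ring.inverse (mulC c * A * mulC c⁻¹) = mulC c * Ring.inverse A * mulC c⁻¹`.
-/

open MeasureTheory Set Metric Filter
open scoped ContDiff Topology ENNReal

namespace Pool.Agent.Lib.PJ

open Pool.Agent.P28b04d Pool.Agent.Lib.P28e Pool.Agent.Lib.P28c Pool.Agent.Lib.P28g
open Pool.Agent.Lib.P28f (ult)

theorem mulC_decomp (c : ℂ) : (mulC c : EndW 2) = c.re • (1 : EndW 2) + c.im • mulC Complex.I := by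
  ext1 v
  show c • v = c.re • v + c.im • (Complex.I • v)
  ext k
  simp only [Pi.smul_apply, Pi.add_apply, smul_eq_mul, Complex.real_smul]
  conv_lhs => rw [← Complex.re_add_im c]
  ring

theorem Jr_unit (u : (EndW 2)ˣ) : Jr (u : EndW 2) =
    ((u⁻¹ : (EndW 2)ˣ) : EndW 2) * mulC Complex.I * (u : EndW 2) := by
  unfold Jr
  rw [Ring.inverse_unit]

theorem mulC_inv_mul {c : ℂ} (hc : c ≠ 0) : (mulC c⁻¹ : EndW 2) * mulC c = 1 := by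
  rw [mulC_mul, inv_mul_cancel₀ hc, mulC_one]

theorem mulC_mul_inv {c : ℂ} (hc : c ≠ 0) : (mulC c : EndW 2) * mulC c⁻¹ = 1 := by
  rw [mulC_mul, mul_inv_cancel₀ hc, mulC_one]

theorem mulC_comm (c c' : ℂ) : (mulC c : EndW 2) * mulC c' = mulC c' * mulC c := by
  rw [mulC_mul, mulC_mul, mul_comm]

theorem norm_conj_le {c : ℂ} (hc : ‖c‖ = 1) (A : EndW 2) : ‖mulC c * A * mulC c⁻¹‖ ≤ ‖A‖ := by
  calc ‖mulC c * A * mulC c⁻¹‖ ≤ ‖(mulC c : EndW 2)‖ * ‖A‖ * ‖(mulC c⁻¹ : EndW 2)‖ := by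
        refine (norm_mul_le _ _).trans ?_
        gcongr
        exact norm_mul_le _ _
    _ = ‖A‖ := by rw [norm_mulC, norm_mulC, norm_inv, hc, inv_one, one_mul, mul_one]

theorem conj_J (u : (EndW 2)ˣ) (θ : ℂ) : ((u⁻¹ : (EndW 2)ˣ) : EndW 2) * mulC θ * (u : EndW 2) =
    mulC θ + θ.im • (Jr (u : EndW 2) - mulC Complex.I) := by
  rw [Jr_unit, mulC_decomp θ]
  exact conj_lin u.inv_mul θ.re θ.im

theorem twist {Φ : W 2 → W 2} (h : HLoc Φ) {c c' : ℂ} (hc : ‖c‖ = 1) (hc' : ‖c'‖ = 1) {z z' : W 2}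
    (hz : z ≠ 0) (hz' : z' ≠ 0) :
    ‖Ring.inverse (fderiv ℝ Φ (c • z) : EndW 2) * fderiv ℝ Φ (c' • z') - 1‖ ≤
      ‖c - c'‖ * ‖Jr (fderiv ℝ Φ z) - mulC Complex.I‖ *
          ‖Ring.inverse (fderiv ℝ Φ z : EndW 2) * fderiv ℝ Φ z'‖ +
        ‖Ring.inverse (fderiv ℝ Φ z : EndW 2) * fderiv ℝ Φ z' - 1‖ := by
  have hc0 : c ≠ 0 := by rw [← norm_pos_iff, hc]; exact one_pos
  have hc0' : c' ≠ 0 := by rw [← norm_pos_iff, hc']; exact one_pos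
  obtain ⟨u, hu⟩ := isUnit_fderiv h hz
  rw [fderiv_mulC h hc0 hz, fderiv_mulC h hc0' hz', Hom46.inverse_conj hc0 (isUnit_fderiv h hz),
    ← hu, Ring.inverse_unit]
  obtain ⟨θ, hθ⟩ : ∃ θ, θ = c⁻¹ * c' := ⟨_, rfl⟩
  have hθn : ‖θ‖ = 1 := by rw [hθ, norm_mul, norm_inv, hc, hc', inv_one, one_mul]
  have hθ0 : θ ≠ 0 := by rw [← norm_pos_iff, hθn]; exact one_pos
  obtain ⟨N, hN⟩ : ∃ N : EndW 2, N = ((u⁻¹ : (EndW 2)ˣ) : EndW 2) * fderiv ℝ Φ z' := ⟨_, rfl⟩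
  have e1 : (mulC c : EndW 2) * ((u⁻¹ : (EndW 2)ˣ) : EndW 2) * mulC c⁻¹ *
      (mulC c' * fderiv ℝ Φ z' * mulC c'⁻¹) - 1 =
      mulC c * (((u⁻¹ : (EndW 2)ˣ) : EndW 2) * mulC θ * (u : EndW 2) * N * mulC θ⁻¹ - 1) * mulC c⁻¹ := by
    have h1 : (u : EndW 2) * N = fderiv ℝ Φ z' := by
      rw [hN, ← mul_assoc, Units.mul_inv, one_mul]
    have h2 : (mulC θ⁻¹ : EndW 2) * mulC c⁻¹ = mulC c'⁻¹ := by
      rw [mulC_mul, hθ]
      congr 1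
      field_simp
    have h3 : (mulC c⁻¹ : EndW 2) * mulC c' = mulC θ := by
      rw [mulC_mul, hθ]
    rw [mul_sub, sub_mul, mul_one, mulC_mul_inv hc0]
    congr 1
    calc _ = mulC c * ((u⁻¹ : (EndW 2)ˣ) : EndW 2) * (mulC c⁻¹ * mulC c') * fderiv ℝ Φ z' * mulC c'⁻¹ := by
          simp only [mul_assoc]
      _ = mulC c * ((u⁻¹ : (EndW 2)ˣ) : EndW 2) * mulC θ * ((u : EndW 2) * N) * (mulC θ⁻¹ * mulC c⁻¹) := by
          rw [h3, h1, h2]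
      _ = _ := by simp only [mul_assoc]
  have e2 : ((u⁻¹ : (EndW 2)ˣ) : EndW 2) * mulC θ * (u : EndW 2) * N * mulC θ⁻¹ - 1 =
      mulC θ * (N - 1) * mulC θ⁻¹ + (θ.im • (Jr (u : EndW 2) - mulC Complex.I)) * N * mulC θ⁻¹ := by
    rw [conj_J, mul_sub, sub_mul, mul_one, mulC_mul_inv hθ0, add_mul, add_mul]
    abel
  rw [e1, e2]
  refine (norm_conj_le hc _).trans ((norm_add_le _ _).trans ?_)
  rw [add_comm]
  refine add_le_add ?_ ?_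
  · have him : |θ.im| ≤ ‖c - c'‖ := by
      have h1 : θ.im = (θ - 1).im := by simp
      have h2 : ‖θ - 1‖ = ‖c - c'‖ := by
        have : θ - 1 = c⁻¹ * (c' - c) := by
          rw [hθ, mul_sub, inv_mul_cancel₀ hc0]
        rw [this, norm_mul, norm_inv, hc, inv_one, one_mul, norm_sub_rev]
      rw [h1, ← h2]
      exact Complex.abs_im_le_norm _
    calc ‖(θ.im • (Jr (u : EndW 2) - mulC Complex.I)) * N * mulC θ⁻¹‖
        ≤ ‖θ.im • (Jr (u : EndW 2) - mulC Complex.I)‖ * ‖N‖ * ‖(mulC θ⁻¹ : EndW 2)‖ := by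
          refine (norm_mul_le _ _).trans ?_
          gcongr
          exact norm_mul_le _ _
      _ = |θ.im| * ‖Jr (u : EndW 2) - mulC Complex.I‖ * ‖N‖ := by
          rw [norm_mulC, norm_inv, hθn, inv_one, mul_one, norm_smul, Real.norm_eq_abs]
      _ ≤ ‖c - c'‖ * ‖Jr (u : EndW 2) - mulC Complex.I‖ * ‖N‖ := by gcongr
      _ = _ := by rw [hN]
  · rw [← hN]
    exact norm_conj_le hθn _

theorem Jr_twist {Φ : W 2 → W 2} (h : HLoc Φ) {c : ℂ} (hc : ‖c‖ = 1) {z : W 2} (hz : z ≠ 0) :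
    ‖Jr (fderiv ℝ Φ (c • z)) - mulC Complex.I‖ ≤ ‖Jr (fderiv ℝ Φ z) - mulC Complex.I‖ := by
  have hc0 : c ≠ 0 := by rw [← norm_pos_iff, hc]; exact one_pos
  have e : Jr (fderiv ℝ Φ (c • z)) - mulC Complex.I =
      mulC c * (Jr (fderiv ℝ Φ z) - mulC Complex.I) * mulC c⁻¹ := by
    unfold Jr
    rw [fderiv_mulC h hc0 hz, Hom46.inverse_conj hc0 (isUnit_fderiv h hz), mul_sub, sub_mul]
    congr 1
    · calc mulC c * Ring.inverse (fderiv ℝ Φ z) * mulC c⁻¹ * mulC Complex.I *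
            (mulC c * fderiv ℝ Φ z * mulC c⁻¹)
          = mulC c * Ring.inverse (fderiv ℝ Φ z) * (mulC c⁻¹ * mulC Complex.I * mulC c) *
            fderiv ℝ Φ z * mulC c⁻¹ := by simp only [mul_assoc]
        _ = mulC c * Ring.inverse (fderiv ℝ Φ z) * mulC Complex.I * fderiv ℝ Φ z * mulC c⁻¹ := by
            rw [mulC_comm c⁻¹ Complex.I, mul_assoc (mulC Complex.I : EndW 2), mulC_inv_mul hc0, mul_one]
        _ = _ := by simp only [mul_assoc]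
    · rw [mulC_comm c Complex.I, mul_assoc, mulC_mul_inv hc0, mul_one]
  rw [e]
  exact norm_conj_le hc _

/-- Change of base point. -/
theorem Jr_change {u u' : EndW 2} (hu : IsUnit u) (hu' : IsUnit u') {δ K : ℝ}
    (h1 : ‖Ring.inverse u * u'‖ ≤ K) (h2 : ‖Ring.inverse u' * u‖ ≤ K)
    (h3 : ‖Jr u - mulC Complex.I‖ ≤ δ) (hd : ‖Ring.inverse u * u' - 1‖ ≤ δ) :
    ‖Jr u' - mulC Complex.I‖ ≤ K * (δ * K + 2 * δ) := by
  obtain ⟨a, rfl⟩ := hu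
  obtain ⟨b, rfl⟩ := hu'
  rw [Ring.inverse_unit] at h1 h2 hd
  have hK : 0 ≤ K := (norm_nonneg _).trans h1
  obtain ⟨N, hN⟩ : ∃ N : EndW 2, N = ((a⁻¹ : (EndW 2)ˣ) : EndW 2) * (b : EndW 2) := ⟨_, rfl⟩
  obtain ⟨M, hM⟩ : ∃ M : EndW 2, M = ((b⁻¹ : (EndW 2)ˣ) : EndW 2) * (a : EndW 2) := ⟨_, rfl⟩
  rw [← hN] at h1 hd
  rw [← hM] at h2
  have hMN : M * N = 1 := by
    rw [hM, hN]
    calc ((b⁻¹ : (EndW 2)ˣ) : EndW 2) * (a : EndW 2) * (((a⁻¹ : (EndW 2)ˣ) : EndW 2) * (b : EndW 2))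
        = ((b⁻¹ : (EndW 2)ˣ) : EndW 2) * ((a : EndW 2) * ((a⁻¹ : (EndW 2)ˣ) : EndW 2)) * (b : EndW 2) := by
          simp only [mul_assoc]
      _ = 1 := by rw [Units.mul_inv, mul_one, Units.inv_mul]
  have e : Jr (b : EndW 2) - mulC Complex.I =
      M * ((Jr (a : EndW 2) - mulC Complex.I) * N + (mulC Complex.I * (N - 1) - (N - 1) * mulC Complex.I)) := by
    have e1 : Jr (b : EndW 2) = M * Jr (a : EndW 2) * N := by
      rw [Jr_unit, Jr_unit, hM, hN]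
      calc ((b⁻¹ : (EndW 2)ˣ) : EndW 2) * mulC Complex.I * (b : EndW 2)
          = ((b⁻¹ : (EndW 2)ˣ) : EndW 2) * ((a : EndW 2) * ((a⁻¹ : (EndW 2)ˣ) : EndW 2)) *
            mulC Complex.I * ((a : EndW 2) * ((a⁻¹ : (EndW 2)ˣ) : EndW 2)) * (b : EndW 2) := by
            rw [Units.mul_inv, mul_one, mul_one]
        _ = _ := by simp only [mul_assoc]
    have e2 : (mulC Complex.I : EndW 2) = M * N * mulC Complex.I := by rw [hMN, one_mul]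
    rw [e1]
    conv_lhs => rw [e2]
    simp only [mul_sub, sub_mul, mul_add, mul_one, one_mul, mul_assoc]
    abel
  rw [e]
  have hI : ‖(mulC Complex.I : EndW 2)‖ = 1 := by rw [norm_mulC, Complex.norm_I]
  refine (norm_mul_le _ _).trans ?_
  refine mul_le_mul h2 ?_ (norm_nonneg _) hK
  refine (norm_add_le _ _).trans (add_le_add ?_ ?_)
  · exact (norm_mul_le _ _).trans (mul_le_mul h3 h1 (norm_nonneg _) ((norm_nonneg _).trans h3))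
  · refine (norm_sub_le _ _).trans ?_
    have f1 : ‖mulC Complex.I * (N - 1)‖ ≤ δ := by
      refine (norm_mul_le _ _).trans ?_
      rw [hI, one_mul]
      exact hd
    have f2 : ‖(N - 1) * mulC Complex.I‖ ≤ δ := by
      refine (norm_mul_le _ _).trans ?_
      rw [hI, mul_one]
      exact hd
    linarith

end Pool.Agent.Lib.PJ
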