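import Pool.Agent.Lib.PJ.FlatD
import Pool.Agent.Lib.PJ.Twist

set_option autoImplicit false

/-!
# The derivative of a lift on the line, in one chart (step 4)

PROOF. `cp 0 ζ = cp 0 0 + ζ • ![0, 0, 1]`; `u ζ = fderiv ℝ Φ (cp 0 ζ)`, `α = 1 - 2/p ∈ (0, 1)`. Let `C` be from `flat_disc`, `A = L^(1/p)`. `chart_flat`: choose `r₀ ∈ (0, 1)` with `C A r₀^α ≤ 1`. For `ζ, ζ'` in the unit disc with `r = ‖ζ - ζ'‖ ≤ r₀`, `r > 0`: `closedBall ζ r ⊆ ball 0 2`, so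
`‖u(ζ)⁻¹ u(ζ') - 1‖ ≤ C A r^α` (`flat_disc` with this `r`). In general divide the segment from `ζ` to `ζ'` (length `≤ 2`) in `N ≥ 2 / r₀` equal parts: `u(ζ)⁻¹ u(ζ') = ∏ u(ζ_k)⁻¹ u(ζ_(k+1))`, each factor of norm `≤ 2`, so `‖u(ζ)⁻¹ u(ζ')‖ ≤ 2^N` and for `‖ζ - ζ'‖ ≥ r₀`:
`‖.. - 1‖ ≤ 2^N + 1 ≤ ((2^N + 1) / r₀^α) ‖ζ - ζ'‖^α`.
`Jr`: there is `ζ* ∈ closedBall 0 1` with `‖conn Φ (cp 0 ζ*)‖^p ≤ L` (otherwise the integral over the unit disc, of area `π > 1`, would be `> L`). `conn_I`: `conn Φ z (I • z) = Jr (D z) - mulC I` (`conn_apply`, `D(z)⁻¹ * (mulC I * D - D * mulC I)`), `‖cp 0 ζ*‖ = 1`, so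
`‖Jr (u ζ*) - mulC I‖ ≤ L^(1/p)`. With `N = u(ζ*)⁻¹ u(ζ)`: `Jr (u ζ) = N⁻¹ Jr (u ζ*) N`, `‖N‖, ‖N⁻¹‖ ≤ K' = K 2^α + 1`, `‖mulC I‖ = 1`.
`chart_small`: if `C L^(1/p) ≤ min 1 δ'` then `flat_disc` with `r = 1`, `z = 0` gives `‖u(ζ)⁻¹ u(ζ') - 1‖ ≤ δ'` on the closed unit disc; `‖Jr (u ζ) - mulC I‖ ≤ K (δ' K + 2 δ')` (`Jr_change` with `K = 2`, `L^(1/p) ≤ δ'`). Choose `δ'` small (`δ' ≤ 1`, `8 δ' ≤ δ`).
-/

open MeasureTheory Set Metric Filter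
open scoped ContDiff Topology ENNReal

namespace Pool.Agent.Lib.PJ

open Pool.Agent.P28b04d Pool.Agent.Lib.P28e Pool.Agent.Lib.P28c Pool.Agent.Lib.P28g
open Pool.Agent.Lib.P28f (ult)

theorem cp_line (ζ : ℂ) : cp 0 ζ = cp 0 0 + ζ • (![0, 0, 1] : W 2) := by
  ext k
  fin_cases k <;> simp [cp]

theorem alpha_pos {p : ℝ} (hp : 2 < p) : 0 < 1 - 2 / p := by
  have : 2 / p < 1 := by rw [div_lt_one (by linarith)]; exact hp
  linarith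

/-- Small discs. -/
theorem disc_flat {p : ℝ} (hp : 2 < p) : ∃ C : ℝ, 1 ≤ C ∧ ∀ (L : ℝ), 0 ≤ L → ∀ Φ : W 2 → W 2,
    LineC p L Φ → ∀ (z : ℂ) (r : ℝ), 0 < r → closedBall z r ⊆ ball 0 2 →
    C * L ^ (1 / p) * r ^ (1 - 2 / p) ≤ 1 → ∀ ζ ∈ closedBall z r, ∀ ζ' ∈ closedBall z r,
    ‖Ring.inverse (fderiv ℝ Φ (cp 0 ζ) : EndW 2) * fderiv ℝ Φ (cp 0 ζ') - 1‖ ≤
      C * L ^ (1 / p) * r ^ (1 - 2 / p) := by
  obtain ⟨C, hC, hflat⟩ := flat_disc hp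
  have hp0 : 0 < p := by linarith
  refine ⟨C, hC, fun L hL Φ h z r hr hsub hsm ζ hζ ζ' hζ' => ?_⟩
  obtain ⟨w₁, hw₁⟩ : ∃ w : W 2, w = ![0, 0, 1] := ⟨_, rfl⟩
  have hcp : ∀ ζ : ℂ, cp 0 0 + ζ • w₁ = cp 0 ζ := fun ζ => by
    rw [hw₁]
    exact (cp_line ζ).symm
  have hn : ‖w₁‖ ≤ 1 := by
    rw [hw₁, pi_norm_le_iff_of_nonneg zero_le_one]
    intro k
    fin_cases k <;> simp
  have hLp : (L ^ (1 / p)) ^ p = L := by
    rw [← Real.rpow_mul hL, one_div_mul_cancel hp0.ne', Real.rpow_one]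
  have h1 := hflat Φ h.hloc (cp 0 0) w₁ (by simp [cp]) (by simp [hw₁]) hn z r (L ^ (1 / p)) hr
    (by positivity) (by
      rw [hLp]
      refine le_trans ?_ h.l
      simp only [hcp]
      exact lintegral_mono_set hsub) hsm ζ hζ ζ' hζ'
  simpa only [hcp] using h1

/-- A point of the unit disc at which `Jr` is close to `i`. -/
theorem exists_good {p : ℝ} (hp : 2 < p) {L : ℝ} (hL : 0 ≤ L) {Φ : W 2 → W 2} (h : LineC p L Φ) :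
    ∃ ζ : ℂ, ‖ζ‖ ≤ 1 ∧ ‖Jr (fderiv ℝ Φ (cp 0 ζ)) - mulC Complex.I‖ ≤ L ^ (1 / p) := by
  have hp0 : 0 < p := by linarith
  have hex : ∃ ζ ∈ closedBall (0 : ℂ) 1, ‖conn Φ (cp 0 ζ)‖ₑ ^ p ≤ ENNReal.ofReal L := by
    by_contra hcon
    push Not at hcon
    have hvol : volume (closedBall (0 : ℂ) 1) = ENNReal.ofReal Real.pi := by
      rw [Complex.volume_closedBall, ENNReal.ofReal_one, one_pow, one_mul,
        ← NNReal.coe_real_pi, ENNReal.ofReal_coe_nnreal]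
    have h1 : ∫⁻ ζ in closedBall (0 : ℂ) 1, ‖conn Φ (cp 0 ζ)‖ₑ ^ p ≤ ENNReal.ofReal L := by
      refine le_trans (lintegral_mono_set ?_) h.l
      intro x hx
      rw [mem_closedBall] at hx
      rw [mem_ball]
      linarith
    have hm : Measurable fun ζ : ℂ => ‖conn Φ (cp 0 ζ)‖ₑ ^ p := by
      have h2 : Measurable fun ζ : ℂ => cp 0 ζ :=
        (continuous_cp.comp (by fun_prop : Continuous fun ζ : ℂ => ((0 : ℂ), ζ))).measurable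
      exact ((measurable_conn h.hloc).comp h2).pow_const p
    have h2 : ∫⁻ _ in closedBall (0 : ℂ) 1, ENNReal.ofReal L <
        ∫⁻ ζ in closedBall (0 : ℂ) 1, ‖conn Φ (cp 0 ζ)‖ₑ ^ p := by
      apply setLIntegral_strict_mono measurableSet_closedBall
      · rw [hvol]
        exact (ENNReal.ofReal_pos.2 Real.pi_pos).ne'
      · exact hm
      · rw [setLIntegral_const, hvol, ← ENNReal.ofReal_mul hL]
        exact ENNReal.ofReal_ne_top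
      · exact Eventually.of_forall fun ζ hζ => hcon ζ hζ
    rw [setLIntegral_const, hvol] at h2
    have h3 : ENNReal.ofReal L ≤ ENNReal.ofReal L * ENNReal.ofReal Real.pi := by
      rw [← ENNReal.ofReal_mul hL]
      apply ENNReal.ofReal_le_ofReal
      nlinarith [Real.pi_gt_three]
    exact absurd (h3.trans_lt (h2.trans_le h1)) (lt_irrefl _)
  obtain ⟨ζ, hζ, hle⟩ := hex
  rw [mem_closedBall, dist_zero_right] at hζ
  refine ⟨ζ, hζ, ?_⟩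
  have h1 : ‖conn Φ (cp 0 ζ)‖ ≤ L ^ (1 / p) := by
    rw [← ofReal_norm (conn Φ (cp 0 ζ)), ENNReal.ofReal_rpow_of_nonneg (norm_nonneg _) hp0.le,
      ENNReal.ofReal_le_ofReal_iff hL] at hle
    calc ‖conn Φ (cp 0 ζ)‖ = (‖conn Φ (cp 0 ζ)‖ ^ p) ^ (1 / p) := by
          rw [← Real.rpow_mul (norm_nonneg (conn Φ (cp 0 ζ))), mul_one_div_cancel hp0.ne',
            Real.rpow_one]
      _ ≤ L ^ (1 / p) := by gcongr
  have h2 : conn Φ (cp 0 ζ) (Complex.I • cp 0 ζ) = Jr (fderiv ℝ Φ (cp 0 ζ)) - mulC Complex.I := by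
    rw [conn_apply, conn_I h.hloc (cp_ne 0 ζ), mul_sub, ← mul_assoc, ← mul_assoc,
      Ring.inverse_mul_cancel _ (isUnit_fderiv h.hloc (cp_ne 0 ζ)), one_mul]
    rfl
  rw [← h2]
  refine (ContinuousLinearMap.le_opNorm _ _).trans ?_
  rw [norm_smul, Complex.norm_I, norm_cp_zero hζ, one_mul, mul_one]
  exact h1

/-- `Ring.inverse u * u''` as a product. -/
theorem inv_chain {u v w : EndW 2} (hv : IsUnit v) :
    Ring.inverse u * w = (Ring.inverse u * v) * (Ring.inverse v * w) := by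
  rw [mul_assoc, ← mul_assoc v, Ring.mul_inverse_cancel _ hv, one_mul]

theorem norm_inv_chain {u v w : EndW 2} (hv : IsUnit v) {a b : ℝ}
    (h1 : ‖Ring.inverse u * v‖ ≤ a) (h2 : ‖Ring.inverse v * w‖ ≤ b) (ha : 0 ≤ a) :
    ‖Ring.inverse u * w‖ ≤ a * b := by
  rw [inv_chain hv]
  exact (norm_mul_le _ _).trans (mul_le_mul h1 h2 (norm_nonneg _) ha)

theorem norm_le_of_sub_one {A : EndW 2} {d : ℝ} (h : ‖A - 1‖ ≤ d) : ‖A‖ ≤ 1 + d := by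
  calc ‖A‖ = ‖(A - 1) + 1‖ := by rw [sub_add_cancel]
    _ ≤ ‖A - 1‖ + ‖(1 : EndW 2)‖ := norm_add_le _ _
    _ ≤ 1 + d := by rw [norm_one]; linarith

theorem chart_flat {p : ℝ} (hp : 2 < p) {L : ℝ} (hL : 0 ≤ L) : ∃ K : ℝ, 1 ≤ K ∧
    ∀ Φ : W 2 → W 2, LineC p L Φ → ∀ ζ ζ' : ℂ, ‖ζ‖ ≤ 1 → ‖ζ'‖ ≤ 1 →
    ‖Ring.inverse (fderiv ℝ Φ (cp 0 ζ) : EndW 2) * fderiv ℝ Φ (cp 0 ζ') - 1‖ ≤
      K * ‖ζ - ζ'‖ ^ (1 - 2 / p) ∧ ‖Jr (fderiv ℝ Φ (cp 0 ζ))‖ ≤ K := by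
  obtain ⟨C, hC, hdisc⟩ := disc_flat hp
  have hp0 : 0 < p := by linarith
  have hα := alpha_pos hp
  -- the radius
  obtain ⟨r₀, hr₀, hr₁, hr⟩ : ∃ r : ℝ, 0 < r ∧ r < 1 ∧ C * L ^ (1 / p) * r ^ (1 - 2 / p) ≤ 1 := by
    have hc : Tendsto (fun r : ℝ => C * L ^ (1 / p) * r ^ (1 - 2 / p)) (𝓝[>] 0)
        (𝓝 (C * L ^ (1 / p) * 0 ^ (1 - 2 / p))) := by
      refine Tendsto.mono_left ?_ nhdsWithin_le_nhds
      have h1 : ContinuousAt (fun r : ℝ => C * L ^ (1 / p) * r ^ (1 - 2 / p)) 0 :=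
        continuousAt_const.mul (continuousAt_id.rpow_const (Or.inr hα.le))
      exact h1
    rw [Real.zero_rpow hα.ne', mul_zero] at hc
    obtain ⟨r, h3, h4⟩ := ((hc.eventually (gt_mem_nhds zero_lt_one)).and
      (Ioo_mem_nhdsGT (show (0 : ℝ) < 1 by norm_num))).exists
    exact ⟨r, h4.1, h4.2, h3.le⟩
  obtain ⟨N, hN⟩ := exists_nat_ge (2 / r₀)
  have hN0 : 0 < (N : ℝ) := lt_of_lt_of_le (by positivity) hN
  obtain ⟨K₁, hK₁⟩ : ∃ K₁ : ℝ, K₁ = max (C * L ^ (1 / p)) ((2 ^ N + 1) / r₀ ^ (1 - 2 / p)) := ⟨_, rfl⟩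
  have hK₁0 : 0 ≤ K₁ := by
    rw [hK₁]
    exact le_max_of_le_right (by positivity)
  -- short distance
  have hshort : ∀ Φ : W 2 → W 2, LineC p L Φ → ∀ ζ ζ' : ℂ, ‖ζ‖ ≤ 1 → ‖ζ'‖ ≤ 1 → ‖ζ - ζ'‖ ≤ r₀ →
      ‖Ring.inverse (fderiv ℝ Φ (cp 0 ζ) : EndW 2) * fderiv ℝ Φ (cp 0 ζ') - 1‖ ≤
        C * L ^ (1 / p) * ‖ζ - ζ'‖ ^ (1 - 2 / p) := by
    intro Φ h ζ ζ' hζ hζ' hd
    rcases (norm_nonneg (ζ - ζ')).eq_or_lt with h0 | h0
    · have e : ζ = ζ' := sub_eq_zero.1 (norm_eq_zero.1 h0.symm)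
      rw [← e, sub_self, norm_zero, Ring.inverse_mul_cancel _ (isUnit_fderiv h.hloc (cp_ne 0 ζ)),
        sub_self, norm_zero, Real.zero_rpow hα.ne', mul_zero]
    · refine hdisc L hL Φ h ζ ‖ζ - ζ'‖ h0 ?_ ?_ ζ (mem_closedBall_self h0.le) ζ' ?_
      · intro x hx
        rw [mem_closedBall, dist_eq_norm] at hx
        rw [mem_ball, dist_zero_right]
        calc ‖x‖ = ‖(x - ζ) + ζ‖ := by rw [sub_add_cancel]
          _ ≤ ‖x - ζ‖ + ‖ζ‖ := norm_add_le _ _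
          _ < 2 := by linarith
      · refine le_trans ?_ hr
        gcongr
      · rw [mem_closedBall, dist_eq_norm, norm_sub_rev]
  -- chain
  have hchain : ∀ Φ : W 2 → W 2, LineC p L Φ → ∀ ζ ζ' : ℂ, ‖ζ‖ ≤ 1 → ‖ζ'‖ ≤ 1 →
      ‖Ring.inverse (fderiv ℝ Φ (cp 0 ζ) : EndW 2) * fderiv ℝ Φ (cp 0 ζ')‖ ≤ 2 ^ N := by
    intro Φ h ζ ζ' hζ hζ'
    have hpt : ∀ k : ℕ, k ≤ N → ‖ζ + ((k : ℝ) / N) • (ζ' - ζ)‖ ≤ 1 := by
      intro k hk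
      have ht1 : (k : ℝ) / N ≤ 1 := by
        rw [div_le_one hN0]
        exact_mod_cast hk
      have ht0 : 0 ≤ (k : ℝ) / N := by positivity
      have hcv := convex_closedBall (0 : ℂ) 1
      have := hcv (x := ζ) (y := ζ') (by simpa using hζ) (by simpa using hζ')
        (show 0 ≤ 1 - (k : ℝ) / N by linarith) ht0 (by ring)
      rw [mem_closedBall, dist_zero_right] at this
      have e : ζ + ((k : ℝ) / N) • (ζ' - ζ) = (1 - (k : ℝ) / N) • ζ + ((k : ℝ) / N) • ζ' := by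
        module
      rw [e]
      exact this
    have hind : ∀ k : ℕ, k ≤ N → ‖Ring.inverse (fderiv ℝ Φ (cp 0 ζ) : EndW 2) *
        fderiv ℝ Φ (cp 0 (ζ + ((k : ℝ) / N) • (ζ' - ζ)))‖ ≤ 2 ^ k := by
      intro k
      induction k with
      | zero =>
        intro _
        simp only [Nat.cast_zero, zero_div, zero_smul, add_zero, pow_zero]
        rw [Ring.inverse_mul_cancel _ (isUnit_fderiv h.hloc (cp_ne 0 ζ)), norm_one]
      | succ k ih =>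
        intro hk
        have h1 := ih (by omega)
        have h2 := hshort Φ h (ζ + ((k : ℝ) / N) • (ζ' - ζ)) (ζ + (((k + 1 : ℕ) : ℝ) / N) • (ζ' - ζ))
          (hpt k (by omega)) (hpt (k + 1) hk) (by
            have e : ζ + ((k : ℝ) / N) • (ζ' - ζ) - (ζ + (((k + 1 : ℕ) : ℝ) / N) • (ζ' - ζ)) =
                -((1 / (N : ℝ)) • (ζ' - ζ)) := by
              push_cast
              rw [add_div]
              module
            rw [e, norm_neg, norm_smul, Real.norm_of_nonneg (by positivity)]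
            have h3 : ‖ζ' - ζ‖ ≤ 2 := (norm_sub_le _ _).trans (by linarith)
            calc 1 / (N : ℝ) * ‖ζ' - ζ‖ ≤ 1 / (N : ℝ) * 2 := by gcongr
              _ ≤ r₀ := by
                  rw [div_mul_eq_mul_div, one_mul, div_le_iff₀ hN0]
                  rw [div_le_iff₀ hr₀] at hN
                  linarith)
        have h4 : ‖ζ + ((k : ℝ) / N) • (ζ' - ζ) - (ζ + (((k + 1 : ℕ) : ℝ) / N) • (ζ' - ζ))‖ ≤ r₀ := by
          have e : ζ + ((k : ℝ) / N) • (ζ' - ζ) - (ζ + (((k + 1 : ℕ) : ℝ) / N) • (ζ' - ζ)) =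
                -((1 / (N : ℝ)) • (ζ' - ζ)) := by
              push_cast
              rw [add_div]
              module
          rw [e, norm_neg, norm_smul, Real.norm_of_nonneg (by positivity)]
          have h3 : ‖ζ' - ζ‖ ≤ 2 := (norm_sub_le _ _).trans (by linarith)
          calc 1 / (N : ℝ) * ‖ζ' - ζ‖ ≤ 1 / (N : ℝ) * 2 := by gcongr
            _ ≤ r₀ := by
                rw [div_mul_eq_mul_div, one_mul, div_le_iff₀ hN0]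
                rw [div_le_iff₀ hr₀] at hN
                linarith
        have h5 : ‖Ring.inverse (fderiv ℝ Φ (cp 0 (ζ + ((k : ℝ) / N) • (ζ' - ζ))) : EndW 2) *
            fderiv ℝ Φ (cp 0 (ζ + (((k + 1 : ℕ) : ℝ) / N) • (ζ' - ζ)))‖ ≤ 2 := by
          have h6 : C * L ^ (1 / p) * ‖ζ + ((k : ℝ) / N) • (ζ' - ζ) -
              (ζ + (((k + 1 : ℕ) : ℝ) / N) • (ζ' - ζ))‖ ^ (1 - 2 / p) ≤ 1 := by
            refine le_trans ?_ hr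
            gcongr
          have := norm_le_of_sub_one (h2.trans h6)
          linarith
        have h7 := norm_inv_chain (isUnit_fderiv h.hloc (cp_ne 0 (ζ + ((k : ℝ) / N) • (ζ' - ζ))))
          h1 h5 (by positivity)
        rw [pow_succ]
        exact h7
    have := hind N le_rfl
    rw [div_self hN0.ne', one_smul, add_sub_cancel] at this
    exact this
  have hflat : ∀ Φ : W 2 → W 2, LineC p L Φ → ∀ ζ ζ' : ℂ, ‖ζ‖ ≤ 1 → ‖ζ'‖ ≤ 1 →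
      ‖Ring.inverse (fderiv ℝ Φ (cp 0 ζ) : EndW 2) * fderiv ℝ Φ (cp 0 ζ') - 1‖ ≤
        K₁ * ‖ζ - ζ'‖ ^ (1 - 2 / p) := by
    intro Φ h ζ ζ' hζ hζ'
    rcases le_or_gt ‖ζ - ζ'‖ r₀ with hd | hd
    · refine (hshort Φ h ζ ζ' hζ hζ' hd).trans ?_
      gcongr
      rw [hK₁]
      exact le_max_left _ _
    · have h1 := hchain Φ h ζ ζ' hζ hζ'
      calc ‖Ring.inverse (fderiv ℝ Φ (cp 0 ζ) : EndW 2) * fderiv ℝ Φ (cp 0 ζ') - 1‖
          ≤ ‖Ring.inverse (fderiv ℝ Φ (cp 0 ζ) : EndW 2) * fderiv ℝ Φ (cp 0 ζ')‖ + ‖(1 : EndW 2)‖ :=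
            norm_sub_le _ _
        _ ≤ 2 ^ N + 1 := by rw [norm_one]; linarith
        _ = (2 ^ N + 1) / r₀ ^ (1 - 2 / p) * r₀ ^ (1 - 2 / p) := by
            field_simp
        _ ≤ K₁ * ‖ζ - ζ'‖ ^ (1 - 2 / p) := by
            have h2 : (2 ^ N + 1) / r₀ ^ (1 - 2 / p) ≤ K₁ := by
              rw [hK₁]
              exact le_max_right _ _
            gcongr
  -- the norm of `Jr`
  obtain ⟨K₂, hK₂⟩ : ∃ K₂ : ℝ, K₂ = 1 + K₁ * 2 ^ (1 - 2 / p) := ⟨_, rfl⟩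
  have hK₂0 : 1 ≤ K₂ := by
    rw [hK₂]
    have : 0 ≤ K₁ * 2 ^ (1 - 2 / p) := by positivity
    linarith
  have hJ : ∀ Φ : W 2 → W 2, LineC p L Φ → ∀ ζ : ℂ, ‖ζ‖ ≤ 1 →
      ‖Jr (fderiv ℝ Φ (cp 0 ζ))‖ ≤ K₂ * (1 + L ^ (1 / p)) * K₂ := by
    intro Φ h ζ hζ
    obtain ⟨ζs, hζs, hs⟩ := exists_good hp hL h
    have hd : ∀ a b : ℂ, ‖a‖ ≤ 1 → ‖b‖ ≤ 1 →
        ‖Ring.inverse (fderiv ℝ Φ (cp 0 a) : EndW 2) * fderiv ℝ Φ (cp 0 b)‖ ≤ K₂ := by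
      intro a b ha hb
      rw [hK₂]
      refine norm_le_of_sub_one ((hflat Φ h a b ha hb).trans ?_)
      have : ‖a - b‖ ≤ 2 := (norm_sub_le _ _).trans (by linarith)
      gcongr
    have hI : ‖(mulC Complex.I : EndW 2)‖ = 1 := by rw [norm_mulC, Complex.norm_I]
    have hs2 : ‖Jr (fderiv ℝ Φ (cp 0 ζs))‖ ≤ 1 + L ^ (1 / p) := by
      calc ‖Jr (fderiv ℝ Φ (cp 0 ζs))‖ = ‖(Jr (fderiv ℝ Φ (cp 0 ζs)) - mulC Complex.I) + mulC Complex.I‖ := by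
            rw [sub_add_cancel]
        _ ≤ ‖Jr (fderiv ℝ Φ (cp 0 ζs)) - mulC Complex.I‖ + ‖(mulC Complex.I : EndW 2)‖ := norm_add_le _ _
        _ ≤ 1 + L ^ (1 / p) := by rw [hI]; linarith
    have hus := isUnit_fderiv h.hloc (cp_ne 0 ζs)
    have e : Jr (fderiv ℝ Φ (cp 0 ζ)) =
        (Ring.inverse (fderiv ℝ Φ (cp 0 ζ) : EndW 2) * fderiv ℝ Φ (cp 0 ζs)) *
          Jr (fderiv ℝ Φ (cp 0 ζs)) *
          (Ring.inverse (fderiv ℝ Φ (cp 0 ζs) : EndW 2) * fderiv ℝ Φ (cp 0 ζ)) := by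
      unfold Jr
      have e1 : (fderiv ℝ Φ (cp 0 ζs) : EndW 2) * Ring.inverse (fderiv ℝ Φ (cp 0 ζs) : EndW 2) = 1 :=
        Ring.mul_inverse_cancel _ hus
      calc Ring.inverse (fderiv ℝ Φ (cp 0 ζ) : EndW 2) * mulC Complex.I * fderiv ℝ Φ (cp 0 ζ)
          = Ring.inverse (fderiv ℝ Φ (cp 0 ζ) : EndW 2) *
              ((fderiv ℝ Φ (cp 0 ζs) : EndW 2) * Ring.inverse (fderiv ℝ Φ (cp 0 ζs) : EndW 2)) *
              mulC Complex.I *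
              ((fderiv ℝ Φ (cp 0 ζs) : EndW 2) * Ring.inverse (fderiv ℝ Φ (cp 0 ζs) : EndW 2)) *
              fderiv ℝ Φ (cp 0 ζ) := by rw [e1, mul_one, mul_one]
        _ = _ := by simp only [mul_assoc]
    rw [e]
    have hL1 : 0 ≤ 1 + L ^ (1 / p) := by positivity
    refine (norm_mul_le _ _).trans (mul_le_mul ?_ (hd ζs ζ hζs hζ) (norm_nonneg _) (by positivity))
    exact (norm_mul_le _ _).trans (mul_le_mul (hd ζ ζs hζ hζs) hs2 (norm_nonneg _) (by linarith))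
  refine ⟨max 1 (max K₁ (K₂ * (1 + L ^ (1 / p)) * K₂)), le_max_left _ _, fun Φ h ζ ζ' hζ hζ' => ⟨?_, ?_⟩⟩
  · refine (hflat Φ h ζ ζ' hζ hζ').trans ?_
    gcongr
    exact le_max_of_le_right (le_max_left _ _)
  · exact (hJ Φ h ζ hζ).trans (le_max_of_le_right (le_max_right _ _))

theorem chart_small {p : ℝ} (hp : 2 < p) {δ : ℝ} (hδ : 0 < δ) : ∃ L : ℝ, 0 < L ∧
    ∀ Φ : W 2 → W 2, LineC p L Φ → ∀ ζ ζ' : ℂ, ‖ζ‖ ≤ 1 → ‖ζ'‖ ≤ 1 →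
    ‖Ring.inverse (fderiv ℝ Φ (cp 0 ζ) : EndW 2) * fderiv ℝ Φ (cp 0 ζ') - 1‖ ≤ δ ∧
      ‖Jr (fderiv ℝ Φ (cp 0 ζ)) - mulC Complex.I‖ ≤ δ := by
  obtain ⟨C, hC, hdisc⟩ := disc_flat hp
  have hp0 : 0 < p := by linarith
  obtain ⟨e, he⟩ : ∃ e : ℝ, e = min 1 (δ / 8) := ⟨_, rfl⟩
  have he0 : 0 < e := by rw [he]; positivity
  have he1 : e ≤ 1 := by rw [he]; exact min_le_left _ _
  have he8 : 8 * e ≤ δ := by
    have : e ≤ δ / 8 := by rw [he]; exact min_le_right _ _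
    linarith
  have hC0 : 0 < C := by linarith
  refine ⟨(e / C) ^ p, by positivity, fun Φ h ζ ζ' hζ hζ' => ?_⟩
  have hLp : ((e / C) ^ p) ^ (1 / p) = e / C := by
    rw [← Real.rpow_mul (by positivity), mul_one_div_cancel hp0.ne', Real.rpow_one]
  have hCe : C * ((e / C) ^ p) ^ (1 / p) * 1 ^ (1 - 2 / p) = e := by
    rw [hLp, Real.one_rpow, mul_one, mul_div_cancel₀ _ hC0.ne']
  have hsub : closedBall (0 : ℂ) 1 ⊆ ball 0 2 := closedBall_subset_ball (by norm_num)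
  have hfl : ∀ a b : ℂ, ‖a‖ ≤ 1 → ‖b‖ ≤ 1 →
      ‖Ring.inverse (fderiv ℝ Φ (cp 0 a) : EndW 2) * fderiv ℝ Φ (cp 0 b) - 1‖ ≤ e := by
    intro a b ha hb
    have := hdisc ((e / C) ^ p) (by positivity) Φ h 0 1 one_pos hsub (by rw [hCe]; exact he1) a
      (by simpa using ha) b (by simpa using hb)
    rwa [hCe] at this
  refine ⟨(hfl ζ ζ' hζ hζ').trans (by linarith), ?_⟩
  obtain ⟨ζs, hζs, hs⟩ := exists_good hp (by positivity) h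
  rw [hLp] at hs
  have hs' : ‖Jr (fderiv ℝ Φ (cp 0 ζs)) - mulC Complex.I‖ ≤ e :=
    hs.trans (div_le_self he0.le hC)
  have h2 : ∀ a b : ℂ, ‖a‖ ≤ 1 → ‖b‖ ≤ 1 →
      ‖Ring.inverse (fderiv ℝ Φ (cp 0 a) : EndW 2) * fderiv ℝ Φ (cp 0 b)‖ ≤ 2 := fun a b ha hb =>
    (norm_le_of_sub_one (hfl a b ha hb)).trans (by linarith)
  have := Jr_change (isUnit_fderiv h.hloc (cp_ne 0 ζs)) (isUnit_fderiv h.hloc (cp_ne 0 ζ))
    (h2 ζs ζ hζs hζ) (h2 ζ ζs hζ hζs) hs' (hfl ζs ζ hζs hζ)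
  linarith

end Pool.Agent.Lib.PJ
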