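import Pool.Agent.Lib.PJ.TubeF
import Pool.Agent.Lib.PJ.BallM
import Pool.Agent.Lib.PJ.Lin

set_option autoImplicit false

/-!
# A lift of a ball-supported diffeomorphism (step (3))

PROOF. Let `G` be the inverse of `B`, `r` as in `BallDiff`; `G P = P` for `(P 0 0).re < r` (`P = B P`). For `F ∈ {B, G}` define `lf F z = z` if `normSq (z 0) < r * nsq z` or `z = 0`, and `lf F z = fun k => z 0 * (F (pt z) k 0 / F (pt z) 0 0)` otherwise. Facts. (a) If `z 0 ≠ 0` then `F (pt z) 0 0 ≠ 0`: `Q = F (pt z) ∈ CP 2`; if `Q 0 0 = 0` then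
`F Q = Q` (`0 < r`), so `Q = pt z` by injectivity of `F` on `CP 2`, but `pt z 0 0 = normSq (z 0) / nsq z ≠ 0`. (b) If `z ≠ 0`, `0 < normSq (z 0) < r nsq z` the second formula also gives `z` (`F (pt z) = pt z`, `pt z k 0 / pt z 0 0 = z k / z 0`); so near every `z ≠ 0` with `z 0 ≠ 0` `lf F` is given by the second formula (smooth: `pt` and `F` are smooth, quotient), and near
`z` with `z 0 = 0`, `z ≠ 0`, it is the identity (open condition). (c) `lf F (c • z) = c • lf F z` (`pt_smul`). (d) `lf F z 0 = z 0`, `lf F z ≠ 0` for `z ≠ 0`, `pt (lf F z) = F (pt z)`: for `Q = F (pt z) ∈ CP 2` with `Q 0 0 ≠ 0` the first column `k ↦ Q k 0` spans the line of `Q` (`col`, `pt (col Q 0) = Q`, see P28b04d/Act.lean, Ext.lean), and `pt_smul`.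
(e) `lf G (lf B z) = z`: `w = lf B z`, `w 0 = z 0`, `pt w = B (pt z)`; if `z 0 ≠ 0`: `pt (lf G w) = G (B (pt z)) = pt z`, so `lf G w = c • z` (`eq_smul_of_pt_eq`), coordinate `0` gives `c = 1`; if `z 0 = 0` both are the identity. So `D(lf G) ∘ D(lf B) = 1` and `D(lf B)(z)` is injective. `Φ = lf B`.
-/

open MeasureTheory Set Metric Filter
open scoped ContDiff Topology ENNReal

namespace Pool.Agent.Lib.PJ

open Pool.Agent.P28b04d Pool.Agent.Lib.P28e Pool.Agent.Lib.P28c Pool.Agent.Lib.P28g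
open Pool.Agent.Lib.P28f (ult)

/-- The canonical lift of a map of `CP²` which is the identity near the line at infinity. -/
noncomputable def lf (F : Mat 2 → Mat 2) (z : W 2) : W 2 :=
  open Classical in if z 0 = 0 then z else (z 0 / F (pt z) 0 0) • col (F (pt z)) 0

/-- One half of a ball-supported diffeomorphism. -/
structure HalfB (r : ℝ) (F : Mat 2 → Mat 2) : Prop where
  sm : ContDiff ℝ ∞ F
  mem : ∀ P ∈ CP 2, F P ∈ CP 2
  inj : ∀ P ∈ CP 2, ∀ Q ∈ CP 2, F P = F Q → P = Q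
  fix : ∀ P ∈ CP 2, (P 0 0).re < r → F P = P

theorem lf_eq {F : Mat 2 → Mat 2} {z : W 2} (hz : z 0 ≠ 0) :
    lf F z = (z 0 / F (pt z) 0 0) • col (F (pt z)) 0 := by
  unfold lf
  rw [if_neg hz]

theorem lf_of_zero {F : Mat 2 → Mat 2} {z : W 2} (hz : z 0 = 0) : lf F z = z := by
  unfold lf
  rw [if_pos hz]

theorem ne_zero_of_coord {z : W 2} (h : z 0 ≠ 0) : z ≠ 0 := by
  rintro rfl
  exact h rfl

theorem HalfB.fix_pt {r : ℝ} {F : Mat 2 → Mat 2} (h : HalfB r F) {z : W 2} (hz : z ∈ tube r) :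
    F (pt z) = pt z := by
  refine h.fix _ (pt_mem hz.1) ?_
  rw [re_pt, div_lt_iff₀ (nsq_pos hz.1)]
  exact hz.2

theorem HalfB.ne {r : ℝ} (hr : 0 < r) {F : Mat 2 → Mat 2} (h : HalfB r F) {z : W 2} (hz : z 0 ≠ 0) :
    F (pt z) 0 0 ≠ 0 := by
  intro h0
  have hz0 := ne_zero_of_coord hz
  have h1 : F (F (pt z)) = F (pt z) := h.fix _ (h.mem _ (pt_mem hz0)) (by
    rw [h0]
    simpa using hr)
  have h2 := h.inj _ (h.mem _ (pt_mem hz0)) _ (pt_mem hz0) h1
  rw [h2, pt_diag] at h0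
  have h3 : Complex.normSq (z 0) / nsq z = 0 := by exact_mod_cast h0
  rw [div_eq_zero_iff] at h3
  rcases h3 with h3 | h3
  · exact hz (Complex.normSq_eq_zero.1 h3)
  · exact (nsq_pos hz0).ne' h3

theorem HalfB.tube {r : ℝ} (hr : 0 < r) {F : Mat 2 → Mat 2} (h : HalfB r F) {z : W 2}
    (hz : z ∈ tube r) : lf F z = z := by
  by_cases h0 : z 0 = 0
  · exact lf_of_zero h0
  have h1 := h.ne hr h0
  rw [lf_eq h0]
  rw [h.fix_pt hz] at h1 ⊢
  rw [col_pt, smul_smul]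
  have e : z 0 / pt z 0 0 * (star (z 0) / (nsq z : ℂ)) = 1 := by
    have e1 : pt z 0 0 = z 0 * star (z 0) / (nsq z : ℂ) := rfl
    have h2 := nsq_ne hz.1
    have h3 : star (z 0) ≠ 0 := by
      intro h4
      exact h0 (by simpa using h4)
    rw [e1]
    field_simp
  rw [e, one_smul]

theorem HalfB.coord {r : ℝ} (hr : 0 < r) {F : Mat 2 → Mat 2} (h : HalfB r F) (z : W 2) :
    lf F z 0 = z 0 := by
  by_cases h0 : z 0 = 0
  · rw [lf_of_zero h0]
  rw [lf_eq h0]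
  show z 0 / F (pt z) 0 0 * F (pt z) 0 0 = z 0
  exact div_mul_cancel₀ _ (h.ne hr h0)

theorem HalfB.pt_lf {r : ℝ} (hr : 0 < r) {F : Mat 2 → Mat 2} (h : HalfB r F) {z : W 2} (hz : z ≠ 0) :
    F (pt z) = pt (lf F z) := by
  by_cases h0 : z 0 = 0
  · rw [lf_of_zero h0]
    exact h.fix_pt (mem_tube_of_P0 hr h0 hz)
  have h1 := h.ne hr h0
  rw [lf_eq h0, pt_smul (div_ne_zero h0 h1)]
  exact eq_pt (h.mem _ (pt_mem hz)) h1

theorem HalfB.lf_ne {r : ℝ} (hr : 0 < r) {F : Mat 2 → Mat 2} (h : HalfB r F) {z : W 2} (hz : z ≠ 0) :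
    lf F z ≠ 0 := by
  by_cases h0 : z 0 = 0
  · rwa [lf_of_zero h0]
  · apply ne_zero_of_coord
    rwa [h.coord hr]

theorem lf_smul (F : Mat 2 → Mat 2) (c : ℂ) (z : W 2) : lf F (c • z) = c • lf F z := by
  by_cases hc : c = 0
  · rw [hc, zero_smul, zero_smul]
    exact lf_of_zero rfl
  by_cases h0 : z 0 = 0
  · have h1 : (c • z) 0 = 0 := by
      show c * z 0 = 0
      rw [h0, mul_zero]
    rw [lf_of_zero h1, lf_of_zero h0]
  · have h1 : (c • z) 0 ≠ 0 := by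
      show c * z 0 ≠ 0
      exact mul_ne_zero hc h0
    rw [lf_eq h1, lf_eq h0, pt_smul hc, smul_smul]
    congr 1
    show c * z 0 / _ = c * (z 0 / _)
    rw [mul_div_assoc]

theorem HalfB.smooth {r : ℝ} (hr : 0 < r) {F : Mat 2 → Mat 2} (h : HalfB r F) {z : W 2} (hz : z ≠ 0) :
    ContDiffAt ℝ ∞ (lf F) z := by
  by_cases h0 : z 0 = 0
  · have h1 : lf F =ᶠ[𝓝 z] fun w => w := by
      filter_upwards [(isOpen_tube r).mem_nhds (mem_tube_of_P0 hr h0 hz)] with w hw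
      exact h.tube hr hw
    exact contDiffAt_id.congr_of_eventuallyEq h1
  · have h1 : lf F =ᶠ[𝓝 z] fun w => (w 0 / F (pt w) 0 0) • col (F (pt w)) 0 := by
      have h2 : ∀ᶠ w : W 2 in 𝓝 z, w 0 ≠ 0 :=
        (continuous_apply (0 : Fin 3)).continuousAt.eventually_ne h0
      filter_upwards [h2] with w hw
      exact lf_eq hw
    refine ContDiffAt.congr_of_eventuallyEq ?_ h1
    have hF : ContDiffAt ℝ ∞ (fun w : W 2 => F (pt w)) z := h.sm.contDiffAt.comp z (contDiffAt_pt hz)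
    have hFk : ∀ k, ContDiffAt ℝ ∞ (fun w : W 2 => F (pt w) k 0) z := fun k =>
      contDiffAt_pi.1 (contDiffAt_pi.1 hF k) 0
    have hw : ContDiffAt ℝ ∞ (fun w : W 2 => w 0) z := (contDiff_apply ℝ ℂ (0 : Fin 3)).contDiffAt
    refine contDiffAt_pi.2 fun k => ?_
    show ContDiffAt ℝ ∞ (fun w : W 2 => w 0 / F (pt w) 0 0 * F (pt w) k 0) z
    exact (hw.mul ((hFk 0).inv (h.ne hr h0))).mul (hFk k)

theorem HalfB.comp {r : ℝ} (hr : 0 < r) {F G : Mat 2 → Mat 2} (h : HalfB r F) (h' : HalfB r G)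
    (hGF : ∀ P ∈ CP 2, G (F P) = P) (z : W 2) : lf G (lf F z) = z := by
  by_cases h0 : z 0 = 0
  · rw [lf_of_zero (F := F) h0, lf_of_zero h0]
  have hz := ne_zero_of_coord h0
  have h1 : lf F z ≠ 0 := h.lf_ne hr hz
  have h2 : lf G (lf F z) ≠ 0 := h'.lf_ne hr h1
  have h3 : pt z = pt (lf G (lf F z)) := by
    rw [← h'.pt_lf hr h1, ← h.pt_lf hr hz, hGF _ (pt_mem hz)]
  obtain ⟨c, hc, e⟩ := eq_smul_of_pt_eq h2 h3
  have h4 := h'.coord hr (lf F z)
  rw [h.coord hr z, e] at h4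
  have h5 : c * z 0 = z 0 := h4
  have h6 : c = 1 := by
    have : (c - 1) * z 0 = 0 := by rw [sub_mul, h5, one_mul, sub_self]
    rcases mul_eq_zero.1 this with h7 | h7
    · exact sub_eq_zero.1 h7
    · exact absurd h7 h0
  rw [e, h6, one_smul]

theorem HalfB.hloc {r : ℝ} (hr : 0 < r) {F G : Mat 2 → Mat 2} (h : HalfB r F) (h' : HalfB r G)
    (hGF : ∀ P ∈ CP 2, G (F P) = P) : HLoc (lf F) where
  smooth := fun _ hz => (h.smooth hr hz).contDiffWithinAt
  hom := lf_smul F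
  inj := by
    intro z hz v hv
    have h1 := ((h.smooth hr hz).differentiableAt (by simp)).hasFDerivAt
    have h2 := ((h'.smooth hr (h.lf_ne hr hz)).differentiableAt (by simp)).hasFDerivAt
    have h3 := h2.comp z h1
    have e : lf G ∘ lf F = id := funext fun w => h.comp hr h' hGF w
    rw [e] at h3
    have h4 := h3.unique (hasFDerivAt_id z)
    have h5 := congrArg (fun A : W 2 →L[ℝ] W 2 => A v) h4
    have h6 : fderiv ℝ (lf G) (lf F z) (fderiv ℝ (lf F) z v) = v := h5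
    rw [hv, map_zero] at h6
    exact h6.symm

theorem lift_ball {B : Mat 2 → Mat 2} (hB : BallDiff B) : ∃ (Φ : W 2 → W 2) (r : ℝ), HLoc Φ ∧
    Function.Injective Φ ∧ 0 < r ∧ (∀ z : W 2, z ≠ 0 → B (pt z) = pt (Φ z)) ∧ (∀ z, Φ z 0 = z 0) ∧
    ∀ z ∈ tube r, Φ z = z := by
  obtain ⟨hs, hm, ⟨G, hGs, hGm, hGB, hBG⟩, r, hr, hfix⟩ := hB
  have h : HalfB r B := ⟨hs, hm, fun P hP Q hQ e => by rw [← hGB P hP, e, hGB Q hQ], hfix⟩
  have h' : HalfB r G := ⟨hGs, hGm, fun P hP Q hQ e => by rw [← hBG P hP, e, hBG Q hQ],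
    fun P hP hPr => by
      have := hGB P hP
      rwa [hfix P hP hPr] at this⟩
  exact ⟨lf B, r, h.hloc hr h' hGB, Function.LeftInverse.injective (g := lf G) (h.comp hr h' hGB), hr,
    fun z hz => h.pt_lf hr hz, h.coord hr, fun z hz => h.tube hr hz⟩

end Pool.Agent.Lib.PJ
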