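import Pool.Agent.Lib.PJ.Lin

set_option autoImplicit false

/-!
# The volume of `ℂ³` as an iterated integral

Tonelli's theorem for the coordinates of `W 2 = ℂ³`, and the change of variables `q ↦ c q` on `ℂ²`.
-/

open MeasureTheory Set Metric Filter
open scoped ContDiff Topology ENNReal

namespace Pool.Agent.Lib.PJ

open Pool.Agent.P28b04d Pool.Agent.Lib.P28e Pool.Agent.Lib.P28c Pool.Agent.Lib.P28g
open Pool.Agent.Lib.P28f (ult)

/-- Tonelli with the coordinate `1` outside. -/
theorem lint_W1 {F : W 2 → ℝ≥0∞} (hF : Measurable F) :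
    ∫⁻ z, F z = ∫⁻ c : ℂ, ∫⁻ q : ℂ × ℂ, F (![q.1, c, q.2] : W 2) := by
  have h1 := volume_preserving_piFinSuccAbove (fun _ : Fin 3 => ℂ) 1
  have h2 := volume_preserving_finTwoArrow ℂ
  have hG : Measurable fun p : ℂ × (Fin 2 → ℂ) => F (![p.2 0, p.1, p.2 1] : W 2) := by
    have : Continuous fun p : ℂ × (Fin 2 → ℂ) => (![p.2 0, p.1, p.2 1] : W 2) := by
      refine continuous_pi fun k => ?_
      fin_cases k
      · exact (continuous_apply (0 : Fin 2)).comp continuous_snd
      · exact continuous_fst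
      · exact (continuous_apply (1 : Fin 2)).comp continuous_snd
    exact hF.comp this.measurable
  have e1 : ∫⁻ z, F z = ∫⁻ p : ℂ × (Fin 2 → ℂ), F (![p.2 0, p.1, p.2 1] : W 2) := by
    rw [← h1.lintegral_comp hG]
    refine lintegral_congr fun z => ?_
    congr 1
    ext k
    fin_cases k <;> rfl
  rw [e1, Measure.volume_eq_prod, lintegral_prod _ hG.aemeasurable]
  refine lintegral_congr fun c => ?_
  have hG2 : Measurable fun q : ℂ × ℂ => F (![q.1, c, q.2] : W 2) := by
    have : Continuous fun q : ℂ × ℂ => (![q.1, c, q.2] : W 2) := by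
      refine continuous_pi fun k => ?_
      fin_cases k
      · exact continuous_fst
      · exact continuous_const
      · exact continuous_snd
    exact hF.comp this.measurable
  rw [← h2.lintegral_comp hG2]
  rfl

/-- Tonelli with the coordinate `0` outside. -/
theorem lint_W0 {F : W 2 → ℝ≥0∞} (hF : Measurable F) :
    ∫⁻ z, F z = ∫⁻ x : ℂ, ∫⁻ q : ℂ × ℂ, F (![x, q.1, q.2] : W 2) := by
  have h1 := volume_preserving_piFinSuccAbove (fun _ : Fin 3 => ℂ) 0
  have h2 := volume_preserving_finTwoArrow ℂ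
  have hG : Measurable fun p : ℂ × (Fin 2 → ℂ) => F (![p.1, p.2 0, p.2 1] : W 2) := by
    have : Continuous fun p : ℂ × (Fin 2 → ℂ) => (![p.1, p.2 0, p.2 1] : W 2) := by
      refine continuous_pi fun k => ?_
      fin_cases k
      · exact continuous_fst
      · exact (continuous_apply (0 : Fin 2)).comp continuous_snd
      · exact (continuous_apply (1 : Fin 2)).comp continuous_snd
    exact hF.comp this.measurable
  have e1 : ∫⁻ z, F z = ∫⁻ p : ℂ × (Fin 2 → ℂ), F (![p.1, p.2 0, p.2 1] : W 2) := by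
    rw [← h1.lintegral_comp hG]
    refine lintegral_congr fun z => ?_
    congr 1
    ext k
    fin_cases k <;> rfl
  rw [e1, Measure.volume_eq_prod, lintegral_prod _ hG.aemeasurable]
  refine lintegral_congr fun c => ?_
  have hG2 : Measurable fun q : ℂ × ℂ => F (![c, q.1, q.2] : W 2) := by
    have : Continuous fun q : ℂ × ℂ => (![c, q.1, q.2] : W 2) := by
      refine continuous_pi fun k => ?_
      fin_cases k
      · exact continuous_const
      · exact continuous_fst
      · exact continuous_snd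
    exact hF.comp this.measurable
  rw [← h2.lintegral_comp hG2]
  rfl

/-- Multiplication by a unit complex number preserves the volume. -/
theorem mp_unit {u : ℂ} (hu : ‖u‖ = 1) : MeasurePreserving (fun x : ℂ => u * x) := by
  have h := (rotation (⟨u, mem_sphere_zero_iff_norm.2 hu⟩ : Circle)).measurePreserving
  have e : (fun x : ℂ => u * x) =
      fun x => rotation (⟨u, mem_sphere_zero_iff_norm.2 hu⟩ : Circle) x := by
    funext x
    rw [rotation_apply]
  rw [e]
  exact h

/-- The change of variables `q ↦ c q`. -/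
theorem lint_scale {c : ℂ} (hc : c ≠ 0) {F : ℂ × ℂ → ℝ≥0∞} (hF : Measurable F) :
    ∫⁻ q, F q = ENNReal.ofReal (‖c‖ ^ 4) * ∫⁻ q : ℂ × ℂ, F (c * q.1, c * q.2) := by
  have hc0 : 0 < ‖c‖ := norm_pos_iff.2 hc
  obtain ⟨u, hu⟩ : ∃ u : ℂ, u = c / (‖c‖ : ℝ) := ⟨_, rfl⟩
  have hu1 : ‖u‖ = 1 := by
    rw [hu, norm_div, Complex.norm_real, norm_norm, div_self hc0.ne']
  have hcu : c = (‖c‖ : ℝ) * u := by
    rw [hu, mul_div_cancel₀]
    exact_mod_cast hc0.ne'
  -- the rotation
  have h1 : MeasurePreserving (fun q : ℂ × ℂ => (u * q.1, u * q.2)) := by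
    have := (mp_unit hu1).prod (mp_unit hu1)
    exact this
  have e1 : ∫⁻ q : ℂ × ℂ, F (c * q.1, c * q.2) = ∫⁻ q : ℂ × ℂ, F (‖c‖ • q) := by
    have hm : Measurable fun q : ℂ × ℂ => F (‖c‖ • q) :=
      hF.comp (continuous_const_smul _).measurable
    rw [← h1.lintegral_comp hm]
    refine lintegral_congr fun q => ?_
    congr 1
    refine Prod.ext ?_ ?_
    · show c * q.1 = ‖c‖ • (u * q.1)
      conv_lhs => rw [hcu]
      rw [Complex.real_smul, mul_assoc]
    · show c * q.2 = ‖c‖ • (u * q.2)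
      conv_lhs => rw [hcu]
      rw [Complex.real_smul, mul_assoc]
  haveI : (volume : Measure (ℂ × ℂ)).IsAddHaarMeasure := by
    rw [Measure.volume_eq_prod]
    infer_instance
  have h2 : Measure.map (fun q : ℂ × ℂ => ‖c‖ • q) volume =
      ENNReal.ofReal |(‖c‖ ^ Module.finrank ℝ (ℂ × ℂ))⁻¹| • (volume : Measure (ℂ × ℂ)) :=
    Measure.map_addHaar_smul volume hc0.ne'
  have hfr : Module.finrank ℝ (ℂ × ℂ) = 4 := by
    rw [Module.finrank_prod, Complex.finrank_real_complex]
  rw [hfr] at h2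
  have e2 : ∫⁻ q : ℂ × ℂ, F (‖c‖ • q) = ENNReal.ofReal |(‖c‖ ^ 4)⁻¹| * ∫⁻ q, F q := by
    rw [← lintegral_map hF (continuous_const_smul _).measurable, h2, lintegral_smul_measure,
      smul_eq_mul]
  rw [e1, e2, ← mul_assoc, ← ENNReal.ofReal_mul (by positivity), abs_of_pos (by positivity),
    mul_inv_cancel₀ (by positivity), ENNReal.ofReal_one, one_mul]

end Pool.Agent.Lib.PJ
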