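import Pool.Agent.Lib.PJ.TubeF
import Pool.Agent.Lib.PJ.VolW
import Pool.Agent.Lib.PJ.Lin
import Pool.Agent.Lib.P28g.CritE

set_option autoImplicit false

/-!
# Squeezing a ball-supported diffeomorphism towards the line (step (3))

PROOF. `T = diag (1, e, e)`, `0 < e ≤ 1`, `Φ_e = T ∘ Φ ∘ T⁻¹`. `conn Φ_e z v w = T (conn Φ (T⁻¹ z) (T⁻¹ v) (T⁻¹ w))` (`z ≠ 0`; `fderiv_left`, `fderiv_right` twice, or `conn_right`, `conn_left` of `Lin`). Since `Φ z 0 = z 0`: `(D Φ_y u) 0 = u 0`, `(D²Φ_y (v, w)) 0 = 0`, so `D Φ_y` and its inverse preserve `P0` and `conn Φ y v w ∈ P0`;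
`T = e` on `P0`. Hence `‖conn Φ_e z‖ ≤ e · e⁻¹ · e⁻¹ ‖conn Φ (T⁻¹ z)‖ = e⁻¹ ‖conn Φ (T⁻¹ z)‖` (`‖T⁻¹‖ ≤ e⁻¹`). With `y = T⁻¹ z = (z 0, z 1 / e, z 2 / e)`: `conn Φ y = 0` if `y ∈ tube r` (there `Φ = id` near `y`: `tube r` is open, second derivative `0`), otherwise `normSq (y 0) ≥ r nsq y`, so `‖z 1‖, ‖z 2‖ ≤ e ‖z 0‖ / √r`;
`‖conn Φ y‖ ≤ C ‖y‖⁻¹ ≤ C ‖z 0‖⁻¹` (`conn_bound`, P28g/CritE.lean). So `enP p Φ_e ≤ ∫_{‖z 0‖ < 1} (C / (e ‖z 0‖))^p · vol {‖z 1‖, ‖z 2‖ ≤ e ‖z 0‖ / √r} = C^p e^(-p) (π e² / r)² ∫_{‖z 0‖ < 1} ‖z 0‖^(4 - p) ≤ C' e^(4 - p)` (`4 - p > 0`: the integrand is `≤ 1`), which tends to `0` with `e`.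
(`volume` on `Fin 3 → ℂ` as a product: `volume_preserving_piFinSuccAbove` or `MeasureTheory.volume_preserving_finTwoArrow`; it is enough to bound the integral over `z` by Tonelli with `z 0` outside.)
-/

open MeasureTheory Set Metric Filter
open scoped ContDiff Topology ENNReal

namespace Pool.Agent.Lib.PJ

open Pool.Agent.P28b04d Pool.Agent.Lib.P28e Pool.Agent.Lib.P28c Pool.Agent.Lib.P28g
open Pool.Agent.Lib.P28f (ult)

/-- The dilation `diag (1, e, e)`. -/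
noncomputable def dgE (e : ℝ) (he : e ≠ 0) : W 2 ≃ₗ[ℂ] W 2 where
  toFun z := ![z 0, (e : ℂ) * z 1, (e : ℂ) * z 2]
  invFun z := ![z 0, (e : ℂ)⁻¹ * z 1, (e : ℂ)⁻¹ * z 2]
  map_add' x y := by
    ext k
    fin_cases k
    · simp
    · simp [mul_add]
    · simp [mul_add]
  map_smul' c x := by
    ext k
    fin_cases k
    · simp
    · simp [mul_left_comm]
    · simp [mul_left_comm]
  left_inv x := by
    have h : (e : ℂ) ≠ 0 := by exact_mod_cast he
    ext k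
    fin_cases k
    · simp
    · simp [inv_mul_cancel_left₀ h]
    · simp [inv_mul_cancel_left₀ h]
  right_inv x := by
    have h : (e : ℂ) ≠ 0 := by exact_mod_cast he
    ext k
    fin_cases k
    · simp
    · simp [mul_inv_cancel_left₀ h]
    · simp [mul_inv_cancel_left₀ h]

theorem dgE_apply (e : ℝ) (he : e ≠ 0) (z : W 2) :
    dgE e he z = ![z 0, (e : ℂ) * z 1, (e : ℂ) * z 2] := rfl

theorem dgE_symm_apply (e : ℝ) (he : e ≠ 0) (z : W 2) :
    (dgE e he).symm z = ![z 0, (e : ℂ)⁻¹ * z 1, (e : ℂ)⁻¹ * z 2] := rfl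

theorem norm_dgE {e : ℝ} (he : 0 < e) {u : W 2} (hu : u 0 = 0) : ‖dgE e he.ne' u‖ ≤ e * ‖u‖ := by
  rw [dgE_apply, pi_norm_le_iff_of_nonneg (by positivity)]
  intro k
  fin_cases k
  · show ‖u 0‖ ≤ _
    rw [hu, norm_zero]
    positivity
  · show ‖(e : ℂ) * u 1‖ ≤ _
    rw [norm_mul, Complex.norm_real, Real.norm_of_nonneg he.le]
    gcongr
    exact norm_le_pi_norm u 1
  · show ‖(e : ℂ) * u 2‖ ≤ _
    rw [norm_mul, Complex.norm_real, Real.norm_of_nonneg he.le]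
    gcongr
    exact norm_le_pi_norm u 2

theorem norm_dgE_symm {e : ℝ} (he : 0 < e) (he1 : e ≤ 1) (u : W 2) :
    ‖(dgE e he.ne').symm u‖ ≤ e⁻¹ * ‖u‖ := by
  have h1 : 1 ≤ e⁻¹ := (one_le_inv₀ he).2 he1
  have h2 : ‖((e : ℂ))⁻¹‖ = e⁻¹ := by
    rw [norm_inv, Complex.norm_real, Real.norm_of_nonneg he.le]
  rw [dgE_symm_apply, pi_norm_le_iff_of_nonneg (by positivity)]
  intro k
  fin_cases k
  · show ‖u 0‖ ≤ _
    calc ‖u 0‖ = 1 * ‖u 0‖ := (one_mul _).symm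
      _ ≤ e⁻¹ * ‖u‖ := by
        gcongr
        exact norm_le_pi_norm u 0
  · show ‖(e : ℂ)⁻¹ * u 1‖ ≤ _
    rw [norm_mul, h2]
    gcongr
    exact norm_le_pi_norm u 1
  · show ‖(e : ℂ)⁻¹ * u 2‖ ≤ _
    rw [norm_mul, h2]
    gcongr
    exact norm_le_pi_norm u 2

theorem coord_fderiv {Φ : W 2 → W 2} (h : HLoc Φ) (h0 : ∀ z, Φ z 0 = z 0) {z : W 2} (hz : z ≠ 0)
    (v : W 2) : (fderiv ℝ Φ z v) 0 = v 0 := by
  let pr : W 2 →L[ℝ] ℂ := ContinuousLinearMap.proj (R := ℝ) (0 : Fin 3)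
  have h1 : HasFDerivAt (fun x => pr (Φ x)) (pr.comp (fderiv ℝ Φ z)) z :=
    pr.hasFDerivAt.comp z (Hom46.hasFDerivAt h hz)
  have e : (fun x => pr (Φ x)) = fun x => pr x := funext h0
  rw [e] at h1
  have h2 := h1.unique pr.hasFDerivAt
  exact congrArg (fun A : W 2 →L[ℝ] ℂ => A v) h2

theorem coord_conn {Φ : W 2 → W 2} (h : HLoc Φ) (h0 : ∀ z, Φ z 0 = z 0) {z : W 2} (hz : z ≠ 0)
    (v w : W 2) : (conn Φ z w v) 0 = 0 := by
  let pr : W 2 →L[ℝ] ℂ := ContinuousLinearMap.proj (R := ℝ) (0 : Fin 3)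
  rw [← coord_fderiv h h0 hz (conn Φ z w v), fderiv_conn h hz]
  have h1 : HasFDerivAt (fun y => fderiv ℝ Φ y v) (fderiv ℝ (fun y => fderiv ℝ Φ y v) z) z := by
    have h2 := (Hom46.hasFDerivAt_fderiv h hz).clm_apply (hasFDerivAt_const v z)
    exact h2.differentiableAt.hasFDerivAt
  have h3 : HasFDerivAt (fun y => pr (fderiv ℝ Φ y v)) (pr.comp (fderiv ℝ (fun y => fderiv ℝ Φ y v) z)) z :=
    pr.hasFDerivAt.comp z h1
  have h4 : (fun y => pr (fderiv ℝ Φ y v)) =ᶠ[𝓝 z] fun _ => v 0 := by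
    filter_upwards [isOpen_compl_singleton.mem_nhds hz] with y hy
    exact coord_fderiv h h0 hy v
  have h5 := h3.congr_of_eventuallyEq h4.symm
  have h6 := h5.unique (hasFDerivAt_const (v 0) z)
  exact congrArg (fun A : W 2 →L[ℝ] ℂ => A w) h6

theorem conn_tube {Φ : W 2 → W 2} (h : HLoc Φ) {r : ℝ} (hE : ∀ z ∈ tube r, Φ z = z) {z : W 2}
    (hz : z ∈ tube r) : conn Φ z = 0 := by
  ext1 w
  ext1 v
  apply h.inj z hz.1
  rw [fderiv_conn h hz.1]
  have h1 : ∀ y ∈ tube r, fderiv ℝ Φ y v = v := by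
    intro y hy
    have h2 : Φ =ᶠ[𝓝 y] id := by
      filter_upwards [(isOpen_tube r).mem_nhds hy] with x hx
      exact hE x hx
    rw [h2.fderiv_eq, fderiv_id]
    rfl
  have h2 : (fun y => fderiv ℝ Φ y v) =ᶠ[𝓝 z] fun _ => v := by
    filter_upwards [(isOpen_tube r).mem_nhds hz] with y hy
    exact h1 y hy
  rw [h2.fderiv_eq, fderiv_const_apply]
  rfl

theorem norm_conn_sq {Φ : W 2 → W 2} (h : HLoc Φ) (h0 : ∀ z, Φ z 0 = z 0) {e : ℝ} (he : 0 < e)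
    (he1 : e ≤ 1) {z : W 2} (hz : z ≠ 0) :
    ‖conn (fun x => dgE e he.ne' (Φ ((dgE e he.ne').symm x))) z‖ ≤
      e⁻¹ * ‖conn Φ ((dgE e he.ne').symm z)‖ := by
  obtain ⟨T, hT⟩ : ∃ T : W 2 ≃ₗ[ℂ] W 2, T = dgE e he.ne' := ⟨_, rfl⟩
  have n1 : ∀ u : W 2, u 0 = 0 → ‖T u‖ ≤ e * ‖u‖ := fun u hu => by
    rw [hT]
    exact norm_dgE he hu
  have n2 : ∀ u : W 2, ‖T.symm u‖ ≤ e⁻¹ * ‖u‖ := fun u => by
    rw [hT]
    exact norm_dgE_symm he he1 u
  rw [← hT]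
  rw [conn_T_eq (hloc_T_right h T.symm) T hz]
  obtain ⟨S, hS, hS', hc⟩ := exists_T T.symm
  have hS'' : ∀ x, S.symm x = T x := fun x => by rw [hS', LinearEquiv.symm_symm]
  have hTz : T.symm z ≠ 0 := by
    intro h1
    exact hz (by simpa using h1)
  refine ContinuousLinearMap.opNorm_le_bound _ (by positivity) fun v => ?_
  refine ContinuousLinearMap.opNorm_le_bound _ (by positivity) fun w => ?_
  have h1 := conn_right h S hc hz v
  simp only [hS] at h1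
  rw [h1]
  show ‖S.symm (conn Φ (T.symm z) (T.symm v) (S w))‖ ≤ _
  rw [hS'', hS]
  calc ‖T (conn Φ (T.symm z) (T.symm v) (T.symm w))‖
      ≤ e * ‖conn Φ (T.symm z) (T.symm v) (T.symm w)‖ := n1 _ (coord_conn h h0 hTz _ _)
    _ ≤ e * (‖conn Φ (T.symm z)‖ * (e⁻¹ * ‖v‖) * (e⁻¹ * ‖w‖)) := by
        gcongr
        refine (ContinuousLinearMap.le_opNorm₂ _ _ _).trans ?_
        gcongr
        · exact n2 v
        · exact n2 w
    _ = e⁻¹ * ‖conn Φ (T.symm z)‖ * ‖v‖ * ‖w‖ := by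
        field_simp

theorem sq_bound {Φ : W 2 → W 2} (h : HLoc Φ) (h0 : ∀ z, Φ z 0 = z 0) {r : ℝ} (hr : 0 < r)
    (hE : ∀ z ∈ tube r, Φ z = z) {C : ℝ} (hC : 0 ≤ C)
    (hb : ∀ x : W 2, x ≠ 0 → ‖conn Φ x‖ ≤ C * ‖x‖⁻¹) {e : ℝ} (he : 0 < e) (he1 : e ≤ 1)
    {x : ℂ} (hx : x ≠ 0) (q : ℂ × ℂ) :
    (‖q.1‖ ≤ e / Real.sqrt r * ‖x‖ ∧ ‖q.2‖ ≤ e / Real.sqrt r * ‖x‖ ∧
      ‖conn (fun x => dgE e he.ne' (Φ ((dgE e he.ne').symm x))) ![x, q.1, q.2]‖ ≤
        e⁻¹ * (C * ‖x‖⁻¹)) ∨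
    conn (fun x => dgE e he.ne' (Φ ((dgE e he.ne').symm x))) ![x, q.1, q.2] = 0 := by
  have hz : (![x, q.1, q.2] : W 2) ≠ 0 := by
    intro h1
    exact hx (congrFun h1 0)
  have hbd := norm_conn_sq h h0 he he1 hz
  obtain ⟨y, hy⟩ : ∃ y : W 2, y = (dgE e he.ne').symm ![x, q.1, q.2] := ⟨_, rfl⟩
  rw [← hy] at hbd
  have hy0 : y 0 = x := by rw [hy]; rfl
  have hy1 : y 1 = (e : ℂ)⁻¹ * q.1 := by rw [hy]; rfl
  have hy2 : y 2 = (e : ℂ)⁻¹ * q.2 := by rw [hy]; rfl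
  have hyne : y ≠ 0 := by
    intro h1
    exact hx (by rw [← hy0, h1]; rfl)
  by_cases ht : y ∈ tube r
  · right
    have h1 : ‖conn Φ y‖ = 0 := by
      rw [conn_tube h hE ht]
      exact ContinuousLinearMap.opNorm_zero
    rw [h1, mul_zero] at hbd
    exact (ContinuousLinearMap.opNorm_zero_iff _).1 (le_antisymm hbd (ContinuousLinearMap.opNorm_nonneg _))
  · left
    have h1 : r * nsq y ≤ Complex.normSq x := by
      by_contra hcon
      push Not at hcon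
      exact ht ⟨hyne, by rw [hy0]; exact hcon⟩
    have hsr : 0 < Real.sqrt r := Real.sqrt_pos.2 hr
    have hcoord : ∀ k, ‖y k‖ ≤ (Real.sqrt r)⁻¹ * ‖x‖ := by
      intro k
      have h2 : r * ‖y k‖ ^ 2 ≤ ‖x‖ ^ 2 := by
        have h3 : ‖y k‖ ^ 2 ≤ nsq y := by
          rw [← Complex.normSq_eq_norm_sq]
          unfold nsq
          exact Finset.single_le_sum (f := fun k => Complex.normSq (y k))
            (fun k _ => Complex.normSq_nonneg (y k)) (Finset.mem_univ k)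
        rw [← Complex.normSq_eq_norm_sq x]
        calc r * ‖y k‖ ^ 2 ≤ r * nsq y := by gcongr
          _ ≤ _ := h1
      have h4 : (Real.sqrt r * ‖y k‖) ^ 2 ≤ ‖x‖ ^ 2 := by
        rw [mul_pow, Real.sq_sqrt hr.le]
        exact h2
      have h5 : Real.sqrt r * ‖y k‖ ≤ ‖x‖ := 
        (pow_le_pow_iff_left₀ (by positivity) (norm_nonneg x) two_ne_zero).1 h4
      rw [← div_eq_inv_mul, le_div_iff₀ hsr, mul_comm]
      exact h5
    have hen : ‖((e : ℂ))⁻¹‖ = e⁻¹ := by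
      rw [norm_inv, Complex.norm_real, Real.norm_of_nonneg he.le]
    refine ⟨?_, ?_, ?_⟩
    · have h2 := hcoord 1
      rw [hy1, norm_mul, hen] at h2
      calc ‖q.1‖ = e * (e⁻¹ * ‖q.1‖) := by field_simp
        _ ≤ e * ((Real.sqrt r)⁻¹ * ‖x‖) := by gcongr
        _ = _ := by ring
    · have h2 := hcoord 2
      rw [hy2, norm_mul, hen] at h2
      calc ‖q.2‖ = e * (e⁻¹ * ‖q.2‖) := by field_simp
        _ ≤ e * ((Real.sqrt r)⁻¹ * ‖x‖) := by gcongr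
        _ = _ := by ring
    · refine hbd.trans ?_
      have hx0 : 0 < ‖x‖ := norm_pos_iff.2 hx
      have h2 : ‖y‖⁻¹ ≤ ‖x‖⁻¹ := by
        gcongr
        rw [← hy0]
        exact norm_le_pi_norm y 0
      calc e⁻¹ * ‖conn Φ y‖ ≤ e⁻¹ * (C * ‖y‖⁻¹) := by
            gcongr
            exact hb y hyne
        _ ≤ _ := by gcongr

theorem enP_sq {Φ : W 2 → W 2} (h : HLoc Φ) (h0 : ∀ z, Φ z 0 = z 0) {r : ℝ} (hr : 0 < r)
    (hE : ∀ z ∈ tube r, Φ z = z) {p : ℝ} (hp0 : 0 < p) (hp : p < 4) : ∃ K : ℝ, 0 ≤ K ∧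
    ∀ (e : ℝ) (he : 0 < e), e ≤ 1 →
      enP p (fun x => dgE e he.ne' (Φ ((dgE e he.ne').symm x))) ≤ ENNReal.ofReal (K * e ^ (4 - p)) := by
  obtain ⟨C, hC, hb⟩ := conn_bound h
  have hsr : 0 < Real.sqrt r := Real.sqrt_pos.2 hr
  refine ⟨C ^ p * ((Real.sqrt r)⁻¹ ^ 4 * Real.pi ^ 2) * Real.pi, by positivity, fun e he he1 => ?_⟩
  obtain ⟨Θ, hΘ⟩ : ∃ Θ : W 2 → W 2, Θ = fun x => dgE e he.ne' (Φ ((dgE e he.ne').symm x)) := ⟨_, rfl⟩
  have hΘl : HLoc Θ := by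
    rw [hΘ]
    exact hloc_T_left (hloc_T_right h _) _
  rw [← hΘ]
  obtain ⟨a, ha⟩ : ∃ a : ℝ, a = e / Real.sqrt r := ⟨_, rfl⟩
  have ha0 : 0 < a := by
    rw [ha]
    positivity
  obtain ⟨f, hf⟩ : ∃ f : W 2 → ℝ≥0∞, f = fun z => ‖conn Θ z‖ₑ ^ p := ⟨_, rfl⟩
  have hfm : Measurable f := by
    rw [hf]
    exact (measurable_conn hΘl).pow_const p
  have e1 : enP p Θ = ∫⁻ z : W 2, (ball (0 : W 2) 1).indicator f z := by
    rw [lintegral_indicator measurableSet_ball, hf]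
    rfl
  obtain ⟨M, hM⟩ : ∃ M : ℂ → ℝ≥0∞, M = fun x => ENNReal.ofReal ((e⁻¹ * (C * ‖x‖⁻¹)) ^ p) := ⟨_, rfl⟩
  have hkey : ∀ x : ℂ, x ≠ 0 → ∀ q : ℂ × ℂ, f ![x, q.1, q.2] ≤
      (closedBall (0 : ℂ) (a * ‖x‖) ×ˢ closedBall (0 : ℂ) (a * ‖x‖)).indicator (fun _ => M x) q := by
    intro x hx q
    rw [hf]
    show ‖conn Θ ![x, q.1, q.2]‖ₑ ^ p ≤ _
    rcases sq_bound h h0 hr hE hC hb he he1 hx q with ⟨h1, h2, h3⟩ | h1
    · rw [← hΘ] at h3
      rw [← ha] at h1 h2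
      have hq : q ∈ closedBall (0 : ℂ) (a * ‖x‖) ×ˢ closedBall (0 : ℂ) (a * ‖x‖) := by
        rw [mem_prod, mem_closedBall, mem_closedBall, dist_zero_right, dist_zero_right]
        exact ⟨h1, h2⟩
      rw [indicator_of_mem hq, hM]
      show _ ≤ ENNReal.ofReal ((e⁻¹ * (C * ‖x‖⁻¹)) ^ p)
      rw [← ofReal_norm (conn Θ ![x, q.1, q.2]), ENNReal.ofReal_rpow_of_nonneg (norm_nonneg _) hp0.le]
      apply ENNReal.ofReal_le_ofReal
      gcongr
    · rw [← hΘ] at h1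
      have h2 : ‖conn Θ ![x, q.1, q.2]‖ₑ = 0 := by
        rw [← ofReal_norm (conn Θ ![x, q.1, q.2]), h1]
        have h3 : ‖(0 : W 2 →L[ℝ] EndW 2)‖ = 0 := ContinuousLinearMap.opNorm_zero
        exact (congrArg ENNReal.ofReal h3).trans ENNReal.ofReal_zero
      rw [h2, ENNReal.zero_rpow_of_pos hp0]
      exact zero_le
  rw [e1, lint_W0 (hfm.indicator measurableSet_ball)]
  calc ∫⁻ x : ℂ, ∫⁻ q : ℂ × ℂ, (ball (0 : W 2) 1).indicator f ![x, q.1, q.2]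
      ≤ ∫⁻ x : ℂ, (ball (0 : ℂ) 1).indicator (fun _ =>
          ENNReal.ofReal (C ^ p * ((Real.sqrt r)⁻¹ ^ 4 * Real.pi ^ 2) * e ^ (4 - p))) x := by
        refine lintegral_mono_ae ?_
        have hne : ∀ᵐ x : ℂ, x ≠ 0 := Measure.ae_ne volume (0 : ℂ)
        filter_upwards [hne] with x hx
        have hx0 : 0 < ‖x‖ := norm_pos_iff.2 hx
        by_cases hx1 : x ∈ ball (0 : ℂ) 1
        · rw [indicator_of_mem hx1]
          rw [mem_ball, dist_zero_right] at hx1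
          calc ∫⁻ q : ℂ × ℂ, (ball (0 : W 2) 1).indicator f ![x, q.1, q.2]
              ≤ ∫⁻ q : ℂ × ℂ, (closedBall (0 : ℂ) (a * ‖x‖) ×ˢ
                  closedBall (0 : ℂ) (a * ‖x‖)).indicator (fun _ => M x) q := by
                refine lintegral_mono fun q => ?_
                refine le_trans ?_ (hkey x hx q)
                by_cases hq : (![x, q.1, q.2] : W 2) ∈ ball (0 : W 2) 1
                · rw [indicator_of_mem hq]
                · rw [indicator_of_notMem hq]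
                  exact zero_le
            _ = M x * (ENNReal.ofReal (a * ‖x‖) ^ 2 * NNReal.pi *
                  (ENNReal.ofReal (a * ‖x‖) ^ 2 * NNReal.pi)) := by
                rw [lintegral_indicator_const (measurableSet_closedBall.prod measurableSet_closedBall),
                  Measure.volume_eq_prod, Measure.prod_prod, Complex.volume_closedBall]
            _ = ENNReal.ofReal ((e⁻¹ * (C * ‖x‖⁻¹)) ^ p * ((a * ‖x‖) ^ 2 * Real.pi *
                  ((a * ‖x‖) ^ 2 * Real.pi))) := by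
                have hpi : (NNReal.pi : ℝ≥0∞) = ENNReal.ofReal Real.pi := by
                  rw [ENNReal.ofReal_eq_coe_nnreal Real.pi_pos.le]
                  rfl
                rw [hM, hpi, ← ENNReal.ofReal_pow (by positivity), ← ENNReal.ofReal_mul (by positivity),
                  ← ENNReal.ofReal_mul (by positivity), ← ENNReal.ofReal_mul (by positivity)]
            _ ≤ ENNReal.ofReal (C ^ p * ((Real.sqrt r)⁻¹ ^ 4 * Real.pi ^ 2) * e ^ (4 - p)) := by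
                apply ENNReal.ofReal_le_ofReal
                have r1 : (e⁻¹ * (C * ‖x‖⁻¹)) ^ p = C ^ p * (e ^ (-p) * ‖x‖ ^ (-p)) := by
                  rw [Real.mul_rpow (by positivity) (by positivity),
                    Real.mul_rpow hC (by positivity), Real.inv_rpow he.le, Real.inv_rpow hx0.le,
                    Real.rpow_neg he.le, Real.rpow_neg hx0.le]
                  ring
                have r2 : e ^ (4 - p) = e ^ (-p) * e ^ 4 := by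
                  rw [sub_eq_add_neg, add_comm, Real.rpow_add he]
                  norm_num
                have r3 : ‖x‖ ^ (-p) * ‖x‖ ^ 4 ≤ 1 := by
                  have : ‖x‖ ^ (-p) * ‖x‖ ^ 4 = ‖x‖ ^ (4 - p) := by
                    rw [sub_eq_add_neg, add_comm, Real.rpow_add hx0]
                    norm_num
                  rw [this]
                  exact Real.rpow_le_one hx0.le hx1.le (by linarith)
                rw [r1, r2, ha]
                calc C ^ p * (e ^ (-p) * ‖x‖ ^ (-p)) * ((e / Real.sqrt r * ‖x‖) ^ 2 * Real.pi *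
                      ((e / Real.sqrt r * ‖x‖) ^ 2 * Real.pi))
                    = C ^ p * ((Real.sqrt r)⁻¹ ^ 4 * Real.pi ^ 2) * (e ^ (-p) * e ^ 4) *
                      (‖x‖ ^ (-p) * ‖x‖ ^ 4) := by ring
                  _ ≤ C ^ p * ((Real.sqrt r)⁻¹ ^ 4 * Real.pi ^ 2) * (e ^ (-p) * e ^ 4) * 1 := by
                      gcongr
                  _ = _ := mul_one _
        · rw [indicator_of_notMem hx1]
          have : ∀ q : ℂ × ℂ, (ball (0 : W 2) 1).indicator f ![x, q.1, q.2] = 0 := by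
            intro q
            apply indicator_of_notMem
            intro hq
            apply hx1
            rw [mem_ball, dist_zero_right] at hq ⊢
            exact lt_of_le_of_lt (norm_le_pi_norm (![x, q.1, q.2] : W 2) 0) hq
          simp only [this, lintegral_zero, le_refl]
    _ = ENNReal.ofReal (C ^ p * ((Real.sqrt r)⁻¹ ^ 4 * Real.pi ^ 2) * Real.pi * e ^ (4 - p)) := by
        rw [lintegral_indicator_const measurableSet_ball, Complex.volume_ball]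
        have hpi : (NNReal.pi : ℝ≥0∞) = ENNReal.ofReal Real.pi := by
          rw [ENNReal.ofReal_eq_coe_nnreal Real.pi_pos.le]
          rfl
        rw [hpi, ENNReal.ofReal_one, one_pow, one_mul, ← ENNReal.ofReal_mul (by positivity)]
        congr 1
        ring

theorem squeeze {Φ : W 2 → W 2} (h : HLoc Φ) (h0 : ∀ z, Φ z 0 = z 0) {r : ℝ} (hr : 0 < r)
    (hE : ∀ z ∈ tube r, Φ z = z) {p : ℝ} (hp0 : 0 < p) (hp : p < 4) {ε : ℝ≥0∞} (hε : 0 < ε) :
    ∃ T : W 2 ≃ₗ[ℂ] W 2, enP p (fun z => T (Φ (T.symm z))) ≤ ε := by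
  obtain ⟨K, hK, hb⟩ := enP_sq h h0 hr hE hp0 hp
  by_cases hεt : ε = ⊤
  · exact ⟨LinearEquiv.refl ℂ (W 2), by rw [hεt]; exact le_top⟩
  have hε' : 0 < ε.toReal := ENNReal.toReal_pos hε.ne' hεt
  have h4 : 0 < 4 - p := by linarith
  obtain ⟨b, hb'⟩ : ∃ b : ℝ, b = (ε.toReal / (K + 1)) ^ (1 / (4 - p)) := ⟨_, rfl⟩
  have hb0 : 0 < b := by
    rw [hb']
    positivity
  obtain ⟨e, he'⟩ : ∃ e : ℝ, e = min 1 b := ⟨_, rfl⟩
  have he : 0 < e := by
    rw [he']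
    exact lt_min one_pos hb0
  have he1 : e ≤ 1 := by
    rw [he']
    exact min_le_left _ _
  have heb : e ≤ b := by
    rw [he']
    exact min_le_right _ _
  refine ⟨dgE e he.ne', (hb e he he1).trans ?_⟩
  have h5 : e ^ (4 - p) ≤ ε.toReal / (K + 1) := by
    calc e ^ (4 - p) ≤ b ^ (4 - p) := by gcongr
      _ = ε.toReal / (K + 1) := by
        rw [hb', ← Real.rpow_mul (by positivity)]
        have : 1 / (4 - p) * (4 - p) = 1 := by field_simp
        rw [this, Real.rpow_one]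
  rw [ENNReal.ofReal_le_iff_le_toReal hεt]
  calc K * e ^ (4 - p) ≤ K * (ε.toReal / (K + 1)) := by gcongr
    _ ≤ ε.toReal := by
      rw [mul_div_assoc', div_le_iff₀ (by positivity)]
      nlinarith

end Pool.Agent.Lib.PJ
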