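import Pool.Agent.Lib.PJ.ConvA
import Pool.Agent.Lib.PJ.ConvB
import Pool.Agent.Lib.PJ.BallM

set_option autoImplicit false

/-!
# Ball-supported diffeomorphisms have infimum `0` (step (3))

PROOF. `ball_diffh`: `Φ` from `lift_ball`. Homotopy: `Λ (t, z) = (1 - t) • z + t • Φ z` is homogeneous, smooth off `0` and `≠ 0` for `z ≠ 0` (if `z 0 ≠ 0` its coordinate `0` is `z 0`; if `z 0 = 0` then `z ∈ tube r`, `Φ z = z`), so `H = ext Λ` is smooth (`contDiff_ext`), `H (t, pt z) = pt (Λ (t, z))` (`ext_pt`).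
`conv`: `Φ`, `T` from `lift_ball`, `squeeze`; `Φ' z = T (Φ (T.symm z))`; `Conn Φ Φ'` by `conn_T_left`, `conn_T_right` of `Lin` (`Conn.trans`); `Φ'` is injective (`conn_inj`) and induces `B' P = ext (fun q => Φ' q.2) (0, P)` (or `ball_of_lift`-like construction; only the values on `CP 2` matter), `Isotopic 2 B B'` by `fam_isotopic`; `pE p B' ≤ enP p Φ'` (`iInf_le`).
`energy_zero_iff`-type statements are left to `Main`.
-/

open MeasureTheory Set Metric Filter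
open scoped ContDiff Topology ENNReal

namespace Pool.Agent.Lib.PJ

open Pool.Agent.P28b04d Pool.Agent.Lib.P28e Pool.Agent.Lib.P28c Pool.Agent.Lib.P28g
open Pool.Agent.Lib.P28f (ult)

theorem ball_diffh {B : Mat 2 → Mat 2} (hB : BallDiff B) : Diffh 2 B := by
  obtain ⟨Φ, r, hΦ, hi, hr, hlift, h0, hE⟩ := lift_ball hB
  refine ⟨hB.1, hB.2.1, hB.2.2.1, ?_⟩
  obtain ⟨Λ, hΛ⟩ : ∃ Λ : ℝ × W 2 → W 2, Λ = fun q => (1 - q.1) • q.2 + q.1 • Φ q.2 := ⟨_, rfl⟩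
  have hΛa : ∀ t z, Λ (t, z) = (1 - t) • z + t • Φ z := fun t z => by rw [hΛ]
  have hsm : ContDiffOn ℝ ∞ Λ (univ ×ˢ {0}ᶜ) := by
    rintro ⟨t, z⟩ ⟨-, hz⟩
    apply ContDiffAt.contDiffWithinAt
    have a1 : ContDiffAt ℝ ∞ (fun q : ℝ × W 2 => Φ q.2) (t, z) :=
      (hΦ.contDiffAt hz).comp (t, z) contDiffAt_snd
    rw [hΛ]
    exact ((contDiffAt_const.sub contDiffAt_fst).fun_smul contDiffAt_snd).add
      (contDiffAt_fst.fun_smul a1)
  have hne : ∀ t z, z ≠ 0 → Λ (t, z) ≠ 0 := by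
    intro t z hz
    rw [hΛa]
    by_cases hz0 : z 0 = 0
    · rw [hE z (mem_tube_of_P0 hr hz0 hz), ← add_smul]
      simpa using hz
    · intro h1
      have h2 : (1 - t) • z 0 + t • Φ z 0 = 0 := congrFun h1 0
      rw [h0, ← add_smul] at h2
      apply hz0
      simpa using h2
  have hhom : ∀ t (c : ℂ) z, Λ (t, c • z) = c • Λ (t, z) := by
    intro t c z
    rw [hΛa, hΛa, hΦ.hom, smul_add, smul_comm (1 - t), smul_comm t]
  have hL : ContDiff ℝ ∞ (ext Λ) := contDiff_ext hsm hne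
  refine ⟨ext Λ, hL.continuous.continuousOn, ?_, ?_, ?_⟩
  · intro t _ P hP
    obtain ⟨z, hz, rfl⟩ := exists_pt hP
    rw [ext_pt hhom t hz]
    exact pt_mem (hne t z hz)
  · intro P hP
    obtain ⟨z, hz, rfl⟩ := exists_pt hP
    rw [ext_pt hhom 0 hz, hΛa]
    simp
  · intro P hP
    obtain ⟨z, hz, rfl⟩ := exists_pt hP
    rw [ext_pt hhom 1 hz, hΛa, hlift z hz]
    simp

theorem pE_le {p : ℝ} {F : Mat 2 → Mat 2} {Φ : W 2 → W 2} (h : HLoc Φ)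
    (hF : ∀ z : W 2, z ≠ 0 → F (pt z) = pt (Φ z)) : pE p F ≤ enP p Φ :=
  iInf_le_of_le Φ (iInf_le_of_le h (iInf_le _ hF))

theorem conv {B : Mat 2 → Mat 2} (hB : BallDiff B) {p : ℝ} (hp0 : 0 < p) (hp : p < 4) {ε : ℝ≥0∞}
    (hε : 0 < ε) : ∃ B' : Mat 2 → Mat 2, Isotopic 2 B B' ∧ pE p B' ≤ ε := by
  obtain ⟨Φ, r, hΦ, hi, hr, hlift, h0, hE⟩ := lift_ball hB
  obtain ⟨T, hT⟩ := squeeze hΦ h0 hr hE hp0 hp hε
  have h1 : HLoc fun z => Φ (T.symm z) := hloc_T_right hΦ T.symm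
  have h2 : HLoc fun z => T (Φ (T.symm z)) := hloc_T_left h1 T
  have hc : Conn Φ fun z => T (Φ (T.symm z)) := (conn_T_right hΦ T.symm).trans (conn_T_left h1 T)
  refine ⟨ind fun z => T (Φ (T.symm z)), ?_, (pE_le h2 fun z hz => ind_pt h2 hz).trans hT⟩
  obtain ⟨Λ, f, s, e⟩ := hc
  have hs : (fun z => Λ (0, z)) = Φ := funext fun z => s 0 le_rfl z
  apply fam_isotopic f
  · rw [hs]
    exact hi
  · intro z hz
    rw [hlift z hz, s 0 le_rfl z]
  · intro z hz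
    rw [ind_pt h2 hz, e 1 le_rfl z]

end Pool.Agent.Lib.PJ
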