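import Pool.Agent.Lib.P28g.LiftEx
import Pool.Agent.Lib.P28g.IsoFin
import Pool.Agent.Lib.P28g.NormSeq

set_option autoImplicit false

/-!
# Jumps of the `p`-energy on `CP²`: definitions

`W 2 = ℂ³` with the maximum norm, `P0` the plane `z 0 = 0`, `cp x ζ = (x, 1, ζ)` the affine chart around a point of the line `P0`,
`sw` the exchange of the last two coordinates, `shE b₁ b₂` the shear `z ↦ (z 0 + b₁ z 1 + b₂ z 2, z 1, z 2)`.
`LineC p L Φ`: the lift `Φ` has `p`-energy at most `L` on the line `P0` and weighted `p`-energy at most `L` around it (weight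
`|x| ^ (-(6 - p) / 2)`), in the chart `cp`; `LineE`: the same also in the second chart. `Nice p L K Ψ`: an injective lift with these
estimates whose derivative along `P0` has the bounds `K` (for the norm, the norm of the inverse and the Hölder norm of exponent `1 - 2/p`).
`BallDiff`: diffeomorphisms of `CP²` that are the identity near the line at infinity, i.e. supported in a ball of the affine plane.
-/

open MeasureTheory Set Metric
open scoped ContDiff Topology ENNReal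

namespace Pool.Agent.Lib.PJ

open Pool.Agent.P28b04d Pool.Agent.Lib.P28e Pool.Agent.Lib.P28c Pool.Agent.Lib.P28g

/-- The point `(x, 1, ζ)`. -/
def cp (x ζ : ℂ) : W 2 := ![x, 1, ζ]

/-- The plane `z 0 = 0`. -/
def P0 : Set (W 2) := {z | z 0 = 0}

/-- The exchange of the last two coordinates. -/
def sw (z : W 2) : W 2 := ![z 0, z 2, z 1]

/-- The exchange of the last two coordinates as a linear equivalence. -/
def swE : W 2 ≃ₗ[ℂ] W 2 where
  toFun := sw
  invFun := sw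
  map_add' x y := by
    ext k
    fin_cases k <;> rfl
  map_smul' c x := by
    ext k
    fin_cases k <;> rfl
  left_inv x := by
    ext k
    fin_cases k <;> rfl
  right_inv x := by
    ext k
    fin_cases k <;> rfl

/-- The shear `z ↦ (z 0 + b₁ z 1 + b₂ z 2, z 1, z 2)`. -/
def sh (b₁ b₂ : ℂ) (z : W 2) : W 2 := ![z 0 + b₁ * z 1 + b₂ * z 2, z 1, z 2]

/-- The shear as a linear equivalence. -/
def shE (b₁ b₂ : ℂ) : W 2 ≃ₗ[ℂ] W 2 where
  toFun := sh b₁ b₂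
  invFun := sh (-b₁) (-b₂)
  map_add' x y := by
    ext k
    fin_cases k
    · simp [sh]; ring
    · simp [sh]
    · simp [sh]
  map_smul' c x := by
    ext k
    fin_cases k
    · simp [sh]; ring
    · simp [sh]
    · simp [sh]
  left_inv x := by
    ext k
    fin_cases k
    · simp [sh]
      ring
    · simp [sh]
    · simp [sh]
  right_inv x := by
    ext k
    fin_cases k
    · simp [sh]
      ring
    · simp [sh]
    · simp [sh]

/-- Estimates on the line `P0` and around it, in the chart `cp`. -/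
structure LineC (p L : ℝ) (Φ : W 2 → W 2) : Prop where
  hloc : HLoc Φ
  l : ∫⁻ ζ in ball (0 : ℂ) 2, ‖conn Φ (cp 0 ζ)‖ₑ ^ p ≤ ENNReal.ofReal L
  w : ∫⁻ q in ball (0 : ℂ) 1 ×ˢ ball (0 : ℂ) 3,
    ‖conn Φ (cp q.1 q.2)‖ₑ ^ p * ‖q.1‖ₑ ^ (-((6 - p) / 2)) ≤ ENNReal.ofReal L

/-- The same in both charts. -/
def LineE (p L : ℝ) (Φ : W 2 → W 2) : Prop := LineC p L Φ ∧ LineC p L fun z => Φ (sw z)

/-- `A⁻¹ i A`. -/
noncomputable def Jr (A : EndW 2) : EndW 2 := Ring.inverse A * mulC Complex.I * A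

/-- Injective lifts whose derivative is controlled along `P0`. -/
structure Nice (p L K : ℝ) (Ψ : W 2 → W 2) : Prop where
  line : LineE p L Ψ
  inj : Function.Injective Ψ
  up : ∀ z ∈ P0, z ≠ 0 → ‖(fderiv ℝ Ψ z : EndW 2)‖ ≤ K
  low : ∀ z ∈ P0, z ≠ 0 → ‖Ring.inverse (fderiv ℝ Ψ z : EndW 2)‖ ≤ K
  mod : ∀ z ∈ P0, ∀ w ∈ P0, ‖z‖ = 1 → ‖w‖ = 1 →
    ‖(fderiv ℝ Ψ z : EndW 2) - fderiv ℝ Ψ w‖ ≤ K * ‖z - w‖ ^ (1 - 2 / p)

/-- The open cone `|z 0|² < δ |z|²` around `P0`, without the origin. -/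
def tube (δ : ℝ) : Set (W 2) := {z | z ≠ 0 ∧ Complex.normSq (z 0) < δ * nsq z}

/-- The straight line between two maps. -/
noncomputable def sg (Φ Ψ : W 2 → W 2) (t : ℝ) (z : W 2) : W 2 := (1 - t) • Φ z + t • Ψ z

/-- Diffeomorphisms of `CP²` that are the identity near the line `P 0 0 = 0`. -/
def BallDiff (B : (Fin 3 → Fin 3 → ℂ) → (Fin 3 → Fin 3 → ℂ)) : Prop :=
  ContDiff ℝ (⊤ : ℕ∞) B ∧ (∀ P ∈ CP 2, B P ∈ CP 2) ∧
    (∃ G : (Fin 3 → Fin 3 → ℂ) → (Fin 3 → Fin 3 → ℂ),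
      ContDiff ℝ (⊤ : ℕ∞) G ∧ (∀ P ∈ CP 2, G P ∈ CP 2) ∧
      (∀ P ∈ CP 2, G (B P) = P) ∧ (∀ P ∈ CP 2, B (G P) = P)) ∧
    ∃ r : ℝ, 0 < r ∧ ∀ P ∈ CP 2, (P 0 0).re < r → B P = P

/-- The `p`-energy of a lift. -/
noncomputable def enP (p : ℝ) (Φ : W 2 → W 2) : ℝ≥0∞ :=
  ∫⁻ x in ball (0 : W 2) 1, ‖conn Φ x‖ₑ ^ p

/-- The `p`-energy of a self-map of `CP²`: the infimum over all homogeneous lifts. -/
noncomputable def pE (p : ℝ) (F : (Fin 3 → Fin 3 → ℂ) → (Fin 3 → Fin 3 → ℂ)) : ℝ≥0∞ :=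
  ⨅ (Φ : W 2 → W 2) (_ : HLoc Φ) (_ : ∀ z : W 2, z ≠ 0 → F (pt z) = pt (Φ z)), enP p Φ

end Pool.Agent.Lib.PJ
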