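import Pool.Agent.Lib.PJ.Defs

set_option autoImplicit false

/-!
# A homogeneous smooth family through the identity

PROOF. `D_t(w) = fderiv ℝ (fun x => X (t, x)) w` is continuous in `(t, w)` for `w ≠ 0`, `D_{t₀}(w) = 1`. The set of `(t, w)`, `w ≠ 0`, with `D_t(w)` injective (a unit) is open and contains `{t₀} × sphere 0 1`, so by compactness (tube lemma, `generalized_tube_lemma` or `IsCompact.eventually_forall_of_forall_eventually`) there is `ε > 0` such that it contains
`(t₀ - ε, t₀ + ε) × sphere 0 1`, and by homogeneity (real scaling) `(t₀ - ε, t₀ + ε) × {0}ᶜ`. For `|t - t₀| < ε` the family `Λ (s, w) = X (t₀ + Real.smoothTransition s * (t - t₀), w)` is a `Fam` (parameters stay between `t₀` and `t`), `= w` for `s ≤ 0`, `= X (t, w)` for `s ≥ 1` (compare `Step.conn` in P28b04d/Chain.lean).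
-/

open MeasureTheory Set Metric Filter
open scoped ContDiff Topology ENNReal

namespace Pool.Agent.Lib.PJ

open Pool.Agent.P28b04d Pool.Agent.Lib.P28e Pool.Agent.Lib.P28c Pool.Agent.Lib.P28g
open Pool.Agent.Lib.P28f (ult)

theorem fam_near {X : ℝ × W 2 → W 2} (hX : ContDiffOn ℝ ∞ X (univ ×ˢ {0}ᶜ))
    (hh : ∀ (t : ℝ) (c : ℂ) (w : W 2), X (t, c • w) = c • X (t, w)) {t₀ : ℝ}
    (h0 : ∀ w, X (t₀, w) = w) : ∀ᶠ t in 𝓝 t₀, Conn (id : W 2 → W 2) fun w => X (t, w) := by
  have hopen : IsOpen ((univ : Set ℝ) ×ˢ ({0}ᶜ : Set (W 2))) := isOpen_univ.prod isOpen_compl_singleton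
  have hat : ∀ (t : ℝ) {w : W 2}, w ≠ 0 → ContDiffAt ℝ ∞ X (t, w) := fun t w hw =>
    hX.contDiffAt (hopen.mem_nhds ⟨mem_univ _, hw⟩)
  -- the partial derivative
  let D : ℝ × W 2 → EndW 2 := fun q => (fderiv ℝ X q).comp (ContinuousLinearMap.inr ℝ ℝ (W 2))
  have hD : ∀ (t : ℝ) {w : W 2}, w ≠ 0 → HasFDerivAt (fun x => X (t, x)) (D (t, w)) w := by
    intro t w hw
    have h1 : HasFDerivAt X (fderiv ℝ X (t, w)) (t, w) :=
      ((hat t hw).differentiableAt (by simp)).hasFDerivAt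
    exact h1.comp w (hasFDerivAt_prodMk_right t w)
  have hDc : ContinuousOn D (univ ×ˢ {0}ᶜ) := by
    intro q hq
    have h1 : ContDiffAt ℝ ∞ (fderiv ℝ X) q := (hX.contDiffAt (hopen.mem_nhds hq)).fderiv_right (by simp)
    have h2 : ContinuousAt (fderiv ℝ X) q := h1.continuousAt
    exact (h2.clm_comp continuousAt_const).continuousWithinAt
  -- the good set
  have hgood : ∀ w ∈ sphere (0 : W 2) 1, ∀ᶠ q in 𝓝 (t₀, w), IsUnit (D q) := by
    intro w hw
    have hw0 : w ≠ 0 := by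
      rw [mem_sphere_zero_iff_norm] at hw
      rw [← norm_pos_iff, hw]
      exact one_pos
    have h1 : D (t₀, w) = 1 := by
      have h2 := hD t₀ hw0
      have h3 : (fun x => X (t₀, x)) = id := funext h0
      rw [h3] at h2
      exact h2.unique (hasFDerivAt_id w)
    have h2 : ContinuousAt D (t₀, w) := hDc.continuousAt (hopen.mem_nhds ⟨mem_univ _, hw0⟩)
    have h3 : {A : EndW 2 | IsUnit A} ∈ 𝓝 (D (t₀, w)) := by
      rw [h1]
      exact Units.isOpen.mem_nhds isUnit_one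
    exact h2 h3
  have hnear : ∀ᶠ t in 𝓝 t₀, ∀ w ∈ sphere (0 : W 2) 1, IsUnit (D (t, w)) :=
    IsCompact.eventually_forall_of_forall_eventually (isCompact_sphere (0 : W 2) 1) hgood
  obtain ⟨ε, hε, hball⟩ := Metric.eventually_nhds_iff.1 hnear
  refine Metric.eventually_nhds_iff.2 ⟨ε, hε, fun t ht => ?_⟩
  -- injectivity of the derivatives
  have hinj : ∀ s : ℝ, dist s t₀ < ε → ∀ w : W 2, w ≠ 0 → ∀ v, fderiv ℝ (fun x => X (s, x)) w v = 0 →
      v = 0 := by
    intro s hs w hw v hv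
    have hwn : 0 < ‖w‖ := norm_pos_iff.2 hw
    obtain ⟨y, hy⟩ : ∃ y : W 2, y = ‖w‖⁻¹ • w := ⟨_, rfl⟩
    have hy1 : ‖y‖ = 1 := by
      rw [hy, norm_smul, norm_inv, norm_norm, inv_mul_cancel₀ hwn.ne']
    have hy0 : y ≠ 0 := by rw [← norm_pos_iff, hy1]; exact one_pos
    have hwy : w = ‖w‖ • y := by
      rw [hy, smul_smul, mul_inv_cancel₀ hwn.ne', one_smul]
    -- derivative at `w` equals derivative at `y`
    have h1 : HasFDerivAt (fun x => X (s, ‖w‖ • x)) ((D (s, w)).comp (‖w‖ • ContinuousLinearMap.id ℝ (W 2))) y := by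
      have h2 : HasFDerivAt (fun x : W 2 => ‖w‖ • x) (‖w‖ • ContinuousLinearMap.id ℝ (W 2)) y :=
        (hasFDerivAt_id y).const_smul ‖w‖
      have h3 : HasFDerivAt (fun x => X (s, x)) (D (s, w)) (‖w‖ • y) := by
        rw [← hwy]
        exact hD s hw
      exact h3.comp y h2
    have h4 : (fun x => X (s, ‖w‖ • x)) = fun x => ‖w‖ • X (s, x) := by
      funext x
      rw [Hom46.smul_real, Hom46.smul_real, hh]
    rw [h4] at h1
    have h5 := h1.unique ((hD s hy0).const_smul ‖w‖)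
    have h6 := congrArg (fun L : W 2 →L[ℝ] W 2 => L v) h5
    have h7 : D (s, w) (‖w‖ • v) = ‖w‖ • D (s, y) v := h6
    rw [map_smul] at h7
    have h8 : D (s, w) v = D (s, y) v := smul_right_injective _ hwn.ne' h7
    rw [(hD s hw).fderiv, h8] at hv
    obtain ⟨u, hu⟩ := hball hs y (by rw [mem_sphere_zero_iff_norm]; exact hy1)
    have h9 : v = ((u⁻¹ : (EndW 2)ˣ) : EndW 2) (D (s, y) v) := by
      rw [← hu]
      show v = (((u⁻¹ : (EndW 2)ˣ) : EndW 2) * (u : EndW 2)) v
      rw [Units.inv_mul]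
      rfl
    rw [h9, hv, map_zero]
  refine ⟨fun q => X (t₀ + Real.smoothTransition q.1 * (t - t₀), q.2), ⟨?_, ?_, ?_⟩, ?_, ?_⟩
  · rintro ⟨s, z⟩ ⟨-, hz⟩
    apply ContDiffAt.contDiffWithinAt
    have h1 : ContDiffAt ℝ ∞ (fun q : ℝ × W 2 =>
        (t₀ + Real.smoothTransition q.1 * (t - t₀), q.2)) (s, z) := by
      have a3 : ContDiffAt ℝ ∞ (fun q : ℝ × W 2 => Real.smoothTransition q.1) (s, z) :=
        (Real.smoothTransition.contDiff.comp contDiff_fst).contDiffAt
      exact (contDiffAt_const.add (a3.mul contDiffAt_const)).prodMk contDiffAt_snd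
    exact (hat _ hz).comp (s, z) h1
  · intro s c z
    exact hh _ c z
  · intro s z hz v hv
    refine hinj (t₀ + Real.smoothTransition s * (t - t₀)) ?_ z hz v hv
    rw [Real.dist_eq]
    have h1 : t₀ + Real.smoothTransition s * (t - t₀) - t₀ = Real.smoothTransition s * (t - t₀) := by ring
    rw [h1, abs_mul, abs_of_nonneg (Real.smoothTransition.nonneg s)]
    rw [Real.dist_eq] at ht
    calc Real.smoothTransition s * |t - t₀| ≤ 1 * |t - t₀| := by
          gcongr
          exact Real.smoothTransition.le_one s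
      _ < ε := by rw [one_mul]; exact ht
  · intro s hs z
    simp only [Real.smoothTransition.zero_of_nonpos hs, zero_mul, add_zero, id]
    exact h0 z
  · intro s hs z
    simp only [Real.smoothTransition.one_of_one_le hs, one_mul, add_sub_cancel]

end Pool.Agent.Lib.PJ
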