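import Pool.Agent.Lib.PJ.TubeF
import Pool.Agent.Lib.PJ.Lin

set_option autoImplicit false

/-!
# Extension of a deformation supported near the line (step 8)

PROOF. `g = Function.invFunOn f (tube δ)`; `X (t, w) = w + Y (t, g w)` if `w ∈ f '' tube δ`, `X (t, w) = w` otherwise. For `z ∈ tube δ`: `g (f z) = z` (injectivity), so `X (t, f z) = f z + Y (t, z)`. `tube δ` is an open cone (`c • z ∈ tube δ` for `c ≠ 0`), `f (c • z) = c • f z`, so `g (c • w) = c • g w` for `w ∈ f '' tube δ`, `c ≠ 0`; homogeneity of `X`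
(for `c = 0`: `X (t, 0) = 0`: `0 ∉ f '' tube δ` because `f z ≠ 0` for `z ∈ tube δ`: `fderiv ℝ f z z = f z`, `z ≠ 0`).
Smoothness at `(t, w₀)`, `w₀ ≠ 0`. (a) `w₀ = f z₀`, `z₀ ∈ tube δ`: `f` is smooth at `z₀` with invertible derivative (`exists_equiv`), `ContDiffAt.toOpenPartialHomeomorph` / `ContDiffAt.to_localInverse`: a smooth local inverse `l` near `w₀` with `l w₀ = z₀`, `f (l w) = w`, `l w ∈ tube δ` near `w₀` (open), so `w ∈ f '' tube δ` and `g w = l w` near `w₀`;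
`X (t, w) = w + Y (t, l w)` near `(t, w₀)`. (b) `w₀ ∉ f '' tube δ`: let `C = {z | normSq (z 0) ≤ δ' nsq z}`, a closed cone containing `0`, `tube δ' ⊆ C` and `C \ {0} ⊆ tube δ` (`δ' < δ`, `nsq z > 0`), `f` is continuous on `W 2` (homogeneous and continuous off `0`), `f z ≠ 0` for `z ∈ C`, `z ≠ 0`, so `‖f z‖ ≥ m ‖z‖` on `C` for some `m > 0`
(compact `C ∩ sphere 0 1`). `w₀ ∉ f '' C`; `f '' (C ∩ closedBall 0 R)` is compact, hence closed, with `R = (‖w₀‖ + 1) / m`; so `w₀` has a neighbourhood `V ⊆ ball 0 (‖w₀‖ + 1)` disjoint from `f '' C`. On `V`: either `w ∉ f '' tube δ`, `X (t, w) = w`, or `w = f z` with `z ∈ tube δ`, `z ∉ C`, so `z ∉ tube δ'`, `Y (t, z) = 0`, `X (t, w) = w`.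
-/

open MeasureTheory Set Metric Filter
open scoped ContDiff Topology ENNReal

namespace Pool.Agent.Lib.PJ

open Pool.Agent.P28b04d Pool.Agent.Lib.P28e Pool.Agent.Lib.P28c Pool.Agent.Lib.P28g
open Pool.Agent.Lib.P28f (ult)

theorem part_ext {f : W 2 → W 2} {Y : ℝ × W 2 → W 2} {δ δ' : ℝ} (hδ' : 0 < δ') (hδ : δ' < δ)
    (hf : ContDiffOn ℝ ∞ f {0}ᶜ) (hfh : ∀ (c : ℂ) (z : W 2), f (c • z) = c • f z)
    (hi : InjOn f (tube δ)) (hd : ∀ z ∈ tube δ, ∀ v, fderiv ℝ f z v = 0 → v = 0)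
    (hY : ContDiffOn ℝ ∞ Y (univ ×ˢ {0}ᶜ))
    (hYh : ∀ (t : ℝ) (c : ℂ) (z : W 2), Y (t, c • z) = c • Y (t, z))
    (hY0 : ∀ (t : ℝ) (z : W 2), z ∉ tube δ' → Y (t, z) = 0) :
    ∃ X : ℝ × W 2 → W 2, ContDiffOn ℝ ∞ X (univ ×ˢ {0}ᶜ) ∧
      (∀ (t : ℝ) (c : ℂ) (w : W 2), X (t, c • w) = c • X (t, w)) ∧
      (∀ t : ℝ, ∀ z ∈ tube δ, X (t, f z) = f z + Y (t, z)) ∧
      ∀ t : ℝ, (∀ z, Y (t, z) = 0) → ∀ w, X (t, w) = w := by
  classical
  have hfat : ∀ {z : W 2}, z ≠ 0 → ContDiffAt ℝ ∞ f z := fun hz =>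
    hf.contDiffAt (isOpen_compl_singleton.mem_nhds hz)
  have hf0 : f 0 = 0 := by
    have := hfh 0 0
    simpa using this
  -- Euler
  have heul : ∀ {z : W 2}, z ≠ 0 → fderiv ℝ f z z = f z := by
    intro z hz
    have hdz : HasFDerivAt f (fderiv ℝ f z) ((1 : ℝ) • z) := by
      rw [one_smul]
      exact ((hfat hz).differentiableAt (by simp)).hasFDerivAt
    have h3 : HasDerivAt (fun t : ℝ => t • z) z 1 := by
      simpa using (hasDerivAt_id (1 : ℝ)).smul_const z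
    have h4 := hdz.comp_hasDerivAt (1 : ℝ) h3
    have h5 : (f ∘ fun t : ℝ => t • z) = fun t : ℝ => t • f z := by
      funext t
      show f (t • z) = t • f z
      rw [Hom46.smul_real, Hom46.smul_real, hfh]
    rw [h5] at h4
    exact h4.unique (by simpa using (hasDerivAt_id (1 : ℝ)).smul_const (f z))
  have hfne : ∀ {z : W 2}, z ∈ tube δ → f z ≠ 0 := by
    intro z hz h0
    have h1 := heul hz.1
    rw [h0] at h1
    exact hz.1 (hd z hz z h1)
  -- continuity of `f` on the whole space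
  have hbd : ∃ M : ℝ, 0 ≤ M ∧ ∀ z, ‖f z‖ ≤ M * ‖z‖ := by
    have hsub : sphere (0 : W 2) 1 ⊆ {0}ᶜ := fun x hx h0 => by
      rw [mem_singleton_iff] at h0
      rw [h0, mem_sphere_zero_iff_norm, norm_zero] at hx
      norm_num at hx
    obtain ⟨M, hM⟩ := (isCompact_sphere (0 : W 2) 1).exists_bound_of_continuousOn
      (hf.continuousOn.mono hsub)
    refine ⟨max M 0, le_max_right _ _, fun z => ?_⟩
    by_cases hz : z = 0
    · rw [hz, hf0, norm_zero, mul_zero]
    · obtain ⟨u, hu, -, hn⟩ := norm_hom hfh hz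
      rw [hn, mul_comm]
      gcongr
      exact (hM u (by rw [mem_sphere_zero_iff_norm]; exact hu)).trans (le_max_left _ _)
  have hfc : Continuous f := by
    obtain ⟨M, hM0, hM⟩ := hbd
    rw [continuous_iff_continuousAt]
    intro z
    by_cases hz : z = 0
    · subst hz
      rw [ContinuousAt, hf0, tendsto_zero_iff_norm_tendsto_zero]
      refine squeeze_zero (fun x => norm_nonneg _) hM ?_
      have : Tendsto (fun x : W 2 => M * ‖x‖) (𝓝 0) (𝓝 (M * ‖(0 : W 2)‖)) :=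
        (continuous_const.mul continuous_norm).tendsto 0
      rwa [norm_zero, mul_zero] at this
    · exact (hfat hz).continuousAt
  -- the closed cone
  obtain ⟨C, hC⟩ : ∃ C : Set (W 2), C = {z | Complex.normSq (z 0) ≤ δ' * nsq z} := ⟨_, rfl⟩
  have hCc : IsClosed C := by
    rw [hC]
    exact isClosed_le (Complex.continuous_normSq.comp (continuous_apply 0))
      (continuous_const.mul continuous_nsq)
  have hCt : ∀ z ∈ C, z ≠ 0 → z ∈ tube δ := by
    intro z hz hz0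
    rw [hC] at hz
    refine ⟨hz0, lt_of_le_of_lt hz ?_⟩
    have := nsq_pos hz0
    gcongr
  have htC : ∀ z, z ∉ C → z ∉ tube δ' := by
    intro z hz hzt
    apply hz
    rw [hC]
    exact hzt.2.le
  have hCsm : ∀ (r : ℝ) (z : W 2), z ∈ C → r • z ∈ C := by
    intro r z hz
    rw [hC] at hz ⊢
    show Complex.normSq ((r • z) 0) ≤ δ' * nsq (r • z)
    rw [Hom46.smul_real, Pi.smul_apply, smul_eq_mul, map_mul, Pool.Agent.P28b04d.nsq_smul]
    have h1 : 0 ≤ Complex.normSq (r : ℂ) := Complex.normSq_nonneg _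
    calc Complex.normSq (r : ℂ) * Complex.normSq (z 0) ≤ Complex.normSq (r : ℂ) * (δ' * nsq z) := by
          gcongr
          exact hz
      _ = δ' * (Complex.normSq (r : ℂ) * nsq z) := by ring
  -- lower bound on the cone
  obtain ⟨m, hm0, hm⟩ : ∃ m : ℝ, 0 < m ∧ ∀ z ∈ C, m * ‖z‖ ≤ ‖f z‖ := by
    by_cases hne : (sphere (0 : W 2) 1 ∩ C).Nonempty
    · obtain ⟨u, hu, hmin⟩ := ((isCompact_sphere (0 : W 2) 1).inter_right hCc).exists_isMinOn hne
        hfc.norm.continuousOn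
      have hu1 : ‖u‖ = 1 := by
        have := hu.1
        rwa [mem_sphere_zero_iff_norm] at this
      have hu0 : u ≠ 0 := by rw [← norm_pos_iff, hu1]; exact one_pos
      refine ⟨‖f u‖, norm_pos_iff.2 (hfne (hCt u hu.2 hu0)), fun z hz => ?_⟩
      by_cases hz0 : z = 0
      · rw [hz0, norm_zero, mul_zero]
        exact norm_nonneg _
      · have hzn : 0 < ‖z‖ := norm_pos_iff.2 hz0
        have h1 : ‖f u‖ ≤ ‖f (‖z‖⁻¹ • z)‖ := hmin ⟨by
          rw [mem_sphere_zero_iff_norm, norm_smul, norm_inv, norm_norm, inv_mul_cancel₀ hzn.ne'],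
          hCsm _ _ hz⟩
        rw [Hom46.smul_real, hfh, ← Hom46.smul_real, norm_smul, norm_inv, norm_norm] at h1
        rw [inv_mul_eq_div, le_div_iff₀ hzn] at h1
        exact h1
    · refine ⟨1, one_pos, fun z hz => ?_⟩
      by_cases hz0 : z = 0
      · rw [hz0, hf0, norm_zero, mul_zero]
      · exfalso
        apply hne
        have hzn : 0 < ‖z‖ := norm_pos_iff.2 hz0
        exact ⟨‖z‖⁻¹ • z, by
          rw [mem_sphere_zero_iff_norm, norm_smul, norm_inv, norm_norm, inv_mul_cancel₀ hzn.ne'],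
          hCsm _ _ hz⟩
  -- the inverse
  obtain ⟨g, hg⟩ : ∃ g : W 2 → W 2, g = Function.invFunOn f (tube δ) := ⟨_, rfl⟩
  have hgm : ∀ {w : W 2}, w ∈ f '' tube δ → g w ∈ tube δ := fun {w} hw => by
    rw [hg]
    exact Function.invFunOn_mem hw
  have hfg : ∀ {w : W 2}, w ∈ f '' tube δ → f (g w) = w := fun {w} hw => by
    rw [hg]
    exact Function.invFunOn_eq hw
  have hgf : ∀ {z : W 2}, z ∈ tube δ → g (f z) = z := fun {z} hz =>
    hi (hgm ⟨z, hz, rfl⟩) hz (hfg ⟨z, hz, rfl⟩)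
  obtain ⟨X, hX⟩ : ∃ X : ℝ × W 2 → W 2, X = fun q =>
    if q.2 ∈ f '' tube δ then q.2 + Y (q.1, g q.2) else q.2 := ⟨_, rfl⟩
  have hXin : ∀ (t : ℝ) {w : W 2}, w ∈ f '' tube δ → X (t, w) = w + Y (t, g w) := fun t w hw => by
    rw [hX]
    exact if_pos hw
  have hXout : ∀ (t : ℝ) {w : W 2}, w ∉ f '' tube δ → X (t, w) = w := fun t w hw => by
    rw [hX]
    exact if_neg hw
  have himg0 : (0 : W 2) ∉ f '' tube δ := by
    rintro ⟨z, hz, h0⟩
    exact hfne hz h0
  have himg : ∀ {c : ℂ}, c ≠ 0 → ∀ {w : W 2}, w ∈ f '' tube δ → c • w ∈ f '' tube δ := by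
    rintro c hc w ⟨z, hz, rfl⟩
    exact ⟨c • z, tube_smul hc hz, hfh c z⟩
  refine ⟨X, ?_, ?_, ?_, ?_⟩
  · rintro ⟨t, w₀⟩ ⟨-, hw₀⟩
    apply ContDiffAt.contDiffWithinAt
    by_cases hw : w₀ ∈ f '' tube δ
    · obtain ⟨z₀, hz₀, rfl⟩ := hw
      obtain ⟨D, hD⟩ := exists_equiv (fderiv ℝ f z₀) (hd z₀ hz₀)
      have hfz := hfat hz₀.1
      have hfd : HasFDerivAt f (D : W 2 →L[ℝ] W 2) z₀ := by
        rw [hD]
        exact (hfz.differentiableAt (by simp)).hasFDerivAt
      have hl := hfz.to_localInverse hfd (by simp)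
      let φ := hfz.toOpenPartialHomeomorph f hfd (by simp)
      have hφ : ∀ x, φ x = f x := fun _ => rfl
      have hl' : ContDiffAt ℝ ∞ φ.symm (f z₀) := hl
      have hsrc : z₀ ∈ φ.source := hfz.mem_toOpenPartialHomeomorph_source hfd (by simp)
      have htgt : f z₀ ∈ φ.target := hfz.image_mem_toOpenPartialHomeomorph_target hfd (by simp)
      have hlz : φ.symm (f z₀) = z₀ := φ.left_inv hsrc
      have hnear : ∀ᶠ w in 𝓝 (f z₀), φ.symm w ∈ tube δ ∧ f (φ.symm w) = w := by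
        have c1 : ∀ᶠ w in 𝓝 (f z₀), φ.symm w ∈ tube δ := by
          apply hl'.continuousAt.eventually
          rw [hlz]
          exact (isOpen_tube δ).mem_nhds hz₀
        have c2 : ∀ᶠ w in 𝓝 (f z₀), w ∈ φ.target := φ.open_target.mem_nhds htgt
        filter_upwards [c1, c2] with w h1 h2
        exact ⟨h1, φ.right_inv h2⟩
      have heq : X =ᶠ[𝓝 (t, f z₀)] fun q => q.2 + Y (q.1, φ.symm q.2) := by
        have c0 : Tendsto (fun q : ℝ × W 2 => q.2) (𝓝 (t, f z₀)) (𝓝 (f z₀)) := continuousAt_snd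
        have c3 : ∀ᶠ q : ℝ × W 2 in 𝓝 (t, f z₀), φ.symm q.2 ∈ tube δ ∧ f (φ.symm q.2) = q.2 :=
          c0.eventually hnear
        filter_upwards [c3] with q hq
        have h1 : q.2 ∈ f '' tube δ := ⟨_, hq.1, hq.2⟩
        have h2 : g q.2 = φ.symm q.2 := by
          have := hgf hq.1
          rwa [hq.2] at this
        have h3 := hXin q.1 h1
        rw [h2] at h3
        exact h3
      refine ContDiffAt.congr_of_eventuallyEq ?_ heq
      have h5 : ContDiffAt ℝ ∞ (fun q : ℝ × W 2 => φ.symm q.2) (t, f z₀) :=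
        ContDiffAt.comp (t, f z₀) (g := φ.symm) (f := fun q : ℝ × W 2 => q.2) hl' contDiffAt_snd
      have h6 : ContDiffAt ℝ ∞ (fun q : ℝ × W 2 => (q.1, φ.symm q.2)) (t, f z₀) :=
        contDiffAt_fst.prodMk h5
      have h7 : ContDiffAt ℝ ∞ Y (t, φ.symm (f z₀)) := by
        rw [hlz]
        exact hY.contDiffAt ((isOpen_univ.prod isOpen_compl_singleton).mem_nhds ⟨mem_univ _, hz₀.1⟩)
      exact contDiffAt_snd.add (ContDiffAt.comp (t, f z₀) (g := Y)
        (f := fun q : ℝ × W 2 => (q.1, φ.symm q.2)) h7 h6)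
    · -- outside
      have hR : 0 ≤ (‖w₀‖ + 1) / m := by positivity
      have hcomp : IsCompact (f '' (C ∩ closedBall 0 ((‖w₀‖ + 1) / m))) :=
        ((isCompact_closedBall (0 : W 2) _).inter_left hCc).image hfc
      have hw₀' : w₀ ∉ f '' (C ∩ closedBall 0 ((‖w₀‖ + 1) / m)) := by
        rintro ⟨z, ⟨hzC, -⟩, hzw⟩
        have hz0 : z ≠ 0 := by
          intro h0
          rw [h0, hf0] at hzw
          exact hw₀ hzw.symm
        exact hw ⟨z, hCt z hzC hz0, hzw⟩
      have hV : ∀ᶠ w in 𝓝 w₀, w ∉ f '' (C ∩ closedBall 0 ((‖w₀‖ + 1) / m)) ∧ ‖w‖ < ‖w₀‖ + 1 := by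
        have c1 : ∀ᶠ w in 𝓝 w₀, w ∉ f '' (C ∩ closedBall 0 ((‖w₀‖ + 1) / m)) :=
          hcomp.isClosed.isOpen_compl.mem_nhds hw₀'
        have c2 : ∀ᶠ w in 𝓝 w₀, ‖w‖ < ‖w₀‖ + 1 :=
          continuous_norm.continuousAt.eventually (gt_mem_nhds (by linarith))
        exact c1.and c2
      have heq : X =ᶠ[𝓝 (t, w₀)] fun q => q.2 := by
        have c0 : Tendsto (fun q : ℝ × W 2 => q.2) (𝓝 (t, w₀)) (𝓝 w₀) := continuousAt_snd
        have c3 : ∀ᶠ q : ℝ × W 2 in 𝓝 (t, w₀), q.2 ∉ f '' (C ∩ closedBall 0 ((‖w₀‖ + 1) / m)) ∧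
            ‖q.2‖ < ‖w₀‖ + 1 := c0.eventually hV
        filter_upwards [c3] with q hq
        by_cases hq2 : q.2 ∈ f '' tube δ
        · have h3 := hXin q.1 hq2
          have h4 : g q.2 ∉ C := by
            intro hgC
            apply hq.1
            refine ⟨g q.2, ⟨hgC, ?_⟩, hfg hq2⟩
            rw [mem_closedBall, dist_zero_right, le_div_iff₀ hm0]
            have := hm _ hgC
            rw [hfg hq2] at this
            linarith [hq.2]
          rw [hY0 _ _ (htC _ h4), add_zero] at h3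
          exact h3
        · exact hXout q.1 hq2
      exact contDiffAt_snd.congr_of_eventuallyEq heq
  · intro t c w
    by_cases hc : c = 0
    · rw [hc, zero_smul, zero_smul, hXout t himg0]
    · by_cases hw : w ∈ f '' tube δ
      · rw [hXin t (himg hc hw), hXin t hw]
        have h1 : g (c • w) = c • g w := by
          have h2 := hgf (tube_smul hc (hgm hw))
          rwa [hfh, hfg hw] at h2
        rw [h1, hYh, smul_add]
      · have hw' : c • w ∉ f '' tube δ := by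
          intro h
          apply hw
          have := himg (inv_ne_zero hc) h
          rwa [smul_smul, inv_mul_cancel₀ hc, one_smul] at this
        rw [hXout t hw', hXout t hw]
  · intro t z hz
    rw [hXin t ⟨z, hz, rfl⟩, hgf hz]
  · intro t h0 w
    by_cases hw : w ∈ f '' tube δ
    · rw [hXin t hw, h0, add_zero]
    · exact hXout t hw

end Pool.Agent.Lib.PJ
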