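import Pool.Agent.Lib.PJ.Lin

set_option autoImplicit false

/-!
# Mean value inequality on the plane `P0`

PROOF. `mean_P0`: let `z, w ∈ P0`. If the segment `[w, z]` does not contain `0`: `g t = f (w + t • (z - w))` is differentiable on `[0, 1]` with derivative `fderiv ℝ f (..) (z - w)`, `z - w ∈ P0`, norm `≤ η ‖z - w‖`
(`norm_image_sub_le_of_norm_deriv_le_segment_01'` or `Convex.norm_image_sub_le_of_norm_hasFDerivWithin_le`). If `w + t (z - w) = 0` for a `t ∈ [0, 1]`: `‖z‖ + ‖w‖ = ‖z - w‖` (`w = -t (z - w)`, `z = (1 - t)(z - w)`), and `‖f x‖ ≤ η ‖x‖` for `x ∈ P0` (`f 0 = 0`; for `x ≠ 0`: `fderiv ℝ f x x = f x` because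
`f (t • x) = t • f x`), so `‖f z - f w‖ ≤ ‖f z‖ + ‖f w‖ ≤ η ‖z - w‖`.
`Nice.lip`: `mean_P0` with `η = K`. `Nice.lower`: `z = D(z)⁻¹ (Ψ z)` (`euler`). `Nice.near`: `w' = ‖w‖⁻¹ • w`, `‖z - w'‖ ≤ ‖z - w‖ + |1 - ‖w‖| ≤ 2 ‖z - w‖`, `fderiv_pos_smul`, `Nice.mod`. `Nice.seg`: `f x = Ψ x - D(z) x` on the segment from `y` to `x` (inside the closed ball of radius `ρ ≤ 1/2` around `z`, no `0`), mean value inequality
with `Nice.near`. `exists_near`: `z = ‖w‖⁻¹ • w` has norm `1`; for `v ∈ P0`, `‖v‖ ≤ ρ = r ‖w‖`, `r ≤ 1/2`, `D(w + v) = D(z + ‖w‖⁻¹ v)`, `D(w) = D(z)`, `Nice.near`: `≤ K (2 r)^α ≤ ε` for small `r`.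
-/

open MeasureTheory Set Metric Filter
open scoped ContDiff Topology ENNReal

namespace Pool.Agent.Lib.PJ

open Pool.Agent.P28b04d Pool.Agent.Lib.P28e Pool.Agent.Lib.P28c Pool.Agent.Lib.P28g
open Pool.Agent.Lib.P28f (ult)

theorem mean_P0 {f : W 2 → W 2} {η : ℝ} (hη : 0 ≤ η) (hh : ∀ (r : ℝ) (z : W 2), f (r • z) = r • f z)
    (hd : ∀ z, z ≠ 0 → DifferentiableAt ℝ f z)
    (hb : ∀ z ∈ P0, z ≠ 0 → ∀ v ∈ P0, ‖fderiv ℝ f z v‖ ≤ η * ‖v‖) :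
    ∀ z ∈ P0, ∀ w ∈ P0, ‖f z - f w‖ ≤ η * ‖z - w‖ := by
  intro z hz w hw
  have hf0 : f 0 = 0 := by
    have := hh 0 0
    simpa using this
  have heul : ∀ x ∈ P0, ‖f x‖ ≤ η * ‖x‖ := by
    intro x hx
    by_cases hx0 : x = 0
    · rw [hx0, hf0, norm_zero, mul_zero]
    · have h2 : HasDerivAt (fun t : ℝ => f (t • x)) (fderiv ℝ f x x) 1 := by
        have h3 : HasDerivAt (fun t : ℝ => t • x) x 1 := by
          simpa using (hasDerivAt_id (1 : ℝ)).smul_const x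
        have h4 : HasFDerivAt f (fderiv ℝ f x) ((1 : ℝ) • x) := by
          rw [one_smul]
          exact (hd x hx0).hasFDerivAt
        exact h4.comp_hasDerivAt (1 : ℝ) h3
      have h5 : HasDerivAt (fun t : ℝ => f (t • x)) (f x) 1 := by
        have h6 : (fun t : ℝ => f (t • x)) = fun t : ℝ => t • f x := funext fun t => hh t x
        rw [h6]
        simpa using (hasDerivAt_id (1 : ℝ)).smul_const (f x)
      rw [← h2.unique h5]
      exact hb x hx hx0 x hx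
  have hzw : z - w ∈ P0 := by
    show (z - w) 0 = 0
    rw [Pi.sub_apply, show z 0 = 0 from hz, show w 0 = 0 from hw, sub_zero]
  have hseg : ∀ t : ℝ, w + t • (z - w) ∈ P0 := by
    intro t
    show (w + t • (z - w)) 0 = 0
    rw [Pi.add_apply, Pi.smul_apply, show (z - w) 0 = 0 from hzw, show w 0 = 0 from hw, smul_zero,
      add_zero]
  by_cases hcase : ∃ t ∈ Icc (0 : ℝ) 1, w + t • (z - w) = 0
  · obtain ⟨t, ht, h0⟩ := hcase
    have ew : w = -(t • (z - w)) := eq_neg_of_add_eq_zero_left h0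
    have ez : z = (1 - t) • (z - w) := by
      have : z = w + (z - w) := by abel
      conv_lhs => rw [this]
      conv_lhs => rw [ew]
      conv_lhs => rw [← ew]
      rw [sub_smul, one_smul]
      nth_rewrite 1 [ew]
      abel
    have n1 : ‖w‖ = t * ‖z - w‖ := by
      conv_lhs => rw [ew]
      rw [norm_neg, norm_smul, Real.norm_of_nonneg ht.1]
    have n2 : ‖z‖ = (1 - t) * ‖z - w‖ := by
      conv_lhs => rw [ez]
      rw [norm_smul, Real.norm_of_nonneg (by linarith [ht.2])]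
    calc ‖f z - f w‖ ≤ ‖f z‖ + ‖f w‖ := norm_sub_le _ _
      _ ≤ η * ‖z‖ + η * ‖w‖ := add_le_add (heul z hz) (heul w hw)
      _ = η * ‖z - w‖ := by rw [n1, n2]; ring
  · push Not at hcase
    have hder : ∀ t ∈ Icc (0 : ℝ) 1, HasDerivWithinAt (fun t : ℝ => f (w + t • (z - w)))
        (fderiv ℝ f (w + t • (z - w)) (z - w)) (Icc (0 : ℝ) 1) t := by
      intro t ht
      have h1 : HasDerivAt (fun t : ℝ => w + t • (z - w)) (z - w) t := by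
        simpa using ((hasDerivAt_id t).smul_const (z - w)).const_add w
      exact ((hd _ (hcase t ht)).hasFDerivAt.comp_hasDerivAt t h1).hasDerivWithinAt
    have := norm_image_sub_le_of_norm_deriv_le_segment_01' hder
      (C := η * ‖z - w‖) (fun t ht => hb _ (hseg t) (hcase t ⟨ht.1, ht.2.le⟩) _ hzw)
    simp only [one_smul, zero_smul, add_zero] at this
    rwa [add_sub_cancel] at this

theorem real_hom {Φ : W 2 → W 2} (h : HLoc Φ) (r : ℝ) (z : W 2) : Φ (r • z) = r • Φ z := by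
  rw [Hom46.smul_real, Hom46.smul_real, h.hom]

theorem Nice.lip {p L K : ℝ} {Ψ : W 2 → W 2} (h : Nice p L K Ψ) :
    ∀ z ∈ P0, ∀ w ∈ P0, ‖Ψ z - Ψ w‖ ≤ K * ‖z - w‖ := by
  have hK : 0 ≤ K := (norm_nonneg _).trans (h.up (cp 0 0) (cp_mem 0) (cp_ne 0 0))
  have hl := h.line.1.hloc
  refine mean_P0 hK (real_hom hl) (fun z hz => (Hom46.hasFDerivAt hl hz).differentiableAt)
    fun z hz hz0 v _ => ?_
  refine (ContinuousLinearMap.le_opNorm _ v).trans ?_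
  gcongr
  exact h.up z hz hz0

theorem Nice.vec {p L K : ℝ} {Ψ : W 2 → W 2} (h : Nice p L K Ψ) :
    ∀ z ∈ P0, z ≠ 0 → ∀ v, ‖v‖ ≤ K * ‖fderiv ℝ Ψ z v‖ := by
  intro z hz hz0 v
  have hl := h.line.1.hloc
  obtain ⟨u, hu⟩ := isUnit_fderiv hl hz0
  have h1 := h.low z hz hz0
  rw [← hu, Ring.inverse_unit] at h1
  have e : v = ((u⁻¹ : (EndW 2)ˣ) : EndW 2) (fderiv ℝ Ψ z v) := by
    rw [← hu]
    show v = (((u⁻¹ : (EndW 2)ˣ) : EndW 2) * (u : EndW 2)) v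
    rw [Units.inv_mul]
    rfl
  calc ‖v‖ = ‖((u⁻¹ : (EndW 2)ˣ) : EndW 2) (fderiv ℝ Ψ z v)‖ := congrArg _ e
    _ ≤ ‖((u⁻¹ : (EndW 2)ˣ) : EndW 2)‖ * ‖fderiv ℝ Ψ z v‖ := ContinuousLinearMap.le_opNorm _ _
    _ ≤ K * ‖fderiv ℝ Ψ z v‖ := by gcongr

theorem Nice.lower {p L K : ℝ} {Ψ : W 2 → W 2} (h : Nice p L K Ψ) :
    ∀ z ∈ P0, ‖z‖ ≤ K * ‖Ψ z‖ := by
  intro z hz
  have hK : 0 ≤ K := (norm_nonneg _).trans (h.up (cp 0 0) (cp_mem 0) (cp_ne 0 0))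
  by_cases hz0 : z = 0
  · rw [hz0, norm_zero]
    positivity
  · have := h.vec z hz hz0 z
    rwa [euler h.line.1.hloc hz0] at this

theorem Nice.near {p L K : ℝ} (hp : 2 < p) (hK : 0 ≤ K) {Ψ : W 2 → W 2} (h : Nice p L K Ψ) :
    ∀ z ∈ P0, ∀ w ∈ P0, ‖z‖ = 1 → ‖z - w‖ ≤ 1 / 2 →
      ‖(fderiv ℝ Ψ z : EndW 2) - fderiv ℝ Ψ w‖ ≤ K * (2 * ‖z - w‖) ^ (1 - 2 / p) := by
  intro z hz w hw hz1 hzw
  have hα : 0 < 1 - 2 / p := by
    have : 2 / p < 1 := by rw [div_lt_one (by linarith)]; exact hp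
    linarith
  have hwn : 1 / 2 ≤ ‖w‖ := by
    have := norm_sub_norm_le z w
    linarith
  have hw0 : 0 < ‖w‖ := by linarith
  have hw0' : w ≠ 0 := norm_pos_iff.1 hw0
  set w' : W 2 := ‖w‖⁻¹ • w with hw'
  have hw'1 : ‖w'‖ = 1 := by
    rw [hw', norm_smul, norm_inv, norm_norm, inv_mul_cancel₀ hw0.ne']
  have hw'P : w' ∈ P0 := by
    show (‖w‖⁻¹ • w) 0 = 0
    rw [Pi.smul_apply, show w 0 = 0 from hw, smul_zero]
  have hD : fderiv ℝ Ψ w' = fderiv ℝ Ψ w := fderiv_pos_smul h.line.1.hloc (inv_pos.2 hw0) hw0'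
  have h1 := h.mod z hz w' hw'P hz1 hw'1
  rw [hD] at h1
  refine h1.trans ?_
  have h2 : ‖z - w'‖ ≤ 2 * ‖z - w‖ := by
    have h3 : ‖w - w'‖ = |1 - ‖w‖| := by
      have : w - w' = (1 - ‖w‖⁻¹) • w := by rw [hw', sub_smul, one_smul]
      rw [this, norm_smul, Real.norm_eq_abs]
      have e : |1 - ‖w‖⁻¹| * ‖w‖ = |(1 - ‖w‖⁻¹) * ‖w‖| := by rw [abs_mul, abs_of_pos hw0]
      rw [e, sub_mul, inv_mul_cancel₀ hw0.ne', one_mul, abs_sub_comm]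
    have h4 : |1 - ‖w‖| ≤ ‖z - w‖ := by
      rw [← hz1]
      exact abs_norm_sub_norm_le z w
    calc ‖z - w'‖ = ‖(z - w) + (w - w')‖ := by rw [sub_add_sub_cancel]
      _ ≤ ‖z - w‖ + ‖w - w'‖ := norm_add_le _ _
      _ ≤ 2 * ‖z - w‖ := by rw [h3]; linarith
  gcongr

theorem Nice.seg {p L K : ℝ} (hp : 2 < p) (hK : 0 ≤ K) {Ψ : W 2 → W 2} (h : Nice p L K Ψ) {ρ : ℝ}
    (hρ0 : 0 ≤ ρ) (hρ : ρ ≤ 1 / 2) : ∀ z ∈ P0, ‖z‖ = 1 → ∀ x ∈ P0, ∀ y ∈ P0, ‖x - z‖ ≤ ρ → ‖y - z‖ ≤ ρ →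
      ‖Ψ x - Ψ y - fderiv ℝ Ψ z (x - y)‖ ≤ K * (2 * ρ) ^ (1 - 2 / p) * ‖x - y‖ := by
  intro z hz hz1 x hx y hy hxz hyz
  have hα : 0 < 1 - 2 / p := by
    have : 2 / p < 1 := by rw [div_lt_one (by linarith)]; exact hp
    linarith
  have hl := h.line.1.hloc
  have hball : ∀ t ∈ Icc (0 : ℝ) 1, ‖(y + t • (x - y)) - z‖ ≤ ρ := by
    intro t ht
    have e : (y + t • (x - y)) - z = (1 - t) • (y - z) + t • (x - z) := by
      module
    rw [e]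
    calc ‖(1 - t) • (y - z) + t • (x - z)‖ ≤ ‖(1 - t) • (y - z)‖ + ‖t • (x - z)‖ := norm_add_le _ _
      _ = (1 - t) * ‖y - z‖ + t * ‖x - z‖ := by
          rw [norm_smul, norm_smul, Real.norm_of_nonneg (by linarith [ht.2]),
            Real.norm_of_nonneg ht.1]
      _ ≤ (1 - t) * ρ + t * ρ := by
          have := ht.1
          have h3 : 0 ≤ 1 - t := by linarith [ht.2]
          gcongr
      _ = ρ := by ring
  have hne : ∀ t ∈ Icc (0 : ℝ) 1, y + t • (x - y) ≠ 0 := by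
    intro t ht h0
    have := hball t ht
    rw [h0, zero_sub, norm_neg, hz1] at this
    linarith
  have hP : ∀ t : ℝ, y + t • (x - y) ∈ P0 := by
    intro t
    show (y + t • (x - y)) 0 = 0
    rw [Pi.add_apply, Pi.smul_apply, Pi.sub_apply, show x 0 = 0 from hx, show y 0 = 0 from hy,
      sub_zero, smul_zero, add_zero]
  have hder : ∀ t ∈ Icc (0 : ℝ) 1, HasDerivWithinAt
      (fun t : ℝ => Ψ (y + t • (x - y)) - fderiv ℝ Ψ z (y + t • (x - y)))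
      ((fderiv ℝ Ψ (y + t • (x - y)) - fderiv ℝ Ψ z) (x - y)) (Icc (0 : ℝ) 1) t := by
    intro t ht
    have h1 : HasDerivAt (fun t : ℝ => y + t • (x - y)) (x - y) t := by
      simpa using ((hasDerivAt_id t).smul_const (x - y)).const_add y
    have h2 := (Hom46.hasFDerivAt hl (hne t ht)).comp_hasDerivAt t h1
    have h3 := (fderiv ℝ Ψ z).hasFDerivAt.comp_hasDerivAt t h1
    exact (h2.sub h3).hasDerivWithinAt
  have hbd : ∀ t ∈ Ico (0 : ℝ) 1, ‖(fderiv ℝ Ψ (y + t • (x - y)) - fderiv ℝ Ψ z) (x - y)‖ ≤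
      K * (2 * ρ) ^ (1 - 2 / p) * ‖x - y‖ := by
    intro t ht
    have ht' : t ∈ Icc (0 : ℝ) 1 := ⟨ht.1, ht.2.le⟩
    refine (ContinuousLinearMap.le_opNorm _ _).trans ?_
    have h4 : ‖z - (y + t • (x - y))‖ ≤ ρ := by rw [norm_sub_rev]; exact hball t ht'
    have h5 := h.near hp hK z hz _ (hP t) hz1 (h4.trans hρ)
    rw [norm_sub_rev] at h5
    gcongr
    refine h5.trans ?_
    gcongr
  have := norm_image_sub_le_of_norm_deriv_le_segment_01' hder hbd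
  simp only [one_smul, zero_smul, add_zero] at this
  rw [add_sub_cancel] at this
  rw [map_sub]
  have e : Ψ x - Ψ y - (fderiv ℝ Ψ z x - fderiv ℝ Ψ z y) =
      Ψ x - fderiv ℝ Ψ z x - (Ψ y - fderiv ℝ Ψ z y) := by abel
  rw [e]
  exact this

theorem exists_near {p : ℝ} (hp : 2 < p) {K : ℝ} (hK : 0 ≤ K) {w : W 2} (hw : w ∈ P0) (hw0 : w ≠ 0)
    {ε : ℝ} (hε : 0 < ε) : ∃ ρ : ℝ, 0 < ρ ∧ ∀ (L : ℝ) (Ψ : W 2 → W 2), Nice p L K Ψ →
      ∀ v ∈ P0, ‖v‖ ≤ ρ → w + v ≠ 0 ∧ ‖(fderiv ℝ Ψ (w + v) : EndW 2) - fderiv ℝ Ψ w‖ ≤ ε := by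
  have hα : 0 < 1 - 2 / p := by
    have : 2 / p < 1 := by rw [div_lt_one (by linarith)]; exact hp
    linarith
  have hwn : 0 < ‖w‖ := norm_pos_iff.2 hw0
  obtain ⟨r, hr0, hr1, hr⟩ : ∃ r : ℝ, 0 < r ∧ r ≤ 1 / 2 ∧ K * (2 * r) ^ (1 - 2 / p) ≤ ε := by
    have hc : Tendsto (fun r : ℝ => K * (2 * r) ^ (1 - 2 / p)) (𝓝[>] 0) (𝓝 (K * (2 * 0) ^ (1 - 2 / p))) := by
      refine Tendsto.mono_left ?_ nhdsWithin_le_nhds
      have h1 : ContinuousAt (fun r : ℝ => K * (2 * r) ^ (1 - 2 / p)) 0 := by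
        refine continuousAt_const.mul ?_
        exact (continuousAt_const.mul continuousAt_id).rpow_const (Or.inr hα.le)
      exact h1
    rw [mul_zero, Real.zero_rpow hα.ne', mul_zero] at hc
    have h2 := (hc.eventually (gt_mem_nhds hε)).and
      (Ioo_mem_nhdsGT (show (0 : ℝ) < 1 / 2 by norm_num))
    obtain ⟨r, h3, h4⟩ := h2.exists
    exact ⟨r, h4.1, h4.2.le, h3.le⟩
  refine ⟨r * ‖w‖, by positivity, fun L Ψ h v hv hvn => ?_⟩
  set z : W 2 := ‖w‖⁻¹ • w with hz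
  have hz1 : ‖z‖ = 1 := by
    rw [hz, norm_smul, norm_inv, norm_norm, inv_mul_cancel₀ hwn.ne']
  have hzP : z ∈ P0 := by
    show (‖w‖⁻¹ • w) 0 = 0
    rw [Pi.smul_apply, show w 0 = 0 from hw, smul_zero]
  have hne : w + v ≠ 0 := by
    intro h0
    have : w = -v := eq_neg_of_add_eq_zero_left h0
    have h1 : ‖w‖ = ‖v‖ := by rw [this, norm_neg]
    nlinarith
  refine ⟨hne, ?_⟩
  set y : W 2 := ‖w‖⁻¹ • (w + v) with hy
  have hyP : y ∈ P0 := by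
    show (‖w‖⁻¹ • (w + v)) 0 = 0
    rw [Pi.smul_apply, Pi.add_apply, show w 0 = 0 from hw, show v 0 = 0 from hv, add_zero, smul_zero]
  have hzy : ‖z - y‖ ≤ r := by
    have e : z - y = -(‖w‖⁻¹ • v) := by
      rw [hz, hy, smul_add]
      abel
    rw [e, norm_neg, norm_smul, norm_inv, norm_norm]
    calc ‖w‖⁻¹ * ‖v‖ ≤ ‖w‖⁻¹ * (r * ‖w‖) := by gcongr
      _ = r := by field_simp
  have hD1 : fderiv ℝ Ψ z = fderiv ℝ Ψ w := fderiv_pos_smul h.line.1.hloc (inv_pos.2 hwn) hw0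
  have hD2 : fderiv ℝ Ψ y = fderiv ℝ Ψ (w + v) :=
    fderiv_pos_smul h.line.1.hloc (inv_pos.2 hwn) hne
  have h1 := h.near hp hK z hzP y hyP hz1 (hzy.trans hr1)
  rw [hD1, hD2, norm_sub_rev] at h1
  refine h1.trans (le_trans ?_ hr)
  gcongr

end Pool.Agent.Lib.PJ
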