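import Pool.Agent.Lib.PJ.TubeF
import Pool.Agent.Lib.PJ.MeanP

set_option autoImplicit false

/-!
# The straight line between two close embeddings of the line (step 8)

PROOF. `sg Φ Ψ t` is smooth off `0`, homogeneous, jointly smooth in `(t, z)`. On `P0`, `0 ≤ t ≤ 1`: `f = Ψ - Φ` satisfies `‖f z - f w‖ ≤ η ‖z - w‖` (`mean_P0`), so `‖sg t z - sg t w‖ ≥ c ‖z - w‖ - η ‖z - w‖ ≥ (c/2) ‖z - w‖`: injective; `‖D(sg t)(z) v‖ ≥ ‖v‖ / K - η ‖v‖ ≥ ‖v‖ / (2 K)`: injective derivative at `z ∈ P0`, `z ≠ 0`.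
Compact sets `K₁ = [0,1] × {z ∈ P0 | ‖z‖ = 1}` and `K₂ = [0,1] × {(z, w) ∈ P0 × P0 | ‖(z, w)‖ = 1}`.
(i) `{(t, z) | z ≠ 0, D(sg t)(z) injective}` contains a neighbourhood of `K₁` (determinant `≠ 0` or `IsUnit` is an open condition, continuity of `(t, z) ↦ D(sg t)(z)` off `0`).
(ii) every `(t₀, z₀, w₀) ∈ K₂` has a neighbourhood on which `sg t z = sg t w` implies `z = w`: if `sg t₀ z₀ ≠ sg t₀ w₀` by continuity (`Φ, Ψ` are continuous on all of `W 2`, `HLoc.continuous`); otherwise `z₀ = w₀ ≠ 0`, and the track `(t, z) ↦ (t, sg t z)` has an invertible strict derivative at `(t₀, z₀)`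
(compare `Fam.hasStrict_track` in P28b04d/Inj.lean), hence is injective near `(t₀, z₀)` (`HasStrictFDerivAt.toOpenPartialHomeomorph`, `injOn`).
`IsCompact.exists_thickening_subset_open` (or `exists_cthickening..`) for the interiors: a `ρ > 0` such that all points at distance `< ρ` from `K₁` resp. `K₂` are good. Let `3 δ ≤ min (ρ², 1) / 4`, `δ ≤ 1`. For `z ∈ tube δ` scale to `‖z‖ = 1` (real scaling: `sg t (r • z) = r • sg t z`, `fderiv_pos_smul`-like): `nsq z ≤ 3`, so `‖z 0‖² < 3 δ`, and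
`z' = ![0, z 1, z 2] ∈ P0` has norm `1` (`‖z 0‖ < 1`) and `‖z - z'‖ < ρ`; for a pair `(z, w)` scale to `‖(z, w)‖ = 1`: `nsq z, nsq w ≤ 3`, the same argument.
-/

open MeasureTheory Set Metric Filter
open scoped ContDiff Topology ENNReal

namespace Pool.Agent.Lib.PJ

open Pool.Agent.P28b04d Pool.Agent.Lib.P28e Pool.Agent.Lib.P28c Pool.Agent.Lib.P28g
open Pool.Agent.Lib.P28f (ult)

namespace TubeAux

/-- The family of straight lines. -/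
noncomputable def La (Φ Ψ : W 2 → W 2) (q : ℝ × W 2) : W 2 := sg Φ Ψ q.1 q.2

/-- The partial derivative. -/
noncomputable def DL (Φ Ψ : W 2 → W 2) (q : ℝ × W 2) : EndW 2 :=
  (1 - q.1) • (fderiv ℝ Φ q.2 : EndW 2) + q.1 • (fderiv ℝ Ψ q.2 : EndW 2)

variable {Φ Ψ : W 2 → W 2}

theorem hasFDerivAt_sg (hΦ : HLoc Φ) (hΨ : HLoc Ψ) (t : ℝ) {z : W 2} (hz : z ≠ 0) :
    HasFDerivAt (sg Φ Ψ t) (DL Φ Ψ (t, z)) z :=
  ((Hom46.hasFDerivAt hΦ hz).const_smul (1 - t)).add ((Hom46.hasFDerivAt hΨ hz).const_smul t)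

theorem contDiffAt_La (hΦ : HLoc Φ) (hΨ : HLoc Ψ) (t : ℝ) {z : W 2} (hz : z ≠ 0) :
    ContDiffAt ℝ ∞ (La Φ Ψ) (t, z) := by
  have a1 : ContDiffAt ℝ ∞ (fun q : ℝ × W 2 => Φ q.2) (t, z) :=
    (hΦ.contDiffAt hz).comp (t, z) contDiffAt_snd
  have a2 : ContDiffAt ℝ ∞ (fun q : ℝ × W 2 => Ψ q.2) (t, z) :=
    (hΨ.contDiffAt hz).comp (t, z) contDiffAt_snd
  exact ((contDiffAt_const.sub contDiffAt_fst).fun_smul a1).add (contDiffAt_fst.fun_smul a2)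

theorem continuous_La (hΦ : HLoc Φ) (hΨ : HLoc Ψ) : Continuous (La Φ Ψ) := by
  have h1 := hΦ.continuous
  have h2 := hΨ.continuous
  unfold La sg
  fun_prop

theorem continuousAt_DL (hΦ : HLoc Φ) (hΨ : HLoc Ψ) (t : ℝ) {z : W 2} (hz : z ≠ 0) :
    ContinuousAt (DL Φ Ψ) (t, z) := by
  have h1 : ContinuousAt (fun q : ℝ × W 2 => (fderiv ℝ Φ q.2 : EndW 2)) (t, z) :=
    ContinuousAt.comp (f := fun q : ℝ × W 2 => q.2) (Hom46.contDiffAt_fderiv hΦ hz).continuousAt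
      continuousAt_snd
  have h2 : ContinuousAt (fun q : ℝ × W 2 => (fderiv ℝ Ψ q.2 : EndW 2)) (t, z) :=
    ContinuousAt.comp (f := fun q : ℝ × W 2 => q.2) (Hom46.contDiffAt_fderiv hΨ hz).continuousAt
      continuousAt_snd
  exact ((continuousAt_const.sub continuousAt_fst).smul h1).add (continuousAt_fst.smul h2)

theorem DL_pos (hΦ : HLoc Φ) (hΨ : HLoc Ψ) (t : ℝ) {r : ℝ} (hr : 0 < r) {z : W 2} (hz : z ≠ 0) :
    DL Φ Ψ (t, r • z) = DL Φ Ψ (t, z) := by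
  unfold DL
  simp only
  rw [fderiv_pos_smul hΦ hr hz, fderiv_pos_smul hΨ hr hz]

theorem sg_real (hΦ : HLoc Φ) (hΨ : HLoc Ψ) (t r : ℝ) (z : W 2) :
    sg Φ Ψ t (r • z) = r • sg Φ Ψ t z := by
  unfold sg
  rw [real_hom hΦ, real_hom hΨ, smul_add, smul_comm, smul_comm t]

/-- Local injectivity at a point where the derivative is invertible. -/
theorem local_inj (hΦ : HLoc Φ) (hΨ : HLoc Ψ) (t : ℝ) {z : W 2} (hz : z ≠ 0)
    (hinj : ∀ v, DL Φ Ψ (t, z) v = 0 → v = 0) :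
    ∃ U ∈ 𝓝 (t, z), ∀ s x y, (s, x) ∈ U → (s, y) ∈ U → sg Φ Ψ s x = sg Φ Ψ s y → x = y := by
  have hΛs : HasStrictFDerivAt (La Φ Ψ) (fderiv ℝ (La Φ Ψ) (t, z)) (t, z) :=
    (contDiffAt_La hΦ hΨ t hz).hasStrictFDerivAt (by simp)
  have hsm : HasStrictFDerivAt (fun q : ℝ × W 2 => (q.1, La Φ Ψ q))
      ((ContinuousLinearMap.fst ℝ ℝ (W 2)).prod (fderiv ℝ (La Φ Ψ) (t, z))) (t, z) :=
    HasStrictFDerivAt.prodMk hasStrictFDerivAt_fst hΛs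
  obtain ⟨D, hD⟩ := exists_equiv
    ((ContinuousLinearMap.fst ℝ ℝ (W 2)).prod (fderiv ℝ (La Φ Ψ) (t, z))) (by
      rintro ⟨τ, v⟩ h0
      rw [ContinuousLinearMap.prod_apply, Prod.mk_eq_zero] at h0
      obtain ⟨h1, h2⟩ := h0
      simp only [ContinuousLinearMap.coe_fst'] at h1
      subst h1
      have h3 : HasFDerivAt (fun w : W 2 => (t, w))
          (ContinuousLinearMap.inr ℝ ℝ (W 2)) z := hasFDerivAt_prodMk_right t z
      have h4 : HasFDerivAt (fun w => La Φ Ψ (t, w))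
          ((fderiv ℝ (La Φ Ψ) (t, z)).comp (ContinuousLinearMap.inr ℝ ℝ (W 2))) z :=
        hΛs.hasFDerivAt.comp z h3
      have h6 : HasFDerivAt (fun w => La Φ Ψ (t, w)) (DL Φ Ψ (t, z)) z := hasFDerivAt_sg hΦ hΨ t hz
      have h5 : v = 0 := by
        apply hinj v
        rw [h6.unique h4]
        simpa using h2
      rw [h5]
      rfl)
  rw [← hD] at hsm
  let φ := hsm.toOpenPartialHomeomorph
  refine ⟨φ.source, φ.open_source.mem_nhds hsm.mem_toOpenPartialHomeomorph_source, ?_⟩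
  intro s x y hx hy he
  have h5 : φ (s, x) = φ (s, y) := by
    show ((s, x).1, La Φ Ψ (s, x)) = ((s, y).1, La Φ Ψ (s, y))
    unfold La
    rw [he]
  have := φ.injOn hx hy h5
  exact (Prod.mk.inj this).2

end TubeAux

open TubeAux

theorem tube_inj {Φ Ψ : W 2 → W 2} (hΦ : HLoc Φ) (hΨ : HLoc Ψ) {c K η : ℝ} (hc : 0 < c) (hK : 0 < K)
    (h1 : ∀ z ∈ P0, ∀ w ∈ P0, c * ‖z - w‖ ≤ ‖Φ z - Φ w‖)
    (h2 : ∀ z ∈ P0, z ≠ 0 → ∀ v, ‖v‖ ≤ K * ‖fderiv ℝ Φ z v‖)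
    (h3 : ∀ z ∈ P0, z ≠ 0 → ‖(fderiv ℝ Φ z : EndW 2) - fderiv ℝ Ψ z‖ ≤ η)
    (hη : 2 * η ≤ c) (hηK : 2 * η * K ≤ 1) :
    ∃ δ : ℝ, 0 < δ ∧ δ ≤ 1 ∧ ∀ t ∈ Icc (0 : ℝ) 1, InjOn (sg Φ Ψ t) (tube δ) ∧
      ∀ z ∈ tube δ, ∀ v, fderiv ℝ (sg Φ Ψ t) z v = 0 → v = 0 := by
  have hη0 : 0 ≤ η := (norm_nonneg _).trans (h3 (cp 0 0) (cp_mem 0) (cp_ne 0 0))
  -- on the plane
  have hmean : ∀ z ∈ P0, ∀ w ∈ P0, ‖(Ψ z - Φ z) - (Ψ w - Φ w)‖ ≤ η * ‖z - w‖ := by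
    refine mean_P0 (f := fun z => Ψ z - Φ z) hη0 (fun r z => ?_) (fun z hz => ?_) (fun z hz hz0 v _ => ?_)
    · rw [real_hom hΦ, real_hom hΨ, smul_sub]
    · exact (Hom46.hasFDerivAt hΨ hz).differentiableAt.sub (Hom46.hasFDerivAt hΦ hz).differentiableAt
    · have e : fderiv ℝ (fun z => Ψ z - Φ z) z = (fderiv ℝ Ψ z : EndW 2) - fderiv ℝ Φ z :=
        ((Hom46.hasFDerivAt hΨ hz0).sub (Hom46.hasFDerivAt hΦ hz0)).fderiv
      rw [e]
      refine (ContinuousLinearMap.le_opNorm _ v).trans ?_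
      have := h3 z hz hz0
      rw [norm_sub_rev] at this
      gcongr
  have hinj0 : ∀ t ∈ Icc (0 : ℝ) 1, ∀ z ∈ P0, ∀ w ∈ P0, sg Φ Ψ t z = sg Φ Ψ t w → z = w := by
    intro t ht z hz w hw he
    have e : (Φ z - Φ w) = -(t • ((Ψ z - Φ z) - (Ψ w - Φ w))) := by
      have : sg Φ Ψ t z - sg Φ Ψ t w = 0 := sub_eq_zero.2 he
      unfold sg at this
      have e2 : (Φ z - Φ w) + t • ((Ψ z - Φ z) - (Ψ w - Φ w)) = 0 := by
        rw [← this]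
        module
      exact eq_neg_of_add_eq_zero_left e2
    have f1 := h1 z hz w hw
    rw [e, norm_neg, norm_smul, Real.norm_of_nonneg ht.1] at f1
    have f2 := hmean z hz w hw
    have f3 : t * ‖(Ψ z - Φ z) - (Ψ w - Φ w)‖ ≤ 1 * (η * ‖z - w‖) :=
      mul_le_mul ht.2 f2 (norm_nonneg _) zero_le_one
    have f4 : c * ‖z - w‖ ≤ c / 2 * ‖z - w‖ := by
      have : η * ‖z - w‖ ≤ c / 2 * ‖z - w‖ := by
        gcongr
        linarith
      linarith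
    have f5 : ‖z - w‖ ≤ 0 := by
      by_contra hcon
      push Not at hcon
      nlinarith
    exact sub_eq_zero.1 (norm_le_zero_iff.1 f5)
  have hd0 : ∀ t ∈ Icc (0 : ℝ) 1, ∀ z ∈ P0, z ≠ 0 → ∀ v, DL Φ Ψ (t, z) v = 0 → v = 0 := by
    intro t ht z hz hz0 v hv
    have e : fderiv ℝ Φ z v = t • (((fderiv ℝ Φ z : EndW 2) - fderiv ℝ Ψ z) v) := by
      have e1 : (1 - t) • fderiv ℝ Φ z v + t • fderiv ℝ Ψ z v = 0 := hv
      have e2 : (((fderiv ℝ Φ z : EndW 2) - fderiv ℝ Ψ z) v) = fderiv ℝ Φ z v - fderiv ℝ Ψ z v := rfl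
      rw [e2]
      have e3 : fderiv ℝ Φ z v - t • (fderiv ℝ Φ z v - fderiv ℝ Ψ z v) = 0 := by
        rw [← e1]
        module
      exact sub_eq_zero.1 e3
    have f1 := h2 z hz hz0 v
    rw [e, norm_smul, Real.norm_of_nonneg ht.1] at f1
    have f2 : ‖((fderiv ℝ Φ z : EndW 2) - fderiv ℝ Ψ z) v‖ ≤ η * ‖v‖ := by
      refine (ContinuousLinearMap.le_opNorm _ v).trans ?_
      have := h3 z hz hz0
      gcongr
    have f3 : t * ‖((fderiv ℝ Φ z : EndW 2) - fderiv ℝ Ψ z) v‖ ≤ 1 * (η * ‖v‖) :=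
      mul_le_mul ht.2 f2 (norm_nonneg _) zero_le_one
    have f4 : ‖v‖ ≤ K * (1 * (η * ‖v‖)) := f1.trans (by gcongr)
    have f5 : ‖v‖ ≤ 0 := by
      by_contra hcon
      push Not at hcon
      nlinarith
    exact norm_le_zero_iff.1 f5
  -- compact sets
  have hP : IsClosed (P0 : Set (W 2)) := isClosed_eq (continuous_apply 0) continuous_const
  have hK1 : IsCompact (Icc (0 : ℝ) 1 ×ˢ (sphere (0 : W 2) 1 ∩ P0)) :=
    isCompact_Icc.prod ((isCompact_sphere (0 : W 2) 1).inter_right hP)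
  have hK2 : IsCompact (Icc (0 : ℝ) 1 ×ˢ (sphere (0 : W 2 × W 2) 1 ∩ P0 ×ˢ P0)) :=
    isCompact_Icc.prod ((isCompact_sphere (0 : W 2 × W 2) 1).inter_right (hP.prod hP))
  have hU1 : Icc (0 : ℝ) 1 ×ˢ (sphere (0 : W 2) 1 ∩ P0) ⊆
      interior {q : ℝ × W 2 | IsUnit (DL Φ Ψ q)} := by
    rintro ⟨t, z⟩ ⟨ht, hz1, hz⟩
    rw [mem_sphere_zero_iff_norm] at hz1
    have hz0 : z ≠ 0 := by rw [← norm_pos_iff, hz1]; exact one_pos
    rw [mem_interior_iff_mem_nhds]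
    have h4 : IsUnit (DL Φ Ψ (t, z)) := by
      obtain ⟨D', hD'⟩ := exists_equiv (DL Φ Ψ (t, z)) (hd0 t ht z hz hz0)
      refine ⟨ContinuousLinearEquiv.toUnit D', ?_⟩
      rw [← hD']
      rfl
    exact (continuousAt_DL hΦ hΨ t hz0) (Units.isOpen.mem_nhds h4)
  have hU2 : Icc (0 : ℝ) 1 ×ˢ (sphere (0 : W 2 × W 2) 1 ∩ P0 ×ˢ P0) ⊆
      interior {q : ℝ × (W 2 × W 2) | sg Φ Ψ q.1 q.2.1 = sg Φ Ψ q.1 q.2.2 → q.2.1 = q.2.2} := by
    rintro ⟨t, ⟨z, w⟩⟩ ⟨ht, hn, hz, hw⟩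
    rw [mem_sphere_zero_iff_norm] at hn
    rw [mem_interior_iff_mem_nhds]
    by_cases he : sg Φ Ψ t z = sg Φ Ψ t w
    · have hzw := hinj0 t ht z hz w hw he
      subst hzw
      have hz1 : ‖z‖ = 1 := by
        rw [Prod.norm_def, max_self] at hn
        exact hn
      have hz0 : z ≠ 0 := by rw [← norm_pos_iff, hz1]; exact one_pos
      obtain ⟨U, hU, hUi⟩ := local_inj hΦ hΨ t hz0 (hd0 t ht z hz hz0)
      have c1 : ContinuousAt (fun q : ℝ × (W 2 × W 2) => (q.1, q.2.1)) (t, (z, z)) := by fun_prop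
      have c2 : ContinuousAt (fun q : ℝ × (W 2 × W 2) => (q.1, q.2.2)) (t, (z, z)) := by fun_prop
      filter_upwards [c1 hU, c2 hU] with q h5 h6 h7
      exact hUi q.1 q.2.1 q.2.2 h5 h6 h7
    · have c1 : Continuous (fun q : ℝ × (W 2 × W 2) => La Φ Ψ (q.1, q.2.1)) :=
        (continuous_La hΦ hΨ).comp (by fun_prop)
      have c2 : Continuous (fun q : ℝ × (W 2 × W 2) => La Φ Ψ (q.1, q.2.2)) :=
        (continuous_La hΦ hΨ).comp (by fun_prop)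
      have ho : IsOpen {q : ℝ × (W 2 × W 2) | La Φ Ψ (q.1, q.2.1) ≠ La Φ Ψ (q.1, q.2.2)} :=
        isOpen_ne_fun c1 c2
      filter_upwards [ho.mem_nhds (show (t, (z, w)) ∈ _ from he)] with q h5 h6
      exact absurd h6 h5
  obtain ⟨ρ₁, hρ₁, hth1⟩ := hK1.exists_thickening_subset_open isOpen_interior hU1
  obtain ⟨ρ₂, hρ₂, hth2⟩ := hK2.exists_thickening_subset_open isOpen_interior hU2
  obtain ⟨ρ, hρ⟩ : ∃ ρ, ρ = min 1 (min ρ₁ ρ₂) := ⟨_, rfl⟩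
  have hρ0 : 0 < ρ := by rw [hρ]; positivity
  have hρ1 : ρ ≤ 1 := by rw [hρ]; exact min_le_left _ _
  have hρa : ρ ≤ ρ₁ := by rw [hρ]; exact (min_le_right _ _).trans (min_le_left _ _)
  have hρb : ρ ≤ ρ₂ := by rw [hρ]; exact (min_le_right _ _).trans (min_le_right _ _)
  have hδ : 3 * (ρ ^ 2 / 3) ≤ ρ ^ 2 := by linarith
  have hδ0 : 0 < ρ ^ 2 / 3 := by positivity
  refine ⟨ρ ^ 2 / 3, hδ0, by nlinarith, fun t ht => ⟨?_, ?_⟩⟩
  · intro z hz w hw he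
    obtain ⟨N, hN⟩ : ∃ N : ℝ, N = ‖(z, w)‖ := ⟨_, rfl⟩
    have hN0 : 0 < N := by
      rw [hN, norm_pos_iff]
      intro h0
      exact hz.1 (Prod.mk_eq_zero.1 h0).1
    have hn1 : ‖(N⁻¹ • z, N⁻¹ • w)‖ = 1 := by
      rw [← Prod.smul_mk, norm_smul, norm_inv, ← hN, Real.norm_of_nonneg hN0.le,
        inv_mul_cancel₀ hN0.ne']
    obtain ⟨y, hy⟩ : ∃ y : W 2, y = N⁻¹ • z := ⟨_, rfl⟩
    obtain ⟨v, hv⟩ : ∃ v : W 2, v = N⁻¹ • w := ⟨_, rfl⟩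
    rw [← hy, ← hv] at hn1
    have hyt : y ∈ tube (ρ ^ 2 / 3) := by rw [hy]; exact tube_real (inv_ne_zero hN0.ne') hz
    have hvt : v ∈ tube (ρ ^ 2 / 3) := by rw [hv]; exact tube_real (inv_ne_zero hN0.ne') hw
    have hy1 : ‖y‖ ≤ 1 := by rw [← hn1]; exact norm_fst_le (y, v)
    have hv1 : ‖v‖ ≤ 1 := by rw [← hn1]; exact norm_snd_le (y, v)
    obtain ⟨y1, y2⟩ := tube_proj hρ0 hδ hyt hy1 hδ0.le
    obtain ⟨v1, v2⟩ := tube_proj hρ0 hδ hvt hv1 hδ0.le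
    have hmem : (t, (y, v)) ∈ thickening ρ₂ (Icc (0 : ℝ) 1 ×ˢ (sphere (0 : W 2 × W 2) 1 ∩ P0 ×ˢ P0)) := by
      rw [mem_thickening_iff]
      refine ⟨(t, (![0, y 1, y 2], ![0, v 1, v 2])), ⟨ht, ?_, rfl, rfl⟩, ?_⟩
      · rw [mem_sphere_zero_iff_norm]
        rw [Prod.norm_def] at hn1 ⊢
        simp only at hn1 ⊢
        rcases le_total ‖y‖ ‖v‖ with hc1 | hc1
        · rw [max_eq_right hc1] at hn1
          have h5 := norm_proj_eq hn1 (lt_of_lt_of_le v1 hρ1)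
          rw [h5, max_eq_right]
          exact (norm_proj_le y).trans hy1
        · rw [max_eq_left hc1] at hn1
          have h5 := norm_proj_eq hn1 (lt_of_lt_of_le y1 hρ1)
          rw [h5, max_eq_left]
          exact (norm_proj_le v).trans hv1
      · rw [Prod.dist_eq, Prod.dist_eq, dist_self, dist_eq_norm, dist_eq_norm]
        simp only
        rw [max_lt_iff, max_lt_iff]
        exact ⟨hρ₂, lt_of_lt_of_le y2 hρb, lt_of_lt_of_le v2 hρb⟩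
    have h6 := interior_subset (hth2 hmem)
    have h7 : sg Φ Ψ t y = sg Φ Ψ t v := by
      rw [hy, hv, sg_real hΦ hΨ, sg_real hΦ hΨ, he]
    have h8 : y = v := h6 h7
    rw [hy, hv] at h8
    exact smul_right_injective _ (inv_ne_zero hN0.ne') h8
  · intro z hz v hv
    have hzn : 0 < ‖z‖ := norm_pos_iff.2 hz.1
    obtain ⟨y, hy⟩ : ∃ y : W 2, y = ‖z‖⁻¹ • z := ⟨_, rfl⟩
    have hyt : y ∈ tube (ρ ^ 2 / 3) := by rw [hy]; exact tube_real (inv_ne_zero hzn.ne') hz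
    have hy1 : ‖y‖ = 1 := by
      rw [hy, norm_smul, norm_inv, norm_norm, inv_mul_cancel₀ hzn.ne']
    obtain ⟨y1, y2⟩ := tube_proj hρ0 hδ hyt hy1.le hδ0.le
    have hmem : (t, y) ∈ thickening ρ₁ (Icc (0 : ℝ) 1 ×ˢ (sphere (0 : W 2) 1 ∩ P0)) := by
      rw [mem_thickening_iff]
      refine ⟨(t, ![0, y 1, y 2]), ⟨ht, ?_, rfl⟩, ?_⟩
      · rw [mem_sphere_zero_iff_norm]
        exact norm_proj_eq hy1 (lt_of_lt_of_le y1 hρ1)
      · rw [Prod.dist_eq, dist_self, dist_eq_norm]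
        simp only
        rw [max_lt_iff]
        exact ⟨hρ₁, lt_of_lt_of_le y2 hρa⟩
    have h6' : (t, y) ∈ {q : ℝ × W 2 | IsUnit (DL Φ Ψ q)} := interior_subset (hth1 hmem)
    have h6 : IsUnit (DL Φ Ψ (t, y)) := h6'
    rw [hy, DL_pos hΦ hΨ t (inv_pos.2 hzn) hz.1] at h6
    rw [(hasFDerivAt_sg hΦ hΨ t hz.1).fderiv] at hv
    obtain ⟨u, hu⟩ := h6
    have h9 : v = ((u⁻¹ : (EndW 2)ˣ) : EndW 2) (DL Φ Ψ (t, z) v) := by
      rw [← hu]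
      show v = (((u⁻¹ : (EndW 2)ˣ) : EndW 2) * (u : EndW 2)) v
      rw [Units.inv_mul]
      rfl
    rw [h9, hv, map_zero]

end Pool.Agent.Lib.PJ
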