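import Pool.Agent.Lib.PJ.TubeF
import Pool.Agent.Lib.PJ.TubeA
import Pool.Agent.Lib.PJ.FamN
import Pool.Agent.Lib.PJ.PartI

set_option autoImplicit false

/-!
# Isotopy extension without flows (step 8)

PROOF. `local_step`: `Y (t, z) = χ(z) • (sg Φ Ψ t z - sg Φ Ψ t₀ z)`, `χ(z) = Real.smoothTransition (3 - ..)` a smooth function of `q = normSq (z 0) / nsq z` (smooth off `0`, invariant under `z ↦ c z`, `c ≠ 0`), equal to `1` for `q ≤ δ / 3` and to `0` for `q ≥ 2 δ / 3`, e.g. `χ = Real.smoothTransition (2 - 3 q / δ)`; at `z = 0`: `Y = 0`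
(`sg t 0 = 0`). So `Y` is smooth off `0`, homogeneous, `0` off `tube (2 δ / 3)`, and `Y (t₀, ·) = 0`. `part_ext` with `f = sg Φ Ψ t₀`, `δ' = 2 δ / 3`: `X`, `X (t₀, w) = w`; `fam_near`: for `t` near `t₀`: `Conn id G_t`, `G_t w = X (t, w)`, and for `z ∈ tube (δ/3)`: `G_t (sg t₀ z) = sg t₀ z + Y (t, z) = sg t z`.
`iso_ext`: `δ` from `tube_inj`. Relation on `[0,1]`: `R t t'` iff there is `G` with `Conn id G` and `G (sg t z) = sg t' z` for all `z ∈ tube (δ/3)`. Symmetric: `G` is injective (`conn_inj`), its inverse `g` (`hloc_inv`) satisfies `Conn (fun z => id (g z)) (fun z => G (g z))` (`conn_comp_right`) i.e. `Conn g id`, so `Conn id g` (`conn_symm`).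
Transitive: `Conn id G`, `Conn id G'` give `Conn G (G' ∘ G)` (`conn_comp_right` with `Θ = G`, `hloc_of_conn`) and `Conn.trans`. `local_step` gives `R t₀ t` for `t` near `t₀`, so `R 0 1` (`IsPreconnected.induction₂`, `isPreconnected_Icc`). `Φ' = G ∘ Φ`: `Conn Φ Φ'` (`conn_comp_right` with `Θ = Φ`), `Φ' z = G (sg 0 z) = sg 1 z = Ψ z` on `tube (δ/3)`.
-/

open MeasureTheory Set Metric Filter
open scoped ContDiff Topology ENNReal

namespace Pool.Agent.Lib.PJ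

open Pool.Agent.P28b04d Pool.Agent.Lib.P28e Pool.Agent.Lib.P28c Pool.Agent.Lib.P28g
open Pool.Agent.Lib.P28f (ult)

/-- The cut-off function. -/
noncomputable def cutT (δ : ℝ) (z : W 2) : ℝ :=
  Real.smoothTransition (2 - 3 * (Complex.normSq (z 0) / nsq z) / δ)

theorem cutT_smul {δ : ℝ} {c : ℂ} (hc : c ≠ 0) (z : W 2) : cutT δ (c • z) = cutT δ z := by
  unfold cutT
  rw [Pi.smul_apply, smul_eq_mul, map_mul, Pool.Agent.P28b04d.nsq_smul, mul_div_mul_left]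
  exact (Complex.normSq_pos.2 hc).ne'

theorem contDiffAt_cutT (δ : ℝ) {z : W 2} (hz : z ≠ 0) : ContDiffAt ℝ ∞ (cutT δ) z := by
  have h0 : ContDiff ℝ ∞ fun z : W 2 => Complex.normSq (z 0) := by
    have hk : ContDiff ℝ ∞ (fun z : W 2 => z 0) := contDiff_apply ℝ ℂ 0
    have hre : ContDiff ℝ ∞ (fun z : W 2 => (z 0).re) := Complex.reCLM.contDiff.comp hk
    have him : ContDiff ℝ ∞ (fun z : W 2 => (z 0).im) := Complex.imCLM.contDiff.comp hk
    have e : (fun z : W 2 => Complex.normSq (z 0)) = fun z => (z 0).re * (z 0).re + (z 0).im * (z 0).im := by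
      funext z
      rw [Complex.normSq_apply]
    rw [e]
    exact (hre.mul hre).add (him.mul him)
  have h1 : ContDiffAt ℝ ∞ (fun z : W 2 => 2 - 3 * (Complex.normSq (z 0) / nsq z) / δ) z := by
    have h2 : ContDiffAt ℝ ∞ (fun z : W 2 => Complex.normSq (z 0) / nsq z) z :=
      h0.contDiffAt.div contDiff_nsq.contDiffAt (nsq_pos hz).ne'
    exact contDiffAt_const.sub ((contDiffAt_const.mul h2).div_const δ)
  exact Real.smoothTransition.contDiff.contDiffAt.comp z h1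

theorem cutT_one {δ : ℝ} (hδ : 0 < δ) {z : W 2} (hz : z ∈ tube (δ / 3)) : cutT δ z = 1 := by
  apply Real.smoothTransition.one_of_one_le
  have h1 := nsq_pos hz.1
  have h2 : Complex.normSq (z 0) / nsq z < δ / 3 := by
    rw [div_lt_iff₀ h1]
    exact hz.2
  have h3 : 3 * (Complex.normSq (z 0) / nsq z) / δ ≤ 1 := by
    rw [div_le_one hδ]
    linarith
  linarith

theorem cutT_zero {δ : ℝ} (hδ : 0 < δ) {z : W 2} (hz0 : z ≠ 0) (hz : z ∉ tube (2 * δ / 3)) :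
    cutT δ z = 0 := by
  apply Real.smoothTransition.zero_of_nonpos
  have h1 := nsq_pos hz0
  have h2 : 2 * δ / 3 ≤ Complex.normSq (z 0) / nsq z := by
    rw [le_div_iff₀ h1]
    by_contra hcon
    push Not at hcon
    exact hz ⟨hz0, hcon⟩
  have h3 : 2 ≤ 3 * (Complex.normSq (z 0) / nsq z) / δ := by
    rw [le_div_iff₀ hδ]
    linarith
  linarith

theorem local_step {Φ Ψ : W 2 → W 2} (hΦ : HLoc Φ) (hΨ : HLoc Ψ) {δ : ℝ} (hδ : 0 < δ) {t₀ : ℝ}
    (hi : InjOn (sg Φ Ψ t₀) (tube δ))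
    (hd : ∀ z ∈ tube δ, ∀ v, fderiv ℝ (sg Φ Ψ t₀) z v = 0 → v = 0) :
    ∀ᶠ t in 𝓝 t₀, ∃ G : W 2 → W 2, Conn (id : W 2 → W 2) G ∧
      ∀ z ∈ tube (δ / 3), G (sg Φ Ψ t₀ z) = sg Φ Ψ t z := by
  have hsgh : ∀ (t : ℝ) (c : ℂ) (z : W 2), sg Φ Ψ t (c • z) = c • sg Φ Ψ t z := by
    intro t c z
    unfold sg
    rw [hΦ.hom, hΨ.hom, smul_add, smul_comm, smul_comm t]
  obtain ⟨Y, hY⟩ : ∃ Y : ℝ × W 2 → W 2, Y = fun q => cutT δ q.2 • (sg Φ Ψ q.1 q.2 - sg Φ Ψ t₀ q.2) :=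
    ⟨_, rfl⟩
  have hYx : ∀ t z, Y (t, z) = cutT δ z • (sg Φ Ψ t z - sg Φ Ψ t₀ z) := fun t z => by rw [hY]
  have hYc : ContDiffOn ℝ ∞ Y (univ ×ˢ {0}ᶜ) := by
    rintro ⟨t, z⟩ ⟨-, hz⟩
    apply ContDiffAt.contDiffWithinAt
    rw [hY]
    have h1 : ContDiffAt ℝ ∞ (fun q : ℝ × W 2 => cutT δ q.2) (t, z) :=
      (contDiffAt_cutT δ hz).comp (t, z) contDiffAt_snd
    have h2 : ContDiffAt ℝ ∞ (fun q : ℝ × W 2 => sg Φ Ψ q.1 q.2) (t, z) :=
      TubeAux.contDiffAt_La hΦ hΨ t hz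
    have h3 : ContDiffAt ℝ ∞ (fun q : ℝ × W 2 => sg Φ Ψ t₀ q.2) (t, z) := by
      have h4 : ContDiffAt ℝ ∞ (fun q : ℝ × W 2 => ((t₀, q.2) : ℝ × W 2)) (t, z) :=
        contDiffAt_const.prodMk contDiffAt_snd
      exact ContDiffAt.comp (t, z) (g := TubeAux.La Φ Ψ)
        (f := fun q : ℝ × W 2 => ((t₀, q.2) : ℝ × W 2)) (TubeAux.contDiffAt_La hΦ hΨ t₀ hz) h4
    exact h1.smul (h2.sub h3)
  have hYh : ∀ (t : ℝ) (c : ℂ) (z : W 2), Y (t, c • z) = c • Y (t, z) := by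
    intro t c z
    rw [hYx, hYx]
    by_cases hc : c = 0
    · rw [hc, zero_smul, zero_smul]
      have h1 : ∀ s, sg Φ Ψ s (0 : W 2) = 0 := fun s => by
        have := hsgh s 0 0
        simpa using this
      rw [h1, h1, sub_zero, smul_zero]
    · rw [cutT_smul hc, hsgh, hsgh, ← smul_sub, smul_comm]
  have hY0 : ∀ (t : ℝ) (z : W 2), z ∉ tube (2 * δ / 3) → Y (t, z) = 0 := by
    intro t z hz
    rw [hYx]
    by_cases hz0 : z = 0
    · have h1 : ∀ s, sg Φ Ψ s (0 : W 2) = 0 := fun s => by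
        have := hsgh s 0 0
        simpa using this
      rw [hz0, h1, h1, sub_zero, smul_zero]
    · rw [cutT_zero hδ hz0 hz, zero_smul]
  have hfs : ContDiffOn ℝ ∞ (sg Φ Ψ t₀) {0}ᶜ := by
    intro z hz
    have h4 : ContDiffAt ℝ ∞ (fun z : W 2 => ((t₀, z) : ℝ × W 2)) z :=
      contDiffAt_const.prodMk contDiffAt_id
    have := ContDiffAt.comp z (g := TubeAux.La Φ Ψ)
        (f := fun z : W 2 => ((t₀, z) : ℝ × W 2)) (TubeAux.contDiffAt_La hΦ hΨ t₀ hz) h4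
    exact this.contDiffWithinAt
  obtain ⟨X, hXc, hXh, hXf, hX0⟩ := part_ext (δ' := 2 * δ / 3) (δ := δ) (by positivity) (by linarith)
    hfs (hsgh t₀) hi hd hYc hYh hY0
  have hXt₀ : ∀ w, X (t₀, w) = w := hX0 t₀ fun z => by rw [hYx, sub_self, smul_zero]
  filter_upwards [fam_near hXc hXh hXt₀] with t ht
  refine ⟨fun w => X (t, w), ht, fun z hz => ?_⟩
  have hzδ : z ∈ tube δ := tube_mono (by linarith) hz
  show X (t, sg Φ Ψ t₀ z) = sg Φ Ψ t z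
  rw [hXf t z hzδ, hYx, cutT_one hδ hz, one_smul]
  abel

theorem iso_ext {Φ Ψ : W 2 → W 2} (hΦ : HLoc Φ) (hΨ : HLoc Ψ) {c K η : ℝ} (hc : 0 < c) (hK : 0 < K)
    (h1 : ∀ z ∈ P0, ∀ w ∈ P0, c * ‖z - w‖ ≤ ‖Φ z - Φ w‖)
    (h2 : ∀ z ∈ P0, z ≠ 0 → ∀ v, ‖v‖ ≤ K * ‖fderiv ℝ Φ z v‖)
    (h3 : ∀ z ∈ P0, z ≠ 0 → ‖(fderiv ℝ Φ z : EndW 2) - fderiv ℝ Ψ z‖ ≤ η)
    (hη : 2 * η ≤ c) (hηK : 2 * η * K ≤ 1) :
    ∃ (Φ' : W 2 → W 2) (δ : ℝ), 0 < δ ∧ Conn Φ Φ' ∧ ∀ z ∈ tube δ, Φ' z = Ψ z := by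
  obtain ⟨δ, hδ, -, hall⟩ := tube_inj hΦ hΨ hc hK h1 h2 h3 hη hηK
  have key := IsPreconnected.induction₂ (s := Icc (0 : ℝ) 1) isPreconnected_Icc
    (fun t t' => ∃ G : W 2 → W 2, Conn (id : W 2 → W 2) G ∧
      ∀ z ∈ tube (δ / 3), G (sg Φ Ψ t z) = sg Φ Ψ t' z)
    (fun t ht => by
      have := local_step hΦ hΨ hδ (hall t ht).1 (hall t ht).2
      exact nhdsWithin_le_nhds this)
    (fun x y z _ _ _ hxy hyz => by
      obtain ⟨G, hG, hG2⟩ := hxy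
      obtain ⟨G', hG', hG2'⟩ := hyz
      refine ⟨fun w => G' (G w), ?_, fun w hw => ?_⟩
      · have h4 := conn_comp_right hG' (hloc_of_conn hG)
        have h5 : Conn G (fun w => G' (G w)) := h4
        exact hG.trans h5
      · show G' (G (sg Φ Ψ x w)) = _
        rw [hG2 w hw, hG2' w hw])
    (fun x y _ _ hxy => by
      obtain ⟨G, hG, hG2⟩ := hxy
      have hGi : Function.Injective G := conn_inj hG Function.injective_id
      obtain ⟨g, g1, _, g3, g4⟩ := hloc_inv (hloc_of_conn hG) hGi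
      refine ⟨g, ?_, fun w hw => ?_⟩
      · have h4 := conn_comp_right hG g1
        have h5 : (fun z => G (g z)) = (id : W 2 → W 2) := funext g4
        rw [h5] at h4
        have h6 : Conn g id := h4
        exact conn_symm h6
      · rw [← hG2 w hw, g3])
    (x := 0) (y := 1) (left_mem_Icc.2 zero_le_one) (right_mem_Icc.2 zero_le_one)
  obtain ⟨G, hG, hG2⟩ := key
  refine ⟨fun z => G (Φ z), δ / 3, by positivity, ?_, fun z hz => ?_⟩
  · have h4 := conn_comp_right hG hΦ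
    exact h4
  · have e0 : sg Φ Ψ 0 z = Φ z := by
      unfold sg
      rw [sub_zero, one_smul, zero_smul, add_zero]
    have e1 : sg Φ Ψ 1 z = Ψ z := by
      unfold sg
      rw [sub_self, zero_smul, one_smul, zero_add]
    have := hG2 z hz
    rw [e0, e1] at this
    exact this

end Pool.Agent.Lib.PJ
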