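import Pool.Agent.Lib.PJ.SepB

set_option autoImplicit false

/-!
# Uniform lower Lipschitz bound on `P0` (steps 6, 7)

PROOF. `sep`: by `rep_P0` `z = a • cp 0 ζ` or `z = a • sw (cp 0 ζ)`, `a ≠ 0`, `‖ζ‖ ≤ 1`. First case: `sep_chart` for `ζ`, `a⁻¹ • w`: `‖Ψ z - Ψ w‖ = ‖a‖ ‖Ψ (cp 0 ζ) - Ψ (a⁻¹ • w)‖`. Second case: the same for `Ψ_j ∘ sw` (`nice_sw`) and `sw z`, `sw w`.
`llb`: `S = {(z, w) ∈ P0 × P0 | ‖(z, w)‖ = 1}` is compact. Every `(z*, w*) ∈ S` has a neighbourhood `V` and a `c > 0` with `∀ᶠ j, ∀ (z, w) ∈ V ∩ S, c ‖z - w‖ ≤ ‖Ψ_j z - Ψ_j w‖`: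
(a) `z* ≠ w*`, both `≠ 0`: `c₀` from `sep`; for `‖z - z*‖, ‖w - w*‖ ≤ c₀ / (4 K)`: `‖Ψ_j z - Ψ_j w‖ ≥ c₀ - 2 K c₀ / (4 K) = c₀ / 2 ≥ (c₀ / 4) ‖z - w‖` (`‖z - w‖ ≤ 2`, `Nice.lip`);
(b) `w* = 0` (then `‖z*‖ = 1`) or `z* = 0`: for distance `≤ ρ = 1 / (4 K²)`: `‖Ψ_j z‖ ≥ ‖z‖ / K ≥ (1 - ρ) / K` (`Nice.lower`), `‖Ψ_j w‖ ≤ K ρ`, difference `≥ (1 - ρ)/K - K ρ ≥ 1 / (2 K) ≥ (1 / (4 K)) ‖z - w‖`;
(c) `z* = w*`, norm `1`: `ρ ≤ 1/2` with `K (2 ρ)^α ≤ 1 / (2 K)`: `Nice.seg` and `‖D_j(z*) v‖ ≥ ‖v‖ / K` give `‖Ψ_j z - Ψ_j w‖ ≥ ‖z - w‖ / (2 K)`.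
Finite subcover (`IsCompact.elim_nhds_subcover`), minimum of the `c`'s, intersection of the eventual sets. General `(z, w) ≠ (0, 0)` in `P0`: scale by `‖(z, w)‖⁻¹` (`Ψ (r • z) = r • Ψ z` for real `r`).
-/

open MeasureTheory Set Metric Filter
open scoped ContDiff Topology ENNReal

namespace Pool.Agent.Lib.PJ

open Pool.Agent.P28b04d Pool.Agent.Lib.P28e Pool.Agent.Lib.P28c Pool.Agent.Lib.P28g
open Pool.Agent.Lib.P28f (ult)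

theorem sep {p L K : ℝ} (hp : 2 < p) (hp4 : p < 4) (hL : 0 ≤ L) (hK : 1 ≤ K)
    {Ψ : ℕ → W 2 → W 2} (h : ∀ᶠ j in (ult : Filter ℕ), Nice p L K (Ψ j))
    {z w : W 2} (hz : z ∈ P0) (hz0 : z ≠ 0) (hw : w ∈ P0) (hw0 : w ≠ 0) (hne : z ≠ w) :
    ∃ c : ℝ, 0 < c ∧ ∀ᶠ j in (ult : Filter ℕ), c ≤ ‖Ψ j z - Ψ j w‖ := by
  obtain ⟨a, ζ, ha, -, hζ, hzr⟩ := rep_P0 hz hz0
  have han : 0 < ‖a‖ := norm_pos_iff.2 ha
  have hsub : ∀ {x : W 2}, x ∈ P0 → a⁻¹ • x ∈ P0 := fun {x} hx => by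
    show (a⁻¹ • x) 0 = 0
    rw [Pi.smul_apply, show x 0 = 0 from hx, smul_zero]
  rcases hzr with hzr | hzr
  · have hne' : cp 0 ζ ≠ a⁻¹ • w := by
      intro he
      apply hne
      rw [hzr, he, smul_smul, mul_inv_cancel₀ ha, one_smul]
    obtain ⟨c, hc, hev⟩ := sep_chart hp hp4 hL hK h hζ (hsub hw) (smul_ne_zero (inv_ne_zero ha) hw0) hne'
    refine ⟨‖a‖ * c, by positivity, ?_⟩
    filter_upwards [h, hev] with j hj hj2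
    have e : Ψ j z - Ψ j w = a • (Ψ j (cp 0 ζ) - Ψ j (a⁻¹ • w)) := by
      rw [smul_sub, ← hj.line.1.hloc.hom, ← hj.line.1.hloc.hom, ← hzr, smul_smul,
        mul_inv_cancel₀ ha, one_smul]
    rw [e, norm_smul]
    gcongr
  · have hsw : sw z = a • cp 0 ζ := by rw [hzr, sw_smul, sw_sw]
    have hne' : cp 0 ζ ≠ a⁻¹ • sw w := by
      intro he
      apply hne
      rw [← sw_sw z, hsw, he, smul_smul, mul_inv_cancel₀ ha, one_smul, sw_sw]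
    have h' : ∀ᶠ j in (ult : Filter ℕ), Nice p L K (fun x => Ψ j (sw x)) := h.mono fun j hj => nice_sw hj
    obtain ⟨c, hc, hev⟩ := sep_chart (Ψ := fun j x => Ψ j (sw x)) hp hp4 hL hK h' hζ (hsub (sw_mem hw))
      (smul_ne_zero (inv_ne_zero ha) (sw_ne hw0)) hne'
    refine ⟨‖a‖ * c, by positivity, ?_⟩
    filter_upwards [h, hev] with j hj hj2
    have e : Ψ j z - Ψ j w = a • (Ψ j (sw (cp 0 ζ)) - Ψ j (sw (a⁻¹ • sw w))) := by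
      rw [smul_sub, ← hj.line.1.hloc.hom, ← hj.line.1.hloc.hom, ← hzr, sw_smul, sw_sw, smul_smul,
        mul_inv_cancel₀ ha, one_smul]
    rw [e, norm_smul]
    gcongr

/-- The local form. -/
theorem llb_local {p L K : ℝ} (hp : 2 < p) (hp4 : p < 4) (hL : 0 ≤ L) (hK : 1 ≤ K)
    {Ψ : ℕ → W 2 → W 2} (h : ∀ᶠ j in (ult : Filter ℕ), Nice p L K (Ψ j)) {z₀ w₀ : W 2}
    (hz₀ : z₀ ∈ P0) (hw₀ : w₀ ∈ P0) (hn : ‖(z₀, w₀)‖ = 1) :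
    ∃ ρ c : ℝ, 0 < ρ ∧ 0 < c ∧ ∀ᶠ j in (ult : Filter ℕ), ∀ z ∈ P0, ∀ w ∈ P0, ‖z - z₀‖ ≤ ρ →
      ‖w - w₀‖ ≤ ρ → ‖z‖ ≤ 1 → ‖w‖ ≤ 1 → c * ‖z - w‖ ≤ ‖Ψ j z - Ψ j w‖ := by
  have hK0 : 0 < K := by linarith
  have hα : 0 < 1 - 2 / p := by
    have : 2 / p < 1 := by rw [div_lt_one (by linarith)]; exact hp
    linarith
  -- one of the points is zero
  have hzero : ∀ z₀ ∈ P0, ‖z₀‖ = 1 → ∀ᶠ j in (ult : Filter ℕ), ∀ z ∈ P0, ∀ w ∈ P0,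
      ‖z - z₀‖ ≤ 1 / (4 * K ^ 2) → ‖w‖ ≤ 1 / (4 * K ^ 2) → ‖z‖ ≤ 1 → ‖w‖ ≤ 1 →
      1 / (4 * K) * ‖z - w‖ ≤ ‖Ψ j z - Ψ j w‖ := by
    intro z₀ _ hn
    filter_upwards [h] with j hj
    intro z hz w hw hzd hwd hz1 hw1
    have a1 := hj.lower z hz
    have a2 := hj.lip w hw 0 (show (0 : W 2) 0 = 0 from rfl)
    rw [sub_zero, hj.line.1.hloc.zero, sub_zero] at a2
    have a3 : 1 - 1 / (4 * K ^ 2) ≤ ‖z‖ := by
      have := norm_sub_norm_le z₀ z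
      rw [norm_sub_rev, hn] at this
      linarith
    have a4 : ‖z - w‖ ≤ 2 := (norm_sub_le _ _).trans (by linarith)
    have a5 := norm_sub_norm_le (Ψ j z) (Ψ j w)
    have a6 : K * ‖w‖ ≤ 1 / (4 * K) := by
      calc K * ‖w‖ ≤ K * (1 / (4 * K ^ 2)) := by gcongr
        _ = 1 / (4 * K) := by field_simp
    have a7 : (1 - 1 / (4 * K ^ 2)) / K ≤ ‖Ψ j z‖ := by
      rw [div_le_iff₀ hK0]
      linarith
    have a8 : 3 / (4 * K) ≤ (1 - 1 / (4 * K ^ 2)) / K := by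
      have : 1 / (4 * K ^ 2) ≤ 1 / 4 := by
        apply one_div_le_one_div_of_le (by norm_num)
        nlinarith
      calc 3 / (4 * K) = (3 / 4) / K := by field_simp
        _ ≤ (1 - 1 / (4 * K ^ 2)) / K := by
            gcongr
            linarith
    calc 1 / (4 * K) * ‖z - w‖ ≤ 1 / (4 * K) * 2 := by gcongr
      _ = 3 / (4 * K) - 1 / (4 * K) := by ring
      _ ≤ ‖Ψ j z - Ψ j w‖ := by linarith
  by_cases hzw : z₀ = w₀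
  · -- the diagonal
    have hz₀1 : ‖z₀‖ = 1 := by
      rw [← hzw, Prod.norm_def, max_self] at hn
      exact hn
    obtain ⟨ρ, hρ0, hρ1, hρ⟩ : ∃ r : ℝ, 0 < r ∧ r ≤ 1 / 2 ∧ K * (2 * r) ^ (1 - 2 / p) ≤ 1 / (2 * K) := by
      have hc : Tendsto (fun r : ℝ => K * (2 * r) ^ (1 - 2 / p)) (𝓝[>] 0) (𝓝 (K * (2 * 0) ^ (1 - 2 / p))) := by
        refine Tendsto.mono_left ?_ nhdsWithin_le_nhds
        have h1 : ContinuousAt (fun r : ℝ => K * (2 * r) ^ (1 - 2 / p)) 0 :=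
          continuousAt_const.mul ((continuousAt_const.mul continuousAt_id).rpow_const (Or.inr hα.le))
        exact h1
      rw [mul_zero, Real.zero_rpow hα.ne', mul_zero] at hc
      obtain ⟨r, h3, h4⟩ := ((hc.eventually (gt_mem_nhds (show 0 < 1 / (2 * K) by positivity))).and
        (Ioo_mem_nhdsGT (show (0 : ℝ) < 1 / 2 by norm_num))).exists
      exact ⟨r, h4.1, h4.2.le, h3.le⟩
    refine ⟨ρ, 1 / (2 * K), hρ0, by positivity, ?_⟩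
    filter_upwards [h] with j hj
    intro z hz w hw hzd hwd _ _
    rw [← hzw] at hwd
    have hz₀0 : z₀ ≠ 0 := by rw [← norm_pos_iff, hz₀1]; exact one_pos
    have a1 := hj.seg hp hK0.le hρ0.le hρ1 z₀ hz₀ hz₀1 z hz w hw hzd hwd
    have a2 := hj.vec z₀ hz₀ hz₀0 (z - w)
    have a3 : ‖z - w‖ / K ≤ ‖fderiv ℝ (Ψ j) z₀ (z - w)‖ := by
      rw [div_le_iff₀ hK0]
      linarith
    have a4 : ‖fderiv ℝ (Ψ j) z₀ (z - w)‖ ≤ ‖Ψ j z - Ψ j w‖ +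
        ‖Ψ j z - Ψ j w - fderiv ℝ (Ψ j) z₀ (z - w)‖ := by
      have e : fderiv ℝ (Ψ j) z₀ (z - w) = (Ψ j z - Ψ j w) -
          (Ψ j z - Ψ j w - fderiv ℝ (Ψ j) z₀ (z - w)) := by abel
      conv_lhs => rw [e]
      exact norm_sub_le _ _
    have a5 : K * (2 * ρ) ^ (1 - 2 / p) * ‖z - w‖ ≤ 1 / (2 * K) * ‖z - w‖ := by gcongr
    have a6 : ‖z - w‖ / K = 1 / (2 * K) * ‖z - w‖ + 1 / (2 * K) * ‖z - w‖ := by
      field_simp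
      ring
    linarith
  · by_cases hz00 : z₀ = 0
    · -- `z₀ = 0`
      have hw₀1 : ‖w₀‖ = 1 := by
        rw [Prod.norm_def, hz00] at hn
        simp only [norm_zero] at hn
        rwa [max_eq_right (norm_nonneg _)] at hn
      refine ⟨1 / (4 * K ^ 2), 1 / (4 * K), by positivity, by positivity, ?_⟩
      filter_upwards [hzero w₀ hw₀ hw₀1] with j hj
      intro z hz w hw hzd hwd hz1 hw1
      rw [hz00, sub_zero] at hzd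
      have := hj w hw z hz hwd hzd hw1 hz1
      rwa [norm_sub_rev w z, norm_sub_rev (Ψ j w) (Ψ j z)] at this
    · by_cases hw00 : w₀ = 0
      · have hz₀1 : ‖z₀‖ = 1 := by
          rw [Prod.norm_def, hw00] at hn
          simp only [norm_zero] at hn
          rwa [max_eq_left (norm_nonneg _)] at hn
        refine ⟨1 / (4 * K ^ 2), 1 / (4 * K), by positivity, by positivity, ?_⟩
        filter_upwards [hzero z₀ hz₀ hz₀1] with j hj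
        intro z hz w hw hzd hwd hz1 hw1
        rw [hw00, sub_zero] at hwd
        exact hj z hz w hw hzd hwd hz1 hw1
      · obtain ⟨c, hc, hev⟩ := sep hp hp4 hL hK h hz₀ hz00 hw₀ hw00 hzw
        refine ⟨c / (4 * K), c / 4, by positivity, by positivity, ?_⟩
        filter_upwards [h, hev] with j hj hj2
        intro z hz w hw hzd hwd hz1 hw1
        have a1 := hj.lip z₀ hz₀ z hz
        have a2 := hj.lip w₀ hw₀ w hw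
        have a3 : ‖z - w‖ ≤ 2 := (norm_sub_le _ _).trans (by linarith)
        have a4 : K * ‖z₀ - z‖ ≤ c / 4 := by
          rw [norm_sub_rev]
          calc K * ‖z - z₀‖ ≤ K * (c / (4 * K)) := by gcongr
            _ = c / 4 := by field_simp
        have a5 : K * ‖w₀ - w‖ ≤ c / 4 := by
          rw [norm_sub_rev]
          calc K * ‖w - w₀‖ ≤ K * (c / (4 * K)) := by gcongr
            _ = c / 4 := by field_simp
        have a6 : ‖Ψ j z₀ - Ψ j w₀‖ ≤ ‖Ψ j z₀ - Ψ j z‖ + ‖Ψ j z - Ψ j w‖ + ‖Ψ j w₀ - Ψ j w‖ := by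
          have e : Ψ j z₀ - Ψ j w₀ = (Ψ j z₀ - Ψ j z) + (Ψ j z - Ψ j w) - (Ψ j w₀ - Ψ j w) := by abel
          rw [e]
          refine (norm_sub_le _ _).trans ?_
          gcongr
          exact norm_add_le _ _
        have a7 : c / 4 * ‖z - w‖ ≤ c / 4 * 2 := by gcongr
        linarith

theorem llb {p L K : ℝ} (hp : 2 < p) (hp4 : p < 4) (hL : 0 ≤ L) (hK : 1 ≤ K)
    {Ψ : ℕ → W 2 → W 2} (h : ∀ᶠ j in (ult : Filter ℕ), Nice p L K (Ψ j)) :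
    ∃ c : ℝ, 0 < c ∧ ∀ᶠ j in (ult : Filter ℕ), ∀ z ∈ P0, ∀ w ∈ P0,
      c * ‖z - w‖ ≤ ‖Ψ j z - Ψ j w‖ := by
  classical
  have hP : IsClosed (P0 : Set (W 2)) := isClosed_eq (continuous_apply 0) continuous_const
  have hS : IsCompact (sphere (0 : W 2 × W 2) 1 ∩ P0 ×ˢ P0) :=
    (isCompact_sphere (0 : W 2 × W 2) 1).inter_right (hP.prod hP)
  have hloc : ∀ q : W 2 × W 2, q ∈ sphere (0 : W 2 × W 2) 1 ∩ P0 ×ˢ P0 → ∃ ρ c : ℝ, 0 < ρ ∧ 0 < c ∧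
      ∀ᶠ j in (ult : Filter ℕ), ∀ z ∈ P0, ∀ w ∈ P0, ‖z - q.1‖ ≤ ρ →
      ‖w - q.2‖ ≤ ρ → ‖z‖ ≤ 1 → ‖w‖ ≤ 1 → c * ‖z - w‖ ≤ ‖Ψ j z - Ψ j w‖ := by
    rintro ⟨z₀, w₀⟩ ⟨hs, hz, hw⟩
    exact llb_local hp hp4 hL hK h hz hw (by rwa [mem_sphere_zero_iff_norm] at hs)
  choose! ρ c hρ hc hev using hloc
  obtain ⟨t, ht, hcov⟩ := hS.elim_nhds_subcover (fun q => ball q (ρ q)) (fun q hq => ball_mem_nhds q (hρ q hq))
  have hall : ∀ᶠ j in (ult : Filter ℕ), ∀ q ∈ t, ∀ z ∈ P0, ∀ w ∈ P0, ‖z - q.1‖ ≤ ρ q →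
      ‖w - q.2‖ ≤ ρ q → ‖z‖ ≤ 1 → ‖w‖ ≤ 1 → c q * ‖z - w‖ ≤ ‖Ψ j z - Ψ j w‖ :=
    (Filter.eventually_all_finset t).2 fun q hq => hev q (ht q hq)
  obtain ⟨c₀, hc₀, hcle⟩ : ∃ c₀ : ℝ, 0 < c₀ ∧ ∀ q ∈ t, c₀ ≤ c q := by
    rcases t.eq_empty_or_nonempty with h0 | h0
    · exact ⟨1, one_pos, fun q hq => by rw [h0] at hq; exact absurd hq (Finset.notMem_empty q)⟩
    · refine ⟨t.inf' h0 c, ?_, fun q hq => Finset.inf'_le c hq⟩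
      rw [Finset.lt_inf'_iff]
      exact fun q hq => hc q (ht q hq)
  refine ⟨c₀, hc₀, ?_⟩
  filter_upwards [h, hall] with j hj hj2
  intro z hz w hw
  by_cases h0 : ‖(z, w)‖ = 0
  · have h1 : (z, w) = 0 := norm_eq_zero.1 h0
    rw [Prod.mk_eq_zero] at h1
    rw [h1.1, h1.2, sub_self, norm_zero, mul_zero]
    exact norm_nonneg _
  · have hN : 0 < ‖(z, w)‖ := lt_of_le_of_ne (norm_nonneg _) (Ne.symm h0)
    obtain ⟨N, hNdef⟩ : ∃ N : ℝ, N = ‖(z, w)‖ := ⟨_, rfl⟩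
    rw [← hNdef] at hN
    have hz' : N⁻¹ • z ∈ P0 := by
      show (N⁻¹ • z) 0 = 0
      rw [Pi.smul_apply, show z 0 = 0 from hz, smul_zero]
    have hw' : N⁻¹ • w ∈ P0 := by
      show (N⁻¹ • w) 0 = 0
      rw [Pi.smul_apply, show w 0 = 0 from hw, smul_zero]
    have hmem : (N⁻¹ • z, N⁻¹ • w) ∈ sphere (0 : W 2 × W 2) 1 ∩ P0 ×ˢ P0 := by
      refine ⟨?_, hz', hw'⟩
      rw [mem_sphere_zero_iff_norm, ← Prod.smul_mk, norm_smul, norm_inv, ← hNdef,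
        Real.norm_of_nonneg hN.le, inv_mul_cancel₀ hN.ne']
    obtain ⟨q, hqt, hq⟩ := mem_iUnion₂.1 (hcov hmem)
    rw [mem_ball, dist_eq_norm, Prod.norm_def, max_lt_iff] at hq
    have hle1 : ‖N⁻¹ • z‖ ≤ 1 := by
      rw [norm_smul, norm_inv, Real.norm_of_nonneg hN.le, inv_mul_le_iff₀ hN, mul_one, hNdef]
      exact norm_fst_le (z, w)
    have hle2 : ‖N⁻¹ • w‖ ≤ 1 := by
      rw [norm_smul, norm_inv, Real.norm_of_nonneg hN.le, inv_mul_le_iff₀ hN, mul_one, hNdef]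
      exact norm_snd_le (z, w)
    have h3 := hj2 q hqt _ hz' _ hw' hq.1.le hq.2.le hle1 hle2
    have h4 : c₀ * ‖N⁻¹ • z - N⁻¹ • w‖ ≤ ‖Ψ j (N⁻¹ • z) - Ψ j (N⁻¹ • w)‖ := by
      refine le_trans ?_ h3
      gcongr
      exact hcle q hqt
    rw [real_hom hj.line.1.hloc, real_hom hj.line.1.hloc, ← smul_sub, ← smul_sub, norm_smul, norm_smul,
      norm_inv, Real.norm_of_nonneg hN.le] at h4
    have h5 : N⁻¹ * (c₀ * ‖z - w‖) ≤ N⁻¹ * ‖Ψ j z - Ψ j w‖ := by linarith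
    exact le_of_mul_le_mul_left h5 (inv_pos.2 hN)

end Pool.Agent.Lib.PJ
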