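import Pool.Agent.Lib.PJ.LineB

set_option autoImplicit false

/-!
# Normalisation by complex linear maps (step 5)

PROOF. `z₀ = cp 0 0 = (0, 1, 0) ∈ P0`, norm `1`. `A j = fderiv ℝ (Φ j) z₀`, a unit (`isUnit_fderiv`); `‖Jr (A j)‖ ≤ K₀` (`line_bound`). `exists_close` (P28g/NormSeq) applied to `Jr (A j)` with `ε = 1 / K₀` (`K₀ ≥ 1`): an `i₀` with `‖Jr (A i₀)‖ ≤ K₀` and, for almost all `j`, `‖Jr (A i₀) - Jr (A j)‖ ≤ 1 / K₀`;
`exists_match` (P28c/Match; `Jm` of the unit is `Jr`) gives for these `j` a complex linear `T j` with `‖(A i₀)⁻¹ T_j A_j - 1‖ ≤ 1/2` (for the other `j` take `T j = 1`). `norm_of_close` (P28g/NormSeq): `B_j = T_j A_j` has `‖B_j‖ ≤ 2 ‖A i₀‖`, `‖B_j⁻¹‖ ≤ 2 ‖(A i₀)⁻¹‖`.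
`Ψ_j = T_j ∘ Φ_j`: `LineE` by `lineE_left`, injective, `D Ψ_j z = T_j D Φ_j z` (`fderiv_left`), so `D Ψ_j (z)⁻¹ D Ψ_j (w) = D Φ_j (z)⁻¹ D Φ_j (w)`; for `z ∈ P0` of norm `1`: `D Ψ_j z = B_j (D Φ_j(z₀)⁻¹ D Φ_j(z))`, norm `≤ 2 ‖A i₀‖ (1 + K₀ 2^α)`, the inverse similarly; for general `z ≠ 0` by `fderiv_pos_smul`.
`D Ψ(z) - D Ψ(w) = -D Ψ(z) (D Ψ(z)⁻¹ D Ψ(w) - 1)` gives `mod`. Take `K` the maximum of the bounds.
-/

open MeasureTheory Set Metric Filter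
open scoped ContDiff Topology ENNReal

namespace Pool.Agent.Lib.PJ

open Pool.Agent.P28b04d Pool.Agent.Lib.P28e Pool.Agent.Lib.P28c Pool.Agent.Lib.P28g
open Pool.Agent.Lib.P28f (ult)

theorem norm_line {p : ℝ} (hp : 2 < p) {L : ℝ} (hL : 0 ≤ L) (Φ : ℕ → W 2 → W 2)
    (h : ∀ j, LineE p L (Φ j)) (hi : ∀ j, Function.Injective (Φ j)) :
    ∃ (K : ℝ) (T : ℕ → (W 2 ≃ₗ[ℂ] W 2)), 1 ≤ K ∧
      ∀ᶠ j in (ult : Filter ℕ), Nice p L K fun z => T j (Φ j z) := by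
  classical
  obtain ⟨K₀, hK₀, hlb⟩ := line_bound hp hL
  have hα := alpha_pos hp
  have hz₀P : cp 0 0 ∈ P0 := cp_mem 0
  have hz₀n : ‖cp 0 0‖ = 1 := norm_cp_zero (by simp)
  have hz₀ : cp 0 0 ≠ 0 := cp_ne 0 0
  -- the units
  have hunit : ∀ j, ∃ u : (EndW 2)ˣ, (u : EndW 2) = fderiv ℝ (Φ j) (cp 0 0) := fun j =>
    isUnit_fderiv (h j).1.hloc hz₀
  choose A hA using hunit
  have hJm : ∀ j, Jm (A j) = Jr (fderiv ℝ (Φ j) (cp 0 0)) := fun j => by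
    rw [← hA j, Jr_unit]
    rfl
  have hJn : ∀ j, ‖Jm (A j)‖ ≤ K₀ := fun j => by
    rw [hJm]
    exact (hlb (Φ j) (h j)).2 _ hz₀P hz₀n
  have : FiniteDimensional ℝ (EndW 2) := inferInstance
  obtain ⟨i₀, hi₀, hev⟩ := NormSeqAux.exists_close (fun j => (Jm (A j) : EndW 2))
    (show 0 < 1 / K₀ by positivity) (Eventually.of_forall hJn)
  -- the linear maps
  have hT : ∀ j, ∃ T : W 2 ≃ₗ[ℂ] W 2, (‖Jm (A i₀) - Jm (A j)‖ ≤ 1 / K₀ →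
      ∃ TR : EndW 2, (∀ v, TR v = T v) ∧
        ‖((A i₀)⁻¹ : (EndW 2)ˣ) * TR * (A j : EndW 2) - 1‖ ≤ 1 / 2) := by
    intro j
    by_cases hj : ‖Jm (A i₀) - Jm (A j)‖ ≤ 1 / K₀
    · have hle : ‖Jm (A i₀)‖ * ‖Jm (A i₀) - Jm (A j)‖ ≤ 1 := by
        calc ‖Jm (A i₀)‖ * ‖Jm (A i₀) - Jm (A j)‖ ≤ K₀ * (1 / K₀) := by gcongr
          _ = 1 := by field_simp
      obtain ⟨T, TR, hTR, hn⟩ := exists_match (A i₀) (A j) hle
      exact ⟨T, fun _ => ⟨TR, hTR, hn.trans (by linarith)⟩⟩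
    · exact ⟨LinearEquiv.refl ℂ (W 2), fun hj' => absurd hj' hj⟩
  choose T hT using hT
  obtain ⟨a, ha⟩ : ∃ a : ℝ, a = ‖((A i₀ : (EndW 2)ˣ) : EndW 2)‖ := ⟨_, rfl⟩
  obtain ⟨a', ha'⟩ : ∃ a' : ℝ, a' = ‖(((A i₀)⁻¹ : (EndW 2)ˣ) : EndW 2)‖ := ⟨_, rfl⟩
  have ha0 : 0 ≤ a := by rw [ha]; exact norm_nonneg _
  have ha'0 : 0 ≤ a' := by rw [ha']; exact norm_nonneg _
  obtain ⟨M, hM⟩ : ∃ M : ℝ, M = 1 + K₀ * 2 ^ (1 - 2 / p) := ⟨_, rfl⟩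
  have hM1 : 1 ≤ M := by
    rw [hM]
    have : 0 ≤ K₀ * 2 ^ (1 - 2 / p) := by positivity
    linarith
  have hM0 : 0 ≤ M := by linarith
  obtain ⟨K, hK⟩ : ∃ K : ℝ, K = max 1 (max (2 * a * M) (max (M * (2 * a')) (2 * a * M * K₀))) := ⟨_, rfl⟩
  have k1 : 1 ≤ K := by rw [hK]; exact le_max_left _ _
  have k2 : 2 * a * M ≤ K := by rw [hK]; exact le_max_of_le_right (le_max_left _ _)
  have k3 : M * (2 * a') ≤ K := by
    rw [hK]; exact le_max_of_le_right (le_max_of_le_right (le_max_left _ _))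
  have k4 : 2 * a * M * K₀ ≤ K := by
    rw [hK]; exact le_max_of_le_right (le_max_of_le_right (le_max_right _ _))
  refine ⟨K, T, k1, ?_⟩
  filter_upwards [hev] with j hj
  obtain ⟨TR, hTR, hn⟩ := hT j hj.2
  have hl := (h j).1.hloc
  have hlT : HLoc fun z => T j (Φ j z) := hloc_T_left hl (T j)
  -- the derivative of the composition
  have hfd : ∀ {z : W 2}, z ≠ 0 → fderiv ℝ (fun z => T j (Φ j z)) z = TR * fderiv ℝ (Φ j) z := by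
    intro z hz
    obtain ⟨S, hS, _, hc⟩ := exists_T (T j)
    have h1 := fderiv_left hl S hz
    simp only [hS] at h1
    rw [h1]
    congr 1
    ext1 v
    rw [hTR]
    exact hS v
  -- the matrix at the base point
  obtain ⟨hNu, hN1, hN2⟩ := NormSeqAux.norm_of_close ((A i₀ : (EndW 2)ˣ) : EndW 2) (TR * (A j : EndW 2))
    (((A i₀)⁻¹ : (EndW 2)ˣ) : EndW 2) (Units.inv_mul _) (Units.mul_inv _) (by
      rw [← mul_assoc]
      exact hn)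
  rw [← ha] at hN1
  rw [← ha'] at hN2
  obtain ⟨B, hB⟩ := hNu
  rw [← hB] at hN1 hN2
  rw [Ring.inverse_unit] at hN2
  have hdv : ∀ z ∈ P0, ‖z‖ = 1 → ‖Ring.inverse (fderiv ℝ (Φ j) (cp 0 0) : EndW 2) * fderiv ℝ (Φ j) z‖ ≤ M ∧
      ‖Ring.inverse (fderiv ℝ (Φ j) z : EndW 2) * fderiv ℝ (Φ j) (cp 0 0)‖ ≤ M := by
    intro z hz hz1
    have e1 : ‖cp 0 0 - z‖ ≤ 2 := (norm_sub_le _ _).trans (by linarith)
    have e2 : ‖z - cp 0 0‖ ≤ 2 := (norm_sub_le _ _).trans (by linarith)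
    constructor
    · rw [hM]
      refine norm_le_of_sub_one (((hlb (Φ j) (h j)).1 _ hz₀P z hz hz₀n hz1).trans ?_)
      gcongr
    · rw [hM]
      refine norm_le_of_sub_one (((hlb (Φ j) (h j)).1 z hz _ hz₀P hz1 hz₀n).trans ?_)
      gcongr
  have hup1 : ∀ z ∈ P0, ‖z‖ = 1 → ‖(TR * fderiv ℝ (Φ j) z : EndW 2)‖ ≤ 2 * a * M := by
    intro z hz hz1
    have e : (TR * fderiv ℝ (Φ j) z : EndW 2) =
        (B : EndW 2) * (Ring.inverse (fderiv ℝ (Φ j) (cp 0 0) : EndW 2) * fderiv ℝ (Φ j) z) := by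
      rw [hB, ← hA j, Ring.inverse_unit]
      rw [mul_assoc, ← mul_assoc (A j : EndW 2), Units.mul_inv, one_mul]
    rw [e]
    exact (norm_mul_le _ _).trans (mul_le_mul hN1 (hdv z hz hz1).1 (norm_nonneg _) (by positivity))
  have hlow1 : ∀ z ∈ P0, ‖z‖ = 1 → ‖Ring.inverse (TR * fderiv ℝ (Φ j) z : EndW 2)‖ ≤ M * (2 * a') := by
    intro z hz hz1
    have hz0 : z ≠ 0 := by rw [← norm_pos_iff, hz1]; exact one_pos
    obtain ⟨u, hu⟩ := isUnit_fderiv hl hz0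
    have e : (TR * fderiv ℝ (Φ j) z : EndW 2) = ((B * (A j)⁻¹ * u : (EndW 2)ˣ) : EndW 2) := by
      rw [Units.val_mul, Units.val_mul, hB, hu]
      rw [mul_assoc TR, Units.mul_inv, mul_one]
    rw [e, Ring.inverse_unit, mul_inv_rev, mul_inv_rev, inv_inv, Units.val_mul, Units.val_mul,
      ← mul_assoc]
    refine (norm_mul_le _ _).trans (mul_le_mul ?_ hN2 (norm_nonneg _) hM0)
    have := (hdv z hz hz1).2
    rw [← hu, Ring.inverse_unit, ← hA j] at this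
    exact this
  have hsc : ∀ {x : W 2}, x ∈ P0 → x ≠ 0 → ∃ y ∈ P0, ‖y‖ = 1 ∧ fderiv ℝ (Φ j) y = fderiv ℝ (Φ j) x := by
    intro x hx hx0
    have hxn : 0 < ‖x‖ := norm_pos_iff.2 hx0
    refine ⟨‖x‖⁻¹ • x, ?_, ?_, fderiv_pos_smul hl (inv_pos.2 hxn) hx0⟩
    · show (‖x‖⁻¹ • x) 0 = 0
      rw [Pi.smul_apply, show x 0 = 0 from hx, smul_zero]
    · rw [norm_smul, norm_inv, norm_norm, inv_mul_cancel₀ hxn.ne']
  refine ⟨lineE_left (h j) (T j), (T j).injective.comp (hi j), ?_, ?_, ?_⟩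
  · intro z hz hz0
    rw [hfd hz0]
    obtain ⟨y, hy, hy1, hyz⟩ := hsc hz hz0
    rw [← hyz]
    exact (hup1 y hy hy1).trans k2
  · intro z hz hz0
    rw [hfd hz0]
    obtain ⟨y, hy, hy1, hyz⟩ := hsc hz hz0
    rw [← hyz]
    exact (hlow1 y hy hy1).trans k3
  · intro z hz w hw hz1 hw1
    have hz0 : z ≠ 0 := by rw [← norm_pos_iff, hz1]; exact one_pos
    have hw0 : w ≠ 0 := by rw [← norm_pos_iff, hw1]; exact one_pos
    rw [hfd hz0, hfd hw0]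
    have e : (TR * fderiv ℝ (Φ j) z : EndW 2) - TR * fderiv ℝ (Φ j) w =
        -((TR * fderiv ℝ (Φ j) z : EndW 2) *
          (Ring.inverse (fderiv ℝ (Φ j) z : EndW 2) * fderiv ℝ (Φ j) w - 1)) := by
      rw [mul_sub, mul_one, mul_assoc, ← mul_assoc (fderiv ℝ (Φ j) z : EndW 2),
        Ring.mul_inverse_cancel _ (isUnit_fderiv hl hz0), one_mul]
      abel
    rw [e, norm_neg]
    refine (norm_mul_le _ _).trans ?_
    calc ‖(TR * fderiv ℝ (Φ j) z : EndW 2)‖ *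
          ‖Ring.inverse (fderiv ℝ (Φ j) z : EndW 2) * fderiv ℝ (Φ j) w - 1‖
        ≤ (2 * a * M) * (K₀ * ‖z - w‖ ^ (1 - 2 / p)) := by
          refine mul_le_mul (hup1 z hz hz1) ((hlb (Φ j) (h j)).1 z hz w hw hz1 hw1) (norm_nonneg _)
            (by positivity)
      _ = 2 * a * M * K₀ * ‖z - w‖ ^ (1 - 2 / p) := by ring
      _ ≤ K * ‖z - w‖ ^ (1 - 2 / p) := by gcongr

end Pool.Agent.Lib.PJ
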