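import Pool.Agent.Lib.PJ.Line
import Pool.Agent.Lib.PJ.NormJ
import Pool.Agent.Lib.PJ.Cau
import Pool.Agent.Lib.PJ.LLB
import Pool.Agent.Lib.PJ.IsoExt
import Pool.Agent.Lib.PJ.BallM

set_option autoImplicit false

/-!
# Finiteness modulo ball-supported diffeomorphisms (step 9, (1))

PROOF. Lifts `Φ_j` with `enP p Φ_j ≤ ofReal E` (`iInf_lt_iff`), injective (`lift_injective`), shears `b_j` with `LineE p (C E) (Φ_j ∘ sh b_j)` (`exists_line`), `K`, `T_j` from `norm_line`: `Ψ_j = T_j ∘ Φ_j ∘ sh b_j` is `Nice p L K` for almost all `j`, `L = C E`. `c` from `llb`, `η = min (c / 2) (1 / (2 K))`, `cauchy`: for almost all `i`, almost all `j`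
`‖D_i z - D_j z‖ ≤ η` on `P0`. Choose `i` (also with `Nice`), then `j > i` (`ult ≤ cofinite`; also `Nice`, the bound of `llb` for `j`). `iso_ext` with `Φ = Ψ_j`, `Ψ = Ψ_i` (`h2`: `v = D⁻¹ D v`, `Nice.low`): `Conn Ψ_j Φ'`, `Φ' = Ψ_i` near `P0`. `rel_of` with `Φ₁ = Φ_i`, `Φ₂ = Φ_j`, `Ψ₁ = Ψ_i`, `Ψ₂ = Ψ_j`.
-/

open MeasureTheory Set Metric Filter
open scoped ContDiff Topology ENNReal

namespace Pool.Agent.Lib.PJ

open Pool.Agent.P28b04d Pool.Agent.Lib.P28e Pool.Agent.Lib.P28c Pool.Agent.Lib.P28g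
open Pool.Agent.Lib.P28f (ult)

/-- A lift of small energy. -/
theorem exists_of_pE {p : ℝ} {F : Mat 2 → Mat 2} {E : ℝ≥0∞} (h : pE p F < E) :
    ∃ Φ : W 2 → W 2, HLoc Φ ∧ enP p Φ < E ∧ ∀ z : W 2, z ≠ 0 → F (pt z) = pt (Φ z) := by
  unfold pE at h
  simp only [iInf_lt_iff] at h
  obtain ⟨Φ, hΦ, hF, he⟩ := h
  exact ⟨Φ, hΦ, he, hF⟩

theorem fin_rel {p : ℝ} (hp : 2 < p) (hp4 : p < 4) {E : ℝ} (hE : 0 ≤ E) (F : ℕ → Mat 2 → Mat 2)
    (hi : ∀ j, InjOn (F j) (CP 2)) (he : ∀ j, pE p (F j) < ENNReal.ofReal E) :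
    ∃ i j, i < j ∧ ∃ B, BallDiff B ∧ Isotopic 2 (F j) fun P => F i (B P) := by
  choose Φ hΦ hen hF using fun j => exists_of_pE (he j)
  have hinj : ∀ j, Function.Injective (Φ j) := fun j => lift_injective (hΦ j) (hF j) (hi j)
  obtain ⟨C, hC, hline⟩ := exists_line hp hp4
  choose b₁ b₂ hb using fun j => hline (Φ j) (hΦ j) E hE (hen j).le
  obtain ⟨L, hL⟩ : ∃ L : ℝ, L = C * E := ⟨_, rfl⟩
  have hL0 : 0 ≤ L := by
    rw [hL]
    positivity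
  have hb' : ∀ j, LineE p L fun z => Φ j (sh (b₁ j) (b₂ j) z) := fun j => by
    rw [hL]
    exact hb j
  have hinj' : ∀ j, Function.Injective fun z => Φ j (sh (b₁ j) (b₂ j) z) := fun j =>
    (hinj j).comp (shE (b₁ j) (b₂ j)).injective
  obtain ⟨K, T, hK, hnice⟩ := norm_line hp hL0 (fun j z => Φ j (sh (b₁ j) (b₂ j) z)) hb' hinj'
  obtain ⟨c, hc, hllb⟩ := llb hp hp4 hL0 hK hnice
  obtain ⟨η, hη⟩ : ∃ η : ℝ, η = min (c / 2) (1 / (2 * K)) := ⟨_, rfl⟩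
  have hK0 : 0 < K := by linarith
  have hη0 : 0 < η := by
    rw [hη]
    exact lt_min (by positivity) (by positivity)
  have hη1 : 2 * η ≤ c := by
    have := min_le_left (c / 2) (1 / (2 * K))
    rw [← hη] at this
    linarith
  have hη2 : 2 * η * K ≤ 1 := by
    have h1 := min_le_right (c / 2) (1 / (2 * K))
    rw [← hη] at h1
    have h2 : η * (2 * K) ≤ 1 := by
      rwa [le_div_iff₀ (by positivity)] at h1
    linarith
  have hcau := cauchy hp hK hnice hη0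
  obtain ⟨i, hcau, hni⟩ := (hcau.and hnice).exists
  have hgt : ∀ᶠ j in (ult : Filter ℕ), i < j := Nat.hyperfilter_le_atTop (eventually_gt_atTop i)
  obtain ⟨j, ⟨hj1, hj2⟩, hj3, hj4⟩ := ((hcau.and hnice).and (hllb.and hgt)).exists
  obtain ⟨Φ', δ, hδ, hconn, hE'⟩ := iso_ext (Φ := fun z => T j (Φ j (sh (b₁ j) (b₂ j) z)))
    (Ψ := fun z => T i (Φ i (sh (b₁ i) (b₂ i) z))) hj2.line.1.hloc hni.line.1.hloc hc hK0 hj3
    hj2.vec (fun z hz hz0 => by rw [norm_sub_rev]; exact hj1 z hz hz0) hη1 hη2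
  have hcn : ∀ k, Conn (Φ k) fun z => T k (Φ k (sh (b₁ k) (b₂ k) z)) := fun k => by
    have h1 : Conn (Φ k) fun z => Φ k (sh (b₁ k) (b₂ k) z) :=
      conn_T_right (hΦ k) (shE (b₁ k) (b₂ k))
    have h2 := conn_T_left (hloc_sh (hΦ k) (b₁ k) (b₂ k)) (T k)
    exact h1.trans h2
  exact ⟨i, j, hj4, rel_of (hΦ i) (hΦ j) (hinj i) (hinj j) (hcn i) (hcn j) hconn hδ hE' (hF i) (hF j)⟩

end Pool.Agent.Lib.PJ
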