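import Pool.Agent.Lib.PJ.Mor
import Pool.Agent.Lib.PJ.Lin

set_option autoImplicit false

/-!
# The derivative of a lift along an affine complex line (step 3)

PROOF. `mult_flat`: let `C = 4 C₀`, `C₀` from `morrey`. Fix `x ∈ B = closedBall z r`, `v y = Ring.inverse (u x) * u y`, continuous, `v x = 1`; `M = max_B ‖v‖` (compactness). `Dv y w = Ring.inverse (u x) * Du y w = v y * (Ring.inverse (u y) * Du y w)`, so `‖Dv y‖ ≤ M a y` on `B`
(`opNorm_le_bound`), `∫_B ‖Dv‖^p ≤ (M A)^p`, hence `‖v y - 1‖ = ‖v y - v x‖ ≤ C₀ M A r^(1-2/p) ≤ M / 4` on `B`, `M ≤ 1 + M / 4`, `M ≤ 4/3`, `‖v y - 1‖ ≤ (4/3) C₀ A r^(1-2/p) ≤ C A r^(1-2/p)`. (`‖1‖ = 1` in `EndW 2`.)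
`flat_disc`: `u η = fderiv ℝ Φ (w₀ + η • w₁)`; the point is never `0` (its coordinate `1` is `1`), `fderiv ℝ Φ` is smooth off `0` (`Hom46.contDiffAt_fderiv`), `fderiv ℝ u η v = D²Φ_(w₀ + η w₁) (v • w₁)`, so `Ring.inverse (u η) * fderiv ℝ u η v = conn Φ (w₀ + η • w₁) (v • w₁)` (`conn_apply`),
norm `≤ ‖conn Φ (w₀ + η • w₁)‖ * ‖v‖ * ‖w₁‖`. Apply `mult_flat` with `a η = ‖conn Φ (w₀ + η • w₁)‖`, `ENNReal.ofReal (a η) = ‖conn Φ ..‖ₑ` (`ofReal_norm`).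
-/

open MeasureTheory Set Metric Filter
open scoped ContDiff Topology ENNReal

namespace Pool.Agent.Lib.PJ

open Pool.Agent.P28b04d Pool.Agent.Lib.P28e Pool.Agent.Lib.P28c Pool.Agent.Lib.P28g
open Pool.Agent.Lib.P28f (ult)

theorem mult_flat {p : ℝ} (hp : 2 < p) : ∃ C : ℝ, 1 ≤ C ∧ ∀ (u : ℂ → EndW 2) (a : ℂ → ℝ) (z : ℂ)
    (r A : ℝ), 0 < r → 0 ≤ A → ContDiff ℝ 1 u → (∀ x, IsUnit (u x)) →
    (∀ x v, ‖Ring.inverse (u x) * fderiv ℝ u x v‖ ≤ a x * ‖v‖) →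
    ∫⁻ x in closedBall z r, ENNReal.ofReal (a x) ^ p ≤ ENNReal.ofReal (A ^ p) →
    C * A * r ^ (1 - 2 / p) ≤ 1 → FlatU (C * A * r ^ (1 - 2 / p)) (closedBall z r) u := by
  obtain ⟨C₀, hC₀, hmor⟩ := morrey (EndW 2) hp
  have hp0 : 0 < p := by linarith
  refine ⟨4 * C₀, by linarith, fun u a z r A hr hA hu hunit hD hint hsm x hx y hy => ?_⟩
  have ha : ∀ w, 0 ≤ a w := by
    intro w
    have h1 := hD w 1
    rw [norm_one, mul_one] at h1
    exact (norm_nonneg _).trans h1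
  obtain ⟨v, hv⟩ : ∃ v : ℂ → EndW 2, v = fun y => Ring.inverse (u x) * u y := ⟨_, rfl⟩
  have hvc : Continuous v := by
    rw [hv]
    exact continuous_const.mul hu.continuous
  obtain ⟨w₀, hw₀, hmax⟩ := (isCompact_closedBall z r).exists_isMaxOn ⟨x, hx⟩ hvc.norm.continuousOn
  obtain ⟨M, hM⟩ : ∃ M : ℝ, M = ‖v w₀‖ := ⟨_, rfl⟩
  have hvM : ∀ w ∈ closedBall z r, ‖v w‖ ≤ M := fun w hw => by
    rw [hM]
    exact hmax hw
  have hM0 : 0 ≤ M := by rw [hM]; exact norm_nonneg _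
  have hvd : ContDiff ℝ 1 v := by
    rw [hv]
    exact ((ContinuousLinearMap.compL ℝ (W 2) (W 2) (W 2) (Ring.inverse (u x))).contDiff).comp hu
  have hder : ∀ w ∈ closedBall z r, ‖fderiv ℝ v w‖ ≤ M * a w := by
    intro w hw
    refine ContinuousLinearMap.opNorm_le_bound _ (mul_nonneg hM0 (ha w)) fun η => ?_
    have h1 : HasFDerivAt v ((ContinuousLinearMap.compL ℝ (W 2) (W 2) (W 2) (Ring.inverse (u x))).comp
        (fderiv ℝ u w)) w := by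
      rw [hv]
      exact (ContinuousLinearMap.compL ℝ (W 2) (W 2) (W 2) (Ring.inverse (u x))).hasFDerivAt.comp w
        ((hu.differentiable one_ne_zero) w).hasFDerivAt
    rw [h1.fderiv]
    have h2 : ((ContinuousLinearMap.compL ℝ (W 2) (W 2) (W 2) (Ring.inverse (u x))).comp
        (fderiv ℝ u w)) η = v w * (Ring.inverse (u w) * fderiv ℝ u w η) := by
      rw [hv]
      show Ring.inverse (u x) * fderiv ℝ u w η = _
      rw [mul_assoc, ← mul_assoc (u w), Ring.mul_inverse_cancel _ (hunit w), one_mul]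
    rw [h2]
    calc ‖v w * (Ring.inverse (u w) * fderiv ℝ u w η)‖ ≤ ‖v w‖ * ‖Ring.inverse (u w) * fderiv ℝ u w η‖ :=
          norm_mul_le _ _
      _ ≤ M * (a w * ‖η‖) := mul_le_mul (hvM w hw) (hD w η) (norm_nonneg _) hM0
      _ = M * a w * ‖η‖ := by ring
  have hint2 : ∫⁻ w in closedBall z r, ‖fderiv ℝ v w‖ₑ ^ p ≤ ENNReal.ofReal ((M * A) ^ p) := by
    calc ∫⁻ w in closedBall z r, ‖fderiv ℝ v w‖ₑ ^ p
        ≤ ∫⁻ w in closedBall z r, ENNReal.ofReal (M ^ p) * ENNReal.ofReal (a w) ^ p := by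
          refine setLIntegral_mono' measurableSet_closedBall fun w hw => ?_
          rw [← ENNReal.ofReal_rpow_of_nonneg hM0 hp0.le, ← ENNReal.mul_rpow_of_nonneg _ _ hp0.le,
            ← ENNReal.ofReal_mul hM0]
          refine ENNReal.rpow_le_rpow ?_ hp0.le
          rw [← ofReal_norm]
          exact ENNReal.ofReal_le_ofReal (hder w hw)
      _ = ENNReal.ofReal (M ^ p) * ∫⁻ w in closedBall z r, ENNReal.ofReal (a w) ^ p :=
          lintegral_const_mul' _ _ ENNReal.ofReal_ne_top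
      _ ≤ ENNReal.ofReal (M ^ p) * ENNReal.ofReal (A ^ p) := by gcongr
      _ = ENNReal.ofReal ((M * A) ^ p) := by
          rw [← ENNReal.ofReal_mul (by positivity), Real.mul_rpow hM0 hA]
  have hmor2 := hmor v z r (M * A) hr (mul_nonneg hM0 hA) hvd hint2
  have hvx : v x = 1 := by
    rw [hv]
    exact Ring.inverse_mul_cancel _ (hunit x)
  have hr0 : 0 ≤ r ^ (1 - 2 / p) := by positivity
  have hd : C₀ * A * r ^ (1 - 2 / p) ≤ 1 / 4 := by linarith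
  have hbound : ∀ w ∈ closedBall z r, ‖v w - 1‖ ≤ C₀ * A * r ^ (1 - 2 / p) * M := by
    intro w hw
    have := hmor2 w hw x hx
    rw [hvx] at this
    linarith
  have hM43 : M ≤ 4 / 3 := by
    have h1 := hbound w₀ hw₀
    have h2 : M ≤ ‖v w₀ - 1‖ + 1 := by
      rw [hM]
      calc ‖v w₀‖ = ‖(v w₀ - 1) + 1‖ := by rw [sub_add_cancel]
        _ ≤ ‖v w₀ - 1‖ + ‖(1 : EndW 2)‖ := norm_add_le _ _
        _ = ‖v w₀ - 1‖ + 1 := by rw [norm_one]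
    nlinarith
  have h3 := hbound y hy
  rw [hv] at h3
  refine h3.trans ?_
  have h4 : 0 ≤ C₀ * A * r ^ (1 - 2 / p) := by positivity
  nlinarith

theorem flat_disc {p : ℝ} (hp : 2 < p) : ∃ C : ℝ, 1 ≤ C ∧ ∀ Φ : W 2 → W 2, HLoc Φ →
    ∀ w₀ w₁ : W 2, w₀ 1 = 1 → w₁ 1 = 0 → ‖w₁‖ ≤ 1 → ∀ (z : ℂ) (r A : ℝ), 0 < r → 0 ≤ A →
    ∫⁻ η in closedBall z r, ‖conn Φ (w₀ + η • w₁)‖ₑ ^ p ≤ ENNReal.ofReal (A ^ p) →
    C * A * r ^ (1 - 2 / p) ≤ 1 →
    FlatU (C * A * r ^ (1 - 2 / p)) (closedBall z r)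
      fun η => (fderiv ℝ Φ (w₀ + η • w₁) : EndW 2) := by
  obtain ⟨C, hC, hflat⟩ := mult_flat hp
  refine ⟨C, hC, fun Φ hΦ w₀ w₁ h0 h1 hw₁ z r A hr hA hint hsm => ?_⟩
  have hne : ∀ η : ℂ, w₀ + η • w₁ ≠ 0 := by
    intro η h
    have := congrFun h 1
    simp only [Pi.add_apply, Pi.smul_apply, h0, h1, smul_zero, add_zero, Pi.zero_apply] at this
    exact one_ne_zero this
  have hline : ContDiff ℝ ∞ fun η : ℂ => w₀ + η • w₁ := by fun_prop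
  have hu : ContDiff ℝ 1 fun η : ℂ => (fderiv ℝ Φ (w₀ + η • w₁) : EndW 2) := by
    rw [contDiff_iff_contDiffAt]
    intro η
    have h2 : ContDiffAt ℝ ∞ (fderiv ℝ Φ) (w₀ + η • w₁) := Hom46.contDiffAt_fderiv hΦ (hne η)
    exact (h2.comp η hline.contDiffAt).of_le (by exact_mod_cast le_top)
  refine hflat _ (fun η => ‖conn Φ (w₀ + η • w₁)‖) z r A hr hA hu
    (fun η => isUnit_fderiv hΦ (hne η)) (fun η v => ?_) ?_ hsm
  · have hd : HasFDerivAt (fun η : ℂ => w₀ + η • w₁)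
        ((ContinuousLinearMap.id ℝ ℂ).smulRight w₁ : ℂ →L[ℝ] W 2) η := by
      have := ((ContinuousLinearMap.id ℝ ℂ).smulRight w₁ : ℂ →L[ℝ] W 2).hasFDerivAt (x := η)
      exact this.const_add w₀
    have h2 := (Hom46.hasFDerivAt_fderiv hΦ (hne η)).comp η hd
    have h3 : fderiv ℝ (fun η : ℂ => (fderiv ℝ Φ (w₀ + η • w₁) : EndW 2)) η v =
        fderiv ℝ (fderiv ℝ Φ) (w₀ + η • w₁) (v • w₁) := by
      have h4 : HasFDerivAt (fun η : ℂ => (fderiv ℝ Φ (w₀ + η • w₁) : EndW 2)) _ η := h2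
      rw [h4.fderiv]
      rfl
    rw [h3, ← conn_apply]
    refine (ContinuousLinearMap.le_opNorm _ _).trans ?_
    gcongr
    rw [norm_smul]
    calc ‖v‖ * ‖w₁‖ ≤ ‖v‖ * 1 := by gcongr
      _ = ‖v‖ := mul_one _
  · have e : ∀ η : ℂ, ENNReal.ofReal ‖conn Φ (w₀ + η • w₁)‖ = ‖conn Φ (w₀ + η • w₁)‖ₑ :=
      fun η => ofReal_norm (conn Φ (w₀ + η • w₁))
    simp only [e]
    exact hint

end Pool.Agent.Lib.PJ
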