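import Pool.Agent.Lib.PJ.ChartF

set_option autoImplicit false

/-!
# The derivative of a lift on the plane `P0` (step 4)

PROOF. `line_bound`. Let `z, w ∈ P0` have norm `1`. Call `z` of type 1 if `‖z 1‖ = 1`, then `z = c • cp 0 ζ` with `c = z 1`, `ζ = z 2 / z 1`, `‖ζ‖ ≤ 1`; of type 2 if `‖z 2‖ = 1`, then `z = c • sw (cp 0 ζ)` with `c = z 2`, `ζ = z 1 / z 2`. For `z, w` both of type 1:
`twist` with `c = z 1`, `c' = w 1` (`‖c - c'‖ ≤ ‖z - w‖`) and `chart_flat` with `‖ζ - ζ'‖ ≤ 2 ‖z - w‖` give `≤ ‖z - w‖ (K + 1) (K 2^α + 1) + K 2^α ‖z - w‖^α ≤ K' ‖z - w‖^α` (`‖z - w‖ ≤ 2`, so `‖z - w‖ ≤ 2 ‖z - w‖^α`). Both of type 2: the same for `Φ ∘ sw` (`D(Φ ∘ sw)(x) = D Φ (sw x) * sw`,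
so the left side for `Φ` is conjugate by `sw`, an isometry, to that for `Φ ∘ sw`; the same for `Jr`, because `sw` commutes with `mulC I`). Mixed: `z` of type 1, `w` of type 2: let `z' = (0, z 1, θ)` with `‖θ‖ = 1`, `‖z 2 - θ‖ = 1 - ‖z 2‖ ≤ ‖z - w‖` (`θ = z 2 / ‖z 2‖`, or `1` if `z 2 = 0`), `w' = (0, θ', w 2)` similarly;
`‖z' - w'‖ ≤ 3 ‖z - w‖`; `z, z'` type 1; `z', w'` type 1; `w', w` type 2. `D(z)⁻¹ D(w) = (1 + e₁)(1 + e₂)(1 + e₃)` with `‖e_i‖ ≤ K' (3 ‖z - w‖)^α`, so `‖D(z)⁻¹ D(w) - 1‖ ≤ K'' ‖z - w‖^α`.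
`line_small`: the same with `chart_small`: by positive scaling (`fderiv_pos_smul`) norm `1`; for equal types `≤ 2 δ' (1 + δ') + δ'` (`‖c - c'‖ ≤ 2`); mixed types: through `z' = w' = cp 0 1 = sw (cp 0 1)`. `Jr_twist` for the last statement.
-/

open MeasureTheory Set Metric Filter
open scoped ContDiff Topology ENNReal

namespace Pool.Agent.Lib.PJ

open Pool.Agent.P28b04d Pool.Agent.Lib.P28e Pool.Agent.Lib.P28c Pool.Agent.Lib.P28g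
open Pool.Agent.Lib.P28f (ult)

/-- Real scaling on both sides. -/
theorem norm_one_rep {z : W 2} (hz : z ∈ P0) (h1 : ‖z‖ = 1) (hle : ‖z 2‖ ≤ ‖z 1‖) :
    ‖z 1‖ = 1 ∧ ‖z 2 / z 1‖ ≤ 1 ∧ z = z 1 • cp 0 (z 2 / z 1) := by
  have hz0 : z 0 = 0 := hz
  have hn : ‖z‖ ≤ ‖z 1‖ := by
    rw [pi_norm_le_iff_of_nonneg (norm_nonneg _)]
    intro k
    fin_cases k
    · show ‖z 0‖ ≤ _
      rw [hz0, norm_zero]
      exact norm_nonneg _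
    · exact le_rfl
    · exact hle
  have h11 : ‖z 1‖ = 1 := le_antisymm ((norm_le_pi_norm z 1).trans h1.le) (h1 ▸ hn)
  have hc : z 1 ≠ 0 := by rw [← norm_pos_iff, h11]; exact one_pos
  refine ⟨h11, ?_, ?_⟩
  · rw [norm_div, h11, div_one]
    exact hle.trans h11.le
  · ext k
    fin_cases k
    · simp [cp, hz0]
    · simp [cp]
    · simp [cp, mul_div_cancel₀ _ hc]

/-- The quantity that is controlled. -/
noncomputable def dv (Φ : W 2 → W 2) (z w : W 2) : EndW 2 :=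
  Ring.inverse (fderiv ℝ Φ z : EndW 2) * fderiv ℝ Φ w

theorem dv_trans {Φ : W 2 → W 2} (h : HLoc Φ) {z v w : W 2} (hv : v ≠ 0) :
    dv Φ z w = dv Φ z v * dv Φ v w := inv_chain (isUnit_fderiv h hv)

theorem norm_trans_sub_one {A B : EndW 2} {a b : ℝ} (hA : ‖A - 1‖ ≤ a) (hB : ‖B - 1‖ ≤ b) :
    ‖A * B - 1‖ ≤ a + b + a * b := by
  have e : A * B - 1 = (A - 1) * (B - 1) + (A - 1) + (B - 1) := by
    simp only [mul_sub, sub_mul, mul_one, one_mul]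
    abel
  rw [e]
  have ha : 0 ≤ a := (norm_nonneg _).trans hA
  have h1 := norm_add_le ((A - 1) * (B - 1) + (A - 1)) (B - 1)
  have h2 := norm_add_le ((A - 1) * (B - 1)) (A - 1)
  have h3 : ‖(A - 1) * (B - 1)‖ ≤ a * b :=
    (norm_mul_le _ _).trans (mul_le_mul hA hB (norm_nonneg _) ha)
  linarith

/-- The exchange of coordinates. -/
theorem dv_sw {Φ : W 2 → W 2} (h : HLoc Φ) {z w : W 2} (hz : z ≠ 0) (hw : w ≠ 0) :
    ‖dv Φ (sw z) (sw w) - 1‖ ≤ ‖dv (fun x => Φ (sw x)) z w - 1‖ ∧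
      ‖Jr (fderiv ℝ Φ (sw z)) - mulC Complex.I‖ ≤
        ‖Jr (fderiv ℝ (fun x => Φ (sw x)) z) - mulC Complex.I‖ := by
  obtain ⟨S, hS, hS', hc⟩ := exists_sw
  obtain ⟨T, hT⟩ : ∃ T : EndW 2, T = ((S : W 2 →L[ℝ] W 2) : EndW 2) := ⟨_, rfl⟩
  have hTx : ∀ x, T x = sw x := fun x => by rw [hT]; exact hS x
  have hTT : T * T = 1 := by
    ext1 x
    show T (T x) = x
    rw [hTx, hTx, sw_sw]
  have hTn : ‖T‖ ≤ 1 := by
    refine ContinuousLinearMap.opNorm_le_bound _ zero_le_one fun x => ?_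
    rw [hTx, norm_sw, one_mul]
  have hTI : T * mulC Complex.I = mulC Complex.I * T := by
    ext1 x
    show T (Complex.I • x) = Complex.I • T x
    rw [hTx, hTx, sw_smul]
  have hconj : ∀ A : EndW 2, ‖T * A * T‖ ≤ ‖A‖ := fun A => by
    calc ‖T * A * T‖ ≤ ‖T‖ * ‖A‖ * ‖T‖ := by
          refine (norm_mul_le _ _).trans ?_
          gcongr
          exact norm_mul_le _ _
      _ ≤ 1 * ‖A‖ * 1 := by gcongr
      _ = ‖A‖ := by rw [one_mul, mul_one]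
  have hfd : ∀ {x : W 2}, x ≠ 0 → fderiv ℝ (fun x => Φ (sw x)) x = fderiv ℝ Φ (sw x) * T := by
    intro x hx
    have := fderiv_right h S hx
    simp only [hS] at this
    rw [this, hT]
  have hinv : ∀ {x : W 2}, x ≠ 0 → Ring.inverse (fderiv ℝ Φ (sw x) * T : EndW 2) =
      T * Ring.inverse (fderiv ℝ Φ (sw x) : EndW 2) := by
    intro x hx
    obtain ⟨u, hu⟩ := isUnit_fderiv h (sw_ne hx)
    let w : (EndW 2)ˣ := ⟨T, T, hTT, hTT⟩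
    have e : (fderiv ℝ Φ (sw x) : EndW 2) * T = ((u * w : (EndW 2)ˣ) : EndW 2) := by
      rw [Units.val_mul, hu]
    rw [e, Ring.inverse_unit, mul_inv_rev, Units.val_mul, ← hu, Ring.inverse_unit]
    rfl
  constructor
  · have e : dv Φ (sw z) (sw w) - 1 = T * (dv (fun x => Φ (sw x)) z w - 1) * T := by
      unfold dv
      rw [hfd hz, hfd hw, hinv hz, mul_sub, sub_mul, mul_one, hTT]
      congr 1
      calc Ring.inverse (fderiv ℝ Φ (sw z) : EndW 2) * fderiv ℝ Φ (sw w)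
          = (T * T) * Ring.inverse (fderiv ℝ Φ (sw z) : EndW 2) * fderiv ℝ Φ (sw w) * (T * T) := by
            rw [hTT, one_mul, mul_one]
        _ = _ := by simp only [mul_assoc]
    rw [e]
    exact hconj _
  · have e : Jr (fderiv ℝ Φ (sw z)) - mulC Complex.I =
        T * (Jr (fderiv ℝ (fun x => Φ (sw x)) z) - mulC Complex.I) * T := by
      unfold Jr
      rw [hfd hz, hinv hz, mul_sub, sub_mul]
      congr 1
      · calc Ring.inverse (fderiv ℝ Φ (sw z) : EndW 2) * mulC Complex.I * fderiv ℝ Φ (sw z)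
            = (T * T) * Ring.inverse (fderiv ℝ Φ (sw z) : EndW 2) * mulC Complex.I *
                fderiv ℝ Φ (sw z) * (T * T) := by rw [hTT, one_mul, mul_one]
          _ = _ := by simp only [mul_assoc]
      · rw [hTI, mul_assoc, hTT, mul_one]
    rw [e]
    exact hconj _

/-- The abstract gluing argument for points of norm one. -/
theorem glue {Φ : W 2 → W 2} (h : HLoc Φ) {m : ℝ → ℝ} {M J : ℝ} (hM : 0 ≤ M) (hJ : 0 ≤ J)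
    (hm0 : ∀ t, 0 ≤ t → 0 ≤ m t)
    (hmono : ∀ s t, 0 ≤ s → s ≤ t → m s ≤ m t)
    (h1 : ∀ ζ ζ' : ℂ, ‖ζ‖ ≤ 1 → ‖ζ'‖ ≤ 1 → ‖dv Φ (cp 0 ζ) (cp 0 ζ') - 1‖ ≤ m ‖ζ - ζ'‖ ∧
      ‖dv Φ (cp 0 ζ) (cp 0 ζ')‖ ≤ M ∧ ‖Jr (fderiv ℝ Φ (cp 0 ζ)) - mulC Complex.I‖ ≤ J) :
    (∀ z ∈ P0, ∀ w ∈ P0, ‖z‖ = 1 → ‖w‖ = 1 → ‖z 2‖ ≤ ‖z 1‖ → ‖w 2‖ ≤ ‖w 1‖ →
      ‖dv Φ z w - 1‖ ≤ ‖z - w‖ * J * M + m (2 * ‖z - w‖)) ∧
    ∀ z ∈ P0, ‖z‖ = 1 → ‖z 2‖ ≤ ‖z 1‖ → ‖Jr (fderiv ℝ Φ z) - mulC Complex.I‖ ≤ J := by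
  constructor
  · intro z hz w hw hz1 hw1 hzz hww
    obtain ⟨a1, a2, a3⟩ := norm_one_rep hz hz1 hzz
    obtain ⟨b1, b2, b3⟩ := norm_one_rep hw hw1 hww
    have h2 := twist h a1 b1 (cp_ne 0 (z 2 / z 1)) (cp_ne 0 (w 2 / w 1))
    rw [← a3, ← b3] at h2
    obtain ⟨c1, c2, c3⟩ := h1 (z 2 / z 1) (w 2 / w 1) a2 b2
    have d1 : ‖z 1 - w 1‖ ≤ ‖z - w‖ := norm_le_pi_norm (z - w) 1
    have d2 : ‖z 2 - w 2‖ ≤ ‖z - w‖ := norm_le_pi_norm (z - w) 2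
    have hz10 : z 1 ≠ 0 := by rw [← norm_pos_iff, a1]; exact one_pos
    have hw10 : w 1 ≠ 0 := by rw [← norm_pos_iff, b1]; exact one_pos
    have d3 : ‖z 2 / z 1 - w 2 / w 1‖ ≤ 2 * ‖z - w‖ := by
      have e : z 2 / z 1 - w 2 / w 1 = (z 2 - w 2) / z 1 + w 2 * ((w 1 - z 1) / (z 1 * w 1)) := by
        field_simp
        ring
      rw [e]
      have hw2 : ‖w 2‖ ≤ 1 := (norm_le_pi_norm w 2).trans hw1.le
      calc ‖(z 2 - w 2) / z 1 + w 2 * ((w 1 - z 1) / (z 1 * w 1))‖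
          ≤ ‖(z 2 - w 2) / z 1‖ + ‖w 2 * ((w 1 - z 1) / (z 1 * w 1))‖ := norm_add_le _ _
        _ = ‖z 2 - w 2‖ + ‖w 2‖ * ‖z 1 - w 1‖ := by
            rw [norm_div, norm_mul, norm_div, norm_mul, a1, b1, norm_sub_rev (w 1) (z 1), one_mul,
              div_one, div_one]
        _ ≤ ‖z - w‖ + 1 * ‖z - w‖ := by gcongr
        _ = 2 * ‖z - w‖ := by ring
    refine h2.trans (add_le_add ?_ (c1.trans (hmono _ _ (norm_nonneg _) d3)))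
    gcongr
    exact c2
  · intro z hz hz1 hzz
    obtain ⟨a1, a2, a3⟩ := norm_one_rep hz hz1 hzz
    have h2 := Jr_twist h a1 (cp_ne 0 (z 2 / z 1))
    rw [← a3] at h2
    exact h2.trans (h1 (z 2 / z 1) (z 2 / z 1) a2 a2).2.2

/-- A point with both coordinates of modulus one, close to `z`. -/
theorem exists_corner {z : W 2} (hz : z ∈ P0) (h11 : ‖z 1‖ = 1) (hle : ‖z 2‖ ≤ 1) :
    ∃ z' ∈ P0, ‖z'‖ = 1 ∧ ‖z' 1‖ = 1 ∧ ‖z' 2‖ = 1 ∧ ‖z - z'‖ = 1 - ‖z 2‖ := by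
  obtain ⟨θ, hθ, hd⟩ : ∃ θ : ℂ, ‖θ‖ = 1 ∧ ‖z 2 - θ‖ = 1 - ‖z 2‖ := by
    by_cases h0 : z 2 = 0
    · exact ⟨1, norm_one, by rw [h0, zero_sub, norm_neg, norm_one, norm_zero, sub_zero]⟩
    · have hn : 0 < ‖z 2‖ := norm_pos_iff.2 h0
      refine ⟨(‖z 2‖ : ℂ)⁻¹ * z 2, ?_, ?_⟩
      · rw [norm_mul, norm_inv, Complex.norm_real, norm_norm, inv_mul_cancel₀ hn.ne']
      · have e : z 2 - (‖z 2‖ : ℂ)⁻¹ * z 2 = ((1 - ‖z 2‖⁻¹ : ℝ) : ℂ) * z 2 := by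
          push_cast
          ring
        rw [e, norm_mul, Complex.norm_real, Real.norm_eq_abs, abs_of_nonpos]
        · field_simp
          ring
        · have : 1 ≤ ‖z 2‖⁻¹ := (one_le_inv₀ hn).2 hle
          linarith
  have hz0 : z 0 = 0 := hz
  refine ⟨![0, z 1, θ], rfl, ?_, h11, hθ, ?_⟩
  · apply le_antisymm
    · rw [pi_norm_le_iff_of_nonneg zero_le_one]
      intro k
      fin_cases k <;> simp [h11, hθ]
    · have := norm_le_pi_norm (![0, z 1, θ] : W 2) 1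
      simp only [Matrix.cons_val_one, Matrix.cons_val_zero] at this
      rwa [h11] at this
  · have e : z - ![0, z 1, θ] = ![0, 0, z 2 - θ] := by
      ext k
      fin_cases k <;> simp [hz0]
    rw [e, ← hd]
    apply le_antisymm
    · rw [pi_norm_le_iff_of_nonneg (norm_nonneg _)]
      intro k
      fin_cases k <;> simp
    · have := norm_le_pi_norm (![0, 0, z 2 - θ] : W 2) 2
      simpa using this

/-- All pairs of points of norm one, from the three pure estimates. -/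
theorem glue2 {Φ : W 2 → W 2} (h : HLoc Φ) {m : ℝ → ℝ} (hm0 : ∀ t, 0 ≤ t → 0 ≤ m t)
    (hmono : ∀ s t, 0 ≤ s → s ≤ t → m s ≤ m t)
    (h1 : ∀ z ∈ P0, ∀ w ∈ P0, ‖z‖ = 1 → ‖w‖ = 1 → ‖z 2‖ ≤ ‖z 1‖ → ‖w 2‖ ≤ ‖w 1‖ →
      ‖dv Φ z w - 1‖ ≤ m ‖z - w‖)
    (h2 : ∀ z ∈ P0, ∀ w ∈ P0, ‖z‖ = 1 → ‖w‖ = 1 → ‖z 1‖ ≤ ‖z 2‖ → ‖w 1‖ ≤ ‖w 2‖ →
      ‖dv Φ z w - 1‖ ≤ m ‖z - w‖) (z : W 2) (hz : z ∈ P0) (w : W 2) (hw : w ∈ P0) (hz1 : ‖z‖ = 1)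
    (hw1 : ‖w‖ = 1) {b : ℝ} (hb : ∀ t, 0 ≤ t → t ≤ 6 → m t ≤ b) :
    ‖dv Φ z w - 1‖ ≤ (1 + b) ^ 2 * (3 * m (3 * ‖z - w‖)) := by
  have hb0 : 0 ≤ b := (hm0 0 le_rfl).trans (hb 0 le_rfl (by norm_num))
  have hzw2 : ‖z - w‖ ≤ 2 := (norm_sub_le _ _).trans (by linarith)
  have hzw0 : 0 ≤ ‖z - w‖ := norm_nonneg _
  have hpure : ∀ {x : ℝ}, x ≤ m ‖z - w‖ → x ≤ (1 + b) ^ 2 * (3 * m (3 * ‖z - w‖)) := by
    intro x hx
    have e1 : m ‖z - w‖ ≤ m (3 * ‖z - w‖) := hmono _ _ hzw0 (by linarith)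
    have e2 : 0 ≤ m (3 * ‖z - w‖) := hm0 _ (by linarith)
    have e3 : 1 ≤ (1 + b) ^ 2 := by nlinarith
    nlinarith
  -- the mixed case
  have hmix : ∀ z ∈ P0, ∀ w ∈ P0, ‖z‖ = 1 → ‖w‖ = 1 → ‖z 1‖ = 1 → ‖w 2‖ = 1 → ‖z - w‖ ≤ 2 →
      (‖dv Φ z w - 1‖ ≤ (1 + b) ^ 2 * (3 * m (3 * ‖z - w‖))) ∧
      (‖dv Φ w z - 1‖ ≤ (1 + b) ^ 2 * (3 * m (3 * ‖z - w‖))) := by
    intro z hz w hw hz1 hw1 hz11 hw22 hzw2
    have hzw0 : 0 ≤ ‖z - w‖ := norm_nonneg _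
    have hz2 : ‖z 2‖ ≤ 1 := (norm_le_pi_norm z 2).trans hz1.le
    have hw11 : ‖w 1‖ ≤ 1 := (norm_le_pi_norm w 1).trans hw1.le
    obtain ⟨z', hz'P, hz'1, hz'a, hz'b, hz'd⟩ := exists_corner hz hz11 hz2
    obtain ⟨v', hv'P, hv'1, hv'a, hv'b, hv'd⟩ := exists_corner (z := sw w) (sw_mem hw) hw22 hw11
    obtain ⟨w', hw'⟩ : ∃ w', w' = sw v' := ⟨_, rfl⟩
    have hw'P : w' ∈ P0 := by rw [hw']; exact sw_mem hv'P
    have hw'1 : ‖w'‖ = 1 := by rw [hw', norm_sw]; exact hv'1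
    have hw'a : ‖w' 1‖ = 1 := by rw [hw']; exact hv'b
    have hw'b : ‖w' 2‖ = 1 := by rw [hw']; exact hv'a
    have hw'd : ‖w - w'‖ = 1 - ‖w 1‖ := by
      have e : sw w - v' = sw (w - w') := by
        have e1 : v' = sw w' := by rw [hw', sw_sw]
        rw [e1]
        ext k
        fin_cases k <;> rfl
      have e2 : ‖sw w - v'‖ = 1 - ‖(sw w) 2‖ := hv'd
      rw [e, norm_sw] at e2
      exact e2
    have d2 : ‖z 2 - w 2‖ ≤ ‖z - w‖ := norm_le_pi_norm (z - w) 2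
    have d1 : ‖z 1 - w 1‖ ≤ ‖z - w‖ := norm_le_pi_norm (z - w) 1
    have e1 : ‖z - z'‖ ≤ ‖z - w‖ := by
      rw [hz'd]
      have := norm_sub_norm_le (w 2) (z 2)
      rw [norm_sub_rev] at this
      linarith
    have e2 : ‖w - w'‖ ≤ ‖z - w‖ := by
      rw [hw'd]
      have := norm_sub_norm_le (z 1) (w 1)
      linarith
    have e3 : ‖z' - w'‖ ≤ 3 * ‖z - w‖ := by
      calc ‖z' - w'‖ = ‖(z - w) - (z - z') + (w - w')‖ := by congr 1; abel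
        _ ≤ ‖(z - w) - (z - z')‖ + ‖w - w'‖ := norm_add_le _ _
        _ ≤ ‖z - w‖ + ‖z - z'‖ + ‖w - w'‖ := by gcongr; exact norm_sub_le _ _
        _ ≤ 3 * ‖z - w‖ := by linarith
    have hz'0 : z' ≠ 0 := by rw [← norm_pos_iff, hz'1]; exact one_pos
    have hw'0 : w' ≠ 0 := by rw [← norm_pos_iff, hw'1]; exact one_pos
    obtain ⟨μ, hμ⟩ : ∃ μ, μ = m (3 * ‖z - w‖) := ⟨_, rfl⟩
    have hμ0 : 0 ≤ μ := by rw [hμ]; exact hm0 _ (by linarith)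
    have hμb : μ ≤ b := by rw [hμ]; exact hb _ (by linarith) (by linarith)
    have key : ∀ {A B C : EndW 2}, ‖A - 1‖ ≤ μ → ‖B - 1‖ ≤ μ → ‖C - 1‖ ≤ μ →
        ‖A * B * C - 1‖ ≤ (1 + b) ^ 2 * (3 * μ) := by
      intro A B C hA hB hC
      have f1 := norm_trans_sub_one hA hB
      have f2 := norm_trans_sub_one f1 hC
      refine f2.trans ?_
      have f3 : μ * μ ≤ b * μ := by nlinarith
      have f4 : μ * μ * μ ≤ b * b * μ := by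
        have : μ * μ ≤ b * b := by nlinarith
        nlinarith
      nlinarith
    have hle1 : ‖z 2‖ ≤ ‖z 1‖ := by rw [hz11]; exact hz2
    have hle2 : ‖w 1‖ ≤ ‖w 2‖ := by rw [hw22]; exact hw11
    have m1 : m ‖z - z'‖ ≤ μ := by rw [hμ]; exact hmono _ _ (norm_nonneg _) (by linarith)
    have m2 : m ‖z' - w'‖ ≤ μ := by rw [hμ]; exact hmono _ _ (norm_nonneg _) e3
    have m3 : m ‖w - w'‖ ≤ μ := by rw [hμ]; exact hmono _ _ (norm_nonneg _) (by linarith)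
    rw [← hμ]
    constructor
    · rw [dv_trans h hw'0, dv_trans h (z := z) (w := w') hz'0]
      refine key ((h1 z hz z' hz'P hz1 hz'1 hle1 (by rw [hz'a, hz'b])).trans m1)
        ((h1 z' hz'P w' hw'P hz'1 hw'1 (by rw [hz'a, hz'b]) (by rw [hw'a, hw'b])).trans m2)
        ((h2 w' hw'P w hw hw'1 hw1 (by rw [hw'a, hw'b]) hle2).trans ?_)
      rw [norm_sub_rev]
      exact m3
    · rw [dv_trans h hz'0, dv_trans h (z := w) (w := z') hw'0]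
      refine key ((h2 w hw w' hw'P hw1 hw'1 hle2 (by rw [hw'a, hw'b])).trans m3)
        ((h1 w' hw'P z' hz'P hw'1 hz'1 (by rw [hw'a, hw'b]) (by rw [hz'a, hz'b])).trans ?_)
        ((h1 z' hz'P z hz hz'1 hz1 (by rw [hz'a, hz'b]) hle1).trans ?_)
      · rw [norm_sub_rev]
        exact m2
      · rw [norm_sub_rev]
        exact m1
  have hn1 : ∀ x ∈ P0, ‖x‖ = 1 → ‖x 2‖ ≤ ‖x 1‖ → ‖x 1‖ = 1 := fun x hx hx1 hle =>
    (norm_one_rep hx hx1 hle).1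
  have hn2 : ∀ x ∈ P0, ‖x‖ = 1 → ‖x 1‖ ≤ ‖x 2‖ → ‖x 2‖ = 1 := fun x hx hx1 hle =>
    (norm_one_rep (z := sw x) (sw_mem hx) (by rw [norm_sw]; exact hx1) hle).1
  rcases le_total ‖z 2‖ ‖z 1‖ with hzc | hzc <;> rcases le_total ‖w 2‖ ‖w 1‖ with hwc | hwc
  · exact hpure (h1 z hz w hw hz1 hw1 hzc hwc)
  · exact (hmix z hz w hw hz1 hw1 (hn1 z hz hz1 hzc) (hn2 w hw hw1 hwc) hzw2).1
  · have := (hmix w hw z hz hw1 hz1 (hn1 w hw hw1 hwc) (hn2 z hz hz1 hzc)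
      (by rw [norm_sub_rev]; exact hzw2)).2
    rwa [norm_sub_rev w z] at this
  · exact hpure (h2 z hz w hw hz1 hw1 hzc hwc)

/-- The two charts together. -/
theorem both {Φ : W 2 → W 2} (h : HLoc Φ) {m : ℝ → ℝ} {M J : ℝ} (hM : 0 ≤ M) (hJ : 0 ≤ J)
    (hm0 : ∀ t, 0 ≤ t → 0 ≤ m t) (hmono : ∀ s t, 0 ≤ s → s ≤ t → m s ≤ m t)
    (h1 : ∀ ζ ζ' : ℂ, ‖ζ‖ ≤ 1 → ‖ζ'‖ ≤ 1 → ‖dv Φ (cp 0 ζ) (cp 0 ζ') - 1‖ ≤ m ‖ζ - ζ'‖ ∧
      ‖dv Φ (cp 0 ζ) (cp 0 ζ')‖ ≤ M ∧ ‖Jr (fderiv ℝ Φ (cp 0 ζ)) - mulC Complex.I‖ ≤ J)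
    (h2 : ∀ ζ ζ' : ℂ, ‖ζ‖ ≤ 1 → ‖ζ'‖ ≤ 1 →
      ‖dv (fun x => Φ (sw x)) (cp 0 ζ) (cp 0 ζ') - 1‖ ≤ m ‖ζ - ζ'‖ ∧
      ‖dv (fun x => Φ (sw x)) (cp 0 ζ) (cp 0 ζ')‖ ≤ M ∧
      ‖Jr (fderiv ℝ (fun x => Φ (sw x)) (cp 0 ζ)) - mulC Complex.I‖ ≤ J)
    {b : ℝ} (hb : ∀ t, 0 ≤ t → t ≤ 6 → t * J * M + m (2 * t) ≤ b) :
    (∀ z ∈ P0, ∀ w ∈ P0, ‖z‖ = 1 → ‖w‖ = 1 →
      ‖dv Φ z w - 1‖ ≤ (1 + b) ^ 2 * (3 * (3 * ‖z - w‖ * J * M + m (6 * ‖z - w‖)))) ∧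
    ∀ z ∈ P0, ‖z‖ = 1 → ‖Jr (fderiv ℝ Φ z) - mulC Complex.I‖ ≤ J := by
  obtain ⟨g1, g1'⟩ := glue h hM hJ hm0 hmono h1
  obtain ⟨g2, g2'⟩ := glue (hloc_sw h) hM hJ hm0 hmono h2
  have hne : ∀ {x : W 2}, ‖x‖ = 1 → x ≠ 0 := fun hx => by rw [← norm_pos_iff, hx]; exact one_pos
  constructor
  · intro z hz w hw hz1 hw1
    have key := glue2 h (m := fun t => t * J * M + m (2 * t))
      (fun t ht => add_nonneg (by positivity) (hm0 _ (by linarith)))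
      (fun s t hs hst => add_le_add (by gcongr) (hmono _ _ (by linarith) (by linarith)))
      (fun z hz w hw hz1 hw1 hzc hwc => g1 z hz w hw hz1 hw1 hzc hwc)
      (fun z hz w hw hz1 hw1 hzc hwc => by
        have := g2 (sw z) (sw_mem hz) (sw w) (sw_mem hw) (by rw [norm_sw]; exact hz1)
          (by rw [norm_sw]; exact hw1) hzc hwc
        have e : sw z - sw w = sw (z - w) := by
          ext k
          fin_cases k <;> rfl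
        rw [e, norm_sw] at this
        have h3 := (dv_sw h (sw_ne (hne hz1)) (sw_ne (hne hw1))).1
        rw [sw_sw, sw_sw] at h3
        exact h3.trans this) z hz w hw hz1 hw1 hb
    have e : 2 * (3 * ‖z - w‖) = 6 * ‖z - w‖ := by ring
    simp only [e] at key
    exact key
  · intro z hz hz1
    rcases le_total ‖z 2‖ ‖z 1‖ with hzc | hzc
    · exact g1' z hz hz1 hzc
    · have := g2' (sw z) (sw_mem hz) (by rw [norm_sw]; exact hz1) hzc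
      have h3 := (dv_sw h (sw_ne (hne hz1)) (sw_ne (hne hz1))).2
      rw [sw_sw] at h3
      exact h3.trans this

theorem line_bound {p : ℝ} (hp : 2 < p) {L : ℝ} (hL : 0 ≤ L) : ∃ K : ℝ, 1 ≤ K ∧
    ∀ Φ : W 2 → W 2, LineE p L Φ → (∀ z ∈ P0, ∀ w ∈ P0, ‖z‖ = 1 → ‖w‖ = 1 →
      ‖Ring.inverse (fderiv ℝ Φ z : EndW 2) * fderiv ℝ Φ w - 1‖ ≤ K * ‖z - w‖ ^ (1 - 2 / p)) ∧
      ∀ z ∈ P0, ‖z‖ = 1 → ‖Jr (fderiv ℝ Φ z)‖ ≤ K := by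
  obtain ⟨K, hK, hfl⟩ := chart_flat hp hL
  have hα := alpha_pos hp
  have hα1 : 1 - 2 / p < 1 := by
    have : 0 < 2 / p := by
      have : 0 < p := by linarith
      positivity
    linarith
  have hK0 : 0 ≤ K := by linarith
  obtain ⟨m, hm⟩ : ∃ m : ℝ → ℝ, m = fun t => K * t ^ (1 - 2 / p) := ⟨_, rfl⟩
  have hm0 : ∀ t, 0 ≤ t → 0 ≤ m t := fun t ht => by rw [hm]; positivity
  have hmono : ∀ s t, 0 ≤ s → s ≤ t → m s ≤ m t := fun s t hs hst => by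
    rw [hm]
    dsimp only
    gcongr
  obtain ⟨M, hM⟩ : ∃ M : ℝ, M = 1 + K * 2 ^ (1 - 2 / p) := ⟨_, rfl⟩
  have hM0 : 0 ≤ M := by rw [hM]; positivity
  have hI : ‖(mulC Complex.I : EndW 2)‖ = 1 := by rw [norm_mulC, Complex.norm_I]
  have hch : ∀ Φ : W 2 → W 2, LineC p L Φ → ∀ ζ ζ' : ℂ, ‖ζ‖ ≤ 1 → ‖ζ'‖ ≤ 1 →
      ‖dv Φ (cp 0 ζ) (cp 0 ζ') - 1‖ ≤ m ‖ζ - ζ'‖ ∧
      ‖dv Φ (cp 0 ζ) (cp 0 ζ')‖ ≤ M ∧ ‖Jr (fderiv ℝ Φ (cp 0 ζ)) - mulC Complex.I‖ ≤ K + 1 := by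
    intro Φ h ζ ζ' hζ hζ'
    obtain ⟨f1, f2⟩ := hfl Φ h ζ ζ' hζ hζ'
    refine ⟨by rw [hm]; exact f1, ?_, ?_⟩
    · rw [hM]
      refine norm_le_of_sub_one (f1.trans ?_)
      have : ‖ζ - ζ'‖ ≤ 2 := (norm_sub_le _ _).trans (by linarith)
      gcongr
    · refine (norm_sub_le _ _).trans ?_
      rw [hI]
      linarith
  obtain ⟨b, hb⟩ : ∃ b : ℝ, b = 6 * (K + 1) * M + m (2 * 6) := ⟨_, rfl⟩
  have hb0 : 0 ≤ b := by
    rw [hb]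
    have := hm0 (2 * 6) (by norm_num)
    positivity
  obtain ⟨c, hc⟩ : ∃ c : ℝ, c = (1 + b) ^ 2 * (3 * (3 * 2 * (K + 1) * M + K * 6)) := ⟨_, rfl⟩
  have hc0 : 0 ≤ c := by rw [hc]; positivity
  refine ⟨max (K + 2) c, le_max_of_le_left (by linarith), fun Φ h => ?_⟩
  obtain ⟨r1, r2⟩ := both h.1.hloc hM0 (show 0 ≤ K + 1 by linarith) hm0 hmono (hch Φ h.1)
    (hch _ h.2) (b := b) (fun t ht ht6 => by
      rw [hb]
      have := hmono (2 * t) (2 * 6) (by linarith) (by linarith)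
      gcongr)
  refine ⟨fun z hz w hw hz1 hw1 => ?_, fun z hz hz1 => ?_⟩
  · refine (r1 z hz w hw hz1 hw1).trans ?_
    obtain ⟨x, hx⟩ : ∃ x, x = ‖z - w‖ := ⟨_, rfl⟩
    have hx0 : 0 ≤ x := by rw [hx]; exact norm_nonneg _
    have hx2 : x ≤ 2 := by rw [hx]; exact (norm_sub_le _ _).trans (by linarith)
    rw [← hx]
    -- `x ≤ 2 x ^ α`
    have e1 : x ≤ 2 * x ^ (1 - 2 / p) := by
      rcases hx0.eq_or_lt with h0 | h0
      · rw [← h0]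
        positivity
      · have f1 : x = x ^ (2 / p) * x ^ (1 - 2 / p) := by
          rw [← Real.rpow_add h0]
          norm_num
        have f2 : x ^ (2 / p) ≤ 2 := by
          have : 0 < 2 / p := by
            have : 0 < p := by linarith
            positivity
          calc x ^ (2 / p) ≤ 2 ^ (2 / p) := by gcongr
            _ ≤ 2 ^ (1 : ℝ) := by
                apply Real.rpow_le_rpow_of_exponent_le (by norm_num)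
                linarith
            _ = 2 := Real.rpow_one 2
        calc x = x ^ (2 / p) * x ^ (1 - 2 / p) := f1
          _ ≤ 2 * x ^ (1 - 2 / p) := by gcongr
    have e2 : m (6 * x) ≤ K * 6 * x ^ (1 - 2 / p) := by
      rw [hm]
      dsimp only
      rw [Real.mul_rpow (by norm_num) hx0]
      have : (6 : ℝ) ^ (1 - 2 / p) ≤ 6 := by
        calc (6 : ℝ) ^ (1 - 2 / p) ≤ 6 ^ (1 : ℝ) :=
              Real.rpow_le_rpow_of_exponent_le (by norm_num) hα1.le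
          _ = 6 := Real.rpow_one 6
      calc K * (6 ^ (1 - 2 / p) * x ^ (1 - 2 / p)) ≤ K * (6 * x ^ (1 - 2 / p)) := by gcongr
        _ = K * 6 * x ^ (1 - 2 / p) := by ring
    have e3 : 3 * x * (K + 1) * M ≤ 3 * 2 * (K + 1) * M * x ^ (1 - 2 / p) := by
      calc 3 * x * (K + 1) * M ≤ 3 * (2 * x ^ (1 - 2 / p)) * (K + 1) * M := by gcongr
        _ = _ := by ring
    calc (1 + b) ^ 2 * (3 * (3 * x * (K + 1) * M + m (6 * x)))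
        ≤ (1 + b) ^ 2 * (3 * (3 * 2 * (K + 1) * M * x ^ (1 - 2 / p) + K * 6 * x ^ (1 - 2 / p))) := by
          gcongr
      _ = c * x ^ (1 - 2 / p) := by rw [hc]; ring
      _ ≤ max (K + 2) c * x ^ (1 - 2 / p) := by
          gcongr
          exact le_max_right _ _
  · calc ‖Jr (fderiv ℝ Φ z)‖ = ‖(Jr (fderiv ℝ Φ z) - mulC Complex.I) + mulC Complex.I‖ := by
          rw [sub_add_cancel]
      _ ≤ ‖Jr (fderiv ℝ Φ z) - mulC Complex.I‖ + ‖(mulC Complex.I : EndW 2)‖ := norm_add_le _ _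
      _ ≤ (K + 1) + 1 := by rw [hI]; linarith [r2 z hz hz1]
      _ ≤ max (K + 2) c := le_max_of_le_left (by linarith)

theorem line_small {p : ℝ} (hp : 2 < p) {δ : ℝ} (hδ : 0 < δ) : ∃ L : ℝ, 0 < L ∧
    ∀ Φ : W 2 → W 2, LineE p L Φ → (∀ z ∈ P0, ∀ w ∈ P0, z ≠ 0 → w ≠ 0 →
      ‖Ring.inverse (fderiv ℝ Φ z : EndW 2) * fderiv ℝ Φ w - 1‖ ≤ δ) ∧
      ∀ z ∈ P0, z ≠ 0 → ‖Jr (fderiv ℝ Φ z) - mulC Complex.I‖ ≤ δ := by
  obtain ⟨e, he⟩ : ∃ e : ℝ, e = min 1 (δ / 8000) := ⟨_, rfl⟩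
  have he0 : 0 < e := by rw [he]; positivity
  have he1 : e ≤ 1 := by rw [he]; exact min_le_left _ _
  have he8 : 8000 * e ≤ δ := by
    have : e ≤ δ / 8000 := by rw [he]; exact min_le_right _ _
    linarith
  obtain ⟨L, hL, hch⟩ := chart_small hp he0
  refine ⟨L, hL, fun Φ h => ?_⟩
  have hc2 : ∀ Φ : W 2 → W 2, LineC p L Φ → ∀ ζ ζ' : ℂ, ‖ζ‖ ≤ 1 → ‖ζ'‖ ≤ 1 →
      ‖dv Φ (cp 0 ζ) (cp 0 ζ') - 1‖ ≤ (fun _ : ℝ => e) ‖ζ - ζ'‖ ∧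
      ‖dv Φ (cp 0 ζ) (cp 0 ζ')‖ ≤ 2 ∧ ‖Jr (fderiv ℝ Φ (cp 0 ζ)) - mulC Complex.I‖ ≤ e := by
    intro Φ h ζ ζ' hζ hζ'
    obtain ⟨f1, f2⟩ := hch Φ h ζ ζ' hζ hζ'
    refine ⟨f1, ?_, f2⟩
    have := norm_le_of_sub_one f1
    exact this.trans (by linarith)
  obtain ⟨r1, r2⟩ := both h.1.hloc (M := 2) (by norm_num) he0.le (m := fun _ => e)
    (fun _ _ => he0.le) (fun _ _ _ _ => le_rfl) (hc2 Φ h.1) (hc2 _ h.2) (b := 13) (fun t ht ht6 => by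
      nlinarith)
  have hsc : ∀ {x : W 2}, x ∈ P0 → x ≠ 0 → ∃ y ∈ P0, ‖y‖ = 1 ∧ fderiv ℝ Φ y = fderiv ℝ Φ x := by
    intro x hx hx0
    have hxn : 0 < ‖x‖ := norm_pos_iff.2 hx0
    refine ⟨‖x‖⁻¹ • x, ?_, ?_, fderiv_pos_smul h.1.hloc (inv_pos.2 hxn) hx0⟩
    · show (‖x‖⁻¹ • x) 0 = 0
      rw [Pi.smul_apply, show x 0 = 0 from hx, smul_zero]
    · rw [norm_smul, norm_inv, norm_norm, inv_mul_cancel₀ hxn.ne']
  constructor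
  · intro z hz w hw hz0 hw0
    obtain ⟨z', hz'P, hz'1, hz'⟩ := hsc hz hz0
    obtain ⟨w', hw'P, hw'1, hw'⟩ := hsc hw hw0
    rw [← hz', ← hw']
    refine (r1 z' hz'P w' hw'P hz'1 hw'1).trans ?_
    have hx2 : ‖z' - w'‖ ≤ 2 := (norm_sub_le _ _).trans (by linarith)
    nlinarith
  · intro z hz hz0
    obtain ⟨z', hz'P, hz'1, hz'⟩ := hsc hz hz0
    rw [← hz']
    refine (r2 z' hz'P hz'1).trans ?_
    linarith

end Pool.Agent.Lib.PJ
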