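import Pool.Agent.Lib.PJ.FinM
import Pool.Agent.Lib.PJ.LineB
import Pool.Agent.Lib.PJ.IsoExt
import Pool.Agent.Lib.PJ.BallM

set_option autoImplicit false

/-!
# Small `p`-energy: isotopic to a ball-supported diffeomorphism (step 9, (2))

PROOF. Let `δ = 1/8`, `L` from `line_small`, `C` from `exists_line`, `ε = L / C` (so `C ε = L`). Given `F` take a lift `Φ` with `enP p Φ ≤ ofReal ε` (`iInf_lt_iff` as in `exists_of_critE`), injective by `lift_injective`. `b₁ b₂` from `exists_line`, `Φ_b z = Φ (sh b₁ b₂ z)`: `LineE p L Φ_b`. `z₀ = cp 0 0`, `M = D Φ_b z₀` (unit), `N = ‖Jr M - mulC I‖ ≤ 1/8`.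
Complex linear part: `ΛR = (1/2) (M - mulC I * M * mulC I)`; `linear_part` (P28e/Steps.lean, the unit `M`): its hypothesis is `‖M⁻¹ * (mulC I * M * mulC (-I)) - 1‖ ≤ ε`, and `M⁻¹ * mulC I * M * mulC (-I) - 1 = (Jr M - mulC I) * mulC (-I)`, norm `≤ 1/8`; it gives `Λ : W 2 ≃ₗ[ℂ] W 2` with `‖M⁻¹ ΛR - 1‖ ≤ 1/8`.
`Ψ = Λ⁻¹ ∘ Φ_b`: for `z ∈ P0`, `z ≠ 0`: `D Ψ z = Λ⁻¹ M (M⁻¹ D Φ_b z)`, `‖Λ⁻¹ M - 1‖ ≤ (1/8) / (1 - 1/8) = 1/7` (`Λ⁻¹ M = (M⁻¹ Λ)⁻¹`), `‖M⁻¹ D Φ_b z - 1‖ ≤ 1/8`, so `‖D Ψ z - 1‖ ≤ 1/7 + 1/8 + 1/56 ≤ 1/2`. `iso_ext` for `(id, Ψ)`... with `Φ = id`: `c = 1`, `K = 1`, `η = 1/2`: `Φ'` with `Conn id Φ'`, `Φ' = Ψ` on `tube δ'`.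
Then `rel_of` with `F₁ = id`-lift on the other side: we need `F` isotopic to a ball diffeomorphism `B`: apply `iso_ext` to `(Ψ, id)` instead: `h1`: `‖Ψ z - Ψ w‖ ≥ ‖z - w‖ - (1/2)‖z - w‖` (`mean_P0` for `Ψ - id`), `c = 1/2`; `h2` with `K = 2`; so `η ≤ 1/4` is needed: choose `δ` smaller (`δ = 1/32`), giving `‖D Ψ z - 1‖ ≤ 1/8`, `η = 1/8`, `c = 7/8`, `K = 8/7`.
This gives `Φ'` with `Conn Ψ Φ'`, `Φ' z = z` on `tube δ'`. `rel_of` with `Φ₁ = Ψ₁ = id`, `F₁ = id`, `Φ₂ = Φ`, `Ψ₂ = Ψ` (`Conn Φ Ψ` by `conn_T_right`, `conn_T_left`): `F` is isotopic to `B`.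
-/

open MeasureTheory Set Metric Filter
open scoped ContDiff Topology ENNReal

namespace Pool.Agent.Lib.PJ

open Pool.Agent.P28b04d Pool.Agent.Lib.P28e Pool.Agent.Lib.P28c Pool.Agent.Lib.P28g
open Pool.Agent.Lib.P28f (ult)

theorem gap {p : ℝ} (hp : 2 < p) (hp4 : p < 4) : ∃ ε : ℝ, 0 < ε ∧ ∀ F : Mat 2 → Mat 2,
    InjOn F (CP 2) → pE p F < ENNReal.ofReal ε → ∃ B, BallDiff B ∧ Isotopic 2 F B := by
  obtain ⟨L, hL, hsmall⟩ := line_small (p := p) hp (δ := 1 / 32) (by norm_num)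
  obtain ⟨C, hC, hline⟩ := exists_line hp hp4
  have hC0 : 0 < C := by linarith
  refine ⟨L / C, by positivity, fun F hFi hFe => ?_⟩
  obtain ⟨Φ, hΦ, hen, hF⟩ := exists_of_pE hFe
  have hinj : Function.Injective Φ := lift_injective hΦ hF hFi
  obtain ⟨b₁, b₂, hb⟩ := hline Φ hΦ (L / C) (by positivity) hen.le
  rw [mul_div_cancel₀ _ hC0.ne'] at hb
  obtain ⟨hs1, hs2⟩ := hsmall _ hb
  have hΦb := hb.1.hloc
  obtain ⟨M, hM⟩ := isUnit_fderiv hΦb (cp_ne 0 0)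
  have hJ := hs2 (cp 0 0) (cp_mem 0) (cp_ne 0 0)
  have hInv : Ring.inverse (fderiv ℝ (fun z => Φ (sh b₁ b₂ z)) (cp 0 0) : EndW 2) =
      ((M⁻¹ : (EndW 2)ˣ) : EndW 2) := by
    rw [← hM, Ring.inverse_unit]
  have hlin : ‖((M⁻¹ : (EndW 2)ˣ) : EndW 2) * (mulC Complex.I * (M : EndW 2) * mulC (-Complex.I)) - 1‖ ≤
      1 / 32 := by
    have hII : (mulC Complex.I : EndW 2) * mulC (-Complex.I) = 1 := by
      ext1 v
      show Complex.I • ((-Complex.I) • v) = v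
      rw [smul_smul]
      simp
    have e : ((M⁻¹ : (EndW 2)ˣ) : EndW 2) * (mulC Complex.I * (M : EndW 2) * mulC (-Complex.I)) - 1 =
        (Jr (fderiv ℝ (fun z => Φ (sh b₁ b₂ z)) (cp 0 0)) - mulC Complex.I) * mulC (-Complex.I) := by
      unfold Jr
      rw [sub_mul, hII, hInv, ← hM]
      simp only [mul_assoc]
    rw [e]
    have hn : ‖(mulC (-Complex.I) : EndW 2)‖ ≤ 1 := by
      refine ContinuousLinearMap.opNorm_le_bound _ zero_le_one fun v => ?_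
      show ‖(-Complex.I) • v‖ ≤ 1 * ‖v‖
      rw [norm_smul, norm_neg, Complex.norm_I]
    calc _ ≤ ‖Jr (fderiv ℝ (fun z => Φ (sh b₁ b₂ z)) (cp 0 0)) - mulC Complex.I‖ *
          ‖(mulC (-Complex.I) : EndW 2)‖ := norm_mul_le _ _
      _ ≤ 1 / 32 * 1 := by gcongr
      _ = 1 / 32 := mul_one _
  obtain ⟨Λ, ΛR, hΛ, hA⟩ := linear_part M (by norm_num) hlin
  obtain ⟨Ψ, hΨ⟩ : ∃ Ψ : W 2 → W 2, Ψ = fun z => Λ.symm (Φ (sh b₁ b₂ z)) := ⟨_, rfl⟩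
  have hΨl : HLoc Ψ := by
    rw [hΨ]
    exact hloc_T_left hΦb Λ.symm
  have hder : ∀ z : W 2, z ≠ 0 → ∀ v, fderiv ℝ Ψ z v =
      Λ.symm (fderiv ℝ (fun z => Φ (sh b₁ b₂ z)) z v) := by
    intro z hz v
    obtain ⟨S, hS, hS', _⟩ := exists_T Λ.symm
    have h1 := (Hom46.hasFDerivAt hΦb hz)
    have h2 := S.hasFDerivAt.comp z h1
    have e : Ψ = fun z => S ((fun z => Φ (sh b₁ b₂ z)) z) := by
      rw [hΨ]
      funext z
      rw [hS]
    have h3 : HasFDerivAt Ψ ((S : W 2 →L[ℝ] W 2).comp (fderiv ℝ (fun z => Φ (sh b₁ b₂ z)) z)) z := by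
      rw [e]
      exact h2
    rw [h3.fderiv]
    show S (fderiv ℝ (fun z => Φ (sh b₁ b₂ z)) z v) = _
    rw [hS]
  have hnear : ∀ z ∈ P0, z ≠ 0 → ∀ v, ‖fderiv ℝ Ψ z v - v‖ ≤ 1 / 8 * ‖v‖ := by
    intro z hz hz0 v
    have hB := hs1 (cp 0 0) (cp_mem 0) z hz (cp_ne 0 0) hz0
    rw [hInv] at hB
    have hAv : ∀ u : W 2, ‖((M⁻¹ : (EndW 2)ˣ) : EndW 2) (ΛR u) - u‖ ≤ 1 / 32 * ‖u‖ := by
      intro u
      have := ContinuousLinearMap.le_of_opNorm_le _ hA u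
      simpa using this
    have hBv : ∀ u : W 2, ‖((M⁻¹ : (EndW 2)ˣ) : EndW 2) (fderiv ℝ (fun z => Φ (sh b₁ b₂ z)) z u) - u‖ ≤
        1 / 32 * ‖u‖ := by
      intro u
      have := ContinuousLinearMap.le_of_opNorm_le _ hB u
      simpa using this
    obtain ⟨y, hy⟩ : ∃ y : W 2, y = fderiv ℝ Ψ z v := ⟨_, rfl⟩
    have hy1 : ΛR y = fderiv ℝ (fun z => Φ (sh b₁ b₂ z)) z v := by
      rw [hΛ, hy, hder z hz0, LinearEquiv.apply_symm_apply]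
    have h1 := hAv (y - v)
    have h2 := hAv v
    have h3 := hBv v
    rw [map_sub, map_sub, hy1] at h1
    obtain ⟨a, ha⟩ : ∃ a : W 2, a = ((M⁻¹ : (EndW 2)ˣ) : EndW 2)
      (fderiv ℝ (fun z => Φ (sh b₁ b₂ z)) z v) := ⟨_, rfl⟩
    obtain ⟨b, hb'⟩ : ∃ b : W 2, b = ((M⁻¹ : (EndW 2)ˣ) : EndW 2) (ΛR v) := ⟨_, rfl⟩
    rw [← ha, ← hb'] at h1
    rw [← hb'] at h2
    rw [← ha] at h3
    rw [← hy]
    have h4 : ‖y - v‖ ≤ ‖a - b - (y - v)‖ + (‖a - v‖ + ‖b - v‖) := by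
      have e : y - v = -(a - b - (y - v)) + ((a - v) - (b - v)) := by abel
      calc ‖y - v‖ = ‖-(a - b - (y - v)) + ((a - v) - (b - v))‖ := by rw [← e]
        _ ≤ ‖-(a - b - (y - v))‖ + ‖(a - v) - (b - v)‖ := norm_add_le _ _
        _ ≤ _ := by
          rw [norm_neg]
          gcongr
          exact norm_sub_le _ _
    have h5 := norm_nonneg v
    nlinarith
  have hid : ∀ z v : W 2, fderiv ℝ (id : W 2 → W 2) z v = v := fun z v => by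
    rw [fderiv_id]
    rfl
  obtain ⟨Φ', δ, hδ, hconn, hE'⟩ := iso_ext (Φ := Ψ) (Ψ := id) (c := 1 / 2) (K := 2) (η := 1 / 8)
    hΨl hloc_id (by norm_num) (by norm_num) (by
      intro z hz w hw
      have h1 := mean_P0 (f := fun x => Ψ x - x) (η := 1 / 8) (by norm_num)
        (fun r x => by rw [real_hom hΨl, smul_sub])
        (fun x hx => ((Hom46.hasFDerivAt hΨl hx).differentiableAt.sub differentiableAt_id))
        (fun x hx hx0 v _ => by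
          have e : fderiv ℝ (fun x => Ψ x - x) x v = fderiv ℝ Ψ x v - v := by
            have := (Hom46.hasFDerivAt hΨl hx0).sub (hasFDerivAt_id x)
            have e2 : HasFDerivAt (fun x => Ψ x - x) (fderiv ℝ Ψ x - ContinuousLinearMap.id ℝ (W 2)) x :=
              this
            rw [e2.fderiv]
            rfl
          rw [e]
          exact hnear x hx hx0 v) z hz w hw
      have h2 : ‖z - w‖ ≤ ‖Ψ z - Ψ w‖ + ‖(Ψ z - z) - (Ψ w - w)‖ := by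
        have e : z - w = (Ψ z - Ψ w) - ((Ψ z - z) - (Ψ w - w)) := by abel
        conv_lhs => rw [e]
        exact norm_sub_le _ _
      have h3 := norm_nonneg (z - w)
      linarith)
    (by
      intro z hz hz0 v
      have h1 := hnear z hz hz0 v
      have h2 : ‖v‖ ≤ ‖fderiv ℝ Ψ z v‖ + ‖fderiv ℝ Ψ z v - v‖ := by
        have e : v = fderiv ℝ Ψ z v - (fderiv ℝ Ψ z v - v) := by abel
        conv_lhs => rw [e]
        exact norm_sub_le _ _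
      have h3 := norm_nonneg v
      linarith)
    (by
      intro z hz hz0
      refine ContinuousLinearMap.opNorm_le_bound _ (by norm_num) fun v => ?_
      show ‖fderiv ℝ Ψ z v - fderiv ℝ (id : W 2 → W 2) z v‖ ≤ _
      rw [hid]
      exact hnear z hz hz0 v) (by norm_num) (by norm_num)
  have hcn : Conn Φ Ψ := by
    have h1 : Conn Φ fun z => Φ (sh b₁ b₂ z) := conn_T_right hΦ (shE b₁ b₂)
    have h2 := conn_T_left (hloc_sh hΦ b₁ b₂) Λ.symm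
    rw [hΨ]
    exact h1.trans h2
  exact rel_of (F₁ := id) (F₂ := F) hloc_id hΦ Function.injective_id hinj (Conn.refl hloc_id) hcn hconn
    hδ hE' (fun _ _ => rfl) hF

end Pool.Agent.Lib.PJ
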