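import Pool.Agent.Lib.PJ.SliceS

set_option autoImplicit false

/-!
# Choice of a good shear (step 2)

PROOF. Average over `b = (b₁, b₂)` in `closedBall 0 1 ×ˢ closedBall 0 1 ⊆ ℂ × ℂ`. For fixed `b₂, ζ` with `‖b₂‖ ≤ 1`, `‖ζ‖ < 2`: `∫_{‖b₁‖ ≤ 1} f (b₁ + b₂ ζ, ζ) ≤ ∫_{‖y‖ < 5} f (y, ζ)` (translation invariance, the translated disc lies in `ball 0 5`), so
`∫_b ∫_{‖ζ‖ < 2} f (b₁ + b₂ ζ, ζ) ≤ π ∫_{ball ×ˢ ball} f` (Tonelli). For fixed `b₂, x, ζ` with `‖x‖ < 1`, `‖ζ‖ < 3`: `∫_{‖b₁‖ ≤ 1} f (x + b₁ + b₂ ζ, ζ) ≤ ∫_{‖y‖ < 5} f (y, ζ)`, so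
`∫_b ∫_{x, ζ} f (x + b₁ + b₂ ζ, ζ) ‖x‖ₑ^(-s) ≤ π (∫_{‖x‖ < 1} ‖x‖ₑ^(-s)) ∫ f`, and `∫_{‖x‖ < 1} ‖x‖ₑ^(-s) < ⊤` because `s < 2` (polar coordinates / `integrable_fun_norm_addHaar` as in `energy_lt_top`, P28g/CritE.lean, or
`Complex` polar coordinates). The same for `g` with the roles of `b₁` and `b₂` exchanged. The sum of the four functions of `b` has integral `≤ C₁ A`, so (`volume` of the set of `b` is `π² > 0`) there is a `b` at which the sum is `≤ C A`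
(`exists_setLAverage_le` / `exists_le_setLAverage`-type lemmas, or by contradiction: `setLIntegral_strict_mono`; if `A = ⊤` everything is trivial as `C ≥ 1` can be assumed).
-/

open MeasureTheory Set Metric Filter
open scoped ContDiff Topology ENNReal

namespace Pool.Agent.Lib.PJ

open Pool.Agent.P28b04d Pool.Agent.Lib.P28e Pool.Agent.Lib.P28c Pool.Agent.Lib.P28g
open Pool.Agent.Lib.P28f (ult)

/-- The singular weight is integrable. -/
theorem kappa_lt {s : ℝ} (hs2 : s < 2) : ∫⁻ x in ball (0 : ℂ) 1, ‖x‖ₑ ^ (-s) < ⊤ := by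
  obtain ⟨f, hf⟩ : ∃ f : ℝ → ℝ, f = fun y => if y < 1 then y ^ (-s) else 0 := ⟨_, rfl⟩
  have hint : Integrable (fun x : ℂ => f ‖x‖) volume := by
    rw [integrable_fun_norm_addHaar]
    rw [Complex.finrank_real_complex]
    have h1 : IntegrableOn (fun y : ℝ => y ^ (1 - s)) (Iio 1 ∩ Ioi 0) := by
      have h2 : IntervalIntegrable (fun y : ℝ => y ^ (1 - s)) volume 0 1 :=
        intervalIntegral.intervalIntegrable_rpow' (by linarith)
      rw [intervalIntegrable_iff_integrableOn_Ioc_of_le zero_le_one] at h2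
      exact h2.mono_set fun y hy => ⟨hy.2, le_of_lt hy.1⟩
    have h2 : IntegrableOn (indicator (Iio (1 : ℝ)) fun y : ℝ => y ^ (1 - s)) (Ioi 0) := by
      unfold IntegrableOn
      rw [integrable_indicator_iff measurableSet_Iio]
      unfold IntegrableOn
      rw [Measure.restrict_restrict measurableSet_Iio]
      exact h1
    refine h2.congr_fun ?_ measurableSet_Ioi
    intro y hy
    have hy' : (0 : ℝ) < y := hy
    simp only [hf, indicator, mem_Iio, smul_eq_mul]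
    split_ifs
    · rw [sub_eq_add_neg, Real.rpow_add hy', Real.rpow_one]
      norm_num
    · rw [mul_zero]
  refine lt_of_le_of_lt ?_ hint.lintegral_lt_top
  calc ∫⁻ x in ball (0 : ℂ) 1, ‖x‖ₑ ^ (-s)
      ≤ ∫⁻ x in ball (0 : ℂ) 1, ENNReal.ofReal (f ‖x‖) := by
        refine lintegral_mono_ae ?_
        have h0 : ∀ᵐ x : ℂ ∂(volume.restrict (ball (0 : ℂ) 1)), x ≠ 0 := by
          refine ae_restrict_of_ae ?_
          exact Measure.ae_ne volume (0 : ℂ)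
        filter_upwards [h0, ae_restrict_mem measurableSet_ball] with x hx hx1
        rw [mem_ball_zero_iff] at hx1
        have hx0 : 0 < ‖x‖ := norm_pos_iff.2 hx
        rw [hf]
        simp only [if_pos hx1]
        rw [← ofReal_norm x, ENNReal.ofReal_rpow_of_pos hx0]
    _ ≤ _ := lintegral_mono' Measure.restrict_le_self le_rfl

/-- One step of the average. -/
theorem avg_step {f : ℂ × ℂ → ℝ≥0∞} (hf : Measurable f) {A : ℝ≥0∞}
    (hA : ∫⁻ q in ball (0 : ℂ) 5 ×ˢ ball (0 : ℂ) 5, f q ≤ A) {x β : ℂ} (hx : ‖x‖ < 1)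
    (hβ : ‖β‖ ≤ 1) :
    ∫⁻ b in closedBall (0 : ℂ) 1, ∫⁻ ζ in ball (0 : ℂ) 3, f (x + b + β * ζ, ζ) ≤ A := by
  have hm : Measurable fun q : ℂ × ℂ => f (x + q.1 + β * q.2, q.2) := by
    have : Continuous fun q : ℂ × ℂ => (x + q.1 + β * q.2, q.2) := by fun_prop
    exact hf.comp this.measurable
  rw [lintegral_lintegral_swap (f := fun b ζ => f (x + b + β * ζ, ζ)) hm.aemeasurable]
  calc ∫⁻ ζ in ball (0 : ℂ) 3, ∫⁻ b in closedBall (0 : ℂ) 1, f (x + b + β * ζ, ζ)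
      ≤ ∫⁻ ζ in ball (0 : ℂ) 3, ∫⁻ y in ball (0 : ℂ) 5, f (y, ζ) := by
        refine setLIntegral_mono' measurableSet_ball fun ζ hζ => ?_
        rw [mem_ball, dist_zero_right] at hζ
        rw [← lintegral_indicator measurableSet_closedBall, ← lintegral_indicator measurableSet_ball]
        rw [← lintegral_add_left_eq_self
          (fun y => (ball (0 : ℂ) 5).indicator (fun y => f (y, ζ)) y) (x + β * ζ)]
        refine lintegral_mono fun b => ?_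
        by_cases hb : b ∈ closedBall (0 : ℂ) 1
        · rw [indicator_of_mem hb]
          rw [mem_closedBall, dist_zero_right] at hb
          have h1 : x + β * ζ + b ∈ ball (0 : ℂ) 5 := by
            rw [mem_ball, dist_zero_right]
            have e1 : ‖β * ζ‖ ≤ 1 * 3 := by
              rw [norm_mul]
              gcongr
            calc ‖x + β * ζ + b‖ ≤ ‖x‖ + ‖β * ζ‖ + ‖b‖ := norm_add₃_le
              _ < 5 := by linarith
          show f (x + b + β * ζ, ζ) ≤ (ball (0 : ℂ) 5).indicator (fun y => f (y, ζ)) (x + β * ζ + b)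
          rw [indicator_of_mem h1]
          rw [show x + b + β * ζ = x + β * ζ + b by ring]
        · rw [indicator_of_notMem hb]
          exact zero_le
    _ ≤ ∫⁻ ζ in ball (0 : ℂ) 5, ∫⁻ y in ball (0 : ℂ) 5, f (y, ζ) := by
        refine lintegral_mono' (Measure.restrict_mono (ball_subset_ball (by norm_num)) le_rfl) le_rfl
    _ = ∫⁻ q in ball (0 : ℂ) 5 ×ˢ ball (0 : ℂ) 5, f q := by
        rw [lint_prod hf, lintegral_lintegral_swap (f := fun ζ y => f (y, ζ))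
          (hf.comp measurable_swap).aemeasurable]
    _ ≤ A := hA

/-- The average of the first two functions over the first parameter. -/
theorem avg_two {s : ℝ} {f : ℂ × ℂ → ℝ≥0∞} (hf : Measurable f)
    {A : ℝ≥0∞} (hA : ∫⁻ q in ball (0 : ℂ) 5 ×ˢ ball (0 : ℂ) 5, f q ≤ A) {β : ℂ} (hβ : ‖β‖ ≤ 1) :
    ∫⁻ b in closedBall (0 : ℂ) 1, ((∫⁻ ζ in ball (0 : ℂ) 2, f (b + β * ζ, ζ)) +
      ∫⁻ q in ball (0 : ℂ) 1 ×ˢ ball (0 : ℂ) 3, f (q.1 + b + β * q.2, q.2) * ‖q.1‖ₑ ^ (-s)) ≤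
      A + A * ∫⁻ x in ball (0 : ℂ) 1, ‖x‖ₑ ^ (-s) := by
  have hm1 : Measurable fun b : ℂ => ∫⁻ ζ in ball (0 : ℂ) 2, f (b + β * ζ, ζ) := by
    have : Continuous fun q : ℂ × ℂ => (q.1 + β * q.2, q.2) := by fun_prop
    exact (hf.comp this.measurable).lintegral_prod_right'
  rw [lintegral_add_left hm1]
  refine add_le_add ?_ ?_
  · refine le_trans ?_ (avg_step hf hA (x := 0) (by simp) hβ)
    refine lintegral_mono fun b => ?_
    simp only [zero_add]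
    exact lintegral_mono' (Measure.restrict_mono (ball_subset_ball (by norm_num)) le_rfl) le_rfl
  · have hw : Measurable fun x : ℂ => ‖x‖ₑ ^ (-s) := measurable_enorm.pow_const _
    have hm3 : Measurable fun r : ℂ × ℂ × ℂ => f (r.2.1 + r.1 + β * r.2.2, r.2.2) * ‖r.2.1‖ₑ ^ (-s) := by
      have : Continuous fun r : ℂ × ℂ × ℂ => (r.2.1 + r.1 + β * r.2.2, r.2.2) := by fun_prop
      exact (hf.comp this.measurable).mul (hw.comp (measurable_fst.comp measurable_snd))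
    calc ∫⁻ b in closedBall (0 : ℂ) 1, ∫⁻ q in ball (0 : ℂ) 1 ×ˢ ball (0 : ℂ) 3,
          f (q.1 + b + β * q.2, q.2) * ‖q.1‖ₑ ^ (-s)
        = ∫⁻ b in closedBall (0 : ℂ) 1, ∫⁻ x in ball (0 : ℂ) 1, ∫⁻ ζ in ball (0 : ℂ) 3,
          f (x + b + β * ζ, ζ) * ‖x‖ₑ ^ (-s) := by
          refine lintegral_congr fun b => ?_
          have hb : Measurable fun q : ℂ × ℂ => f (q.1 + b + β * q.2, q.2) * ‖q.1‖ₑ ^ (-s) := by
            have : Continuous fun q : ℂ × ℂ => (q.1 + b + β * q.2, q.2) := by fun_prop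
            exact (hf.comp this.measurable).mul (hw.comp measurable_fst)
          exact lint_prod hb _ _
      _ = ∫⁻ x in ball (0 : ℂ) 1, ∫⁻ b in closedBall (0 : ℂ) 1, ∫⁻ ζ in ball (0 : ℂ) 3,
          f (x + b + β * ζ, ζ) * ‖x‖ₑ ^ (-s) := by
          refine lintegral_lintegral_swap ?_
          have h4 : Measurable fun r : (ℂ × ℂ) × ℂ =>
              f (r.1.2 + r.1.1 + β * r.2, r.2) * ‖r.1.2‖ₑ ^ (-s) := by
            have : Continuous fun r : (ℂ × ℂ) × ℂ => (r.1.2 + r.1.1 + β * r.2, r.2) := by fun_prop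
            exact (hf.comp this.measurable).mul (hw.comp (measurable_snd.comp measurable_fst))
          exact h4.lintegral_prod_right'.aemeasurable
      _ ≤ ∫⁻ x in ball (0 : ℂ) 1, A * ‖x‖ₑ ^ (-s) := by
          refine lintegral_mono_ae ?_
          have h0 : ∀ᵐ x : ℂ ∂(volume.restrict (ball (0 : ℂ) 1)), x ≠ 0 := by
            refine ae_restrict_of_ae ?_
            exact Measure.ae_ne volume (0 : ℂ)
          filter_upwards [h0, ae_restrict_mem measurableSet_ball] with x hx hx1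
          rw [mem_ball_zero_iff] at hx1
          have hf1 : ∀ b : ℂ, Measurable fun ζ : ℂ => f (x + b + β * ζ, ζ) := fun b => by
            have : Continuous fun ζ : ℂ => (x + b + β * ζ, ζ) := by fun_prop
            exact hf.comp this.measurable
          have hf2 : Measurable fun b : ℂ => ∫⁻ ζ in ball (0 : ℂ) 3, f (x + b + β * ζ, ζ) := by
            have : Continuous fun q : ℂ × ℂ => (x + q.1 + β * q.2, q.2) := by fun_prop
            exact (hf.comp this.measurable).lintegral_prod_right'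
          have e1 : ∀ b : ℂ, ∫⁻ ζ in ball (0 : ℂ) 3, f (x + b + β * ζ, ζ) * ‖x‖ₑ ^ (-s) =
              (∫⁻ ζ in ball (0 : ℂ) 3, f (x + b + β * ζ, ζ)) * ‖x‖ₑ ^ (-s) := fun b =>
            lintegral_mul_const _ (hf1 b)
          simp only [e1]
          rw [lintegral_mul_const _ hf2]
          gcongr
          exact avg_step hf hA hx1 hβ
      _ = A * ∫⁻ x in ball (0 : ℂ) 1, ‖x‖ₑ ^ (-s) := lintegral_const_mul _ hw

theorem pick {s : ℝ} (hs : 0 ≤ s) (hs2 : s < 2) : ∃ C : ℝ, 1 ≤ C ∧ ∀ f g : ℂ × ℂ → ℝ≥0∞, Measurable f →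
    Measurable g → ∀ A : ℝ≥0∞, ∫⁻ q in ball (0 : ℂ) 5 ×ˢ ball (0 : ℂ) 5, f q ≤ A →
    ∫⁻ q in ball (0 : ℂ) 5 ×ˢ ball (0 : ℂ) 5, g q ≤ A →
    ∃ b₁ b₂ : ℂ, ‖b₁‖ ≤ 1 ∧ ‖b₂‖ ≤ 1 ∧
      ∫⁻ ζ in ball (0 : ℂ) 2, f (b₁ + b₂ * ζ, ζ) ≤ ENNReal.ofReal C * A ∧
      ∫⁻ q in ball (0 : ℂ) 1 ×ˢ ball (0 : ℂ) 3, f (q.1 + b₁ + b₂ * q.2, q.2) * ‖q.1‖ₑ ^ (-s) ≤
        ENNReal.ofReal C * A ∧
      ∫⁻ ζ in ball (0 : ℂ) 2, g (b₂ + b₁ * ζ, ζ) ≤ ENNReal.ofReal C * A ∧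
      ∫⁻ q in ball (0 : ℂ) 1 ×ˢ ball (0 : ℂ) 3, g (q.1 + b₂ + b₁ * q.2, q.2) * ‖q.1‖ₑ ^ (-s) ≤
        ENNReal.ofReal C * A := by
  obtain ⟨κ, hκ⟩ : ∃ κ : ℝ≥0∞, κ = ∫⁻ x in ball (0 : ℂ) 1, ‖x‖ₑ ^ (-s) := ⟨_, rfl⟩
  have hκt : κ ≠ ⊤ := by
    rw [hκ]
    exact (kappa_lt hs2).ne
  obtain ⟨D, hD⟩ : ∃ D : Set ℂ, D = closedBall (0 : ℂ) 1 := ⟨_, rfl⟩
  have hDm : MeasurableSet D := by rw [hD]; exact measurableSet_closedBall
  obtain ⟨v, hv⟩ : ∃ v : ℝ≥0∞, v = volume D := ⟨_, rfl⟩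
  have hv0 : v ≠ 0 := by
    rw [hv, hD]
    exact (Metric.measure_closedBall_pos volume (0 : ℂ) one_pos).ne'
  have hvt : v ≠ ⊤ := by
    rw [hv, hD]
    exact measure_closedBall_lt_top.ne
  obtain ⟨c, hc⟩ : ∃ c : ℝ≥0∞, c = (v * v)⁻¹ * (v * (1 + κ) + v * (1 + κ)) := ⟨_, rfl⟩
  have hct : c ≠ ⊤ := by
    rw [hc]
    refine ENNReal.mul_ne_top ?_ ?_
    · rw [Ne, ENNReal.inv_eq_top]
      exact mul_ne_zero hv0 hv0
    · have : v * (1 + κ) ≠ ⊤ := ENNReal.mul_ne_top hvt (ENNReal.add_ne_top.2 ⟨ENNReal.one_ne_top, hκt⟩)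
      exact ENNReal.add_ne_top.2 ⟨this, this⟩
  refine ⟨max c.toReal 1, le_max_right _ _, fun f g hf hg A hfA hgA => ?_⟩
  have hcC : c ≤ ENNReal.ofReal (max c.toReal 1) := by
    calc c = ENNReal.ofReal c.toReal := (ENNReal.ofReal_toReal hct).symm
      _ ≤ _ := ENNReal.ofReal_le_ofReal (le_max_left _ _)
  have hw : Measurable fun x : ℂ => ‖x‖ₑ ^ (-s) := measurable_enorm.pow_const _
  -- measurability in the two parameters
  have hmeas : ∀ h : ℂ × ℂ → ℝ≥0∞, Measurable h → Measurable fun b : ℂ × ℂ =>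
      (∫⁻ ζ in ball (0 : ℂ) 2, h (b.1 + b.2 * ζ, ζ)) +
      ∫⁻ q in ball (0 : ℂ) 1 ×ˢ ball (0 : ℂ) 3, h (q.1 + b.1 + b.2 * q.2, q.2) * ‖q.1‖ₑ ^ (-s) := by
    intro h hh
    refine Measurable.add ?_ ?_
    · have : Continuous fun r : (ℂ × ℂ) × ℂ => (r.1.1 + r.1.2 * r.2, r.2) := by fun_prop
      exact (hh.comp this.measurable).lintegral_prod_right'
    · have : Continuous fun r : (ℂ × ℂ) × (ℂ × ℂ) => (r.2.1 + r.1.1 + r.1.2 * r.2.2, r.2.2) := by
        fun_prop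
      exact ((hh.comp this.measurable).mul
        (hw.comp (measurable_fst.comp measurable_snd))).lintegral_prod_right'
  obtain ⟨Ff, hFf⟩ : ∃ Ff : ℂ × ℂ → ℝ≥0∞, Ff = fun b =>
      (∫⁻ ζ in ball (0 : ℂ) 2, f (b.1 + b.2 * ζ, ζ)) +
      ∫⁻ q in ball (0 : ℂ) 1 ×ˢ ball (0 : ℂ) 3, f (q.1 + b.1 + b.2 * q.2, q.2) * ‖q.1‖ₑ ^ (-s) :=
    ⟨_, rfl⟩
  obtain ⟨Fg, hFg⟩ : ∃ Fg : ℂ × ℂ → ℝ≥0∞, Fg = fun b =>
      (∫⁻ ζ in ball (0 : ℂ) 2, g (b.1 + b.2 * ζ, ζ)) +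
      ∫⁻ q in ball (0 : ℂ) 1 ×ˢ ball (0 : ℂ) 3, g (q.1 + b.1 + b.2 * q.2, q.2) * ‖q.1‖ₑ ^ (-s) :=
    ⟨_, rfl⟩
  have hFfm : Measurable Ff := by rw [hFf]; exact hmeas f hf
  have hFgm : Measurable Fg := by rw [hFg]; exact hmeas g hg
  have hFgs : Measurable fun b : ℂ × ℂ => Fg (b.2, b.1) := hFgm.comp measurable_swap
  have hIf : ∫⁻ b in D ×ˢ D, Ff b ≤ v * (1 + κ) * A := by
    rw [lint_prod hFfm, lintegral_lintegral_swap (f := fun x y => Ff (x, y)) hFfm.aemeasurable]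
    calc ∫⁻ y in D, ∫⁻ x in D, Ff (x, y) ≤ ∫⁻ y in D, (A + A * κ) := by
          refine setLIntegral_mono' hDm fun y hy => ?_
          rw [hD, mem_closedBall, dist_zero_right] at hy
          rw [hFf, hD, hκ]
          exact avg_two hf hfA hy
      _ = v * (1 + κ) * A := by
          rw [setLIntegral_const, ← hv]
          ring
  have hIg : ∫⁻ b in D ×ˢ D, Fg (b.2, b.1) ≤ v * (1 + κ) * A := by
    rw [lint_prod hFgs]
    calc ∫⁻ x in D, ∫⁻ y in D, Fg (y, x) ≤ ∫⁻ y in D, (A + A * κ) := by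
          refine setLIntegral_mono' hDm fun y hy => ?_
          rw [hD, mem_closedBall, dist_zero_right] at hy
          rw [hFg, hD, hκ]
          exact avg_two hg hgA hy
      _ = v * (1 + κ) * A := by
          rw [setLIntegral_const, ← hv]
          ring
  have hvol : volume (D ×ˢ D) = v * v := by
    rw [Measure.volume_eq_prod, Measure.prod_prod, hv]
  obtain ⟨b, hb, hle⟩ := exists_le_setLAverage (μ := (volume : Measure (ℂ × ℂ))) (s := D ×ˢ D)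
    (f := fun b => Ff b + Fg (b.2, b.1)) (by rw [hvol]; exact mul_ne_zero hv0 hv0)
    (by rw [hvol]; exact ENNReal.mul_ne_top hvt hvt) (hFfm.add hFgs).aemeasurable
  have hsum : Ff b + Fg (b.2, b.1) ≤ ENNReal.ofReal (max c.toReal 1) * A := by
    refine hle.trans ?_
    rw [setLAverage_eq, lintegral_add_left hFfm, hvol, ENNReal.div_eq_inv_mul]
    calc (v * v)⁻¹ * ((∫⁻ b in D ×ˢ D, Ff b) + ∫⁻ b in D ×ˢ D, Fg (b.2, b.1))
        ≤ (v * v)⁻¹ * (v * (1 + κ) * A + v * (1 + κ) * A) := by gcongr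
      _ = c * A := by
          rw [hc]
          ring
      _ ≤ _ := by gcongr
  rw [mem_prod, hD, mem_closedBall, mem_closedBall, dist_zero_right, dist_zero_right] at hb
  have h1 : Ff b ≤ ENNReal.ofReal (max c.toReal 1) * A := le_self_add.trans hsum
  have h2 : Fg (b.2, b.1) ≤ ENNReal.ofReal (max c.toReal 1) * A := le_add_self.trans hsum
  rw [hFf] at h1
  rw [hFg] at h2
  exact ⟨b.1, b.2, hb.1, hb.2, le_self_add.trans h1, le_add_self.trans h1, le_self_add.trans h2,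
    le_add_self.trans h2⟩

end Pool.Agent.Lib.PJ
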