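import Pool.Agent.Lib.PJ.ChartE
import Pool.Agent.Lib.PJ.Pick

set_option autoImplicit false

/-!
# Every lift of finite `p`-energy becomes good on the line `P0` after a shear (step 2)

PROOF. `f q = ‖conn Φ (cp q.1 q.2)‖ₑ ^ p`, `g q = ‖conn (Φ ∘ sw) (cp q.1 q.2)‖ₑ ^ p`; both are measurable (`measurable_conn`, `cp` is continuous), both integrals over `ball 0 5 ×ˢ ball 0 5` are `≤ C₁ enP p Φ`
(`chartE` for `Φ` and for `Φ ∘ sw`; `enP p (Φ ∘ sw) = enP p Φ` because `sw` preserves volume and the unit ball and `norm_conn_sw`; `≤` with a constant is enough). Take `b₁ b₂` from `pick` with `s = (6 - p) / 2 ∈ [0, 2)`.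
`sh b₁ b₂ (cp x ζ) = cp (x + b₁ + b₂ ζ) ζ` and `sh b₁ b₂ (sw (cp x ζ)) = sw (cp (x + b₂ + b₁ ζ) ζ)`; `norm_conn_sh_le` gives the factor `27 ^ p`.
For the second `LineC`: `(Φ ∘ sh b₁ b₂) ∘ sw`, `conn` of it at `cp x ζ` has the norm of `conn (Φ ∘ sh b₁ b₂)` at `sw (cp x ζ)` (`norm_conn_sw`), which is `≤ 27 ‖conn Φ (sh b₁ b₂ (sw (cp x ζ)))‖ = 27 ‖conn Φ (sw (cp (x + b₂ + b₁ ζ) ζ))‖ = 27 ‖conn (Φ ∘ sw) (cp ..)‖`.
-/

open MeasureTheory Set Metric Filter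
open scoped ContDiff Topology ENNReal

namespace Pool.Agent.Lib.PJ

open Pool.Agent.P28b04d Pool.Agent.Lib.P28e Pool.Agent.Lib.P28c Pool.Agent.Lib.P28g
open Pool.Agent.Lib.P28f (ult)

/-- The energy of `Φ ∘ sw`. -/
theorem enP_sw {p : ℝ} {Φ : W 2 → W 2} (h : HLoc Φ) : enP p (fun z => Φ (sw z)) ≤ enP p Φ := by
  obtain ⟨f, hf⟩ : ∃ f : W 2 → ℝ≥0∞, f = fun z => ‖conn Φ z‖ₑ ^ p := ⟨_, rfl⟩
  have hfm : Measurable f := by
    rw [hf]
    exact (measurable_conn h).pow_const p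
  have hmp : MeasurePreserving (fun z : W 2 => sw z) := by
    have h1 := volume_measurePreserving_piCongrLeft (fun _ : Fin 3 => ℂ) (Equiv.swap (1 : Fin 3) 2)
    have e : (fun z : W 2 => sw z) =
        fun z => MeasurableEquiv.piCongrLeft (fun _ : Fin 3 => ℂ) (Equiv.swap (1 : Fin 3) 2) z := by
      funext z
      ext k
      fin_cases k <;> rfl
    rw [e]
    exact h1
  have hFm : Measurable ((ball (0 : W 2) 1).indicator f) := hfm.indicator measurableSet_ball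
  calc enP p (fun z => Φ (sw z)) = ∫⁻ z in ball (0 : W 2) 1, f (sw z) := by
        unfold enP
        refine lintegral_congr_ae ?_
        have h0 : ∀ᵐ x : W 2 ∂(volume.restrict (ball (0 : W 2) 1)), x ≠ 0 := by
          refine ae_restrict_of_ae ?_
          exact Measure.ae_ne volume (0 : W 2)
        filter_upwards [h0] with z hz
        rw [hf]
        show ‖conn (fun z => Φ (sw z)) z‖ₑ ^ p = ‖conn Φ (sw z)‖ₑ ^ p
        rw [← ofReal_norm (conn (fun z => Φ (sw z)) z), norm_conn_sw h hz, ofReal_norm (conn Φ (sw z))]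
    _ = ∫⁻ z, (ball (0 : W 2) 1).indicator f (sw z) := by
        rw [← lintegral_indicator measurableSet_ball]
        refine lintegral_congr fun z => ?_
        have hiff : z ∈ ball (0 : W 2) 1 ↔ sw z ∈ ball (0 : W 2) 1 := by
          rw [mem_ball, mem_ball, dist_zero_right, dist_zero_right, norm_sw]
        by_cases hz : z ∈ ball (0 : W 2) 1
        · rw [indicator_of_mem hz, indicator_of_mem (hiff.1 hz)]
        · rw [indicator_of_notMem hz, indicator_of_notMem fun h => hz (hiff.2 h)]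
    _ = ∫⁻ z, (ball (0 : W 2) 1).indicator f z := hmp.lintegral_comp hFm
    _ = enP p Φ := by
        rw [lintegral_indicator measurableSet_ball, hf]
        rfl
    _ ≤ enP p Φ := le_rfl

theorem exists_line {p : ℝ} (hp : 2 < p) (hp4 : p < 4) : ∃ C : ℝ, 1 ≤ C ∧ ∀ Φ : W 2 → W 2, HLoc Φ →
    ∀ E : ℝ, 0 ≤ E → enP p Φ ≤ ENNReal.ofReal E →
    ∃ b₁ b₂ : ℂ, LineE p (C * E) fun z => Φ (sh b₁ b₂ z) := by
  have hp0 : 0 < p := by linarith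
  obtain ⟨C₁, hC₁, hch⟩ := chartE hp0
  obtain ⟨C₂, hC₂, hpk⟩ := pick (s := (6 - p) / 2) (by linarith) (by linarith)
  obtain ⟨k, hk⟩ : ∃ k : ℝ, k = (27 : ℝ) ^ p := ⟨_, rfl⟩
  have hk1 : 1 ≤ k := by
    rw [hk]
    exact Real.one_le_rpow (by norm_num) hp0.le
  have hkE : (27 : ℝ≥0∞) ^ p = ENNReal.ofReal k := by
    rw [hk, ← ENNReal.ofReal_rpow_of_pos (by norm_num)]
    norm_num
  refine ⟨k * C₂ * max C₁.toReal 1, ?_, fun Φ h E hE hen => ?_⟩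
  · calc (1 : ℝ) = 1 * 1 * 1 := by norm_num
      _ ≤ k * C₂ * max C₁.toReal 1 := by
        gcongr
        exact le_max_right _ _
  have hC1' : C₁ ≤ ENNReal.ofReal (max C₁.toReal 1) := by
    calc C₁ = ENNReal.ofReal C₁.toReal := (ENNReal.ofReal_toReal hC₁).symm
      _ ≤ _ := ENNReal.ofReal_le_ofReal (le_max_left _ _)
  obtain ⟨A, hA⟩ : ∃ A : ℝ, A = max C₁.toReal 1 * E := ⟨_, rfl⟩
  have hA0 : 0 ≤ A := by
    rw [hA]
    positivity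
  have hswl := hloc_sw h
  obtain ⟨f, hf⟩ : ∃ f : ℂ × ℂ → ℝ≥0∞, f = fun q => ‖conn Φ (cp q.1 q.2)‖ₑ ^ p := ⟨_, rfl⟩
  obtain ⟨g, hg⟩ : ∃ g : ℂ × ℂ → ℝ≥0∞, g = fun q => ‖conn Φ (sw (cp q.1 q.2))‖ₑ ^ p := ⟨_, rfl⟩
  have hcsw : Continuous fun q : ℂ × ℂ => sw (cp q.1 q.2) := by
    have e : (fun q : ℂ × ℂ => sw (cp q.1 q.2)) = fun q : ℂ × ℂ => (![q.1, q.2, 1] : W 2) := by
      funext q
      ext k
      fin_cases k <;> rfl
    rw [e]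
    refine continuous_pi fun k => ?_
    fin_cases k
    · exact continuous_fst
    · exact continuous_snd
    · exact continuous_const
  have hfm : Measurable f := by
    rw [hf]
    exact ((measurable_conn h).comp continuous_cp.measurable).pow_const p
  have hgm : Measurable g := by
    rw [hg]
    exact ((measurable_conn h).comp hcsw.measurable).pow_const p
  have hfA : ∫⁻ q in ball (0 : ℂ) 5 ×ˢ ball (0 : ℂ) 5, f q ≤ ENNReal.ofReal A := by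
    rw [hf, hA, ENNReal.ofReal_mul (by positivity)]
    refine (hch Φ h).trans ?_
    gcongr
  have hgA : ∫⁻ q in ball (0 : ℂ) 5 ×ˢ ball (0 : ℂ) 5, g q ≤ ENNReal.ofReal A := by
    have e : ∀ q : ℂ × ℂ, g q = ‖conn (fun z => Φ (sw z)) (cp q.1 q.2)‖ₑ ^ p := by
      intro q
      rw [hg]
      show ‖conn Φ (sw (cp q.1 q.2))‖ₑ ^ p = _
      rw [← ofReal_norm (conn (fun z => Φ (sw z)) (cp q.1 q.2)), norm_conn_sw h (cp_ne _ _),
        ofReal_norm (conn Φ (sw (cp q.1 q.2)))]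
    simp only [e]
    rw [hA, ENNReal.ofReal_mul (by positivity)]
    refine (hch _ hswl).trans ?_
    gcongr
    exact (enP_sw h).trans hen
  obtain ⟨b₁, b₂, hb₁, hb₂, i1, i2, i3, i4⟩ := hpk f g hfm hgm (ENNReal.ofReal A) hfA hgA
  have hshl := hloc_sh h b₁ b₂
  have hfin : ENNReal.ofReal k * (ENNReal.ofReal C₂ * ENNReal.ofReal A) =
      ENNReal.ofReal (k * C₂ * max C₁.toReal 1 * E) := by
    rw [hA, ← ENNReal.ofReal_mul (by linarith), ← ENNReal.ofReal_mul (by linarith)]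
    congr 1
    ring
  -- the pointwise bounds
  have hb1 : ∀ x ζ : ℂ, ‖conn (fun z => Φ (sh b₁ b₂ z)) (cp x ζ)‖ₑ ^ p ≤
      ENNReal.ofReal k * f (x + b₁ + b₂ * ζ, ζ) := by
    intro x ζ
    have e1 := norm_conn_sh_le h hb₁ hb₂ (cp_ne x ζ)
    rw [sh_cp] at e1
    have e2 : ‖conn (fun z => Φ (sh b₁ b₂ z)) (cp x ζ)‖ₑ ≤
        27 * ‖conn Φ (cp (x + b₁ + b₂ * ζ) ζ)‖ₑ := by
      rw [← ofReal_norm (conn (fun z => Φ (sh b₁ b₂ z)) (cp x ζ)),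
        ← ofReal_norm (conn Φ (cp (x + b₁ + b₂ * ζ) ζ))]
      have : (27 : ℝ≥0∞) = ENNReal.ofReal 27 := by norm_num
      rw [this, ← ENNReal.ofReal_mul (by norm_num)]
      exact ENNReal.ofReal_le_ofReal e1
    calc _ ≤ (27 * ‖conn Φ (cp (x + b₁ + b₂ * ζ) ζ)‖ₑ) ^ p := by gcongr
      _ = _ := by rw [ENNReal.mul_rpow_of_nonneg _ _ hp0.le, hkE, hf]
  have hb2 : ∀ x ζ : ℂ, ‖conn (fun z => Φ (sh b₁ b₂ (sw z))) (cp x ζ)‖ₑ ^ p ≤
      ENNReal.ofReal k * g (x + b₂ + b₁ * ζ, ζ) := by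
    intro x ζ
    have e0 : ‖conn (fun z => Φ (sh b₁ b₂ (sw z))) (cp x ζ)‖ =
        ‖conn (fun z => Φ (sh b₁ b₂ z)) (sw (cp x ζ))‖ := norm_conn_sw hshl (cp_ne x ζ)
    have e1 := norm_conn_sh_le h hb₁ hb₂ (sw_ne (cp_ne x ζ))
    rw [sh_sw_cp] at e1
    have e2 : ‖conn (fun z => Φ (sh b₁ b₂ (sw z))) (cp x ζ)‖ₑ ≤
        27 * ‖conn Φ (sw (cp (x + b₂ + b₁ * ζ) ζ))‖ₑ := by
      rw [← ofReal_norm (conn (fun z => Φ (sh b₁ b₂ (sw z))) (cp x ζ)),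
        ← ofReal_norm (conn Φ (sw (cp (x + b₂ + b₁ * ζ) ζ)))]
      have : (27 : ℝ≥0∞) = ENNReal.ofReal 27 := by norm_num
      rw [this, ← ENNReal.ofReal_mul (by norm_num)]
      exact ENNReal.ofReal_le_ofReal (e0.le.trans e1)
    calc _ ≤ (27 * ‖conn Φ (sw (cp (x + b₂ + b₁ * ζ) ζ))‖ₑ) ^ p := by gcongr
      _ = _ := by rw [ENNReal.mul_rpow_of_nonneg _ _ hp0.le, hkE, hg]
  refine ⟨b₁, b₂, ⟨hshl, ?_, ?_⟩, hloc_sw hshl, ?_, ?_⟩
  · rw [← hfin]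
    calc ∫⁻ ζ in ball (0 : ℂ) 2, ‖conn (fun z => Φ (sh b₁ b₂ z)) (cp 0 ζ)‖ₑ ^ p
        ≤ ∫⁻ ζ in ball (0 : ℂ) 2, ENNReal.ofReal k * f (b₁ + b₂ * ζ, ζ) := by
          refine lintegral_mono fun ζ => ?_
          have := hb1 0 ζ
          rwa [zero_add] at this
      _ = ENNReal.ofReal k * ∫⁻ ζ in ball (0 : ℂ) 2, f (b₁ + b₂ * ζ, ζ) :=
          lintegral_const_mul' _ _ ENNReal.ofReal_ne_top
      _ ≤ _ := by gcongr
  · rw [← hfin]
    calc ∫⁻ q in ball (0 : ℂ) 1 ×ˢ ball (0 : ℂ) 3,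
          ‖conn (fun z => Φ (sh b₁ b₂ z)) (cp q.1 q.2)‖ₑ ^ p * ‖q.1‖ₑ ^ (-((6 - p) / 2))
        ≤ ∫⁻ q in ball (0 : ℂ) 1 ×ˢ ball (0 : ℂ) 3,
          ENNReal.ofReal k * (f (q.1 + b₁ + b₂ * q.2, q.2) * ‖q.1‖ₑ ^ (-((6 - p) / 2))) := by
          refine lintegral_mono fun q => ?_
          show ‖conn (fun z => Φ (sh b₁ b₂ z)) (cp q.1 q.2)‖ₑ ^ p * ‖q.1‖ₑ ^ (-((6 - p) / 2)) ≤
            ENNReal.ofReal k * (f (q.1 + b₁ + b₂ * q.2, q.2) * ‖q.1‖ₑ ^ (-((6 - p) / 2)))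
          rw [← mul_assoc]
          gcongr
          exact hb1 q.1 q.2
      _ = ENNReal.ofReal k * ∫⁻ q in ball (0 : ℂ) 1 ×ˢ ball (0 : ℂ) 3,
          f (q.1 + b₁ + b₂ * q.2, q.2) * ‖q.1‖ₑ ^ (-((6 - p) / 2)) :=
          lintegral_const_mul' _ _ ENNReal.ofReal_ne_top
      _ ≤ _ := by gcongr
  · rw [← hfin]
    calc ∫⁻ ζ in ball (0 : ℂ) 2, ‖conn (fun z => Φ (sh b₁ b₂ (sw z))) (cp 0 ζ)‖ₑ ^ p
        ≤ ∫⁻ ζ in ball (0 : ℂ) 2, ENNReal.ofReal k * g (b₂ + b₁ * ζ, ζ) := by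
          refine lintegral_mono fun ζ => ?_
          have := hb2 0 ζ
          rwa [zero_add] at this
      _ = ENNReal.ofReal k * ∫⁻ ζ in ball (0 : ℂ) 2, g (b₂ + b₁ * ζ, ζ) :=
          lintegral_const_mul' _ _ ENNReal.ofReal_ne_top
      _ ≤ _ := by gcongr
  · rw [← hfin]
    calc ∫⁻ q in ball (0 : ℂ) 1 ×ˢ ball (0 : ℂ) 3,
          ‖conn (fun z => Φ (sh b₁ b₂ (sw z))) (cp q.1 q.2)‖ₑ ^ p * ‖q.1‖ₑ ^ (-((6 - p) / 2))
        ≤ ∫⁻ q in ball (0 : ℂ) 1 ×ˢ ball (0 : ℂ) 3,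
          ENNReal.ofReal k * (g (q.1 + b₂ + b₁ * q.2, q.2) * ‖q.1‖ₑ ^ (-((6 - p) / 2))) := by
          refine lintegral_mono fun q => ?_
          show ‖conn (fun z => Φ (sh b₁ b₂ (sw z))) (cp q.1 q.2)‖ₑ ^ p *
            ‖q.1‖ₑ ^ (-((6 - p) / 2)) ≤
            ENNReal.ofReal k * (g (q.1 + b₂ + b₁ * q.2, q.2) * ‖q.1‖ₑ ^ (-((6 - p) / 2)))
          rw [← mul_assoc]
          gcongr
          exact hb2 q.1 q.2
      _ = ENNReal.ofReal k * ∫⁻ q in ball (0 : ℂ) 1 ×ˢ ball (0 : ℂ) 3,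
          g (q.1 + b₂ + b₁ * q.2, q.2) * ‖q.1‖ₑ ^ (-((6 - p) / 2)) :=
          lintegral_const_mul' _ _ ENNReal.ofReal_ne_top
      _ ≤ _ := by gcongr

end Pool.Agent.Lib.PJ
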