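import Pool.Agent.Lib.PJ.Gap
import Pool.Agent.Lib.PJ.ConvC
import Pool.Agent.Lib.P28g.Main

set_option autoImplicit false

/-!
# The jumps of the `p`-energy

`mE p F` is the infimum of the `p`-energy over the isotopy class of `F`. For `2 < p < 4` it is proper and has a gap modulo ball-supported diffeomorphisms, and it vanishes exactly on their classes; for `p = 4` it is proper, has a gap and
vanishes exactly on the class of the identity.
-/

open MeasureTheory Set Metric Filter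
open scoped ContDiff Topology ENNReal

namespace Pool.Agent.Lib.PJ

open Pool.Agent.P28b04d Pool.Agent.Lib.P28e Pool.Agent.Lib.P28c Pool.Agent.Lib.P28g
open Pool.Agent.Lib.P28f (ult)

/-- The infimum of the `p`-energy over the isotopy class. -/
noncomputable def mE (p : ℝ) (F : Mat 2 → Mat 2) : ℝ≥0∞ := ⨅ (G : Mat 2 → Mat 2) (_ : Isotopic 2 F G), pE p G

theorem exists_of_mE {p : ℝ} {F : Mat 2 → Mat 2} {E : ℝ≥0∞} (h : mE p F < E) :
    ∃ G, Isotopic 2 F G ∧ pE p G < E := by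
  unfold mE at h
  simp only [iInf_lt_iff] at h
  obtain ⟨G, hG, he⟩ := h
  exact ⟨G, hG, he⟩

theorem mE_le {p : ℝ} {F G : Mat 2 → Mat 2} (h : Isotopic 2 F G) : mE p F ≤ pE p G :=
  iInf_le_of_le G (iInf_le _ h)

theorem isotopic_refl {F : Mat 2 → Mat 2} (h : Diffh 2 F) : Isotopic 2 F F := by
  obtain ⟨h1, h2, ⟨G, g1, g2, g3, g4⟩, -⟩ := h
  exact ⟨fun q => F q.2, h1.comp contDiff_snd, fun _ P hP => h2 P hP, fun _ _ => rfl, fun _ _ => rfl,
    fun _ => ⟨G, g1, fun P hP => ⟨g2 P hP, g3 P hP, g4 P hP⟩⟩⟩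

theorem itr {F G H : Mat 2 → Mat 2} (h1 : Isotopic 2 F G) (h2 : Isotopic 2 G H) : Isotopic 2 F H :=
  Isotopic.trans h1 h2

theorem injOn_of_isotopic {F G : Mat 2 → Mat 2} (h : Isotopic 2 F G) : InjOn G (CP 2) := by
  obtain ⟨K, -, -, -, h1, h2⟩ := h
  obtain ⟨L, -, hL⟩ := h2 1
  intro P hP Q hQ e
  rw [← (hL P hP).2.1, ← (hL Q hQ).2.1, h1 P hP, h1 Q hQ, e]

theorem isotopic_comp {F G B : Mat 2 → Mat 2} (h : Isotopic 2 F G) (hB : BallDiff B) :
    Isotopic 2 (fun P => F (B P)) fun P => G (B P) := by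
  obtain ⟨K, s, m, a, b, l⟩ := h
  obtain ⟨b1, b2, ⟨B', c1, c2, c3, c4⟩, -⟩ := hB
  refine ⟨fun q => K (q.1, B q.2), s.comp (contDiff_fst.prodMk (b1.comp contDiff_snd)),
    fun t P hP => m t _ (b2 P hP), fun P hP => a _ (b2 P hP), fun P hP => b _ (b2 P hP), fun t => ?_⟩
  obtain ⟨L, sL, hL⟩ := l t
  refine ⟨fun P => B' (L P), c1.comp sL, fun P hP => ?_⟩
  obtain ⟨h1, h2, h3⟩ := hL P hP
  refine ⟨c2 _ h1, ?_, ?_⟩
  · show B' (L (K (t, B P))) = P
    rw [(hL _ (b2 P hP)).2.1, c3 P hP]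
  · show K (t, B (B' (L P))) = P
    rw [c4 _ h1, h3]

theorem ball_id : BallDiff id :=
  ⟨contDiff_id, fun _ h => h, ⟨id, contDiff_id, fun _ h => h, fun _ _ => rfl, fun _ _ => rfl⟩,
    1, one_pos, fun _ _ _ => rfl⟩

/-- Finiteness of the energy. -/
theorem pE_lt_top {p : ℝ} (hp0 : 0 < p) (hp : p ≤ 4) {F : Mat 2 → Mat 2} (h : Diffh 2 F) :
    pE p F < ⊤ := by
  obtain ⟨Φ, hΦ, hF⟩ := exists_lift h
  refine lt_of_le_of_lt (pE_le hΦ hF) ?_
  have h1 : enP p Φ ≤ volume (ball (0 : W 2) 1) + energy Φ := by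
    unfold enP energy
    have e : volume (ball (0 : W 2) 1) = ∫⁻ _ in ball (0 : W 2) 1, (1 : ℝ≥0∞) := by
      rw [setLIntegral_one]
    rw [e, ← lintegral_add_left measurable_const]
    refine lintegral_mono fun x => ?_
    show ‖conn Φ x‖ₑ ^ p ≤ 1 + ‖conn Φ x‖ₑ ^ (2 * 2)
    rcases le_total ‖conn Φ x‖ₑ 1 with h2 | h2
    · exact (ENNReal.rpow_le_one h2 hp0.le).trans le_self_add
    · refine le_trans ?_ le_add_self
      rw [← ENNReal.rpow_natCast]
      exact ENNReal.rpow_le_rpow_of_exponent_le h2 (by norm_num; exact hp)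
  exact h1.trans_lt (ENNReal.add_lt_top.2 ⟨measure_ball_lt_top, energy_lt_top hΦ⟩)

theorem mE_lt_top {p : ℝ} (hp0 : 0 < p) (hp : p ≤ 4) {F : Mat 2 → Mat 2} (h : Diffh 2 F) :
    mE p F < ⊤ :=
  (mE_le (isotopic_refl h)).trans_lt (pE_lt_top hp0 hp h)

/-- Properness modulo ball-supported diffeomorphisms. -/
theorem proper {p : ℝ} (hp : 2 < p) (hp4 : p < 4) {E : ℝ≥0∞} (hE : E < ⊤) :
    ∃ S : Set (Mat 2 → Mat 2), S.Finite ∧ (∀ G ∈ S, Diffh 2 G) ∧ ∀ F, Diffh 2 F → mE p F ≤ E →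
      ∃ G ∈ S, ∃ B, BallDiff B ∧ Isotopic 2 F fun P => G (B P) := by
  classical
  by_contra hcon
  obtain ⟨f, hf1, hf2⟩ := exists_seq_of_forall_finset_exists
    (fun F : Mat 2 → Mat 2 => Diffh 2 F ∧ mE p F ≤ E)
    (fun G F => ¬ ∃ B, BallDiff B ∧ Isotopic 2 F fun P => G (B P)) (by
      intro t ht
      by_contra hno
      apply hcon
      refine ⟨t, t.finite_toSet, fun G hG => (ht G hG).1, fun F hF1 hF2 => ?_⟩
      by_contra hno2
      exact hno ⟨F, ⟨hF1, hF2⟩, fun G hG hiso => hno2 ⟨G, hG, hiso⟩⟩)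
  have hE1 : E + 1 ≠ ⊤ := by simp [hE.ne]
  choose G hG hGe using fun j =>
    exists_of_mE (lt_of_le_of_lt (hf1 j).2 (ENNReal.lt_add_right hE.ne one_ne_zero))
  obtain ⟨i, j, hij, B, hB, hiso⟩ := fin_rel hp hp4 (E := (E + 1).toReal) ENNReal.toReal_nonneg G
    (fun j => injOn_of_isotopic (hG j)) (fun j => by
      rw [ENNReal.ofReal_toReal hE1]
      exact hGe j)
  exact hf2 i j hij ⟨B, hB, itr (itr (hG j) hiso) (isotopic_comp (hG i).symm hB)⟩

theorem mE_ball {p : ℝ} (hp0 : 0 < p) (hp4 : p < 4) {F B : Mat 2 → Mat 2} (hB : BallDiff B)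
    (h : Isotopic 2 F B) : mE p F = 0 := by
  refine le_antisymm (le_of_forall_gt fun ε hε => ?_) zero_le
  obtain ⟨ε', h1, h2⟩ := exists_between hε
  obtain ⟨B', hB', he⟩ := conv hB hp0 hp4 h1
  exact ((mE_le (itr h hB')).trans he).trans_lt h2

/-- The gap and the zeros. -/
theorem gap_mE {p : ℝ} (hp : 2 < p) (hp4 : p < 4) : ∃ ε : ℝ, 0 < ε ∧ ∀ F : Mat 2 → Mat 2,
    mE p F < ENNReal.ofReal ε → ∃ B, BallDiff B ∧ Isotopic 2 F B := by
  obtain ⟨ε, hε, h⟩ := gap hp hp4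
  refine ⟨ε, hε, fun F hF => ?_⟩
  obtain ⟨G, hG, hGe⟩ := exists_of_mE hF
  obtain ⟨B, hB, hiso⟩ := h G (injOn_of_isotopic hG) hGe
  exact ⟨B, hB, itr hG hiso⟩

theorem enP_four (Φ : W 2 → W 2) : enP 4 Φ = energy Φ := by
  unfold enP energy
  refine lintegral_congr fun x => ?_
  rw [show (4 : ℝ) = ((2 * 2 : ℕ) : ℝ) by norm_num, ENNReal.rpow_natCast]

/-- The critical exponent: gap and zeros. -/
theorem gap_four : ∃ ε : ℝ, 0 < ε ∧ ∀ F : Mat 2 → Mat 2, Diffh 2 F →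
    mE 4 F < ENNReal.ofReal ε → IsotopicToId 2 F := by
  obtain ⟨ε, hε, h⟩ := P28e.main 2 (by norm_num)
  refine ⟨ε, hε, fun F _ hFe => ?_⟩
  obtain ⟨G, hG, hGe⟩ := exists_of_mE hFe
  obtain ⟨Φ, hΦ, hen, hl⟩ := exists_of_pE hGe
  rw [enP_four] at hen
  have h1 : Isotopic 2 id G := h Φ hΦ hen.le G hl
  have h2 : Isotopic 2 id F := itr h1 hG.symm
  exact h2

theorem mE_id {p : ℝ} (hp0 : 0 < p) {F : Mat 2 → Mat 2} (h : IsotopicToId 2 F) : mE p F = 0 := by
  have h1 : Isotopic 2 id F := h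
  have h2 : enP p (id : W 2 → W 2) = 0 := by
    unfold enP
    have e : ∫⁻ x in ball (0 : W 2) 1, ‖conn (id : W 2 → W 2) x‖ₑ ^ p = ∫⁻ _ in ball (0 : W 2) 1, 0 := by
      refine lintegral_congr_ae ?_
      have h0 : ∀ᵐ x : W 2 ∂(volume.restrict (ball (0 : W 2) 1)), x ≠ 0 := by
        refine ae_restrict_of_ae ?_
        exact Measure.ae_ne volume (0 : W 2)
      filter_upwards [h0] with x hx
      have h3 : conn (id : W 2 → W 2) x = 0 := by
        ext1 w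
        ext1 v
        apply hloc_id.inj x hx
        rw [fderiv_conn hloc_id hx]
        have h4 : (fun y => fderiv ℝ (id : W 2 → W 2) y v) = fun _ => v := funext fun y => by
          rw [fderiv_id]
          rfl
        rw [h4, fderiv_const_apply]
        rfl
      have h5 : ‖conn (id : W 2 → W 2) x‖ₑ = 0 := by
        rw [← ofReal_norm (conn (id : W 2 → W 2) x), h3]
        have h6 : ‖(0 : W 2 →L[ℝ] EndW 2)‖ = 0 := ContinuousLinearMap.opNorm_zero
        exact (congrArg ENNReal.ofReal h6).trans ENNReal.ofReal_zero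
      rw [h5, ENNReal.zero_rpow_of_pos hp0]
    rw [e, lintegral_zero]
  refine le_antisymm ?_ zero_le
  calc mE p F ≤ pE p id := mE_le h1.symm
    _ ≤ enP p (id : W 2 → W 2) := pE_le hloc_id fun _ _ => rfl
    _ = 0 := h2

/-- Properness at the critical exponent. -/
theorem proper_four {E : ℝ≥0∞} (hE : E < ⊤) :
    ∃ S : Set (Mat 2 → Mat 2), S.Finite ∧ (∀ G ∈ S, Diffh 2 G) ∧ ∀ F, Diffh 2 F → mE 4 F ≤ E →
      ∃ G ∈ S, Isotopic 2 F G := by
  classical
  by_contra hcon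
  obtain ⟨f, hf1, hf2⟩ := exists_seq_of_forall_finset_exists
    (fun F : Mat 2 → Mat 2 => Diffh 2 F ∧ mE 4 F ≤ E)
    (fun G F => ¬ Isotopic 2 F G) (by
      intro t ht
      by_contra hno
      apply hcon
      refine ⟨t, t.finite_toSet, fun G hG => (ht G hG).1, fun F hF1 hF2 => ?_⟩
      by_contra hno2
      exact hno ⟨F, ⟨hF1, hF2⟩, fun G hG hiso => hno2 ⟨G, hG, hiso⟩⟩)
  have hE1 : E + 1 ≠ ⊤ := by simp [hE.ne]
  choose G hG hGe using fun j =>
    exists_of_mE (lt_of_le_of_lt (hf1 j).2 (ENNReal.lt_add_right hE.ne one_ne_zero))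
  choose Φ hΦ hen hF using fun j => exists_of_pE (hGe j)
  have hen' : ∀ j, energy (Φ j) ≤ ENNReal.ofReal (E + 1).toReal := fun j => by
    rw [ENNReal.ofReal_toReal hE1, ← enP_four]
    exact (hen j).le
  obtain ⟨i, j, hij, hiso⟩ := seq_fin 2 (by norm_num) ENNReal.toReal_nonneg Φ hΦ
    (fun j => lift_injective (hΦ j) (hF j) (injOn_of_isotopic (hG j))) hen' G hF
  have key : Isotopic 2 (f i) (f j) := itr (itr (hG i) hiso) (hG j).symm
  rcases lt_or_gt_of_ne hij with h | h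
  · exact hf2 i j h key.symm
  · exact hf2 j i h key

/-- Q1 in terms of the two infima. -/
theorem q1_iff {p : ℝ} (hp : 2 < p) (hp4 : p < 4) :
    (∀ F, Diffh 2 F → IsotopicToId 2 F) ↔
      (∀ F, Diffh 2 F → mE p F = 0) ∧ ∀ B, BallDiff B → IsotopicToId 2 B := by
  constructor
  · intro h
    exact ⟨fun F hF => mE_id (by linarith) (h F hF), fun B hB => h B (ball_diffh hB)⟩
  · rintro ⟨h1, h2⟩ F hF
    obtain ⟨ε, hε, hg⟩ := gap_mE hp hp4
    obtain ⟨B, hB, hiso⟩ := hg F (by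
      rw [h1 F hF]
      exact ENNReal.ofReal_pos.2 hε)
    have h3 : Isotopic 2 id B := h2 B hB
    have h4 : Isotopic 2 id F := itr h3 hiso.symm
    exact h4

end Pool.Agent.Lib.PJ
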