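import Pool.Agent.Lib.PJ.Defs

set_option autoImplicit false

/-!
# Morrey's inequality for maps of the plane (step 3)

PROOF (compare `Pool/Agent/Lib/Qcd/Mor.lean`, the same argument in dimension 6). Let `B = closedBall z r`, `|B| = π r²`, `x ∈ B`. For `y ∈ B`: `g y - g x = ∫_0^1 Dg(x + t (y - x)) (y - x) dt`, `‖y - x‖ ≤ 2 r`, so
`∫_B ‖g y - g x‖ dy ≤ 2 r ∫_0^1 ∫_B ‖Dg(x + t (y - x))‖ dy dt` (Tonelli) `= 2 r ∫_0^1 t⁻² ∫_{B_t} ‖Dg‖ dt`, where `B_t = x + t (B - x) = closedBall (x + t (z - x)) (t r) ⊆ B` has volume `t² |B|` (translation and real scaling by `t`,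
`Measure.map_addHaar_smul`). Hölder (`ENNReal.lintegral_mul_le_Lp_mul_Lq` with `1`): `∫_{B_t} ‖Dg‖ ≤ (t² |B|)^(1 - 1/p) A`. So the mean over `B` of `‖g y - g x‖` is at most
`2 r |B|^(-1/p) A ∫_0^1 t^(-2/p) dt = 2 r (π r²)^(-1/p) A p / (p - 2) ≤ C/2 A r^(1 - 2/p)`. The same for a second point; `‖g x - g y‖ ≤` sum of the two means.
-/

open MeasureTheory Set Metric Filter
open scoped ContDiff Topology ENNReal

namespace Pool.Agent.Lib.PJ

open Pool.Agent.P28b04d Pool.Agent.Lib.P28e Pool.Agent.Lib.P28c Pool.Agent.Lib.P28g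
open Pool.Agent.Lib.P28f (ult)

namespace MorAux

lemma scaleC {H : ℂ → ℝ≥0∞} (hH : Measurable H) {t : ℝ} (ht : 0 < t) (x : ℂ) :
    ∫⁻ y, H (x + t • (y - x)) = ENNReal.ofReal ((t ^ 2)⁻¹) * ∫⁻ w, H w := by
  have h1 : ∫⁻ y, H (x + t • (y - x)) = ∫⁻ y, H (x + t • y) :=
    lintegral_sub_right_eq_self (fun y => H (x + t • y)) x
  have hG : Measurable (fun v : ℂ => H (x + v)) := hH.comp (measurable_const_add x)
  have h2 : ∫⁻ y, H (x + t • y) = ∫⁻ v, H (x + v) ∂(Measure.map (t • ·) (volume : Measure ℂ)) :=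
    (lintegral_map hG (measurable_const_smul t)).symm
  rw [h1, h2, Measure.map_addHaar_smul volume ht.ne', lintegral_smul_measure,
    Complex.finrank_real_complex, abs_of_pos (by positivity), smul_eq_mul,
    lintegral_add_left_eq_self H x]

/-- the fundamental theorem of calculus on a segment -/
lemma segF {F : Type} [NormedAddCommGroup F] [NormedSpace ℝ F] [CompleteSpace F] {g : ℂ → F}
    (hg : ContDiff ℝ 1 g) (p w : ℂ) :
    ‖g (p + w) - g p‖ₑ ≤ ∫⁻ t in Ioc (0 : ℝ) 1, ‖w‖ₑ * ‖fderiv ℝ g (p + t • w)‖ₑ := by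
  have hcont : Continuous (fderiv ℝ g) := hg.continuous_fderiv one_ne_zero
  have hder : ∀ t ∈ uIcc (0 : ℝ) 1, HasDerivAt (fun t : ℝ => g (p + t • w))
      (fderiv ℝ g (p + t • w) w) t := by
    intro t _
    have h1 : HasFDerivAt g (fderiv ℝ g (p + t • w)) (p + t • w) :=
      ((hg.differentiable one_ne_zero) _).hasFDerivAt
    have h2 : HasDerivAt (fun t : ℝ => p + t • w) w t := by
      have := ((hasDerivAt_id t).smul_const w).const_add p
      simpa using this
    exact h1.comp_hasDerivAt t h2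
  have hc2 : Continuous (fun t : ℝ => fderiv ℝ g (p + t • w) w) :=
    (hcont.comp (by fun_prop)).clm_apply continuous_const
  have h3 : ∫ t in (0 : ℝ)..1, fderiv ℝ g (p + t • w) w = g (p + w) - g p := by
    rw [intervalIntegral.integral_eq_sub_of_hasDerivAt hder (hc2.intervalIntegrable _ _)]
    simp
  rw [← h3, intervalIntegral.integral_of_le zero_le_one]
  refine (enorm_integral_le_lintegral_enorm _).trans (lintegral_mono fun t => ?_)
  rw [mul_comm]
  exact (fderiv ℝ g (p + t • w)).le_opENorm w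

lemma mean_bound {F : Type} [NormedAddCommGroup F] [NormedSpace ℝ F] [CompleteSpace F] {g : ℂ → F}
    (hg : ContDiff ℝ 1 g) {p : ℝ} (hp : 2 < p) {z : ℂ} {r A : ℝ} (hr : 0 < r) (hA : 0 ≤ A)
    (hD : ∫⁻ x in closedBall z r, ‖fderiv ℝ g x‖ₑ ^ p ≤ ENNReal.ofReal (A ^ p)) {x : ℂ}
    (hx : x ∈ closedBall z r) :
    ∫⁻ y in closedBall z r, ‖g y - g x‖ₑ ≤ ENNReal.ofReal (2 * r) * (ENNReal.ofReal A *
      volume (closedBall z r) ^ (1 - 1 / p) * ENNReal.ofReal ((1 - 2 / p)⁻¹)) := by
  have hp0 : 0 < p := by linarith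
  have h2p : 2 / p < 1 := by rw [div_lt_one hp0]; exact hp
  have h1p : 1 / p < 1 := by rw [div_lt_one hp0]; linarith
  have hcont : Continuous (fderiv ℝ g) := hg.continuous_fderiv one_ne_zero
  have hm : Measurable (fun y : ℂ => ‖fderiv ℝ g y‖ₑ) := hcont.enorm.measurable
  set B := closedBall z r with hB
  have hcv : Convex ℝ B := convex_closedBall z r
  set V := volume B with hV
  -- pointwise bound
  have h1 : ∫⁻ y in B, ‖g y - g x‖ₑ ≤ ∫⁻ y in B, ∫⁻ t in Ioc (0 : ℝ) 1,
      ENNReal.ofReal (2 * r) * ‖fderiv ℝ g (x + t • (y - x))‖ₑ := by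
    refine setLIntegral_mono' measurableSet_closedBall fun y hy => ?_
    have e : y = x + (y - x) := by ring
    have h2 := segF hg x (y - x)
    rw [← e] at h2
    refine h2.trans (lintegral_mono fun t => ?_)
    refine mul_le_mul' ?_ le_rfl
    rw [← ofReal_norm]
    refine ENNReal.ofReal_le_ofReal ?_
    rw [hB, mem_closedBall, dist_eq_norm] at hx hy
    calc ‖y - x‖ = ‖(y - z) - (x - z)‖ := by rw [sub_sub_sub_cancel_right]
      _ ≤ ‖y - z‖ + ‖x - z‖ := norm_sub_le _ _
      _ ≤ 2 * r := by linarith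
  refine h1.trans ?_
  rw [lintegral_lintegral_swap]
  · -- inner bound
    have h2 : ∀ t ∈ Ioc (0 : ℝ) 1, ∫⁻ y in B, ENNReal.ofReal (2 * r) *
        ‖fderiv ℝ g (x + t • (y - x))‖ₑ ≤
          ENNReal.ofReal (2 * r) * (ENNReal.ofReal A * V ^ (1 - 1 / p)) * ENNReal.ofReal (t ^ (-(2 / p))) := by
      intro t ht
      have ht0 := ht.1
      have hmt : Measurable (fun y : ℂ => ‖fderiv ℝ g (x + t • (y - x))‖ₑ) := by
        have : Continuous fun y : ℂ => x + t • (y - x) := by fun_prop
        exact hm.comp this.measurable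
      rw [lintegral_const_mul _ hmt, mul_assoc]
      refine mul_le_mul' le_rfl ?_
      have hpq : p.HolderConjugate (Real.conjExponent p) := Real.HolderConjugate.conjExponent (by linarith)
      have hq : 1 / Real.conjExponent p = 1 - 1 / p := by
        have := hpq.inv_add_inv_eq_one
        rw [one_div, one_div]
        linarith
      have h3 := ENNReal.lintegral_mul_le_Lp_mul_Lq (volume.restrict B) hpq
        (f := fun y : ℂ => ‖fderiv ℝ g (x + t • (y - x))‖ₑ) (g := fun _ => 1)
        hmt.aemeasurable aemeasurable_const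
      simp only [Pi.mul_apply, mul_one, ENNReal.one_rpow, lintegral_const, Measure.restrict_apply,
        MeasurableSet.univ, univ_inter, one_mul, hq] at h3
      refine h3.trans ?_
      have h4 : ∫⁻ y in B, ‖fderiv ℝ g (x + t • (y - x))‖ₑ ^ p ≤
          ENNReal.ofReal ((t ^ 2)⁻¹) * ENNReal.ofReal (A ^ p) := by
        have hHm : Measurable (B.indicator fun w => ‖fderiv ℝ g w‖ₑ ^ p) :=
          (hm.pow_const p).indicator measurableSet_closedBall
        calc ∫⁻ y in B, ‖fderiv ℝ g (x + t • (y - x))‖ₑ ^ p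
            ≤ ∫⁻ y in B, (B.indicator fun w => ‖fderiv ℝ g w‖ₑ ^ p) (x + t • (y - x)) := by
              refine setLIntegral_mono' measurableSet_closedBall fun y hy => ?_
              have hmem : x + t • (y - x) ∈ B := by
                have := hcv hx hy (show 0 ≤ 1 - t by linarith [ht.2]) ht0.le (by ring)
                convert this using 1
                module
              rw [indicator_of_mem hmem]
          _ ≤ ∫⁻ y, (B.indicator fun w => ‖fderiv ℝ g w‖ₑ ^ p) (x + t • (y - x)) :=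
              lintegral_mono' Measure.restrict_le_self le_rfl
          _ = ENNReal.ofReal ((t ^ 2)⁻¹) * ∫⁻ w, (B.indicator fun w => ‖fderiv ℝ g w‖ₑ ^ p) w :=
              scaleC hHm ht0 x
          _ ≤ _ := by
              rw [lintegral_indicator measurableSet_closedBall]
              gcongr
      calc (∫⁻ y in B, ‖fderiv ℝ g (x + t • (y - x))‖ₑ ^ p) ^ (1 / p) * V ^ (1 - 1 / p)
          ≤ (ENNReal.ofReal ((t ^ 2)⁻¹) * ENNReal.ofReal (A ^ p)) ^ (1 / p) * V ^ (1 - 1 / p) := by
            gcongr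
        _ = ENNReal.ofReal A * V ^ (1 - 1 / p) * ENNReal.ofReal (t ^ (-(2 / p))) := by
            rw [ENNReal.mul_rpow_of_nonneg _ _ (by positivity),
              ENNReal.ofReal_rpow_of_nonneg (by positivity) (by positivity),
              ENNReal.ofReal_rpow_of_nonneg (by positivity) (by positivity)]
            have e1 : (A ^ p) ^ (1 / p) = A := by
              rw [← Real.rpow_mul hA, mul_one_div_cancel hp0.ne', Real.rpow_one]
            have e2 : ((t ^ 2)⁻¹) ^ (1 / p) = t ^ (-(2 / p)) := by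
              rw [← Real.rpow_natCast, ← Real.rpow_neg ht0.le, ← Real.rpow_mul ht0.le]
              congr 1
              push_cast
              ring
            rw [e1, e2]
            ring
    refine (setLIntegral_mono' measurableSet_Ioc h2).trans ?_
    rw [lintegral_const_mul _ (by
      exact (measurable_id.pow_const _).ennreal_ofReal)]
    rw [mul_assoc, mul_assoc]
    refine mul_le_mul' le_rfl ?_
    rw [← mul_assoc]
    refine mul_le_mul' le_rfl ?_
    have hneg : -1 < -(2 / p) := by linarith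
    have hint : IntegrableOn (fun t : ℝ => t ^ (-(2 / p))) (Ioc 0 1) := by
      have h5 : IntervalIntegrable (fun t : ℝ => t ^ (-(2 / p))) volume 0 1 :=
        intervalIntegral.intervalIntegrable_rpow' hneg
      rwa [intervalIntegrable_iff_integrableOn_Ioc_of_le zero_le_one] at h5
    rw [← ofReal_integral_eq_lintegral_ofReal hint]
    · refine ENNReal.ofReal_le_ofReal ?_
      rw [← intervalIntegral.integral_of_le zero_le_one, integral_rpow (Or.inl hneg)]
      rw [Real.one_rpow, Real.zero_rpow (by linarith)]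
      have e : -(2 / p) + 1 = 1 - 2 / p := by ring
      rw [e, sub_zero, one_div]
    · refine (ae_restrict_iff' measurableSet_Ioc).2 (Filter.Eventually.of_forall fun t ht => ?_)
      exact Real.rpow_nonneg ht.1.le _
  · have hjoint : Measurable (fun q : ℂ × ℝ => ENNReal.ofReal (2 * r) *
        ‖fderiv ℝ g (x + q.2 • (q.1 - x))‖ₑ) := by
      have hc : Measurable (fun q : ℂ × ℝ => x + q.2 • (q.1 - x)) := by
        have : Continuous (fun q : ℂ × ℝ => x + q.2 • (q.1 - x)) := by fun_prop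
        exact this.measurable
      exact (hm.comp hc).const_mul _
    exact hjoint.aemeasurable

end MorAux

open MorAux

theorem morrey (F : Type) [NormedAddCommGroup F] [NormedSpace ℝ F] [CompleteSpace F] {p : ℝ}
    (hp : 2 < p) : ∃ C : ℝ, 1 ≤ C ∧ ∀ (g : ℂ → F) (z : ℂ) (r A : ℝ), 0 < r → 0 ≤ A →
    ContDiff ℝ 1 g → ∫⁻ x in closedBall z r, ‖fderiv ℝ g x‖ₑ ^ p ≤ ENNReal.ofReal (A ^ p) →
    ∀ x ∈ closedBall z r, ∀ y ∈ closedBall z r, ‖g x - g y‖ ≤ C * A * r ^ (1 - 2 / p) := by
  have hp0 : 0 < p := by linarith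
  have h2p : 2 / p < 1 := by rw [div_lt_one hp0]; exact hp
  have h2p0 : 0 < 2 / p := by positivity
  have hα : 0 < 1 - 2 / p := by linarith
  have h1p : 1 / p < 1 := by rw [div_lt_one hp0]; linarith
  refine ⟨4 * (1 - 2 / p)⁻¹, ?_, fun g z r A hr hA hg hD x hx y hy => ?_⟩
  · have : 1 ≤ (1 - 2 / p)⁻¹ := by
      rw [one_le_inv₀ hα]
      linarith
    linarith
  set B := closedBall z r with hB
  have hVe : volume B = ENNReal.ofReal (Real.pi * r ^ 2) := by
    rw [hB, Complex.volume_closedBall, ENNReal.ofReal_mul Real.pi_pos.le, mul_comm,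
      ENNReal.ofReal_pow hr.le]
    congr 1
    rw [← NNReal.coe_real_pi, ENNReal.ofReal_coe_nnreal]
  set v : ℝ := Real.pi * r ^ 2 with hv
  have hv0 : 0 < v := by positivity
  have b1 := mean_bound hg hp hr hA hD hx
  have b2 := mean_bound hg hp hr hA hD hy
  have h1 : ‖g x - g y‖ₑ * volume B ≤ ∫⁻ w in B, (‖g w - g x‖ₑ + ‖g w - g y‖ₑ) := by
    rw [← setLIntegral_const]
    refine setLIntegral_mono' measurableSet_closedBall fun w _ => ?_
    have e : g x - g y = (g w - g y) - (g w - g x) := by abel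
    rw [e, add_comm]
    exact enorm_sub_le
  have hmx : Measurable fun w => ‖g w - g x‖ₑ :=
    (hg.continuous.sub continuous_const).enorm.measurable
  rw [lintegral_add_left hmx] at h1
  have h2 := h1.trans (add_le_add b1 b2)
  rw [← hB, hVe, ← ofReal_norm, ENNReal.ofReal_rpow_of_pos hv0, ← ENNReal.ofReal_mul (norm_nonneg _),
    ← ENNReal.ofReal_mul hA, ← ENNReal.ofReal_mul (by positivity), ← ENNReal.ofReal_mul (by positivity),
    ← ENNReal.ofReal_add (by positivity) (by positivity),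
    ENNReal.ofReal_le_ofReal_iff (by positivity)] at h2
  -- real inequality
  have h3 : ‖g x - g y‖ * v ≤ 4 * (1 - 2 / p)⁻¹ * A * r * v ^ (1 - 1 / p) := by
    linarith
  have h4 : v ^ (1 - 1 / p) = v * v ^ (-(1 / p)) := by
    rw [sub_eq_add_neg, Real.rpow_add hv0, Real.rpow_one]
  have h5 : v ^ (-(1 / p)) ≤ r ^ (-(2 / p)) := by
    have h6 : r ^ (-(2 / p)) = (r ^ 2) ^ (-(1 / p)) := by
      rw [← Real.rpow_natCast, ← Real.rpow_mul hr.le]
      congr 1
      push_cast
      ring
    rw [h6]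
    apply Real.rpow_le_rpow_of_nonpos (by positivity)
    · rw [hv]
      nlinarith [Real.pi_gt_three, sq_nonneg r]
    · have : 0 < 1 / p := by positivity
      linarith
  have h7 : r ^ (1 - 2 / p) = r * r ^ (-(2 / p)) := by
    rw [sub_eq_add_neg, Real.rpow_add hr, Real.rpow_one]
  rw [h4] at h3
  have h8 : ‖g x - g y‖ ≤ 4 * (1 - 2 / p)⁻¹ * A * r * v ^ (-(1 / p)) := by
    have : ‖g x - g y‖ * v ≤ (4 * (1 - 2 / p)⁻¹ * A * r * v ^ (-(1 / p))) * v := by
      linarith
    exact le_of_mul_le_mul_right this hv0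
  refine h8.trans ?_
  rw [h7]
  have h9 : 0 ≤ 4 * (1 - 2 / p)⁻¹ * A * r := by positivity
  calc 4 * (1 - 2 / p)⁻¹ * A * r * v ^ (-(1 / p)) ≤ 4 * (1 - 2 / p)⁻¹ * A * r * r ^ (-(2 / p)) := by
        gcongr
    _ = _ := by ring

end Pool.Agent.Lib.PJ
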