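import Pool.Agent.Lib.PJ.Lin

set_option autoImplicit false

/-!
# A zero of the difference (step 6b)

PROOF. `G x = Ψ (cp (x 0) (ζ₀ + t * x 0 + σ)) - Ψ (w + ![0, x 1, x 2])` for `x ∈ closedBall 0 r`, `L x = A (x 0 • ![1, 0, t]) - A' ![0, x 1, x 2]`, a real linear endomorphism of `W 2` with `k ‖x‖ ≤ ‖L x‖`, so invertible (`exists_equiv`, P28b04d/Fam), the norm of the inverse is `≤ 1/k`. `cp (x 0) (ζ₀ + t * x 0 + σ) = cp 0 (ζ₀ + σ) + x 0 • ![1, 0, t]`, never `0`.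
`G - L` has on the convex set `closedBall 0 r` a derivative `y ↦ (DΨ(cp ..) - A) (y 0 • ![1, 0, t]) - (DΨ(w + ..) - A') ![0, y 1, y 2]` of norm `≤ k/8 + k/8` (`‖![1, 0, t]‖ ≤ 1`, `‖![0, y 1, y 2]‖ ≤ ‖y‖`), so `G` approximates `L` on `closedBall 0 r` up to `k/4`
(`Convex.norm_image_sub_le_of_norm_hasFDerivWithin_le`; `ApproximatesLinearOn G L (closedBall 0 r) (k/4)`). `ApproximatesLinearOn.surjOn_closedBall_of_nonlinearRightInverse` (right inverse from the equivalence, `nnnorm = ‖L.symm‖ ≤ 1/k`): the image of `closedBall 0 r` contains `closedBall (G 0) ((k - k/4) r)`, which contains `0`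
because `‖G 0‖ ≤ k r / 4`. (Alternatively Banach's fixed point theorem for `x ↦ x - L⁻¹ (G x)`: it maps `closedBall 0 r` to itself and contracts by `1/4`.)
-/

open MeasureTheory Set Metric Filter
open scoped ContDiff Topology ENNReal

namespace Pool.Agent.Lib.PJ

open Pool.Agent.P28b04d Pool.Agent.Lib.P28e Pool.Agent.Lib.P28c Pool.Agent.Lib.P28g
open Pool.Agent.Lib.P28f (ult)

theorem surj_of_near {G : W 2 → W 2} {L : W 2 ≃L[ℝ] W 2} {r k : ℝ} (hr : 0 < r) (hk : 0 < k)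
    (hL : ∀ x, k * ‖x‖ ≤ ‖L x‖)
    (hG : ∀ x ∈ closedBall (0 : W 2) r, ∀ y ∈ closedBall (0 : W 2) r,
      ‖G x - G y - L (x - y)‖ ≤ k / 4 * ‖x - y‖) (h0 : ‖G 0‖ ≤ k * r / 4) :
    ∃ x ∈ closedBall (0 : W 2) r, G x = 0 := by
  have hkn : (0 : ℝ) ≤ k / 4 := by positivity
  have happ : ApproximatesLinearOn G (L : W 2 →L[ℝ] W 2) (closedBall 0 r) ⟨k / 4, hkn⟩ := by
    intro x hx y hy
    exact hG x hx y hy
  set S := L.toNonlinearRightInverse with hS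
  have hSn : (S.nnnorm : ℝ) ≤ k⁻¹ := by
    show ‖(L.symm : W 2 →L[ℝ] W 2)‖ ≤ k⁻¹
    refine ContinuousLinearMap.opNorm_le_bound _ (by positivity) fun y => ?_
    have := hL (L.symm y)
    rw [L.apply_symm_apply] at this
    show ‖L.symm y‖ ≤ k⁻¹ * ‖y‖
    rw [inv_mul_eq_div, le_div_iff₀ hk, mul_comm]
    exact this
  have hsurj := happ.surjOn_closedBall_of_nonlinearRightInverse S hr.le (Subset.refl _)
  have hmem : (0 : W 2) ∈ closedBall (G 0) ((((S.nnnorm : ℝ))⁻¹ - ((⟨k / 4, hkn⟩ : NNReal) : ℝ)) * r) := by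
    rw [mem_closedBall, dist_comm, dist_zero_right]
    refine h0.trans ?_
    have h1 : k ≤ (S.nnnorm : ℝ)⁻¹ := by
      have hSpos : 0 < (S.nnnorm : ℝ) := by
        have hSne : S.nnnorm ≠ 0 := by
          intro h
          have h2 := S.bound (fun _ => 1)
          rw [h] at h2
          simp only [NNReal.coe_zero, zero_mul] at h2
          have h3 : S (fun _ => 1) = 0 := norm_le_zero_iff.1 h2
          have h4 := S.right_inv (fun _ => 1)
          rw [h3, map_zero] at h4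
          have := congrFun h4 0
          simp at this
        exact NNReal.coe_pos.2 (pos_iff_ne_zero.2 hSne)
      rw [le_inv_comm₀ hk hSpos]
      exact hSn
    show k * r / 4 ≤ ((S.nnnorm : ℝ)⁻¹ - k / 4) * r
    nlinarith
  exact hsurj hmem

theorem exists_zero {Ψ : W 2 → W 2} (h : HLoc Ψ) {A A' : EndW 2} {ζ₀ t σ : ℂ} {w : W 2} {r k : ℝ}
    (ht : ‖t‖ ≤ 1) (hr : 0 < r) (hk : 0 < k)
    (hL : ∀ x : W 2, k * ‖x‖ ≤ ‖A (x 0 • ![1, 0, t]) - A' ![0, x 1, x 2]‖)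
    (h1 : ∀ η : ℂ, ‖η‖ ≤ r → ‖(fderiv ℝ Ψ (cp η (ζ₀ + t * η + σ)) : EndW 2) - A‖ ≤ k / 8)
    (h2 : ∀ v ∈ P0, ‖v‖ ≤ r → w + v ≠ 0 ∧ ‖(fderiv ℝ Ψ (w + v) : EndW 2) - A'‖ ≤ k / 8)
    (h3 : ‖Ψ (cp 0 (ζ₀ + σ)) - Ψ w‖ ≤ k * r / 4) :
    ∃ x : W 2, ‖x‖ ≤ r ∧ Ψ (cp (x 0) (ζ₀ + t * x 0 + σ)) = Ψ (w + ![0, x 1, x 2]) := by
  -- the two linear maps
  let p₁ : W 2 →L[ℝ] W 2 := LinearMap.toContinuousLinearMap
    { toFun := fun x => x 0 • (![1, 0, t] : W 2)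
      map_add' := fun x y => by simp only [Pi.add_apply, add_smul]
      map_smul' := fun c x => by simp only [Pi.smul_apply, RingHom.id_apply, smul_assoc] }
  let p₂ : W 2 →L[ℝ] W 2 := LinearMap.toContinuousLinearMap
    { toFun := fun x => (![0, x 1, x 2] : W 2)
      map_add' := fun x y => by
        ext k
        fin_cases k <;> simp
      map_smul' := fun c x => by
        ext k
        fin_cases k <;> simp }
  have hp₁ : ∀ x, p₁ x = x 0 • (![1, 0, t] : W 2) := fun _ => rfl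
  have hp₂ : ∀ x, p₂ x = ![0, x 1, x 2] := fun _ => rfl
  have hn₁ : ∀ x, ‖p₁ x‖ ≤ ‖x‖ := by
    intro x
    rw [hp₁, norm_smul]
    have e : ‖(![1, 0, t] : W 2)‖ ≤ 1 := by
      rw [pi_norm_le_iff_of_nonneg zero_le_one]
      intro k
      fin_cases k <;> simp [ht]
    calc ‖x 0‖ * ‖(![1, 0, t] : W 2)‖ ≤ ‖x‖ * 1 := by
          gcongr
          exact norm_le_pi_norm x 0
      _ = ‖x‖ := mul_one _
  have hn₂ : ∀ x, ‖p₂ x‖ ≤ ‖x‖ := by
    intro x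
    rw [hp₂, pi_norm_le_iff_of_nonneg (norm_nonneg _)]
    intro k
    fin_cases k
    · simp
    · exact norm_le_pi_norm x 1
    · exact norm_le_pi_norm x 2
  have hP₂ : ∀ x, p₂ x ∈ P0 := fun x => by
    show (p₂ x) 0 = 0
    rw [hp₂]
    rfl
  have hcp : ∀ x : W 2, cp (x 0) (ζ₀ + t * x 0 + σ) = cp 0 (ζ₀ + σ) + p₁ x := by
    intro x
    rw [hp₁, ← cp_eq]
    congr 1
    ring
  -- the linear map
  let L₀ : W 2 →L[ℝ] W 2 := A.comp p₁ - A'.comp p₂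
  have hL₀ : ∀ x, L₀ x = A (x 0 • ![1, 0, t]) - A' ![0, x 1, x 2] := fun _ => rfl
  obtain ⟨L, hLe⟩ := exists_equiv L₀ (fun v hv => by
    have := hL v
    rw [← hL₀, hv, norm_zero] at this
    have : ‖v‖ ≤ 0 := by
      by_contra hcon
      push Not at hcon
      nlinarith
    exact norm_le_zero_iff.1 this)
  have hLx : ∀ x, L x = L₀ x := fun x => by rw [← hLe]; rfl
  set G : W 2 → W 2 := fun x => Ψ (cp 0 (ζ₀ + σ) + p₁ x) - Ψ (w + p₂ x) with hG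
  have hball : ∀ x ∈ closedBall (0 : W 2) r, ‖x‖ ≤ r := fun x hx => by
    rwa [mem_closedBall, dist_zero_right] at hx
  have hne₁ : ∀ x : W 2, cp 0 (ζ₀ + σ) + p₁ x ≠ 0 := fun x => by
    rw [← hcp]
    exact cp_ne _ _
  have hder : ∀ x ∈ closedBall (0 : W 2) r, HasFDerivWithinAt (fun x => G x - L₀ x)
      (((fderiv ℝ Ψ (cp 0 (ζ₀ + σ) + p₁ x)).comp p₁ - (fderiv ℝ Ψ (w + p₂ x)).comp p₂) - L₀)
      (closedBall (0 : W 2) r) x := by
    intro x hx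
    have hx' := hball x hx
    have d1 : HasFDerivAt (fun x => cp 0 (ζ₀ + σ) + p₁ x) p₁ x := p₁.hasFDerivAt.const_add _
    have d2 : HasFDerivAt (fun x => w + p₂ x) p₂ x := p₂.hasFDerivAt.const_add _
    have hne₂ : w + p₂ x ≠ 0 := (h2 (p₂ x) (hP₂ x) ((hn₂ x).trans hx')).1
    have d3 := (Hom46.hasFDerivAt h (hne₁ x)).comp x d1
    have d4 := (Hom46.hasFDerivAt h hne₂).comp x d2
    exact ((d3.sub d4).sub L₀.hasFDerivAt).hasFDerivWithinAt
  have hbd : ∀ x ∈ closedBall (0 : W 2) r,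
      ‖(((fderiv ℝ Ψ (cp 0 (ζ₀ + σ) + p₁ x)).comp p₁ - (fderiv ℝ Ψ (w + p₂ x)).comp p₂) - L₀)‖ ≤
        k / 4 := by
    intro x hx
    have hx' := hball x hx
    have e1 : ‖(fderiv ℝ Ψ (cp 0 (ζ₀ + σ) + p₁ x) : EndW 2) - A‖ ≤ k / 8 := by
      have := h1 (x 0) ((norm_le_pi_norm x 0).trans hx')
      rwa [hcp] at this
    have e2 := (h2 (p₂ x) (hP₂ x) ((hn₂ x).trans hx')).2
    refine ContinuousLinearMap.opNorm_le_bound _ (by positivity) fun y => ?_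
    have e3 : (((fderiv ℝ Ψ (cp 0 (ζ₀ + σ) + p₁ x)).comp p₁ - (fderiv ℝ Ψ (w + p₂ x)).comp p₂) -
        L₀) y = ((fderiv ℝ Ψ (cp 0 (ζ₀ + σ) + p₁ x) : EndW 2) - A) (p₁ y) -
          ((fderiv ℝ Ψ (w + p₂ x) : EndW 2) - A') (p₂ y) := by
      show (fderiv ℝ Ψ (cp 0 (ζ₀ + σ) + p₁ x) (p₁ y) - fderiv ℝ Ψ (w + p₂ x) (p₂ y)) -
        (A (p₁ y) - A' (p₂ y)) = (fderiv ℝ Ψ (cp 0 (ζ₀ + σ) + p₁ x) (p₁ y) - A (p₁ y)) -
          (fderiv ℝ Ψ (w + p₂ x) (p₂ y) - A' (p₂ y))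
      abel
    rw [e3]
    calc _ ≤ ‖((fderiv ℝ Ψ (cp 0 (ζ₀ + σ) + p₁ x) : EndW 2) - A) (p₁ y)‖ +
          ‖((fderiv ℝ Ψ (w + p₂ x) : EndW 2) - A') (p₂ y)‖ := norm_sub_le _ _
      _ ≤ k / 8 * ‖y‖ + k / 8 * ‖y‖ := by
          refine add_le_add ?_ ?_
          · refine (ContinuousLinearMap.le_opNorm _ _).trans ?_
            gcongr
            exact hn₁ y
          · refine (ContinuousLinearMap.le_opNorm _ _).trans ?_
            gcongr
            exact hn₂ y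
      _ = k / 4 * ‖y‖ := by ring
  obtain ⟨x, hx, hx0⟩ := surj_of_near (G := G) (L := L) hr hk (fun x => by rw [hLx, hL₀]; exact hL x)
    (fun x hx y hy => by
      have := (convex_closedBall (0 : W 2) r).norm_image_sub_le_of_norm_hasFDerivWithin_le hder hbd hy hx
      rw [hLx, map_sub]
      have e : G x - G y - (L₀ x - L₀ y) = G x - L₀ x - (G y - L₀ y) := by abel
      rw [e]
      exact this) (by
      have e : G 0 = Ψ (cp 0 (ζ₀ + σ)) - Ψ w := by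
        simp only [hG, map_zero, add_zero]
      rw [e]
      exact h3)
  refine ⟨x, hball x hx, ?_⟩
  rw [hcp, ← hp₂]
  exact sub_eq_zero.1 hx0

end Pool.Agent.Lib.PJ
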