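import Pool.Agent.Lib.PJ.FlatD

set_option autoImplicit false

/-!
# Flat slices whose centre is close to the line (step 6b)

PROOF. `exists_slice`: `s = (6 - p) / 2 > 0`. The map `(η, σ) ↦ (η, ζ₀ + t η + σ)` preserves the measure of `ℂ × ℂ` and maps `ball 0 r ×ˢ closedBall 0 (κ r)` into `ball 0 1 ×ˢ ball 0 3` (`r ≤ 1/2`, `‖ζ₀‖ ≤ 1`, `‖t‖ ≤ 1`, `κ ≤ 1`: `‖ζ₀ + t η + σ‖ ≤ 2`). On it `‖η‖ₑ^(-s) ≥ r^(-s)`, so
`∫_{σ ∈ closedBall 0 (κ r)} ∫_{η ∈ ball 0 r} ‖conn Ψ (cp η (ζ₀ + t η + σ))‖ₑ^p ≤ r^s L` (Tonelli, translation in the second variable for fixed `η`). The area of `closedBall 0 (κ r)` is `π κ² r² ≥ κ² r²`, so for some `σ` the inner integral is `≤ L r^(s-2) / κ²` (`exists_setLAverage_le`, or by contradiction).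
`closedBall` instead of `ball` for `η`: the sphere is a null set (`Measure.addHaar_sphere`), or apply the statement with `2 r` (do as convenient; only the form of `flat_slice` matters for the sequel, `exists_slice` may be changed).
`flat_slice`: `flat_disc` with `w₀ = cp 0 (ζ₀ + σ)`, `w₁ = ![1, 0, t]` (`cp η (ζ₀ + t η + σ) = w₀ + η • w₁`), `z = 0`, `A^p = L r^(s-2) / κ²`: `C A r^(1 - 2/p) = C (L / κ²)^(1/p) r^((s-2)/p + 1 - 2/p)` and the exponent `(s + p - 4) / p = (p - 2) / (2 p)` is positive, so this is `≤ min 1 δ` for `r ≤ r₀(C, L, κ, δ, p)`.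
-/

open MeasureTheory Set Metric Filter
open scoped ContDiff Topology ENNReal

namespace Pool.Agent.Lib.PJ

open Pool.Agent.P28b04d Pool.Agent.Lib.P28e Pool.Agent.Lib.P28c Pool.Agent.Lib.P28g
open Pool.Agent.Lib.P28f (ult)

theorem lint_prod {G : ℂ × ℂ → ℝ≥0∞} (hG : Measurable G) (s t : Set ℂ) :
    ∫⁻ q in s ×ˢ t, G q = ∫⁻ x in s, ∫⁻ y in t, G (x, y) := by
  rw [Measure.volume_eq_prod, ← Measure.prod_restrict, lintegral_prod _ hG.aemeasurable]

theorem exists_slice {p : ℝ} (hp : 2 < p) (hp4 : p < 4) {L : ℝ} (hL : 0 ≤ L) {Ψ : W 2 → W 2}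
    (h : LineC p L Ψ) {ζ₀ t : ℂ} (hζ : ‖ζ₀‖ ≤ 1) (ht : ‖t‖ ≤ 1) {r κ : ℝ} (hr : 0 < r)
    (hr1 : r ≤ 1 / 2) (hκ : 0 < κ) (hκ1 : κ ≤ 1) : ∃ σ : ℂ, ‖σ‖ ≤ κ * r ∧
      ∫⁻ η in closedBall (0 : ℂ) r, ‖conn Ψ (cp η (ζ₀ + t * η + σ))‖ₑ ^ p ≤
        ENNReal.ofReal (L * r ^ ((6 - p) / 2 - 2) / κ ^ 2) := by
  obtain ⟨s, hs⟩ : ∃ s : ℝ, s = (6 - p) / 2 := ⟨_, rfl⟩
  have hs0 : 0 < s := by rw [hs]; linarith
  rw [← hs]
  have hw := h.w
  rw [← hs] at hw
  obtain ⟨f, hf⟩ : ∃ f : ℂ × ℂ → ℝ≥0∞, f = fun q => ‖conn Ψ (cp q.1 q.2)‖ₑ ^ p := ⟨_, rfl⟩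
  have hfm : Measurable f := by
    rw [hf]
    exact ((measurable_conn h.hloc).comp continuous_cp.measurable).pow_const p
  have hfx : ∀ x y : ℂ, ‖conn Ψ (cp x y)‖ₑ ^ p = f (x, y) := fun x y => by rw [hf]
  simp only [hfx] at hw ⊢
  have hFm : Measurable fun q : ℂ × ℂ => f (q.2, ζ₀ + t * q.2 + q.1) := by
    have : Continuous fun q : ℂ × ℂ => (q.2, ζ₀ + t * q.2 + q.1) := by fun_prop
    exact hfm.comp this.measurable
  -- the double integral
  have hdouble : ∫⁻ σ in closedBall (0 : ℂ) (κ * r), ∫⁻ η in closedBall (0 : ℂ) r,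
      f (η, ζ₀ + t * η + σ) ≤ ENNReal.ofReal (r ^ s) * ENNReal.ofReal L := by
    rw [lintegral_lintegral_swap (f := fun σ η => f (η, ζ₀ + t * η + σ)) hFm.aemeasurable]
    calc ∫⁻ η in closedBall (0 : ℂ) r, ∫⁻ σ in closedBall (0 : ℂ) (κ * r), f (η, ζ₀ + t * η + σ)
        ≤ ∫⁻ η in closedBall (0 : ℂ) r, ∫⁻ y in ball (0 : ℂ) 3,
            ENNReal.ofReal (r ^ s) * (f (η, y) * ‖η‖ₑ ^ (-s)) := by
          refine setLIntegral_mono' measurableSet_closedBall fun η hη => ?_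
          rw [mem_closedBall, dist_zero_right] at hη
          have h1 : ∀ σ ∈ closedBall (0 : ℂ) (κ * r), ζ₀ + t * η + σ ∈ ball (0 : ℂ) 3 := by
            intro σ hσ
            rw [mem_closedBall, dist_zero_right] at hσ
            rw [mem_ball, dist_zero_right]
            have e1 : ‖t * η‖ ≤ 1 * r := by
              rw [norm_mul]
              gcongr
            have e2 := norm_add_le (ζ₀ + t * η) σ
            have e3 := norm_add_le ζ₀ (t * η)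
            have e4 : κ * r ≤ 1 * r := by gcongr
            linarith
          have h2 : ∫⁻ σ in closedBall (0 : ℂ) (κ * r), f (η, ζ₀ + t * η + σ) ≤
              ∫⁻ y in ball (0 : ℂ) 3, f (η, y) := by
            calc ∫⁻ σ in closedBall (0 : ℂ) (κ * r), f (η, ζ₀ + t * η + σ)
                ≤ ∫⁻ σ in closedBall (0 : ℂ) (κ * r),
                    (ball (0 : ℂ) 3).indicator (fun y => f (η, y)) (ζ₀ + t * η + σ) := by
                  refine setLIntegral_mono' measurableSet_closedBall fun σ hσ => ?_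
                  rw [indicator_of_mem (h1 σ hσ)]
              _ ≤ ∫⁻ σ, (ball (0 : ℂ) 3).indicator (fun y => f (η, y)) (ζ₀ + t * η + σ) :=
                  lintegral_mono' Measure.restrict_le_self le_rfl
              _ = ∫⁻ y, (ball (0 : ℂ) 3).indicator (fun y => f (η, y)) y :=
                  lintegral_add_left_eq_self _ _
              _ = ∫⁻ y in ball (0 : ℂ) 3, f (η, y) := lintegral_indicator measurableSet_ball _
          refine h2.trans (lintegral_mono fun y => ?_)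
          have h3 : (1 : ℝ≥0∞) ≤ ENNReal.ofReal (r ^ s) * ‖η‖ₑ ^ (-s) := by
            have e1 : (ENNReal.ofReal r) ^ (-s) ≤ ‖η‖ₑ ^ (-s) := by
              rw [ENNReal.rpow_neg, ENNReal.rpow_neg, ENNReal.inv_le_inv]
              refine ENNReal.rpow_le_rpow ?_ hs0.le
              rw [← ofReal_norm]
              exact ENNReal.ofReal_le_ofReal hη
            have e2 : ENNReal.ofReal (r ^ s) * (ENNReal.ofReal r) ^ (-s) = 1 := by
              rw [ENNReal.ofReal_rpow_of_pos hr, ← ENNReal.ofReal_mul (by positivity),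
                ← Real.rpow_add hr, add_neg_cancel, Real.rpow_zero, ENNReal.ofReal_one]
            rw [← e2]
            gcongr
          calc f (η, y) = f (η, y) * 1 := (mul_one _).symm
            _ ≤ f (η, y) * (ENNReal.ofReal (r ^ s) * ‖η‖ₑ ^ (-s)) := by gcongr
            _ = _ := by ring
      _ ≤ ∫⁻ η in ball (0 : ℂ) 1, ∫⁻ y in ball (0 : ℂ) 3,
            ENNReal.ofReal (r ^ s) * (f (η, y) * ‖η‖ₑ ^ (-s)) := by
          apply lintegral_mono_set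
          intro x hx
          rw [mem_closedBall] at hx
          rw [mem_ball]
          linarith
      _ = ENNReal.ofReal (r ^ s) * ∫⁻ q in ball (0 : ℂ) 1 ×ˢ ball (0 : ℂ) 3, f q * ‖q.1‖ₑ ^ (-s) := by
          rw [lint_prod (G := fun q => f q * ‖q.1‖ₑ ^ (-s))
            (hfm.mul (measurable_fst.enorm.pow_const (-s)))]
          rw [← lintegral_const_mul' _ _ ENNReal.ofReal_ne_top]
          refine lintegral_congr fun η => ?_
          rw [← lintegral_const_mul' _ _ ENNReal.ofReal_ne_top]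
      _ ≤ _ := by gcongr
  by_contra hcon
  push Not at hcon
  have hgm : Measurable fun σ : ℂ => ∫⁻ η in closedBall (0 : ℂ) r, f (η, ζ₀ + t * η + σ) :=
    hFm.lintegral_prod_right'
  have hvol : volume (closedBall (0 : ℂ) (κ * r)) = ENNReal.ofReal (Real.pi * (κ * r) ^ 2) := by
    rw [Complex.volume_closedBall, ENNReal.ofReal_mul Real.pi_pos.le, mul_comm,
      ENNReal.ofReal_pow (by positivity)]
    congr 1
    rw [← NNReal.coe_real_pi, ENNReal.ofReal_coe_nnreal]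
  have hc0 : 0 ≤ L * r ^ (s - 2) / κ ^ 2 := by positivity
  have h2 : ∫⁻ _ in closedBall (0 : ℂ) (κ * r), ENNReal.ofReal (L * r ^ (s - 2) / κ ^ 2) <
      ∫⁻ σ in closedBall (0 : ℂ) (κ * r), ∫⁻ η in closedBall (0 : ℂ) r, f (η, ζ₀ + t * η + σ) := by
    apply setLIntegral_strict_mono measurableSet_closedBall
    · rw [hvol]
      exact (ENNReal.ofReal_pos.2 (by positivity)).ne'
    · exact hgm
    · rw [setLIntegral_const, hvol, ← ENNReal.ofReal_mul hc0]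
      exact ENNReal.ofReal_ne_top
    · refine Eventually.of_forall fun σ hσ => hcon σ ?_
      rwa [mem_closedBall, dist_zero_right] at hσ
  rw [setLIntegral_const, hvol, ← ENNReal.ofReal_mul hc0] at h2
  rw [← ENNReal.ofReal_mul (by positivity)] at hdouble
  have h3 := h2.trans_le hdouble
  have h4 : r ^ s * L ≤ L * r ^ (s - 2) / κ ^ 2 * (Real.pi * (κ * r) ^ 2) := by
    have e1 : r ^ s = r ^ (s - 2) * r ^ 2 := by
      rw [← Real.rpow_natCast, ← Real.rpow_add hr]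
      norm_num
    have e2 : L * r ^ (s - 2) / κ ^ 2 * (Real.pi * (κ * r) ^ 2) = Real.pi * (L * (r ^ (s - 2) * r ^ 2)) := by
      field_simp
    rw [e2, e1]
    have e3 : 0 ≤ L * (r ^ (s - 2) * r ^ 2) := by positivity
    nlinarith [Real.pi_gt_three]
  exact absurd (h3.trans_le (ENNReal.ofReal_le_ofReal h4)) (lt_irrefl _)

theorem flat_slice {p : ℝ} (hp : 2 < p) (hp4 : p < 4) {L : ℝ} (hL : 0 ≤ L) {κ δ : ℝ} (hκ : 0 < κ)
    (hκ1 : κ ≤ 1) (hδ : 0 < δ) : ∃ r₀ : ℝ, 0 < r₀ ∧ ∀ r : ℝ, 0 < r → r ≤ r₀ →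
      ∀ Ψ : W 2 → W 2, LineC p L Ψ → ∀ ζ₀ t : ℂ, ‖ζ₀‖ ≤ 1 → ‖t‖ ≤ 1 → ∃ σ : ℂ, ‖σ‖ ≤ κ * r ∧
        ∀ η : ℂ, ‖η‖ ≤ r → ‖Ring.inverse (fderiv ℝ Ψ (cp 0 (ζ₀ + σ)) : EndW 2) *
          fderiv ℝ Ψ (cp η (ζ₀ + t * η + σ)) - 1‖ ≤ δ := by
  obtain ⟨C, hC, hflat⟩ := flat_disc hp
  have hp0 : 0 < p := by linarith
  obtain ⟨β, hβ⟩ : ∃ β : ℝ, β = ((6 - p) / 2 - 2) / p + (1 - 2 / p) := ⟨_, rfl⟩
  have hβ0 : 0 < β := by
    have : β = (p - 2) / (2 * p) := by
      rw [hβ]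
      field_simp
      ring
    rw [this]
    have : 0 < p - 2 := by linarith
    positivity
  obtain ⟨c, hc⟩ : ∃ c : ℝ, c = C * (L / κ ^ 2) ^ (1 / p) := ⟨_, rfl⟩
  have hc0 : 0 ≤ c := by rw [hc]; positivity
  obtain ⟨r₀, hr₀, hr₁, hr⟩ : ∃ r : ℝ, 0 < r ∧ r ≤ 1 / 2 ∧ c * r ^ β ≤ min 1 δ := by
    have hct : Tendsto (fun r : ℝ => c * r ^ β) (𝓝[>] 0) (𝓝 (c * 0 ^ β)) := by
      refine Tendsto.mono_left ?_ nhdsWithin_le_nhds
      have h1 : ContinuousAt (fun r : ℝ => c * r ^ β) 0 :=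
        continuousAt_const.mul (continuousAt_id.rpow_const (Or.inr hβ0.le))
      exact h1
    rw [Real.zero_rpow hβ0.ne', mul_zero] at hct
    obtain ⟨r, h3, h4⟩ := ((hct.eventually (gt_mem_nhds (show 0 < min 1 δ by positivity))).and
      (Ioo_mem_nhdsGT (show (0 : ℝ) < 1 / 2 by norm_num))).exists
    exact ⟨r, h4.1, h4.2.le, h3.le⟩
  refine ⟨r₀, hr₀, fun r hr0 hrr Ψ h ζ₀ t hζ ht => ?_⟩
  obtain ⟨σ, hσ, hint⟩ := exists_slice hp hp4 hL h hζ ht hr0 (hrr.trans hr₁) hκ hκ1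
  refine ⟨σ, hσ, fun η hη => ?_⟩
  obtain ⟨E, hE⟩ : ∃ E : ℝ, E = L * r ^ ((6 - p) / 2 - 2) / κ ^ 2 := ⟨_, rfl⟩
  have hE0 : 0 ≤ E := by rw [hE]; positivity
  have hEp : (E ^ (1 / p)) ^ p = E := by
    rw [← Real.rpow_mul hE0, one_div_mul_cancel hp0.ne', Real.rpow_one]
  have hsm : C * E ^ (1 / p) * r ^ (1 - 2 / p) = c * r ^ β := by
    have e1 : E = (L / κ ^ 2) * r ^ ((6 - p) / 2 - 2) := by
      rw [hE]
      ring
    rw [e1, Real.mul_rpow (by positivity) (by positivity), ← Real.rpow_mul hr0.le, hc, hβ,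
      Real.rpow_add hr0]
    have e2 : ((6 - p) / 2 - 2) * (1 / p) = ((6 - p) / 2 - 2) / p := by ring
    rw [e2]
    ring
  have hle : c * r ^ β ≤ min 1 δ := by
    refine le_trans ?_ hr
    gcongr
  obtain ⟨w₁, hw₁⟩ : ∃ w : W 2, w = ![1, 0, t] := ⟨_, rfl⟩
  have hcp : ∀ η : ℂ, cp 0 (ζ₀ + σ) + η • w₁ = cp η (ζ₀ + t * η + σ) := fun η => by
    rw [hw₁, ← cp_eq]
    congr 1
    ring
  have hn : ‖w₁‖ ≤ 1 := by
    rw [hw₁, pi_norm_le_iff_of_nonneg zero_le_one]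
    intro k
    fin_cases k <;> simp [ht]
  have key := hflat Ψ h.hloc (cp 0 (ζ₀ + σ)) w₁ (by simp [cp]) (by simp [hw₁]) hn 0 r (E ^ (1 / p))
    hr0 (by positivity) (by
      rw [hEp]
      simp only [hcp]
      rw [hE]
      exact hint) (by
      rw [hsm]
      exact hle.trans (min_le_left _ _)) 0 (mem_closedBall_self hr0.le) η
      (by rw [mem_closedBall, dist_zero_right]; exact hη)
  rw [hsm] at key
  simp only [hcp] at key
  have e : cp 0 (ζ₀ + t * 0 + σ) = cp 0 (ζ₀ + σ) := by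
    congr 1
    ring
  rw [e] at key
  exact key.trans (hle.trans (min_le_right _ _))

end Pool.Agent.Lib.PJ
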