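import Pool.Agent.Lib.PJ.SepA
import Pool.Agent.Lib.PJ.AlgT
import Pool.Agent.Lib.PJ.SliceS
import Pool.Agent.Lib.PJ.MeanP

set_option autoImplicit false

/-!
# Separation of points of the line, chart version (step 6)

PROOF. Suppose not: since `ult` is an ultrafilter, for all `c > 0`: `∀ᶠ j, ‖Ψ_j z - Ψ_j w‖ < c`, `z = cp 0 ζ₀` (`Ultrafilter.eventually_not`, negate `∃ c > 0, ∀ᶠ j, c ≤ ..`). `A, A'` = limits of `D_j(z)`, `D_j(w)` along `ult` (`ult_lim`); they are units (the inverses are bounded, so they converge too and the product of the limits is `1`).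
`D_j(z) z = Ψ_j z` (`euler`), `D_j(z)(I z) = I Ψ_j z` (`fderiv_I`), so in the limit: `A z = A' w`, `A (I z) = I A z`, `A' (I w) = I A' w` (norm of the difference `≤ ε` for every `ε`). `exists_t` gives `t`, `k`; make `k ≤ 1`.
Constants: `κ = min 1 (k / (16 K))`; `δ = k / (64 K)`; `r₀` from `flat_slice` (`κ, δ`), `ρ_z` from `exists_near` for `z` and `ε = k / 64`... precisely with `ε = k/32`, `ρ_w` from `exists_near` for `w` with `ε = k / 16`; `r = min` of `r₀`, `1/2`, `ρ_z`, `ρ_w`, `‖z - w‖ / 4`.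
For almost all `j`: `Nice`, `‖D_j z - A‖ ≤ k/64`, `‖D_j w - A'‖ ≤ k/16`, `‖Ψ_j z - Ψ_j w‖ ≤ k r / 8`. `flat_slice` for `Ψ_j` gives `σ`, `‖σ‖ ≤ κ r ≤ ρ_z`. `q(η) = cp η (ζ₀ + t η + σ)`, `q(0) = cp 0 (ζ₀ + σ) = z + ![0, 0, σ]`:
`‖D_j(q η) - D_j(q 0)‖ ≤ ‖D_j (q 0)‖ δ ≤ k / 64`, `‖D_j(q 0) - D_j z‖ ≤ k/32`, `‖D_j z - A‖ ≤ k/64`: sum `≤ k/8`. `‖D_j(w + v) - A'‖ ≤ k/16 + k/16` for `v ∈ P0`, `‖v‖ ≤ r`. `‖Ψ_j (q 0) - Ψ_j w‖ ≤ K ‖σ‖ + k r / 8 ≤ k r / 16 + k r / 8 ≤ k r / 4` (`Nice.lip`).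
`exists_zero`: `x`, `‖x‖ ≤ r`, `Ψ_j (q (x 0)) = Ψ_j (w + ![0, x 1, x 2])`, by injectivity `q (x 0) = w + ![0, x 1, x 2]`; coordinate `0`: `x 0 = 0`; so `cp 0 (ζ₀ + σ) = w + ![0, x 1, x 2]` and `‖z - w‖ ≤ ‖σ‖ + ‖x‖ ≤ 2 r < ‖z - w‖`, a contradiction.
-/

open MeasureTheory Set Metric Filter
open scoped ContDiff Topology ENNReal

namespace Pool.Agent.Lib.PJ

open Pool.Agent.P28b04d Pool.Agent.Lib.P28e Pool.Agent.Lib.P28c Pool.Agent.Lib.P28g
open Pool.Agent.Lib.P28f (ult)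

theorem sep_chart {p L K : ℝ} (hp : 2 < p) (hp4 : p < 4) (hL : 0 ≤ L) (hK : 1 ≤ K)
    {Ψ : ℕ → W 2 → W 2} (h : ∀ᶠ j in (ult : Filter ℕ), Nice p L K (Ψ j)) {ζ₀ : ℂ} (hζ : ‖ζ₀‖ ≤ 1)
    {w : W 2} (hw : w ∈ P0) (hw0 : w ≠ 0) (hne : cp 0 ζ₀ ≠ w) :
    ∃ c : ℝ, 0 < c ∧ ∀ᶠ j in (ult : Filter ℕ), c ≤ ‖Ψ j (cp 0 ζ₀) - Ψ j w‖ := by
  by_contra hcon
  push Not at hcon
  have hK0 : 0 ≤ K := by linarith
  -- the distance tends to zero
  have hsmall : ∀ c : ℝ, 0 < c → ∀ᶠ j in (ult : Filter ℕ), ‖Ψ j (cp 0 ζ₀) - Ψ j w‖ < c := hcon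
  have hz : cp 0 ζ₀ ∈ P0 := cp_mem ζ₀
  have hz0 : cp 0 ζ₀ ≠ 0 := cp_ne 0 ζ₀
  obtain ⟨z, hzdef⟩ : ∃ z, z = cp 0 ζ₀ := ⟨_, rfl⟩
  rw [← hzdef] at hz hz0 hne
  simp only [← hzdef] at hsmall
  -- limits
  obtain ⟨A, _, hA⟩ := ult_lim (fun j => (fderiv ℝ (Ψ j) z : EndW 2)) (h.mono fun j hj => hj.up z hz hz0)
  obtain ⟨A', _, hA'⟩ := ult_lim (fun j => (fderiv ℝ (Ψ j) w : EndW 2)) (h.mono fun j hj => hj.up w hw hw0)
  obtain ⟨Ai, _, hAi⟩ := ult_lim (fun j => Ring.inverse (fderiv ℝ (Ψ j) z : EndW 2))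
    (h.mono fun j hj => hj.low z hz hz0)
  obtain ⟨Ai', _, hAi'⟩ := ult_lim (fun j => Ring.inverse (fderiv ℝ (Ψ j) w : EndW 2))
    (h.mono fun j hj => hj.low w hw hw0)
  have hunit : ∀ {x : W 2} {B Bi : EndW 2}, x ∈ P0 → x ≠ 0 →
      Tendsto (fun j => (fderiv ℝ (Ψ j) x : EndW 2)) (ult : Filter ℕ) (𝓝 B) →
      Tendsto (fun j => Ring.inverse (fderiv ℝ (Ψ j) x : EndW 2)) (ult : Filter ℕ) (𝓝 Bi) →
      IsUnit B := by
    intro x B Bi hx hx0 hB hBi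
    have h1 : B * Bi = 1 := by
      refine tendsto_nhds_unique (hB.mul hBi) ?_
      refine tendsto_const_nhds.congr' ?_
      filter_upwards [h] with j hj
      exact (Ring.mul_inverse_cancel _ (isUnit_fderiv hj.line.1.hloc hx0)).symm
    have h2 : Bi * B = 1 := by
      refine tendsto_nhds_unique (hBi.mul hB) ?_
      refine tendsto_const_nhds.congr' ?_
      filter_upwards [h] with j hj
      exact (Ring.inverse_mul_cancel _ (isUnit_fderiv hj.line.1.hloc hx0)).symm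
    exact ⟨⟨B, Bi, h1, h2⟩, rfl⟩
  have hAu : IsUnit A := hunit hz hz0 hA hAi
  have hAu' : IsUnit A' := hunit hw hw0 hA' hAi'
  have hev : ∀ {B : EndW 2} {x : W 2},
      Tendsto (fun j => (fderiv ℝ (Ψ j) x : EndW 2)) (ult : Filter ℕ) (𝓝 B) → ∀ v : W 2,
      Tendsto (fun j => fderiv ℝ (Ψ j) x v) (ult : Filter ℕ) (𝓝 (B v)) := fun hB v =>
    ((ContinuousLinearMap.apply ℝ (W 2) v).continuous.tendsto _).comp hB
  have hlimz : Tendsto (fun j => Ψ j z) (ult : Filter ℕ) (𝓝 (A z)) := by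
    refine (hev hA z).congr' ?_
    filter_upwards [h] with j hj
    exact euler hj.line.1.hloc hz0
  have hlimw : Tendsto (fun j => Ψ j w) (ult : Filter ℕ) (𝓝 (A' w)) := by
    refine (hev hA' w).congr' ?_
    filter_upwards [h] with j hj
    exact euler hj.line.1.hloc hw0
  have hzw : A z = A' w := by
    have h1 : Tendsto (fun j => Ψ j z - Ψ j w) (ult : Filter ℕ) (𝓝 (A z - A' w)) := hlimz.sub hlimw
    have h2 : Tendsto (fun j => Ψ j z - Ψ j w) (ult : Filter ℕ) (𝓝 0) := by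
      rw [Metric.tendsto_nhds]
      intro ε hε
      filter_upwards [hsmall ε hε] with j hj
      rwa [dist_zero_right]
    exact sub_eq_zero.1 (tendsto_nhds_unique h1 h2)
  have hAI : A (Complex.I • z) = Complex.I • A z := by
    refine tendsto_nhds_unique (hev hA (Complex.I • z)) ?_
    refine (hlimz.const_smul Complex.I).congr' ?_
    filter_upwards [h] with j hj
    exact (fderiv_I hj.line.1.hloc hz0).symm
  have hAI' : A' (Complex.I • w) = Complex.I • A' w := by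
    refine tendsto_nhds_unique (hev hA' (Complex.I • w)) ?_
    refine (hlimw.const_smul Complex.I).congr' ?_
    filter_upwards [h] with j hj
    exact (fderiv_I hj.line.1.hloc hw0).symm
  -- the direction
  obtain ⟨t, k, ht, hk, hkL⟩ := exists_t (ζ₀ := ζ₀) hAu hAu' hw (by rw [← hzdef]; exact hzw)
    (by rw [← hzdef]; exact hAI) hAI'
  -- constants
  obtain ⟨κ, hκ⟩ : ∃ κ : ℝ, κ = min 1 (k / (16 * K)) := ⟨_, rfl⟩
  have hκ0 : 0 < κ := by rw [hκ]; positivity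
  have hκ1 : κ ≤ 1 := by rw [hκ]; exact min_le_left _ _
  have hκK : K * κ ≤ k / 16 := by
    have : κ ≤ k / (16 * K) := by rw [hκ]; exact min_le_right _ _
    calc K * κ ≤ K * (k / (16 * K)) := by gcongr
      _ = k / 16 := by field_simp
  obtain ⟨r₀, hr₀, hslice⟩ := flat_slice hp hp4 hL hκ0 hκ1 (show 0 < k / (64 * K) by positivity)
  obtain ⟨ρz, hρz, hnearz⟩ := exists_near hp hK0 hz hz0 (show 0 < k / 32 by positivity)
  obtain ⟨ρw, hρw, hnearw⟩ := exists_near hp hK0 hw hw0 (show 0 < k / 16 by positivity)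
  have hzwn : 0 < ‖z - w‖ := norm_pos_iff.2 (sub_ne_zero.2 hne)
  obtain ⟨r, hr⟩ : ∃ r : ℝ, r = min r₀ (min ρz (min ρw (‖z - w‖ / 4))) := ⟨_, rfl⟩
  have hr0 : 0 < r := by rw [hr]; positivity
  have hr1 : r ≤ r₀ := by rw [hr]; exact min_le_left _ _
  have hr2 : r ≤ ρz := by rw [hr]; exact (min_le_right _ _).trans (min_le_left _ _)
  have hr3 : r ≤ ρw := by
    rw [hr]; exact (min_le_right _ _).trans ((min_le_right _ _).trans (min_le_left _ _))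
  have hr4 : r ≤ ‖z - w‖ / 4 := by
    rw [hr]; exact (min_le_right _ _).trans ((min_le_right _ _).trans (min_le_right _ _))
  have hAj : ∀ᶠ j in (ult : Filter ℕ), ‖(fderiv ℝ (Ψ j) z : EndW 2) - A‖ ≤ k / 64 := by
    filter_upwards [hA.eventually (closedBall_mem_nhds A (show 0 < k / 64 by positivity))] with j hj
    rwa [dist_eq_norm] at hj
  have hAj' : ∀ᶠ j in (ult : Filter ℕ), ‖(fderiv ℝ (Ψ j) w : EndW 2) - A'‖ ≤ k / 16 := by
    filter_upwards [hA'.eventually (closedBall_mem_nhds A' (show 0 < k / 16 by positivity))] with j hj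
    rwa [dist_eq_norm] at hj
  obtain ⟨j, hj, hjA, hjA', hjs⟩ := (h.and (hAj.and (hAj'.and (hsmall (k * r / 8) (by positivity))))).exists
  obtain ⟨σ, hσ, hflat⟩ := hslice r hr0 hr1 (Ψ j) hj.line.1 ζ₀ t hζ ht
  have hσr : ‖σ‖ ≤ r := by
    calc ‖σ‖ ≤ κ * r := hσ
      _ ≤ 1 * r := by gcongr
      _ = r := one_mul r
  -- the centre of the slice
  have hq0 : cp 0 (ζ₀ + σ) = z + ![0, 0, σ] := by
    rw [hzdef]
    ext i
    fin_cases i <;> simp [cp]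
  have hσP : (![0, 0, σ] : W 2) ∈ P0 := rfl
  have hσn : ‖(![0, 0, σ] : W 2)‖ ≤ ‖σ‖ := by
    rw [pi_norm_le_iff_of_nonneg (norm_nonneg _)]
    intro i
    fin_cases i <;> simp
  have hc1 := (hnearz L (Ψ j) hj ![0, 0, σ] hσP (hσn.trans (hσr.trans hr2))).2
  rw [← hq0] at hc1
  have hq0P : cp 0 (ζ₀ + σ) ∈ P0 := cp_mem _
  have hup := hj.up _ hq0P (cp_ne _ _)
  have key := exists_zero hj.line.1.hloc (A := A) (A' := A') (ζ₀ := ζ₀) (t := t) (σ := σ) (w := w)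
    (r := r) (k := k) ht hr0 hk hkL (fun η hη => by
      have f1 := hflat η hη
      have e : (fderiv ℝ (Ψ j) (cp η (ζ₀ + t * η + σ)) : EndW 2) - A =
          (fderiv ℝ (Ψ j) (cp 0 (ζ₀ + σ)) : EndW 2) *
            (Ring.inverse (fderiv ℝ (Ψ j) (cp 0 (ζ₀ + σ)) : EndW 2) *
              fderiv ℝ (Ψ j) (cp η (ζ₀ + t * η + σ)) - 1) +
          ((fderiv ℝ (Ψ j) (cp 0 (ζ₀ + σ)) : EndW 2) - fderiv ℝ (Ψ j) z) +
          ((fderiv ℝ (Ψ j) z : EndW 2) - A) := by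
        rw [mul_sub, ← mul_assoc, Ring.mul_inverse_cancel _ (isUnit_fderiv hj.line.1.hloc (cp_ne _ _)),
          one_mul, mul_one]
        abel
      rw [e]
      have f2 : ‖(fderiv ℝ (Ψ j) (cp 0 (ζ₀ + σ)) : EndW 2) *
            (Ring.inverse (fderiv ℝ (Ψ j) (cp 0 (ζ₀ + σ)) : EndW 2) *
              fderiv ℝ (Ψ j) (cp η (ζ₀ + t * η + σ)) - 1)‖ ≤ k / 64 := by
        calc _ ≤ ‖(fderiv ℝ (Ψ j) (cp 0 (ζ₀ + σ)) : EndW 2)‖ * ‖Ring.inverse
              (fderiv ℝ (Ψ j) (cp 0 (ζ₀ + σ)) : EndW 2) *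
              fderiv ℝ (Ψ j) (cp η (ζ₀ + t * η + σ)) - 1‖ := norm_mul_le _ _
          _ ≤ K * (k / (64 * K)) := mul_le_mul hup f1 (norm_nonneg _) hK0
          _ = k / 64 := by field_simp
      refine (norm_add_le _ _).trans ?_
      have f3 := norm_add_le ((fderiv ℝ (Ψ j) (cp 0 (ζ₀ + σ)) : EndW 2) *
            (Ring.inverse (fderiv ℝ (Ψ j) (cp 0 (ζ₀ + σ)) : EndW 2) *
              fderiv ℝ (Ψ j) (cp η (ζ₀ + t * η + σ)) - 1))
            ((fderiv ℝ (Ψ j) (cp 0 (ζ₀ + σ)) : EndW 2) - fderiv ℝ (Ψ j) z)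
      linarith) (fun v hv hvn => by
      obtain ⟨g1, g2⟩ := hnearw L (Ψ j) hj v hv (hvn.trans hr3)
      refine ⟨g1, ?_⟩
      have e : (fderiv ℝ (Ψ j) (w + v) : EndW 2) - A' =
          ((fderiv ℝ (Ψ j) (w + v) : EndW 2) - fderiv ℝ (Ψ j) w) +
            ((fderiv ℝ (Ψ j) w : EndW 2) - A') := by abel
      rw [e]
      refine (norm_add_le _ _).trans ?_
      linarith) (by
      have e : Ψ j (cp 0 (ζ₀ + σ)) - Ψ j w = (Ψ j (cp 0 (ζ₀ + σ)) - Ψ j z) + (Ψ j z - Ψ j w) := by abel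
      rw [e]
      refine (norm_add_le _ _).trans ?_
      have g1 := hj.lip _ hq0P z hz
      have g2 : ‖cp 0 (ζ₀ + σ) - z‖ ≤ κ * r := by
        rw [hq0, add_sub_cancel_left]
        exact hσn.trans hσ
      have g3 : K * ‖cp 0 (ζ₀ + σ) - z‖ ≤ k / 16 * r := by
        calc K * ‖cp 0 (ζ₀ + σ) - z‖ ≤ K * (κ * r) := by gcongr
          _ = K * κ * r := by ring
          _ ≤ k / 16 * r := by gcongr
      have g4 : 0 < k * r := by positivity
      linarith)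
  obtain ⟨x, hx, hxe⟩ := key
  have hpt := hj.inj hxe
  have hw00 : w 0 = 0 := hw
  have hx0 : x 0 = 0 := by
    have := congrFun hpt 0
    simpa [cp, hw00] using this
  rw [hx0] at hpt
  have e1 : cp 0 (ζ₀ + t * 0 + σ) = cp 0 (ζ₀ + σ) := by
    congr 1
    ring
  rw [e1, hq0] at hpt
  have e2 : z - w = ![0, x 1, x 2] - ![0, 0, σ] := by
    rw [sub_eq_sub_iff_add_eq_add, hpt]
    abel
  have e3 : ‖(![0, x 1, x 2] : W 2)‖ ≤ ‖x‖ := by
    rw [pi_norm_le_iff_of_nonneg (norm_nonneg _)]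
    intro i
    fin_cases i
    · simp
    · exact norm_le_pi_norm x 1
    · exact norm_le_pi_norm x 2
  have e4 : ‖z - w‖ ≤ r + r := by
    rw [e2]
    exact (norm_sub_le _ _).trans (add_le_add (e3.trans hx) (hσn.trans hσr))
  linarith

end Pool.Agent.Lib.PJ
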