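import Pool.Agent.Lib.PJ.Main

set_option autoImplicit false

/-!
# The `p`-energy with explicit bounds

`eP p F`: the infimum over the homogeneous lifts `Φ` of `F` and the functions `a` which bound the norm of `(dΦ_x)⁻¹ ∘ D²Φ_x` of the integral of `a ^ p` over the unit ball; it is equal to `pE p F`.
`mP p F`: its infimum over the isotopy class.
-/

open MeasureTheory Set Metric Filter
open scoped ContDiff Topology ENNReal

namespace Pool.Agent.Lib.PJ

open Pool.Agent.P28b04d Pool.Agent.Lib.P28e Pool.Agent.Lib.P28c Pool.Agent.Lib.P28g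

/-- The `p`-energy of a self-map of `CP²`. -/
noncomputable def eP (p : ℝ) (F : Mat 2 → Mat 2) : ℝ≥0∞ :=
  ⨅ (Φ : W 2 → W 2) (a : W 2 → ℝ) (_ : HLoc Φ) (_ : ConnLe Φ a)
    (_ : ∀ z : W 2, z ≠ 0 → F (pt z) = pt (Φ z)),
    ∫⁻ x in ball (0 : W 2) 1, ENNReal.ofReal (a x) ^ p

theorem eP_eq {p : ℝ} (hp : 0 < p) (F : Mat 2 → Mat 2) : eP p F = pE p F := by
  apply le_antisymm
  · unfold pE
    refine le_iInf fun Φ => le_iInf fun hΦ => le_iInf fun hF => ?_
    unfold eP
    refine iInf_le_of_le Φ (iInf_le_of_le (fun x => ‖conn Φ x‖) (iInf_le_of_le hΦ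
      (iInf_le_of_le (connLe_conn hΦ) (iInf_le_of_le hF ?_))))
    unfold enP
    refine lintegral_mono fun x => ?_
    show ENNReal.ofReal ‖conn Φ x‖ ^ p ≤ ‖conn Φ x‖ₑ ^ p
    rw [ofReal_norm (conn Φ x)]
  · unfold eP
    refine le_iInf fun Φ => le_iInf fun a => le_iInf fun hΦ => le_iInf fun ha => le_iInf fun hF => ?_
    refine (pE_le hΦ hF).trans ?_
    unfold enP
    refine lintegral_mono_ae ?_
    have h0 : ∀ᵐ x : W 2 ∂(volume.restrict (ball (0 : W 2) 1)), x ≠ 0 := by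
      refine ae_restrict_of_ae ?_
      exact Measure.ae_ne volume (0 : W 2)
    filter_upwards [h0] with x hx
    rw [← ofReal_norm (conn Φ x)]
    exact ENNReal.rpow_le_rpow (ENNReal.ofReal_le_ofReal (norm_conn_le hΦ ha hx)) hp.le

/-- The infimum of the `p`-energy over the isotopy class. -/
noncomputable def mP (p : ℝ) (F : Mat 2 → Mat 2) : ℝ≥0∞ :=
  ⨅ (G : Mat 2 → Mat 2) (_ : Isotopic 2 F G), eP p G

theorem mP_eq {p : ℝ} (hp : 0 < p) (F : Mat 2 → Mat 2) : mP p F = mE p F := by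
  unfold mP mE
  simp only [eP_eq hp]

end Pool.Agent.Lib.PJ
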