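import Pool.Agent.Lib.PJ.Lin

set_option autoImplicit false

/-!
# Facts about the cones `tube δ`
-/

open MeasureTheory Set Metric Filter
open scoped ContDiff Topology ENNReal

namespace Pool.Agent.Lib.PJ

open Pool.Agent.P28b04d Pool.Agent.Lib.P28e Pool.Agent.Lib.P28c Pool.Agent.Lib.P28g
open Pool.Agent.Lib.P28f (ult)

theorem tube_smul {δ : ℝ} {c : ℂ} (hc : c ≠ 0) {z : W 2} (hz : z ∈ tube δ) : c • z ∈ tube δ := by
  refine ⟨smul_ne_zero hc hz.1, ?_⟩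
  rw [Pi.smul_apply, smul_eq_mul, map_mul, Pool.Agent.P28b04d.nsq_smul]
  have h1 : 0 < Complex.normSq c := Complex.normSq_pos.2 hc
  have h2 := hz.2
  calc Complex.normSq c * Complex.normSq (z 0) < Complex.normSq c * (δ * nsq z) := by gcongr
    _ = δ * (Complex.normSq c * nsq z) := by ring

theorem tube_smul_iff {δ : ℝ} {c : ℂ} (hc : c ≠ 0) {z : W 2} : c • z ∈ tube δ ↔ z ∈ tube δ := by
  refine ⟨fun h => ?_, tube_smul hc⟩
  have := tube_smul (inv_ne_zero hc) h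
  rwa [smul_smul, inv_mul_cancel₀ hc, one_smul] at this

theorem tube_real {δ : ℝ} {r : ℝ} (hr : r ≠ 0) {z : W 2} (hz : z ∈ tube δ) : r • z ∈ tube δ := by
  rw [Hom46.smul_real]
  exact tube_smul (by exact_mod_cast hr) hz

theorem continuous_nsq : Continuous (nsq : W 2 → ℝ) := by
  unfold nsq
  exact continuous_finset_sum _ fun k _ => Complex.continuous_normSq.comp (continuous_apply k)

theorem isOpen_tube (δ : ℝ) : IsOpen (tube δ) := by
  have h1 : IsOpen {z : W 2 | Complex.normSq (z 0) < δ * nsq z} :=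
    isOpen_lt (Complex.continuous_normSq.comp (continuous_apply 0)) (continuous_const.mul continuous_nsq)
  have h2 : tube δ = {0}ᶜ ∩ {z : W 2 | Complex.normSq (z 0) < δ * nsq z} := rfl
  rw [h2]
  exact isOpen_compl_singleton.inter h1

theorem nsq_le (z : W 2) : nsq z ≤ 3 * ‖z‖ ^ 2 := by
  have h : ∀ k, Complex.normSq (z k) ≤ ‖z‖ ^ 2 := fun k => by
    rw [Complex.normSq_eq_norm_sq]
    gcongr
    exact norm_le_pi_norm z k
  unfold nsq
  rw [Fin.sum_univ_three]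
  linarith [h 0, h 1, h 2]

theorem le_nsq (z : W 2) : ‖z‖ ^ 2 ≤ nsq z := by
  have h0 := nsq_nonneg z
  have h : ‖z‖ ≤ Real.sqrt (nsq z) := by
    rw [pi_norm_le_iff_of_nonneg (Real.sqrt_nonneg _)]
    intro k
    apply Real.le_sqrt_of_sq_le
    rw [← Complex.normSq_eq_norm_sq]
    unfold nsq
    exact Finset.single_le_sum (f := fun k => Complex.normSq (z k))
      (fun k _ => Complex.normSq_nonneg (z k)) (Finset.mem_univ k)
  calc ‖z‖ ^ 2 ≤ Real.sqrt (nsq z) ^ 2 := by gcongr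
    _ = nsq z := Real.sq_sqrt h0

theorem mem_tube_of_P0 {δ : ℝ} (hδ : 0 < δ) {z : W 2} (hz : z ∈ P0) (h0 : z ≠ 0) : z ∈ tube δ := by
  refine ⟨h0, ?_⟩
  rw [show z 0 = 0 from hz, map_zero]
  have := nsq_pos h0
  positivity

theorem tube_mono {δ δ' : ℝ} (h : δ ≤ δ') : tube δ ⊆ tube δ' := by
  intro z hz
  refine ⟨hz.1, hz.2.trans_le ?_⟩
  have := nsq_nonneg z
  gcongr

/-- The projection to `P0` of a point of a thin cone. -/
theorem tube_proj {δ ρ : ℝ} (hρ : 0 < ρ) (h1 : 3 * δ ≤ ρ ^ 2) {z : W 2} (hz : z ∈ tube δ)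
    (hzn : ‖z‖ ≤ 1) (hδ : 0 ≤ δ) : ‖z 0‖ < ρ ∧ ‖z - ![0, z 1, z 2]‖ < ρ := by
  have h2 : ‖z 0‖ ^ 2 < ρ ^ 2 := by
    rw [← Complex.normSq_eq_norm_sq]
    refine hz.2.trans_le ?_
    have h3 := nsq_le z
    have h4 : ‖z‖ ^ 2 ≤ 1 := pow_le_one₀ (norm_nonneg _) hzn
    calc δ * nsq z ≤ δ * 3 := by gcongr; linarith
      _ ≤ ρ ^ 2 := by linarith
  have h3 : ‖z 0‖ < ρ := lt_of_pow_lt_pow_left₀ 2 hρ.le h2
  refine ⟨h3, ?_⟩
  have e : z - ![0, z 1, z 2] = ![z 0, 0, 0] := by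
    ext k
    fin_cases k <;> simp
  rw [e]
  refine lt_of_le_of_lt ?_ h3
  rw [pi_norm_le_iff_of_nonneg (norm_nonneg _)]
  intro k
  fin_cases k <;> simp

theorem norm_proj_eq {z : W 2} (hz : ‖z‖ = 1) (h0 : ‖z 0‖ < 1) : ‖(![0, z 1, z 2] : W 2)‖ = 1 := by
  apply le_antisymm
  · rw [← hz, pi_norm_le_iff_of_nonneg (norm_nonneg _)]
    intro k
    fin_cases k
    · simp
    · exact norm_le_pi_norm z 1
    · exact norm_le_pi_norm z 2
  · by_contra hcon
    push Not at hcon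
    have h1 : ‖z 1‖ < 1 := lt_of_le_of_lt (norm_le_pi_norm (![0, z 1, z 2] : W 2) 1) hcon
    have h2 : ‖z 2‖ < 1 := lt_of_le_of_lt (norm_le_pi_norm (![0, z 1, z 2] : W 2) 2) hcon
    have h3 : ‖z‖ < 1 := by
      rw [pi_norm_lt_iff one_pos]
      intro k
      fin_cases k
      · exact h0
      · exact h1
      · exact h2
    linarith

theorem norm_proj_le (z : W 2) : ‖(![0, z 1, z 2] : W 2)‖ ≤ ‖z‖ := by
  rw [pi_norm_le_iff_of_nonneg (norm_nonneg _)]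
  intro k
  fin_cases k
  · simp
  · exact norm_le_pi_norm z 1
  · exact norm_le_pi_norm z 2

end Pool.Agent.Lib.PJ
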